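import Pool.Agent.VB.Top

/-!
MODULE VB/Fin.  A simple unital C*-algebra with a tracial state is stably finite.

Proof.  Let `τ` be the tracial state.  `J = {x | τ (star x * x) = 0}` is a two-sided ideal: it is closed under sums
(`star (x+y) (x+y) ≤ 2 (star x x + star y y)`, or Cauchy-Schwarz for the form `τ (star x * y)`), under multiplication from the
left (`star x star a a x ≤ ‖a‖² star x x`) and, by the trace property (`τ (star x * x) = τ (x * star x)`), under `star`,
hence also under multiplication from the right.  `1 ∉ J`, so `J = 0` by simplicity: `τ` is faithful.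
Let `v ∈ M_n(A)`, `star v * v = 1`, `q = 1 - v * star v`, a projection.  Let `T(M) = ∑ i, τ (M i i)`, which satisfies
`T (M * N) = T (N * M)`.  So `T q = T 1 - T (v * star v) = T 1 - T (star v * v) = 0`.  As `q = star q * q`,
`0 = T q = ∑ i j, τ (star (q j i) * q j i)`, all terms are nonnegative, so all `q j i = 0`, i.e. `q = 0`.
-/

namespace VB

section faithful

variable {A : Type} [CStarAlgebra A] [PartialOrder A] [StarOrderedRing A]

omit [PartialOrder A] [StarOrderedRing A] in
theorem ts_add {τ : A →ₗ[ℂ] ℂ} (hτ : IsTracialState τ) {x y : A} (hx : τ (star x * x) = 0)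
    (hy : τ (star y * y) = 0) : τ (star (x + y) * (x + y)) = 0 := by
  obtain ⟨r, hr, h1⟩ := hτ.nonneg (x + y)
  obtain ⟨r', hr', h2⟩ := hτ.nonneg (x - y)
  have h3 : star (x + y) * (x + y) + star (x - y) * (x - y) =
      star x * x + star x * x + (star y * y + star y * y) := by
    rw [star_add, star_sub]
    noncomm_ring
  have h4 := congrArg τ h3
  rw [map_add, h1, h2, map_add, map_add, map_add, hx, hy] at h4
  have h5 : r + r' = 0 := by
    have h6 : ((r + r' : ℝ) : ℂ) = 0 := by
      push_cast
      rw [h4]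
      ring
    exact_mod_cast h6
  have h7 : r = 0 := by linarith
  rw [h1, h7, Complex.ofReal_zero]

theorem ts_mul_left {τ : A →ₗ[ℂ] ℂ} (hτ : IsTracialState τ) (a : A) {x : A}
    (hx : τ (star x * x) = 0) : τ (star (a * x) * (a * x)) = 0 := by
  have h0 : star a * a ≤ algebraMap ℝ A (‖a‖ ^ 2) := CStarAlgebra.star_mul_le_algebraMap_norm_sq
  obtain ⟨b, hb⟩ := CStarAlgebra.nonneg_iff_eq_star_mul_self.1 (sub_nonneg.2 h0)
  obtain ⟨r, hr, h1⟩ := hτ.nonneg (a * x)
  obtain ⟨r', hr', h2⟩ := hτ.nonneg (b * x)
  have h3 : star (a * x) * (a * x) + star (b * x) * (b * x) =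
      ((‖a‖ ^ 2 : ℝ) : ℂ) • (star x * x) := by
    have h4 : star (b * x) * (b * x) = star x * (star b * b) * x := by
      rw [star_mul]
      simp only [mul_assoc]
    have h5 : star (a * x) * (a * x) = star x * (star a * a) * x := by
      rw [star_mul]
      simp only [mul_assoc]
    rw [h4, h5, ← hb, ← add_mul, ← mul_add, add_sub_cancel, ← Algebra.commutes, mul_assoc,
      Algebra.algebraMap_eq_smul_one, smul_mul_assoc, one_mul]
    rw [Complex.coe_smul]
  have h4 := congrArg τ h3
  rw [map_add, h1, h2, map_smul, hx, smul_zero] at h4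
  have h5 : r + r' = 0 := by exact_mod_cast h4
  have h7 : r = 0 := by linarith
  rw [h1, h7, Complex.ofReal_zero]

omit [PartialOrder A] [StarOrderedRing A] in
theorem ts_star {τ : A →ₗ[ℂ] ℂ} (hτ : IsTracialState τ) {x : A}
    (hx : τ (star x * x) = 0) : τ (star (star x) * star x) = 0 := by
  rw [star_star, hτ.trace, hx]

theorem ts_mul_right {τ : A →ₗ[ℂ] ℂ} (hτ : IsTracialState τ) (a : A) {x : A}
    (hx : τ (star x * x) = 0) : τ (star (x * a) * (x * a)) = 0 := by
  have h1 := ts_star hτ (ts_mul_left hτ (star a) (ts_star hτ hx))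
  rwa [star_mul, star_star, star_star] at h1

/-- a tracial state of a simple C*-algebra is faithful -/
theorem ts_faithful (hA : IsSimpleRing A) {τ : A →ₗ[ℂ] ℂ} (hτ : IsTracialState τ) {x : A}
    (hx : τ (star x * x) = 0) : x = 0 := by
  let J : TwoSidedIdeal A := TwoSidedIdeal.mk' {x | τ (star x * x) = 0} (by simp)
    (fun {x y} hx hy => ts_add hτ hx hy) (fun {x} hx => by simpa using hx)
    (fun {a x} hx => ts_mul_left hτ a hx) (fun {x a} hx => ts_mul_right hτ a hx)
  have hJ : ∀ y, y ∈ J ↔ τ (star y * y) = 0 := fun y => TwoSidedIdeal.mem_mk' _ _ _ _ _ _ y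
  rcases hA.simple.eq_bot_or_eq_top J with h | h
  · have h1 : x ∈ J := (hJ x).2 hx
    rw [h] at h1
    simpa using h1
  · have h1 : (1 : A) ∈ J := by
      rw [h]
      trivial
    rw [hJ, star_one, mul_one, hτ.one] at h1
    exact absurd h1 one_ne_zero

end faithful

theorem stably_finite_of_simple {A : Type} [CStarAlgebra A] [PartialOrder A] [StarOrderedRing A]
    (hA : IsSimpleRing A) (τ : A →ₗ[ℂ] ℂ) (hτ : IsTracialState τ) : StablyFinite A := by
  intro n v hv
  have hT : ∀ M N : CStarMatrix (Fin n) (Fin n) A,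
      ∑ i, τ ((M * N) i i) = ∑ i, τ ((N * M) i i) := by
    intro M N
    simp only [CStarMatrix.mul_apply, map_sum]
    rw [Finset.sum_comm]
    refine Finset.sum_congr rfl fun i _ => Finset.sum_congr rfl fun j _ => ?_
    rw [hτ.trace]
  have hq1 : star (1 - v * star v) = 1 - v * star v := by
    rw [star_sub, star_one, star_mul, star_star]
  have hq2 : star (1 - v * star v) * (1 - v * star v) = 1 - v * star v := by
    rw [hq1]
    have h1 : v * star v * (v * star v) = v * star v := by
      rw [mul_assoc, ← mul_assoc (star v) v, hv, one_mul]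
    rw [mul_sub, sub_mul, sub_mul, one_mul, mul_one, one_mul, h1, sub_self, sub_zero]
  set q := 1 - v * star v with hq
  have hq3 : ∑ i, τ (q i i) = 0 := by
    have h1 : ∀ i, τ (q i i) = τ ((1 : CStarMatrix (Fin n) (Fin n) A) i i) -
        τ ((v * star v) i i) := by
      intro i
      rw [hq, CStarMatrix.sub_apply, map_sub]
    rw [Finset.sum_congr rfl fun i _ => h1 i, Finset.sum_sub_distrib, hT v (star v), hv, sub_self]
  have hq4 : ∀ i, q i i = ∑ j, star (q j i) * q j i := by
    intro i
    conv_lhs => rw [← hq2]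
    rw [CStarMatrix.mul_apply]
    refine Finset.sum_congr rfl fun j _ => ?_
    rw [CStarMatrix.star_apply]
  choose R hR0 hR using fun (i j : Fin n) => hτ.nonneg (q j i)
  have hq5 : ∑ i, ∑ j, R i j = 0 := by
    have h1 : ((∑ i, ∑ j, R i j : ℝ) : ℂ) = 0 := by
      rw [← hq3]
      push_cast
      refine Finset.sum_congr rfl fun i _ => ?_
      rw [hq4, map_sum]
      exact Finset.sum_congr rfl fun j _ => (hR i j).symm
    exact_mod_cast h1
  have hq6 : ∀ i j, q j i = 0 := by
    intro i j
    have h1 := (Finset.sum_eq_zero_iff_of_nonneg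
      (fun i _ => Finset.sum_nonneg fun j _ => hR0 i j)).1 hq5 i (Finset.mem_univ i)
    have h2 := (Finset.sum_eq_zero_iff_of_nonneg (fun j _ => hR0 i j)).1 h1 j (Finset.mem_univ j)
    refine ts_faithful hA hτ ?_
    rw [hR, h2, Complex.ofReal_zero]
  have hq7 : q = 0 := by
    refine CStarMatrix.ext fun i j => ?_
    rw [hq6 j i, CStarMatrix.zero_apply]
  exact (sub_eq_zero.1 hq7).symm

end VB
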