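import Pool.Agent.VB.CDefs

/-!
MODULE VB/Iso.  The connecting maps are isometric, and the building blocks are separable.

Proofs.  `conn_norm`: by `NonUnitalStarAlgHom.norm_map` it is enough that `st.conn x` is injective: choose any
`c : st.Cp`; for a point `(z, e)` let `z'` be the point of `st.next.X` with `z' (inl (c', s)) = z s`
(and anything at the other places); the block `inl c` of `st.conn x f (z', e)` is `f (z, e)`.
`alg_separable`: `C(K, E)` is second countable for compact metrizable `K` and second countable `E`
(`ContinuousMap` instance `SecondCountableTopology C(X, Y)` for the compact open topology), and so are its subsets.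
`limit_separable`: the union of the countably many separable sets `Set.range (D.ι n)` is dense.
-/

open scoped Matrix.Norms.L2Operator

namespace VB

private theorem iso_conn_injective (st : Stage) (x : st.X) : Function.Injective (st.conn x) := by
  intro f g hfg
  apply Subtype.ext
  ext p : 1
  obtain ⟨z, e⟩ := p
  have c0 : st.Cp := (true, st.root, fun _ => true)
  let z' : st.next.X := fun s => match s with
    | Sum.inl (_, s) => z s
    | Sum.inr _ => ⟨EuclideanSpace.single 0 1, by simp⟩
  have h1 : (st.conn x f).1 (z', e) = (st.conn x g).1 (z', e) := by rw [hfg]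
  rw [st.conn_apply, st.conn_apply] at h1
  have h2 := Matrix.blockDiagonal_injective h1
  exact congrFun h2 (Sum.inl c0)

private theorem iso_alg_norm_map (s t : Stage) (g : s.Alg →⋆ₐ[ℂ] t.Alg) (hg : Function.Injective g)
    (f : s.Alg) : ‖g f‖ = ‖f‖ :=
  NonUnitalStarAlgHom.norm_map g hg f

theorem conn_norm (st : Stage) (x : st.X) (f : st.Alg) : ‖st.conn x f‖ = ‖f‖ :=
  iso_alg_norm_map st st.next (st.conn x) (iso_conn_injective st x) f

theorem alg_separable (st : Stage) : TopologicalSpace.SeparableSpace st.Alg := by
  have h1 : SecondCountableTopology (Matrix st.I st.I ℂ) :=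
    inferInstanceAs (SecondCountableTopology (st.I → st.I → ℂ))
  have h2 : SecondCountableTopology C(st.X × Bool, Matrix st.I st.I ℂ) := inferInstance
  have h3 : SecondCountableTopology st.Alg :=
    TopologicalSpace.Subtype.secondCountableTopology _
  infer_instance

theorem limit_separable {A : ℕ → Type} [∀ n, CStarAlgebra (A n)]
    {φ : ∀ n, A n →⋆ₐ[ℂ] A (n + 1)} {L : Type} [CStarAlgebra L] (D : LimitData A φ L)
    (h : ∀ n, TopologicalSpace.SeparableSpace (A n)) : TopologicalSpace.SeparableSpace L := by
  have h1 : ∀ n, TopologicalSpace.IsSeparable (Set.range (D.ι n)) := by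
    intro n
    have : Continuous (D.ι n) :=
      (AddMonoidHomClass.isometry_of_norm (D.ι n) (D.isom n)).continuous
    exact TopologicalSpace.isSeparable_range this
  have h2 : TopologicalSpace.IsSeparable (⋃ n, Set.range (D.ι n)) :=
    TopologicalSpace.IsSeparable.iUnion h1
  have h3 := h2.closure
  rw [D.dense.closure_eq] at h3
  exact TopologicalSpace.isSeparable_univ_iff.1 h3

end VB
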