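import Pool.Agent.VB.CDefs

/-!
MODULE VB/Pts.  Existence of a good sequence of evaluation points.

Proof.  Let `lift : st.X → st.next.X`, `lift z (inl (c, s)) = z s`, `lift z (inr _) = base point` (any point of
`S3`), so `st.proj c (lift z) = z` for all `c`.  For `n ≤ m` let `liftTo : (stg n).X → (stg m).X` be
`Nat.leRecOn` of `lift`.  For each `n` let `d n : ℕ → (stg n).X` be a dense sequence
(`(stg n).X` is a separable space, nonempty).  Put `x m = liftTo (d n j)` where `(n, j) = Nat.unpair m`, `n ≤ m`
(`Nat.unpair_left_le`).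
Claim (for every sequence `x`, by induction on `m ≥ n`, `Nat.le_induction`): for `y : (stg n).X` there is `V` with
`Vᴴ V = 1` and `(iter (bconn x) h f).1 (liftTo y, e) * V = V * f.1 (y, e)` for all `f`, `e`.
Step: with a fixed `c` let `W : Matrix st.next.I st.I ℂ`, `W (i, k) j = if i = j ∧ k = inl c then 1 else 0`;
then `Wᴴ W = 1` and `(st.conn x g).1 (lift z, e) * W = W * g.1 (z, e)` (block diagonal matrices),
so `W * V` works for `m + 1`.
Given `n` and a nonempty open set `U`, there is `j` with `d n j ∈ U`; take `m = Nat.pair n j`, `y = d n j`.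
-/

open scoped Matrix.Norms.L2Operator

namespace VB

/-- A point of the three sphere. -/
noncomputable def basePt : S3 := ⟨EuclideanSpace.single 0 1, by simp⟩

/-- A lift of a point to the space of the next stage. -/
noncomputable def liftPt (st : Stage) (z : st.X) : st.next.X := fun s =>
  match s with
  | Sum.inl (_, s) => z s
  | Sum.inr _ => basePt

theorem exists_W (st : Stage) : ∃ W : Matrix st.next.I st.I ℂ, W.conjTranspose * W = 1 ∧
    ∀ (x z : st.X) (g : st.Alg) (e : Bool),
      (st.conn x g).1 (liftPt st z, e) * W = W * g.1 (z, e) := by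
  classical
  obtain ⟨c⟩ : Nonempty st.Cp := inferInstance
  refine ⟨Matrix.of fun p j => if p.1 = j ∧ p.2 = Sum.inl c then (1 : ℂ) else 0, ?_, ?_⟩
  · ext i j
    rw [Matrix.mul_apply, Fintype.sum_prod_type]
    simp only [Matrix.conjTranspose_apply, Matrix.of_apply]
    rw [Finset.sum_eq_single i, Finset.sum_eq_single (Sum.inl c)]
    · by_cases h : i = j
      · subst h; simp
      · simp [h]
    · intro k _ hk
      simp [hk]
    · intro h
      exact absurd (Finset.mem_univ _) h
    · intro a _ ha
      refine Finset.sum_eq_zero fun k _ => ?_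
      simp [ha]
    · intro h
      exact absurd (Finset.mem_univ _) h
  · intro x z g e
    ext p j
    obtain ⟨a, k⟩ := p
    rw [Matrix.mul_apply, Matrix.mul_apply, st.conn_apply, Fintype.sum_prod_type]
    simp only [Matrix.blockDiagonal_apply, Matrix.of_apply]
    rw [Finset.sum_eq_single j, Finset.sum_eq_single (Sum.inl c)]
    · by_cases hk : k = Sum.inl c
      · subst hk
        rw [Finset.sum_eq_single a]
        · simp only [if_true, and_self, mul_one, one_mul]
          rfl
        · intro b _ hb
          simp [Ne.symm hb]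
        · intro h
          exact absurd (Finset.mem_univ _) h
      · rw [Finset.sum_eq_zero]
        · simp [hk]
        · intro b _
          simp [hk]
    · intro k' _ hk'
      simp [hk']
    · intro h
      exact absurd (Finset.mem_univ _) h
    · intro b _ hb
      refine Finset.sum_eq_zero fun k' _ => ?_
      simp [hb]
    · intro h
      exact absurd (Finset.mem_univ _) h

/-- Iterated lifts. -/
noncomputable def liftTo {n m : ℕ} (h : n ≤ m) : (stg n).X → (stg m).X :=
  Nat.leRecOn (C := fun k => (stg k).X) h (fun {k} => liftPt (stg k))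

theorem liftTo_self {n : ℕ} (y : (stg n).X) : liftTo (le_refl n) y = y :=
  Nat.leRecOn_self (C := fun k => (stg k).X) y

theorem liftTo_succ {n m : ℕ} (h : n ≤ m) (h' : n ≤ m + 1) (y : (stg n).X) :
    liftTo h' y = liftPt (stg m) (liftTo h y) :=
  Nat.leRecOn_succ (C := fun k => (stg k).X) (next := fun {k} => liftPt (stg k)) h y

theorem exists_V (x : ∀ n, (stg n).X) {n m : ℕ} (h : n ≤ m) (y : (stg n).X) :
    ∃ V : Matrix (stg m).I (stg n).I ℂ, V.conjTranspose * V = 1 ∧
      ∀ (f : BA n) (e : Bool), (iter (bconn x) h f).1 (liftTo h y, e) * V = V * f.1 (y, e) := by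
  induction m, h using Nat.le_induction with
  | base =>
    refine ⟨1, by simp, fun f e => ?_⟩
    rw [iter_self, liftTo_self, Matrix.mul_one, Matrix.one_mul]
  | succ m h ih =>
    obtain ⟨V, hV, hf⟩ := ih
    obtain ⟨W, hW, hg⟩ := exists_W (stg m)
    refine ⟨(W * V : Matrix (stg m).next.I (stg n).I ℂ), ?_, fun f e => ?_⟩
    · show (W * V).conjTranspose * (W * V) = 1
      rw [Matrix.conjTranspose_mul, Matrix.mul_assoc, ← Matrix.mul_assoc _ W V, hW,
        Matrix.one_mul, hV]
    · rw [iter_succ (bconn x) h, liftTo_succ h]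
      show ((stg m).conn (x m) (iter (bconn x) h f)).1 (liftPt (stg m) (liftTo h y), e) *
        (W * V) = (W * V) * f.1 (y, e)
      rw [← Matrix.mul_assoc, hg, Matrix.mul_assoc, hf, Matrix.mul_assoc]

/-- The sequence of evaluation points. -/
noncomputable def ptSeq (d : ∀ n, ℕ → (stg n).X) (m : ℕ) : (stg m).X :=
  liftTo (Nat.unpair_left_le m) (d (Nat.unpair m).1 (Nat.unpair m).2)

theorem ptSeq_eq (d : ∀ n, ℕ → (stg n).X) {n j m : ℕ} (h : Nat.unpair m = (n, j)) :
    ∃ h : n ≤ m, ptSeq d m = liftTo h (d n j) := by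
  have h1 : (Nat.unpair m).1 = n := by rw [h]
  have h2 : (Nat.unpair m).2 = j := by rw [h]
  subst h1 h2
  exact ⟨Nat.unpair_left_le m, rfl⟩

theorem exists_goodPts : ∃ x : ∀ n, (stg n).X, GoodPts x := by
  have : ∀ n, Nonempty (stg n).X := fun n => ⟨fun _ => basePt⟩
  let d : ∀ n, ℕ → (stg n).X := fun n => TopologicalSpace.denseSeq (stg n).X
  refine ⟨ptSeq d, fun n U hU hne => ?_⟩
  obtain ⟨j, hj⟩ := (TopologicalSpace.denseRange_denseSeq (stg n).X).exists_mem_open hU hne
  obtain ⟨h, hx⟩ := ptSeq_eq d (Nat.unpair_pair n j)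
  refine ⟨Nat.pair n j, h, d n j, hj, ?_⟩
  rw [hx]
  exact exists_V (ptSeq d) h (d n j)

end VB
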