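import Pool.Agent.VB.NCa

/-!
MODULE VB/NCb.  Counting trivial rows along the sequence of stages.

Proof.  `conn_dg`: block diagonal matrix with constant blocks.
`iter_dg`: `iter (bconn x) (dg (R0 0)) = dg (R0 n)` by induction (`Nat.le_induction` / `iter_succ`).
`counts`: by induction.  Rows of `st.next` with `rc = none`: `(i, inl c)` with `rc i = none` and
`(i, inr (none, s))`.  So with `a, b` the numbers of trivial rows in `R` and outside `R`, and `u, w` the numbers of all
rows in `R` and outside `R`: `a' = card Cp * a + 2 u`, `b' = card Cp * b + 2 w`, `u' = card K * u`,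
`w' = card K * w`.  Invariant: `w = 3 u`, `b < a`.  Since `card Cp ≥ 2 * card I = 2 (u + w) = 8 u` and `u ≥ 1`:
`a' - b' ≥ card Cp - 4 u > 0`.
`limit_no_compare`: combine with `no_compare` at stage `n`.
-/

open scoped Matrix.Norms.L2Operator

namespace VB

/-- The rows lying over the root of the initial stage. -/
def R0 : (n : ℕ) → (stg n).I → Bool
  | 0 => fun i : Option (Fin 3) => i.isNone
  | n + 1 => fun i : (stg n).I × (stg n).K => R0 n i.1

theorem conn_dg (st : Stage) (x : st.X) (R : st.I → Bool) :
    st.conn x (st.dg R) = st.next.dg (fun i : st.I × st.K => R i.1) := by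
  apply Subtype.ext
  ext p : 1
  rw [st.conn_apply]
  show Matrix.blockDiagonal (fun _ : st.K =>
    Matrix.diagonal fun i => if R i = true then (1 : ℂ) else 0) =
    Matrix.diagonal fun i : st.I × st.K => if R i.1 = true then (1 : ℂ) else 0
  exact Matrix.blockDiagonal_diagonal _

theorem iter_dg (x : ∀ n, (stg n).X) (n : ℕ) :
    iter (bconn x) (Nat.zero_le n) ((stg 0).dg (R0 0)) = (stg n).dg (R0 n) := by
  induction n with
  | zero => exact iter_self _ _
  | succ n ih =>
    rw [iter_succ (bconn x) (Nat.zero_le n) (Nat.zero_le (n + 1)), ih]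
    exact conn_dg (stg n) (x n) (R0 n)

theorem iter_dg' (x : ∀ n, (stg n).X) (n : ℕ) :
    iter (bconn x) (Nat.zero_le n) ((stg 0).dg (fun i => !(R0 0 i))) =
      (stg n).dg (fun i => !(R0 n i)) := by
  induction n with
  | zero => exact iter_self _ _
  | succ n ih =>
    rw [iter_succ (bconn x) (Nat.zero_le n) (Nat.zero_le (n + 1)), ih]
    exact conn_dg (stg n) (x n) (fun i => !(R0 n i))

theorem card_triv_next (st : Stage) (R : st.I → Bool) (e : Bool) :
    (Finset.univ.filter fun i : st.I × st.K => st.nextRc i = none ∧ R i.1 = e).card =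
      Fintype.card st.Cp * (Finset.univ.filter fun i => st.rc i = none ∧ R i = e).card +
      2 * (Finset.univ.filter fun i => R i = e).card := by
  have h1 : (Finset.univ.filter fun i : st.I × st.K => st.nextRc i = none ∧ R i.1 = e) =
    ((Finset.univ.filter fun i => st.rc i = none ∧ R i = e) ×ˢ
      (Finset.univ : Finset st.Cp).map ⟨Sum.inl, Sum.inl_injective⟩) ∪
    ((Finset.univ.filter fun i => R i = e) ×ˢ
      (Finset.univ : Finset Bool).map
        ⟨fun s => (Sum.inr (none, s) : st.K), fun a b h => by simpa using h⟩) := by
    ext ⟨i, c | ⟨_ | c, s⟩⟩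
    · simp [Stage.nextRc]
    · simp [Stage.nextRc]
    · simp [Stage.nextRc]
  rw [h1, Finset.card_union_of_disjoint, Finset.card_product, Finset.card_product,
    Finset.card_map, Finset.card_map]
  · simp [mul_comm]
  · rw [Finset.disjoint_left]
    rintro ⟨i, k⟩ hk hk'
    simp only [Finset.mem_product, Finset.mem_map, Finset.mem_univ, true_and,
      Function.Embedding.coeFn_mk] at hk hk'
    obtain ⟨-, c, rfl⟩ := hk
    obtain ⟨-, s, hs⟩ := hk'
    simp at hs

theorem card_all_next (st : Stage) (R : st.I → Bool) (e : Bool) :
    (Finset.univ.filter fun i : st.I × st.K => R i.1 = e).card =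
      Fintype.card st.K * (Finset.univ.filter fun i => R i = e).card := by
  have h1 : (Finset.univ.filter fun i : st.I × st.K => R i.1 = e) =
    (Finset.univ.filter fun i => R i = e) ×ˢ (Finset.univ : Finset st.K) := by
    ext ⟨i, k⟩; simp
  rw [h1, Finset.card_product, Finset.card_univ, mul_comm]

theorem two_card_le (st : Stage) : 2 * Fintype.card st.I ≤ Fintype.card st.Cp := by
  have h : Fintype.card st.Cp = 2 * (Fintype.card st.I * Fintype.card (st.S → Bool)) := by
    show Fintype.card (Bool × st.I × (st.S → Bool)) = _
    rw [Fintype.card_prod, Fintype.card_prod, Fintype.card_bool]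
  rw [h]
  have h2 : 0 < Fintype.card (st.S → Bool) := Fintype.card_pos
  have := Nat.le_mul_of_pos_right (Fintype.card st.I) h2
  omega

theorem counts_aux (n : ℕ) :
    (Finset.univ.filter fun i => R0 n i = false).card =
      3 * (Finset.univ.filter fun i => R0 n i = true).card ∧
    0 < (Finset.univ.filter fun i => R0 n i = true).card ∧
    (Finset.univ.filter fun i => (stg n).rc i = none ∧ R0 n i = false).card <
      (Finset.univ.filter fun i => (stg n).rc i = none ∧ R0 n i = true).card := by
  induction n with
  | zero =>
    show (Finset.univ.filter fun i : Option (Fin 3) => i.isNone = false).card =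
      3 * (Finset.univ.filter fun i : Option (Fin 3) => i.isNone = true).card ∧
      0 < (Finset.univ.filter fun i : Option (Fin 3) => i.isNone = true).card ∧
      (Finset.univ.filter fun i : Option (Fin 3) => id i = none ∧ i.isNone = false).card <
      (Finset.univ.filter fun i : Option (Fin 3) => id i = none ∧ i.isNone = true).card
    decide
  | succ n ih =>
    obtain ⟨h1, h2, h3⟩ := ih
    have c1 := card_all_next (stg n) (R0 n) false
    have c2 := card_all_next (stg n) (R0 n) true
    have c3 := card_triv_next (stg n) (R0 n) false
    have c4 := card_triv_next (stg n) (R0 n) true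
    have hK : 0 < Fintype.card (stg n).K := Fintype.card_pos_iff.mpr ⟨Sum.inr (none, true)⟩
    have hI : Fintype.card (stg n).I =
      (Finset.univ.filter fun i => R0 n i = true).card +
      (Finset.univ.filter fun i => R0 n i = false).card := by
      rw [← Finset.card_univ, ← Finset.card_filter_add_card_filter_not
        (s := Finset.univ) (fun i => R0 n i = true)]
      simp
    have hC := two_card_le (stg n)
    have e1 : (Finset.univ.filter fun i => R0 (n + 1) i = false).card =
      Fintype.card (stg n).K * (Finset.univ.filter fun i => R0 n i = false).card := c1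
    have e2 : (Finset.univ.filter fun i => R0 (n + 1) i = true).card =
      Fintype.card (stg n).K * (Finset.univ.filter fun i => R0 n i = true).card := c2
    have e3 : (Finset.univ.filter fun i => (stg (n + 1)).rc i = none ∧
      R0 (n + 1) i = false).card = _ := c3
    have e4 : (Finset.univ.filter fun i => (stg (n + 1)).rc i = none ∧
      R0 (n + 1) i = true).card = _ := c4
    rw [e1, e2, e3, e4]
    refine ⟨by rw [h1]; ring, Nat.mul_pos hK h2, ?_⟩
    set a := (Finset.univ.filter fun i => (stg n).rc i = none ∧ R0 n i = true).card
    set b := (Finset.univ.filter fun i => (stg n).rc i = none ∧ R0 n i = false).card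
    set u := (Finset.univ.filter fun i => R0 n i = true).card
    set w := (Finset.univ.filter fun i => R0 n i = false).card
    have h4 : Fintype.card (stg n).Cp * (b + 1) ≤ Fintype.card (stg n).Cp * a :=
      Nat.mul_le_mul_left _ h3
    have h5 : Fintype.card (stg n).Cp * (b + 1) =
      Fintype.card (stg n).Cp * b + Fintype.card (stg n).Cp := by ring
    omega

theorem counts (n : ℕ) :
    (Finset.univ.filter fun i => (stg n).rc i = none ∧ R0 n i = false).card <
      (Finset.univ.filter fun i => (stg n).rc i = none ∧ R0 n i = true).card :=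
  (counts_aux n).2.2

theorem limit_no_compare (x : ∀ n, (stg n).X) (n : ℕ) (v : BA n) :
    1 ≤ ‖v * iter (bconn x) (Nat.zero_le n) ((stg 0).dg (fun i => !(R0 0 i))) * star v -
      iter (bconn x) (Nat.zero_le n) ((stg 0).dg (R0 0))‖ := by
  rw [iter_dg, iter_dg']
  exact no_compare (stg n) (R0 n) (counts n) v

end VB
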