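import Pool.Agent.VB.QtB
import Pool.Agent.VB.NCb

/-!
MODULE VB/RcL.  Positive radius of comparison of the limit algebra.

Proof.  It suffices to show that `HasComparison L r` with `0 ≤ r < 1/5` is impossible (then every `r` in the
infimum is `≥ 1/5`).  Let `a = D.ι 0 ((stg 0).dg (R0 0))`, `b = D.ι 0 ((stg 0).dg (!R0 0))`, projections of `L`;
`m1 a`, `m1 b` are positive.  By `dtau_proj` and `gap`, `dtau t (m1 a) + r < dtau t (m1 b)` for all `t`.  So there are
`v k ∈ M_1(L)` with `v k * m1 b * star (v k) → m1 a`, hence `w ∈ L` with `‖w * b * star w - a‖ < 1`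
(the entry map `M_1(L) → L` is a continuous star homomorphism).  By density approximate `w` by `D.ι n w'`, `w' ∈ BA n`, keeping
`‖D.ι n w' * b * star (D.ι n w') - a‖ < 1`.  Since `b = D.ι n (iter b0)`, `a = D.ι n (iter a0)` (`LimitData.iter`) and `D.ι n` is
isometric this contradicts `limit_no_compare`.
-/

open scoped Matrix.Norms.L2Operator

namespace VB

theorem m1_mul {L : Type} [CStarAlgebra L] [PartialOrder L] [StarOrderedRing L] (a b : L) :
    m1 a * m1 b = m1 (a * b) := by
  ext i j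
  rw [CStarMatrix.mul_apply, Fin.sum_univ_one]
  rfl

theorem m1_star {L : Type} [CStarAlgebra L] [PartialOrder L] [StarOrderedRing L] (a : L) :
    star (m1 a) = m1 (star a) := by
  ext i j
  rw [CStarMatrix.star_apply]
  rfl

theorem entry_close {L : Type} [CStarAlgebra L] [PartialOrder L] [StarOrderedRing L] (a b : L)
    (h : CuntzLE (m1 a) (m1 b)) : ∃ w : L, ‖w * b * star w - a‖ < 1 := by
  obtain ⟨v, hv⟩ := h
  have h1 : ∀ᶠ k in Filter.atTop, dist (v k * m1 b * star (v k)) (m1 a) < 1 :=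
    Metric.tendsto_nhds.1 hv 1 one_pos
  obtain ⟨k, hk⟩ := h1.exists
  rw [dist_eq_norm] at hk
  refine ⟨v k 0 0, lt_of_le_of_lt ?_ hk⟩
  have h2 := CStarMatrix.norm_entry_le_norm (M := v k * m1 b * star (v k) - m1 a)
    (i := 0) (j := 0)
  have h3 : (v k * m1 b * star (v k) - m1 a) 0 0 = v k 0 0 * b * star (v k 0 0) - a := by
    rw [CStarMatrix.sub_apply, CStarMatrix.mul_apply, Fin.sum_univ_one, CStarMatrix.mul_apply,
      Fin.sum_univ_one, CStarMatrix.star_apply]
    rfl
  rw [h3] at h2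
  exact h2

theorem dg_star (st : Stage) (R : st.I → Bool) : star (st.dg R) = st.dg R := by
  apply Subtype.ext
  ext p : 1
  show (Matrix.diagonal fun i => if R i = true then (1 : ℂ) else 0).conjTranspose =
    Matrix.diagonal fun i => if R i = true then (1 : ℂ) else 0
  rw [Matrix.diagonal_conjTranspose]
  congr 1
  funext i
  show star (if R i = true then (1 : ℂ) else 0) = if R i = true then (1 : ℂ) else 0
  split_ifs <;> simp

theorem dg_mul_self (st : Stage) (R : st.I → Bool) : st.dg R * st.dg R = st.dg R := by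
  apply Subtype.ext
  ext p : 1
  show (Matrix.diagonal fun i => if R i = true then (1 : ℂ) else 0) *
    (Matrix.diagonal fun i => if R i = true then (1 : ℂ) else 0) =
    Matrix.diagonal fun i => if R i = true then (1 : ℂ) else 0
  rw [Matrix.diagonal_mul_diagonal]
  congr 1
  funext i
  split_ifs <;> simp

theorem not_comparison (x : ∀ n, (stg n).X) {L : Type} [CStarAlgebra L] [PartialOrder L]
    [StarOrderedRing L] (D : LimitData BA (bconn x) L) (r : ℝ) (hr : r < 1 / 5) :
    ¬ HasComparison L r := by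
  intro hc
  have a1 : star (D.ι 0 ((stg 0).dg (R0 0))) = D.ι 0 ((stg 0).dg (R0 0)) := by
    rw [← map_star, dg_star]
  have a2 : D.ι 0 ((stg 0).dg (R0 0)) * D.ι 0 ((stg 0).dg (R0 0)) = D.ι 0 ((stg 0).dg (R0 0)) := by
    rw [← map_mul, dg_mul_self]
  have b1 : star (D.ι 0 ((stg 0).dg (fun i => !(R0 0 i)))) =
      D.ι 0 ((stg 0).dg (fun i => !(R0 0 i))) := by
    rw [← map_star, dg_star]
  have b2 : D.ι 0 ((stg 0).dg (fun i => !(R0 0 i))) * D.ι 0 ((stg 0).dg (fun i => !(R0 0 i))) =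
      D.ι 0 ((stg 0).dg (fun i => !(R0 0 i))) := by
    rw [← map_mul, dg_mul_self]
  have g : ∀ t : QTrace L, (t.τ 1 (m1 (D.ι 0 ((stg 0).dg (R0 0))))).re ≤ 2 / 5 ∧
      3 / 5 ≤ (t.τ 1 (m1 (D.ι 0 ((stg 0).dg (fun i => !(R0 0 i)))))).re := fun t => gap (D.ι 0) t
  set a : L := D.ι 0 ((stg 0).dg (R0 0)) with ha
  set b : L := D.ι 0 ((stg 0).dg (fun i => !(R0 0 i))) with hb
  have pa : IsPos (m1 a) := ⟨m1 a, by rw [m1_star, m1_mul, a1, a2]⟩
  have pb : IsPos (m1 b) := ⟨m1 b, by rw [m1_star, m1_mul, b1, b2]⟩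
  have hle : CuntzLE (m1 a) (m1 b) := by
    refine hc 1 (m1 a) (m1 b) pa pb fun t => ?_
    rw [dtau_proj t 1 (m1 a) (by rw [m1_star, a1]) (by rw [m1_mul, a2]),
      dtau_proj t 1 (m1 b) (by rw [m1_star, b1]) (by rw [m1_mul, b2])]
    have := g t
    linarith [this.1, this.2]
  obtain ⟨w, hw⟩ := entry_close a b hle
  have hopen : IsOpen {w : L | ‖w * b * star w - a‖ < 1} := by
    refine isOpen_lt ?_ continuous_const
    exact (((continuous_id.mul continuous_const).mul continuous_star).sub continuous_const).norm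
  obtain ⟨w', hw', hw2⟩ := D.dense.inter_open_nonempty _ hopen ⟨w, hw⟩
  obtain ⟨n, hn⟩ := Set.mem_iUnion.1 hw2
  obtain ⟨u, rfl⟩ := hn
  have h1 : ‖D.ι n u * b * star (D.ι n u) - a‖ < 1 := hw'
  have h2 := limit_no_compare x n u
  rw [← D.isom n, map_sub, map_mul, map_mul, map_star, D.iter, D.iter] at h2
  exact absurd h1 (not_lt.2 h2)

theorem limit_rc (x : ∀ n, (stg n).X) {L : Type} [CStarAlgebra L] [PartialOrder L]
    [StarOrderedRing L] (D : LimitData BA (bconn x) L) : (1 / 5 : ENNReal) ≤ rc L := by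
  refine le_iInf fun r => le_iInf fun hr => ?_
  by_contra hlt
  have h1 : (r : ENNReal) < 1 / 5 := not_le.1 hlt
  have h2 : (r : ℝ) < 1 / 5 := by
    have h3 := (ENNReal.toReal_lt_toReal ENNReal.coe_ne_top (by simp)).2 h1
    simpa using h3
  exact not_comparison x D r h2 hr

end VB
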