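import Pool.Agent.VB.Defs

/-!
MODULE VB/Ext.  Extension of compatible families of maps to the limit.
-/

namespace VB

variable {A : ℕ → Type} [∀ n, CStarAlgebra (A n)] {φ : ∀ n, A n →⋆ₐ[ℂ] A (n + 1)}
  {L : Type} [CStarAlgebra L]

theorem ext_iter {E : Type} [AddCommGroup E] [Module ℂ E] (T : ∀ n, A n →ₗ[ℂ] E)
    (hc : ∀ n a, T (n + 1) (φ n a) = T n a) {n m : ℕ} (h : n ≤ m) (a : A n) :
    T m (iter φ h a) = T n a := by
  induction m, h using Nat.le_induction with
  | base => rw [iter_self]
  | succ m h ih => rw [iter_succ φ h, hc, ih]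

theorem ext_wd (D : LimitData A φ L) {E : Type} [AddCommGroup E] [Module ℂ E]
    (T : ∀ n, A n →ₗ[ℂ] E) (hc : ∀ n a, T (n + 1) (φ n a) = T n a) {n m : ℕ} (a : A n) (b : A m)
    (h : D.ι n a = D.ι m b) : T n a = T m b := by
  have key : ∀ {n m : ℕ} (_ : n ≤ m) (a : A n) (b : A m), D.ι n a = D.ι m b → T n a = T m b := by
    intro n m hnm a b h
    have h1 : D.ι m (iter φ hnm a - b) = 0 := by
      rw [map_sub, D.iter, h, sub_self]
    have h2 : iter φ hnm a - b = 0 := by
      rw [← norm_eq_zero, ← D.isom m, h1, norm_zero]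
    rw [← ext_iter T hc hnm a, sub_eq_zero.1 h2]
  rcases le_total n m with hnm | hnm
  · exact key hnm a b h
  · exact (key hnm b a h.symm).symm

/-- The union of the building blocks. -/
def unionSub (D : LimitData A φ L) : Submodule ℂ L where
  carrier := ⋃ n, Set.range (D.ι n)
  add_mem' := by
    intro u v hu hv
    obtain ⟨n, a, rfl⟩ := Set.mem_iUnion.1 hu
    obtain ⟨m, b, rfl⟩ := Set.mem_iUnion.1 hv
    refine Set.mem_iUnion.2 ⟨max n m, iter φ (le_max_left n m) a + iter φ (le_max_right n m) b, ?_⟩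
    rw [map_add, D.iter, D.iter]
  zero_mem' := Set.mem_iUnion.2 ⟨0, 0, map_zero _⟩
  smul_mem' := by
    intro c u hu
    obtain ⟨n, a, rfl⟩ := Set.mem_iUnion.1 hu
    exact Set.mem_iUnion.2 ⟨n, c • a, map_smul _ _ _⟩

theorem unionSub_spec (D : LimitData A φ L) (u : unionSub D) :
    ∃ p : Σ n, A n, D.ι p.1 p.2 = (u : L) := by
  obtain ⟨n, a, h⟩ := Set.mem_iUnion.1 u.2
  exact ⟨⟨n, a⟩, h⟩

/-- The linear map on the union. -/
noncomputable def unionMap (D : LimitData A φ L) {E : Type} [AddCommGroup E] [Module ℂ E]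
    (T : ∀ n, A n →ₗ[ℂ] E) (hc : ∀ n a, T (n + 1) (φ n a) = T n a) : unionSub D →ₗ[ℂ] E where
  toFun u := T (Classical.choose (unionSub_spec D u)).1 (Classical.choose (unionSub_spec D u)).2
  map_add' := by
    intro u v
    have hu := Classical.choose_spec (unionSub_spec D u)
    have hv := Classical.choose_spec (unionSub_spec D v)
    have huv := Classical.choose_spec (unionSub_spec D (u + v))
    set p := Classical.choose (unionSub_spec D u)
    set q := Classical.choose (unionSub_spec D v)
    set r := Classical.choose (unionSub_spec D (u + v))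
    have h1 : D.ι r.1 r.2 = D.ι (max p.1 q.1) (iter φ (le_max_left p.1 q.1) p.2 +
        iter φ (le_max_right p.1 q.1) q.2) := by
      rw [huv, map_add, D.iter, D.iter, hu, hv]; rfl
    rw [ext_wd D T hc _ _ h1, map_add, ext_iter T hc, ext_iter T hc]
  map_smul' := by
    intro c u
    have hu := Classical.choose_spec (unionSub_spec D u)
    have huv := Classical.choose_spec (unionSub_spec D (c • u))
    set p := Classical.choose (unionSub_spec D u)
    set r := Classical.choose (unionSub_spec D (c • u))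
    have h1 : D.ι r.1 r.2 = D.ι p.1 (c • p.2) := by
      rw [huv, map_smul, hu]; rfl
    rw [ext_wd D T hc _ _ h1, map_smul]; rfl

theorem unionMap_apply (D : LimitData A φ L) {E : Type} [AddCommGroup E] [Module ℂ E]
    (T : ∀ n, A n →ₗ[ℂ] E) (hc : ∀ n a, T (n + 1) (φ n a) = T n a) (u : unionSub D) {n : ℕ}
    (a : A n) (h : D.ι n a = (u : L)) : unionMap D T hc u = T n a := by
  refine ext_wd D T hc _ _ ?_
  rw [h]
  exact Classical.choose_spec (unionSub_spec D u)

theorem extend_linear (D : LimitData A φ L) {E : Type} [NormedAddCommGroup E] [NormedSpace ℂ E]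
    [CompleteSpace E] (T : ∀ n, A n →ₗ[ℂ] E) (C : ℝ) (hb : ∀ n a, ‖T n a‖ ≤ C * ‖a‖)
    (hc : ∀ n a, T (n + 1) (φ n a) = T n a) :
    ∃ F : L →L[ℂ] E, ∀ n a, F (D.ι n a) = T n a := by
  have hd : DenseRange (unionSub D).subtype := by
    have h := D.dense
    have h2 : Set.range (unionSub D).subtype = ⋃ n, Set.range (D.ι n) := by
      rw [← LinearMap.coe_range, Submodule.range_subtype]; rfl
    rw [DenseRange, h2]
    exact h
  have hn : ∃ C, ∀ u : unionSub D, ‖unionMap D T hc u‖ ≤ C * ‖(unionSub D).subtype u‖ := by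
    refine ⟨C, fun u => ?_⟩
    obtain ⟨p, hp⟩ := unionSub_spec D u
    rw [unionMap_apply D T hc u p.2 hp]
    refine (hb _ _).trans ?_
    rw [← D.isom, hp]; rfl
  refine ⟨(unionMap D T hc).extendOfNorm (unionSub D).subtype, fun n a => ?_⟩
  have h := LinearMap.extendOfNorm_eq hd hn ⟨D.ι n a, Set.mem_iUnion.2 ⟨n, a, rfl⟩⟩
  rw [unionMap_apply D T hc ⟨D.ι n a, _⟩ a rfl] at h
  exact h

theorem dense_sigma (D : LimitData A φ L) : DenseRange fun p : Σ n, A n => D.ι p.1 p.2 := by
  have h := D.dense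
  have h2 : Set.range (fun p : Σ n, A n => D.ι p.1 p.2) = ⋃ n, Set.range (D.ι n) := by
    ext u
    simp only [Set.mem_range, Sigma.exists, Set.mem_iUnion]
  rw [DenseRange, h2]
  exact h

theorem extend_auto (D : LimitData A φ L) (β : ∀ n, A n ≃⋆ₐ[ℂ] A n)
    (hc : ∀ n a, φ n (β n a) = β (n + 1) (φ n a)) :
    ∃ B : L ≃⋆ₐ[ℂ] L, ∀ n a, B (D.ι n a) = D.ι n (β n a) := by
  have hnorm : ∀ (n : ℕ) (γ : A n ≃⋆ₐ[ℂ] A n) (a : A n), ‖γ a‖ = ‖a‖ := fun n γ a =>
    StarAlgEquiv.norm_map γ a
  have hc' : ∀ n a, φ n ((β n).symm a) = (β (n + 1)).symm (φ n a) := by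
    intro n a
    have h := hc n ((β n).symm a)
    rw [StarAlgEquiv.apply_symm_apply] at h
    rw [h, StarAlgEquiv.symm_apply_apply]
  let T : ∀ n, A n →ₗ[ℂ] L := fun n =>
    { toFun := fun a => D.ι n (β n a)
      map_add' := fun a b => by rw [map_add, map_add]
      map_smul' := fun c a => by rw [map_smul, map_smul]; rfl }
  let T' : ∀ n, A n →ₗ[ℂ] L := fun n =>
    { toFun := fun a => D.ι n ((β n).symm a)
      map_add' := fun a b => by rw [map_add, map_add]
      map_smul' := fun c a => by rw [map_smul, map_smul]; rfl }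
  obtain ⟨F, hF⟩ := extend_linear D T 1 (fun n a => by
    rw [one_mul]; exact le_of_eq ((D.isom _ _).trans (hnorm n _ a))) (fun n a => by
    show D.ι (n + 1) (β (n + 1) (φ n a)) = D.ι n (β n a)
    rw [← hc, D.comp])
  obtain ⟨F', hF'⟩ := extend_linear D T' 1 (fun n a => by
    rw [one_mul]; exact le_of_eq ((D.isom _ _).trans (hnorm n _ a))) (fun n a => by
    show D.ι (n + 1) ((β (n + 1)).symm (φ n a)) = D.ι n ((β n).symm a)
    rw [← hc', D.comp])
  have hF1 : ∀ n a, F (D.ι n a) = D.ι n (β n a) := hF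
  have hF2 : ∀ n a, F' (D.ι n a) = D.ι n ((β n).symm a) := hF'
  have hdn := dense_sigma D
  have h1 : ∀ u, F' (F u) = u := by
    refine isClosed_property hdn (isClosed_eq (F'.continuous.comp F.continuous) continuous_id) ?_
    rintro ⟨n, a⟩
    show F' (F (D.ι n a)) = D.ι n a
    rw [hF1, hF2, StarAlgEquiv.symm_apply_apply]
  have h2 : ∀ u, F (F' u) = u := by
    refine isClosed_property hdn (isClosed_eq (F.continuous.comp F'.continuous) continuous_id) ?_
    rintro ⟨n, a⟩
    show F (F' (D.ι n a)) = D.ι n a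
    rw [hF2, hF1, StarAlgEquiv.apply_symm_apply]
  have hmul : ∀ u v, F (u * v) = F u * F v := by
    refine isClosed_property2 hdn (isClosed_eq (F.continuous.comp
      (continuous_fst.mul continuous_snd)) ((F.continuous.comp continuous_fst).mul
        (F.continuous.comp continuous_snd))) ?_
    rintro ⟨n, a⟩ ⟨m, b⟩
    show F (D.ι n a * D.ι m b) = F (D.ι n a) * F (D.ι m b)
    rw [← D.iter (le_max_left n m) a, ← D.iter (le_max_right n m) b, ← map_mul, hF1, hF1, hF1,
      map_mul, map_mul]
  have hstar : ∀ u, F (star u) = star (F u) := by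
    refine isClosed_property hdn (isClosed_eq (F.continuous.comp continuous_star)
      (continuous_star.comp F.continuous)) ?_
    rintro ⟨n, a⟩
    show F (star (D.ι n a)) = star (F (D.ι n a))
    rw [← map_star, hF1, hF1, map_star, map_star]
  exact ⟨{ toFun := F
           invFun := F'
           left_inv := h1
           right_inv := h2
           map_mul' := hmul
           map_add' := fun u v => map_add F u v
           map_star' := hstar
           map_smul' := fun c u => map_smul F c u }, hF1⟩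

end VB
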