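import Pool.Agent.VB.CDefs
import Pool.Agent.VB.Ext

/-!
MODULE VB/Rok.  The Rokhlin action of the group with two elements; Rokhlin implies weak tracial Rokhlin.

Proof.  `extend_auto` with `β n = (stg n).flip` (`conn_flip`) gives `B : L ≃⋆ₐ[ℂ] L` with `B (D.ι n a) = D.ι n (flip a)`.  `B (B a) = a`
on the dense union, hence everywhere (`B` is continuous, being isometric).  The action of
`Multiplicative (ZMod 2)`: `toFun g = B` if `g ≠ 1`, the identity otherwise.
Rokhlin property: for finite `F` and `ε > 0` choose (by density, and because the ranges increase) `n` and for all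
`a ∈ F` elements `a' ∈ BA n` with `‖D.ι n a' - a‖ < ε / 2`.  Let `p ∈ BA n` be the central projection `p (z, e) = 1` if `e = false`,
`p (z, true) = 0`; `flip p = 1 - p`; put `e 1 = D.ι n p`, `e g = D.ι n (1 - p)` for `g ≠ 1`.  `p` commutes with `a'`, so
`‖e a - a e‖ ≤ 2 ‖a - D.ι n a'‖ < ε`.
`weak_of_rokhlin`: take `f = e`; the sum is `1`, `1 - 1 = 0` is Cuntz below everything (`v = 0`) and `‖1 * x * 1‖ = 1 > 1 - ε`;
projections are positive (`e = star e * e`) of norm at most one.
-/

open scoped Matrix.Norms.L2Operator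

namespace VB

theorem Rok_norm_proj {A : Type} [CStarAlgebra A] (e : A) (h1 : star e = e) (h2 : e * e = e) :
    ‖e‖ ≤ 1 := by
  have h : ‖e‖ * ‖e‖ = ‖e‖ := by
    rw [← CStarRing.norm_star_mul_self, h1, h2]
  nlinarith [norm_nonneg e]

/-- The central projection onto the first sheet. -/
noncomputable def Stage.sheet (st : Stage) : st.Alg :=
  ⟨⟨fun q => if q.2 = false then (1 : Matrix st.I st.I ℂ) else 0, by
    have h : Continuous fun b : Bool => if b = false then (1 : Matrix st.I st.I ℂ) else 0 :=
      continuous_of_discreteTopology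
    exact h.comp continuous_snd⟩, by
    intro l z e i j
    show (if e = false then (1 : Matrix st.I st.I ℂ) else 0) i j =
      _ * (if e = false then (1 : Matrix st.I st.I ℂ) else 0) i j
    split_ifs
    · rcases eq_or_ne i j with hij | hij
      · subst hij; simp
      · simp [Matrix.one_apply_ne hij]
    · simp⟩

theorem Stage.sheet_apply (st : Stage) (q : st.X × Bool) :
    st.sheet.1 q = if q.2 = false then (1 : Matrix st.I st.I ℂ) else 0 := rfl

theorem Stage.sheet_star (st : Stage) : star st.sheet = st.sheet := by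
  apply Subtype.ext
  ext q : 1
  show (if q.2 = false then (1 : Matrix st.I st.I ℂ) else 0).conjTranspose =
    if q.2 = false then (1 : Matrix st.I st.I ℂ) else 0
  split_ifs <;> simp

theorem Stage.sheet_sq (st : Stage) : st.sheet * st.sheet = st.sheet := by
  apply Subtype.ext
  ext q : 1
  show (if q.2 = false then (1 : Matrix st.I st.I ℂ) else 0) *
    (if q.2 = false then (1 : Matrix st.I st.I ℂ) else 0) =
    if q.2 = false then (1 : Matrix st.I st.I ℂ) else 0
  split_ifs <;> simp

theorem Stage.sheet_comm (st : Stage) (f : st.Alg) : st.sheet * f = f * st.sheet := by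
  apply Subtype.ext
  ext q : 1
  show (if q.2 = false then (1 : Matrix st.I st.I ℂ) else 0) * f.1 q =
    f.1 q * (if q.2 = false then (1 : Matrix st.I st.I ℂ) else 0)
  split_ifs <;> simp

theorem Stage.sheet_flip (st : Stage) : st.flip st.sheet = 1 - st.sheet := by
  apply Subtype.ext
  ext q : 1
  show (if (!q.2) = false then (1 : Matrix st.I st.I ℂ) else 0) =
    1 - (if q.2 = false then (1 : Matrix st.I st.I ℂ) else 0)
  cases q.2 <;> simp

theorem Rok_approx {A : ℕ → Type} [∀ n, CStarAlgebra (A n)] {φ : ∀ n, A n →⋆ₐ[ℂ] A (n + 1)}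
    {L : Type} [CStarAlgebra L] (D : LimitData A φ L) (F : Finset L) (δ : ℝ) (hδ : 0 < δ) :
    ∃ n, ∀ a ∈ F, ∃ a' : A n, ‖a - D.ι n a'‖ < δ := by
  classical
  induction F using Finset.induction_on with
  | empty => exact ⟨0, by simp⟩
  | insert b F _ ih =>
    obtain ⟨n, hn⟩ := ih
    obtain ⟨c, hc, hbc⟩ := Metric.mem_closure_iff.mp (D.dense b) δ hδ
    obtain ⟨m, hm⟩ := Set.mem_iUnion.mp hc
    obtain ⟨c', rfl⟩ := hm
    refine ⟨max n m, ?_⟩
    intro a ha
    rcases Finset.mem_insert.mp ha with h | h
    · subst h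
      refine ⟨VB.iter φ (le_max_right n m) c', ?_⟩
      rw [D.iter, ← dist_eq_norm]
      exact hbc
    · obtain ⟨a', ha'⟩ := hn a h
      refine ⟨VB.iter φ (le_max_left n m) a', ?_⟩
      rw [D.iter]
      exact ha'

theorem limit_rokhlin (x : ∀ n, (stg n).X) {L : Type} [CStarAlgebra L]
    (D : LimitData BA (bconn x) L) :
    ∃ α : Action (Multiplicative (ZMod 2)) L, HasRokhlin α := by
  obtain ⟨B, hB⟩ := extend_auto D (fun n => (stg n).flip)
    (fun n a => (stg n).conn_flip (x n) a)
  have hBc : Continuous B := by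
    have h : ∀ a, ‖B a‖ = ‖a‖ := fun a =>
      NonUnitalStarAlgHom.norm_map (B : L →⋆ₙₐ[ℂ] L) B.injective a
    exact (AddMonoidHomClass.isometry_of_norm B h).continuous
  have hBB : ∀ a, B (B a) = a := by
    have h : (fun a => B (B a)) = fun a => a := by
      refine Continuous.ext_on D.dense (hBc.comp hBc) continuous_id ?_
      intro a ha
      obtain ⟨n, hn⟩ := Set.mem_iUnion.mp ha
      obtain ⟨a', rfl⟩ := hn
      show B (B (D.ι n a')) = D.ι n a'
      rw [hB, hB]
      congr 1
      exact (stg n).flip_flip a'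
    exact fun a => congrFun h a
  have hG : ∀ g : Multiplicative (ZMod 2), g = 1 ∨ g = Multiplicative.ofAdd 1 := by decide
  have h10 : (Multiplicative.ofAdd (1 : ZMod 2)) ≠ 1 := by decide
  have h11 : (Multiplicative.ofAdd (1 : ZMod 2)) * Multiplicative.ofAdd 1 = 1 := by decide
  let α : Action (Multiplicative (ZMod 2)) L :=
    { toFun := fun g => if g = 1 then StarAlgEquiv.refl ℂ L else B
      one := by intro a; simp
      mul := by
        intro g h a
        rcases hG g with rfl | rfl <;> rcases hG h with rfl | rfl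
        · simp
        · simp [h10]
        · simp [h10]
        · rw [h11, if_pos rfl, if_neg h10, hBB]
          rfl }
  have hα1 : ∀ a, α.toFun 1 a = a := α.one
  have hα2 : ∀ a, α.toFun (Multiplicative.ofAdd 1) a = B a := by
    intro a
    show (if (Multiplicative.ofAdd (1 : ZMod 2)) = 1 then StarAlgEquiv.refl ℂ L else B) a = B a
    rw [if_neg h10]
  refine ⟨α, ?_⟩
  intro F ε hε
  obtain ⟨n, hn⟩ := Rok_approx D F (ε / 2) (by positivity)
  set p : BA n := (stg n).sheet with hp
  have hps : star p = p := (stg n).sheet_star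
  have hpp : p * p = p := (stg n).sheet_sq
  have hpc : ∀ f : BA n, p * f = f * p := (stg n).sheet_comm
  have hpf : (stg n).flip p = 1 - p := (stg n).sheet_flip
  set P : L := D.ι n p with hP
  have hPs : star P = P := by rw [hP, ← map_star, hps]
  have hPP : P * P = P := by rw [hP, ← map_mul, hpp]
  have hPc : ∀ f : BA n, P * D.ι n f = D.ι n f * P := by
    intro f
    rw [hP, ← map_mul, ← map_mul, hpc]
  have hBP : B P = 1 - P := by
    rw [hP, hB, hpf, map_sub, map_one]
  have hBP' : B (1 - P) = P := by
    rw [map_sub, hBP, map_one]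
    abel
  refine ⟨fun g => if g = 1 then P else 1 - P, ?_, ?_, ?_, ?_, ?_⟩
  · intro g
    rcases hG g with rfl | rfl
    · simp only [if_true]
      exact ⟨hPs, hPP⟩
    · simp only [h10, if_false]
      refine ⟨?_, ?_⟩
      · rw [star_sub, star_one, hPs]
      · rw [mul_sub, sub_mul, sub_mul, hPP]
        simp
  · intro g h hgh
    rcases hG g with rfl | rfl <;> rcases hG h with rfl | rfl
    · exact absurd rfl hgh
    · simp only [h10, if_false, if_true]
      rw [mul_sub, hPP, mul_one, sub_self]
    · simp only [h10, if_false, if_true]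
      rw [sub_mul, hPP, one_mul, sub_self]
    · exact absurd rfl hgh
  · have hu : (Finset.univ : Finset (Multiplicative (ZMod 2))) =
        {1, Multiplicative.ofAdd (1 : ZMod 2)} := by decide
    rw [hu, Finset.sum_pair h10.symm]
    simp only [h10, if_false, if_true]
    abel
  · intro g h
    rcases hG g with rfl | rfl <;> rcases hG h with rfl | rfl
    · simp only [hα1, one_mul, if_true, sub_self, norm_zero]
      exact hε
    · simp only [hα1, one_mul, sub_self, norm_zero]
      exact hε
    · rw [hα2, mul_one]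
      simp only [h10, if_false, if_true]
      rw [hBP, sub_self, norm_zero]
      exact hε
    · rw [hα2, h11]
      simp only [h10, if_false, if_true]
      rw [hBP', sub_self, norm_zero]
      exact hε
  · intro g a ha
    obtain ⟨a', ha'⟩ := hn a ha
    have hPn : ‖P‖ ≤ 1 := Rok_norm_proj P hPs hPP
    have key : ‖P * a - a * P‖ < ε := by
      have e1 : P * a - a * P = P * (a - D.ι n a') - (a - D.ι n a') * P := by
        rw [mul_sub, sub_mul, hPc]
        abel
      rw [e1]
      calc ‖P * (a - D.ι n a') - (a - D.ι n a') * P‖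
          ≤ ‖P * (a - D.ι n a')‖ + ‖(a - D.ι n a') * P‖ := norm_sub_le _ _
        _ ≤ ‖P‖ * ‖a - D.ι n a'‖ + ‖a - D.ι n a'‖ * ‖P‖ :=
          add_le_add (norm_mul_le _ _) (norm_mul_le _ _)
        _ ≤ 1 * ‖a - D.ι n a'‖ + ‖a - D.ι n a'‖ * 1 := by gcongr
        _ < ε := by linarith
    rcases hG g with rfl | rfl
    · simp only [if_true]
      exact key
    · simp only [h10, if_false]
      have e2 : (1 - P) * a - a * (1 - P) = -(P * a - a * P) := by
        rw [mul_sub, sub_mul, one_mul, mul_one]
        abel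
      rw [e2, norm_neg]
      exact key

theorem weak_of_rokhlin {G A : Type} [Group G] [Fintype G] [CStarAlgebra A] (α : Action G A)
    (h : HasRokhlin α) : HasWeakTracialRokhlin α := by
  intro F ε x hε hx hx1
  obtain ⟨e, h1, h2, h3, h4, h5⟩ := h F ε hε
  refine ⟨e, ?_, h2, h4, h5, ?_, ?_⟩
  · intro g
    refine ⟨⟨e g, ?_⟩, Rok_norm_proj _ (h1 g).1 (h1 g).2⟩
    rw [(h1 g).1, (h1 g).2]
  · rw [h3, sub_self]
    refine ⟨fun _ => 0, ?_⟩
    simp
  · rw [h3, one_mul, mul_one, hx1]
    linarith

end VB
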