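import Pool.Agent.VB.Full

/-!
MODULE VB/Simp.  The limit algebra is simple.

Proof.  It suffices to show: for every `a ≠ 0` in `L` there are finitely many `y k ∈ L` such that
`∑ k, star (y k) * (star a * a) * y k` is invertible (then a two-sided ideal containing `a` contains `1`; use
`TwoSidedIdeal`/`RingCon` API for `IsSimpleRing`; `L` is nontrivial because `BA 0` is nontrivial and `D.ι 0` is
isometric and unital).  Scale so that `‖a‖ = 1`.  By density choose `n` and
`b ∈ BA n` with `‖D.ι n b - a‖` so small that `‖star a * a - D.ι n (star b * b)‖ < 1/8`; then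
`‖b‖^2 = ‖star b * b‖ > 7/8`.  The norm of `b` is the supremum of the operator norms of the matrices `b.1 (z, e)`,
so there are `z0`, `e0` and a unit vector `ξ` with `‖b.1 (z0, e0) ξ‖^2 > 7/8`, and by continuity
`‖b.1 (y, e0) ξ‖^2 > 3/4` for `y` in an open neighbourhood `U` of `z0`.  By `hx` there are `m ≥ n`, `y ∈ U` and an
isometry `V` with `(iter b)(x m, e0) V = V b(y, e0)`.  Put `η = V ξ`, a unit vector, `h = star (iter b) * iter b`.
Then `c := ⟨η, h (x m, e0) η⟩ = ‖b.1 (y, e0) ξ‖^2 > 3/4`.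
`full_vec` gives `y k ∈ BA (m+1)` with `∑ star (y k) y k = 1` and `∑ star (y k) * bconn x m h * y k = c • 1`.
In `L`, with `d = star a * a - D.ι n (star b * b)` self adjoint of norm `< 1/8`,
`‖∑ star (y k) * d * y k‖ ≤ 1/8`
(for self adjoint `d`: `-‖d‖ ≤ d ≤ ‖d‖`, so `± ∑ star (y k) * d * y k ≤ ‖d‖ ∑ star (y k) * y k = ‖d‖`; use
`CStarAlgebra.spectralOrder` as local instance; or note that the column `(y k)` is an isometry in a matrix algebra).
So `∑ star (y k) * (star a * a) * y k` is within `1/8` of `c • 1`, `c > 3/4`, hence invertible.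
-/

open scoped Matrix.Norms.L2Operator ComplexConjugate

namespace VB

/-- A self adjoint element between `-r` and `r` has norm at most `r`. -/
theorem norm_le_of_between {L : Type} [CStarAlgebra L] [PartialOrder L] [StarOrderedRing L]
    {s : L} (hs : IsSelfAdjoint s) {r : ℝ} (hr : 0 ≤ r) (h1 : s ≤ algebraMap ℝ L r)
    (h2 : -(algebraMap ℝ L r) ≤ s) : ‖s‖ ≤ r := by
  rcases subsingleton_or_nontrivial L with h | h
  · rw [Subsingleton.elim s 0, norm_zero]
    exact hr
  rcases CStarAlgebra.norm_or_neg_norm_mem_spectrum hs with h3 | h3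
  · exact (le_algebraMap_iff_spectrum_le (a := s) (r := r)).mp h1 _ h3
  · have h4 : algebraMap ℝ L (-r) ≤ s := by
      rw [map_neg]
      exact h2
    have h5 := (algebraMap_le_iff_le_spectrum (a := s) (r := -r)).mp h4 _ h3
    linarith

/-- Compression by a column of elements with `∑ star (y k) * y k = 1` does not increase the norm of
a self adjoint element. -/
theorem norm_compress_le {L : Type} [CStarAlgebra L] {κ : Type} [Fintype κ] (y : κ → L)
    (hy : ∑ k, star (y k) * y k = 1) (d : L) (hd : IsSelfAdjoint d) :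
    ‖∑ k, star (y k) * d * y k‖ ≤ ‖d‖ := by
  let _ := CStarAlgebra.spectralOrder L
  have _ := CStarAlgebra.spectralOrderedRing L
  have hc : ∀ c : ℝ, ∑ k, star (y k) * algebraMap ℝ L c * y k = algebraMap ℝ L c := by
    intro c
    have h1 : ∀ k, star (y k) * algebraMap ℝ L c * y k = algebraMap ℝ L c * (star (y k) * y k) := by
      intro k
      rw [← Algebra.commutes c (star (y k)), mul_assoc]
    rw [Finset.sum_congr rfl fun k _ => h1 k, ← Finset.mul_sum, hy, mul_one]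
  apply norm_le_of_between
  · unfold IsSelfAdjoint
    rw [star_sum]
    refine Finset.sum_congr rfl fun k _ => ?_
    rw [star_mul, star_mul, star_star, hd.star_eq, mul_assoc]
  · exact norm_nonneg _
  · calc ∑ k, star (y k) * d * y k ≤ ∑ k, star (y k) * algebraMap ℝ L ‖d‖ * y k :=
          Finset.sum_le_sum fun k _ =>
            star_left_conjugate_le_conjugate hd.le_algebraMap_norm_self _
      _ = _ := hc _
  · calc -(algebraMap ℝ L ‖d‖) = ∑ k, star (y k) * (-(algebraMap ℝ L ‖d‖)) * y k := by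
          have h1 := hc (-‖d‖)
          rw [map_neg] at h1
          exact h1.symm
      _ ≤ ∑ k, star (y k) * d * y k :=
          Finset.sum_le_sum fun k _ =>
            star_left_conjugate_le_conjugate hd.neg_algebraMap_norm_le_self _

theorem star_mulVec_dot {m n : Type} [Fintype m] [Fintype n] [DecidableEq n] (A : Matrix m n ℂ)
    (h : A.conjTranspose * A = 1) (v : n → ℂ) :
    star (A.mulVec v) ⬝ᵥ (A.mulVec v) = star v ⬝ᵥ v := by
  rw [Matrix.star_mulVec, ← Matrix.dotProduct_mulVec, Matrix.mulVec_mulVec, h, Matrix.one_mulVec]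

theorem exists_big_vec {I : Type} [Fintype I] [DecidableEq I] (M : Matrix I I ℂ) {r : ℝ}
    (hr0 : 0 ≤ r) (hr : r < ‖M‖) :
    ∃ ξ : I → ℂ, ∑ i, conj (ξ i) * ξ i = 1 ∧ r ^ 2 < ∑ i, ‖M.mulVec ξ i‖ ^ 2 := by
  rw [Matrix.l2_opNorm_def] at hr
  obtain ⟨v, hv1, hv2⟩ := ContinuousLinearMap.exists_lt_apply_of_lt_opNorm _ hr
  have hv0 : 0 < ‖v‖ := by
    rw [norm_pos_iff]
    rintro rfl
    rw [map_zero, norm_zero] at hv2
    linarith
  refine ⟨fun i => ((‖v‖⁻¹ : ℝ) : ℂ) * v i, ?_, ?_⟩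
  · have h1 : ∀ i, conj (((‖v‖⁻¹ : ℝ) : ℂ) * v i) * (((‖v‖⁻¹ : ℝ) : ℂ) * v i) =
        (((‖v‖ ^ 2)⁻¹ * ‖v i‖ ^ 2 : ℝ) : ℂ) := by
      intro i
      rw [← Complex.normSq_eq_conj_mul_self, Complex.normSq_eq_norm_sq, norm_mul,
        Complex.norm_real, norm_inv, norm_norm, mul_pow, inv_pow]
    simp only [h1]
    rw [← Complex.ofReal_sum, ← Finset.mul_sum, ← EuclideanSpace.norm_sq_eq,
      inv_mul_cancel₀ (by positivity), Complex.ofReal_one]
  · have h2 : r ^ 2 < ∑ i, ‖M.mulVec v i‖ ^ 2 := by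
      have h3 := pow_lt_pow_left₀ hv2 hr0 (n := 2) (by norm_num)
      rw [EuclideanSpace.norm_sq_eq] at h3
      exact h3
    have h4 : M.mulVec (fun i => ((‖v‖⁻¹ : ℝ) : ℂ) * v i) =
        fun i => ((‖v‖⁻¹ : ℝ) : ℂ) * M.mulVec v i := by
      have h5 := Matrix.mulVec_smul M ((‖v‖⁻¹ : ℝ) : ℂ) (fun i => v i)
      exact h5
    rw [h4]
    have h6 : ∀ i, ‖((‖v‖⁻¹ : ℝ) : ℂ) * M.mulVec v i‖ ^ 2 =
        (‖v‖ ^ 2)⁻¹ * ‖M.mulVec v i‖ ^ 2 := by
      intro i
      rw [norm_mul, Complex.norm_real, norm_inv, norm_norm, mul_pow, inv_pow]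
    simp only [h6]
    rw [← Finset.mul_sum]
    have h7 : 1 ≤ (‖v‖ ^ 2)⁻¹ := by
      rw [one_le_inv₀ (by positivity)]
      exact pow_le_one₀ hv0.le hv1.le
    have h8 : 0 ≤ ∑ i, ‖M.mulVec v i‖ ^ 2 := Finset.sum_nonneg fun i _ => by positivity
    calc r ^ 2 < ∑ i, ‖M.mulVec v i‖ ^ 2 := h2
      _ ≤ _ := le_mul_of_one_le_left h8 h7

theorem full_vec' (x : ∀ n, (stg n).X) (m : ℕ) (e0 : Bool) (η : (stg m).I → ℂ)
    (hη : ∑ i, conj (η i) * η i = 1) :
    ∃ (κ : Type) (_ : Fintype κ) (y : κ → BA (m + 1)),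
      ∑ k, star (y k) * y k = 1 ∧
      ∀ h : BA m, ∑ k, star (y k) * bconn x m h * y k =
        (∑ i, ∑ j, conj (η i) * h.1 (x m, e0) i j * η j) • (1 : BA (m + 1)) :=
  full_vec (stg m) (x m) e0 η hη

/-- The main step: compressing `star a * a` to an invertible element. -/
theorem exists_unit (x : ∀ n, (stg n).X) (hx : GoodPts x) {L : Type} [CStarAlgebra L]
    (D : LimitData BA (bconn x) L) (a : L) (ha : ‖a‖ = 1) :
    ∃ (κ : Type) (_ : Fintype κ) (Y : κ → L),
      IsUnit (∑ k, star (Y k) * (star a * a) * Y k) := by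
  -- approximation of `a`
  obtain ⟨b', hb', hab⟩ := Metric.mem_closure_iff.mp (D.dense a) (1 / 32) (by norm_num)
  obtain ⟨_, ⟨n, rfl⟩, ⟨b, rfl⟩⟩ := hb'
  rw [dist_eq_norm] at hab
  set b' := D.ι n b with hb'
  have hbn : ‖b'‖ = ‖b‖ := D.isom n b
  have hb1 : ‖b'‖ ≤ 33 / 32 := by
    have h1 : ‖b'‖ ≤ ‖b' - a‖ + ‖a‖ := by
      have := norm_add_le (b' - a) a
      rwa [sub_add_cancel] at this
    rw [norm_sub_rev] at h1
    linarith
  have hb2 : 31 / 32 ≤ ‖b'‖ := by
    have h1 : ‖a‖ ≤ ‖a - b'‖ + ‖b'‖ := by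
      have := norm_add_le (a - b') b'
      rwa [sub_add_cancel] at this
    linarith
  set d := star a * a - star b' * b' with hd
  have hdsa : IsSelfAdjoint d := (IsSelfAdjoint.star_mul_self a).sub (IsSelfAdjoint.star_mul_self b')
  have hdn : ‖d‖ < 1 / 8 := by
    have h1 : d = star a * (a - b') + star (a - b') * b' := by
      rw [hd, star_sub]
      noncomm_ring
    have h2 : ‖star a * (a - b')‖ ≤ 1 * (1 / 32) := by
      refine (norm_mul_le _ _).trans ?_
      rw [norm_star, ha]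
      linarith
    have h3 : ‖star (a - b') * b'‖ ≤ 1 / 32 * (33 / 32) := by
      refine (norm_mul_le _ _).trans ?_
      rw [norm_star]
      exact mul_le_mul hab.le hb1 (norm_nonneg _) (by norm_num)
    rw [h1]
    calc _ ≤ _ := norm_add_le _ _
      _ ≤ 1 * (1 / 32) + 1 / 32 * (33 / 32) := add_le_add h2 h3
      _ < 1 / 8 := by norm_num
  -- a point where `b` is large
  have hpt : ∃ p : (stg n).X × Bool, (15 / 16 : ℝ) < ‖b.1 p‖ := by
    by_contra hcon
    push Not at hcon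
    have h1 : ‖b.1‖ ≤ 15 / 16 := (ContinuousMap.norm_le _ (by norm_num)).mpr hcon
    have h2 : ‖b‖ = ‖b.1‖ := rfl
    rw [hbn, h2] at hb2
    linarith
  obtain ⟨⟨z0, e0⟩, hz0⟩ := hpt
  -- a vector
  obtain ⟨ξ, hξ1, hξ2⟩ := exists_big_vec (b.1 (z0, e0)) (by norm_num) hz0
  -- a good point
  set U : Set (stg n).X := {y | (7 / 8 : ℝ) < ∑ i, ‖(b.1 (y, e0)).mulVec ξ i‖ ^ 2} with hU
  have hUo : IsOpen U := by
    refine isOpen_lt continuous_const ?_
    refine continuous_finsetSum _ fun i _ => ?_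
    refine (Continuous.norm ?_).pow 2
    have h1 : Continuous fun y : (stg n).X => (b.1 (y, e0)).mulVec ξ :=
      (b.1.continuous.comp (continuous_id.prodMk continuous_const)).matrix_mulVec continuous_const
    exact (continuous_apply i).comp h1
  have hz0U : z0 ∈ U := by
    show (7 / 8 : ℝ) < _
    refine lt_trans ?_ hξ2
    norm_num
  obtain ⟨m, hnm, y, hyU, V, hV, hVint⟩ := hx n U hUo ⟨z0, hz0U⟩
  set β : BA m := iter (bconn x) hnm b with hβ
  set N : Matrix (stg m).I (stg m).I ℂ := β.1 (x m, e0) with hN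
  set M : Matrix (stg n).I (stg n).I ℂ := b.1 (y, e0) with hM
  have hNV : N * V = V * M := hVint b e0
  set η : (stg m).I → ℂ := V.mulVec ξ with hη
  have hη1 : ∑ i, conj (η i) * η i = 1 := by
    have h1 := star_mulVec_dot V hV ξ
    rw [← hη] at h1
    calc ∑ i, conj (η i) * η i = star η ⬝ᵥ η := rfl
      _ = star ξ ⬝ᵥ ξ := h1
      _ = ∑ i, conj (ξ i) * ξ i := rfl
      _ = 1 := hξ1
  obtain ⟨κ, hκ, Yk, hY1, hY2⟩ := full_vec' x m e0 η hη1
  set c : ℝ := ∑ i, ‖M.mulVec ξ i‖ ^ 2 with hc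
  have hc78 : (7 / 8 : ℝ) < c := hyU
  have hcc : (∑ i, ∑ j, conj (η i) * (star β * β).1 (x m, e0) i j * η j) = (c : ℂ) := by
    have h1 : (star β * β).1 (x m, e0) = N.conjTranspose * N := rfl
    rw [h1]
    have h2 : ∑ i, ∑ j, conj (η i) * (N.conjTranspose * N) i j * η j =
        star η ⬝ᵥ ((N.conjTranspose * N).mulVec η) := by
      simp only [dotProduct, Matrix.mulVec, Pi.star_apply, RCLike.star_def, Finset.mul_sum]
      refine Finset.sum_congr rfl fun i _ => Finset.sum_congr rfl fun j _ => ?_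
      ring
    rw [h2, ← Matrix.mulVec_mulVec, Matrix.dotProduct_mulVec, ← Matrix.star_mulVec]
    have h3 : N.mulVec η = V.mulVec (M.mulVec ξ) := by
      rw [hη, Matrix.mulVec_mulVec, hNV, ← Matrix.mulVec_mulVec]
    rw [h3, star_mulVec_dot V hV, hc]
    push_cast
    refine Finset.sum_congr rfl fun i _ => ?_
    rw [Pi.star_apply, RCLike.star_def, ← Complex.normSq_eq_conj_mul_self,
      Complex.normSq_eq_norm_sq]
    push_cast
    rfl
  refine ⟨κ, hκ, fun k => D.ι (m + 1) (Yk k), ?_⟩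
  have hY1' : ∑ k, star (D.ι (m + 1) (Yk k)) * D.ι (m + 1) (Yk k) = 1 := by
    have h1 := congrArg (D.ι (m + 1)) hY1
    rw [map_one, map_sum] at h1
    rw [← h1]
    refine Finset.sum_congr rfl fun k _ => ?_
    rw [map_mul, map_star]
  have hY2' : ∑ k, star (D.ι (m + 1) (Yk k)) * (star b' * b') * D.ι (m + 1) (Yk k) =
      (c : ℂ) • (1 : L) := by
    have h1 := congrArg (D.ι (m + 1)) (hY2 (star β * β))
    rw [hcc, map_sum, map_smul, map_one] at h1
    rw [← h1]
    refine Finset.sum_congr rfl fun k _ => ?_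
    have h2 : D.ι (m + 1) (bconn x m (star β * β)) = star b' * b' := by
      have h3 := D.comp m (star β * β)
      rw [map_mul (D.ι m), map_star, hβ, D.iter] at h3
      exact h3
    rw [map_mul, map_mul, h2, map_star]
  have hsum : ∑ k, star (D.ι (m + 1) (Yk k)) * (star a * a) * D.ι (m + 1) (Yk k) =
      (c : ℂ) • (1 : L) + ∑ k, star (D.ι (m + 1) (Yk k)) * d * D.ι (m + 1) (Yk k) := by
    rw [← hY2', ← Finset.sum_add_distrib]
    refine Finset.sum_congr rfl fun k _ => ?_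
    rw [hd]
    noncomm_ring
  rw [hsum]
  set e : L := ∑ k, star (D.ι (m + 1) (Yk k)) * d * D.ι (m + 1) (Yk k) with he
  have hen : ‖e‖ < 1 / 8 := (norm_compress_le _ hY1' d hdsa).trans_lt hdn
  have hc0 : (0 : ℝ) < c := by linarith
  have hcne : (c : ℂ) ≠ 0 := by exact_mod_cast hc0.ne'
  have h1 : (c : ℂ) • (1 : L) + e = (c : ℂ) • (1 - (-((c : ℂ)⁻¹ • e))) := by
    rw [sub_neg_eq_add, smul_add, smul_smul, mul_inv_cancel₀ hcne, one_smul]
  rw [h1]
  have h2 : IsUnit (1 - (-((c : ℂ)⁻¹ • e))) := by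
    apply isUnit_one_sub_of_norm_lt_one
    rw [norm_neg, norm_smul, norm_inv, Complex.norm_real, Real.norm_of_nonneg hc0.le,
      inv_mul_lt_iff₀ hc0]
    linarith
  exact IsUnit.smul (Units.mk0 (c : ℂ) hcne) h2

theorem limit_simple (x : ∀ n, (stg n).X) (hx : GoodPts x) {L : Type} [CStarAlgebra L]
    (D : LimitData BA (bconn x) L) : IsSimpleRing L := by
  have hnt0 : Nontrivial (BA 0) := by
    refine ⟨⟨0, 1, ?_⟩⟩
    intro h
    have hne : Nonempty (stg 0).X := by
      show Nonempty (Fin 3 → S3)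
      exact ⟨fun _ => ⟨EuclideanSpace.single 0 1, by simp⟩⟩
    obtain ⟨z⟩ := hne
    have h1 : (0 : BA 0).1 (z, true) (stg 0).root (stg 0).root =
        (1 : BA 0).1 (z, true) (stg 0).root (stg 0).root := by rw [h]
    have h2 : (0 : BA 0).1 (z, true) (stg 0).root (stg 0).root = 0 := rfl
    have h3 : (1 : BA 0).1 (z, true) (stg 0).root (stg 0).root = 1 := Matrix.one_apply_eq _
    rw [h2, h3] at h1
    exact zero_ne_one h1
  have hnt : Nontrivial L := by
    refine ⟨⟨0, 1, ?_⟩⟩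
    intro h
    have h1 : ‖D.ι 0 1‖ = ‖(1 : BA 0)‖ := D.isom 0 1
    rw [map_one, ← h, norm_zero] at h1
    exact one_ne_zero (norm_eq_zero.mp h1.symm)
  refine ⟨⟨?_⟩⟩
  intro I
  by_cases hI : I = ⊥
  · exact Or.inl hI
  refine Or.inr ?_
  have h1 : ∃ a ∈ I, a ≠ 0 := by
    by_contra hcon
    push Not at hcon
    apply hI
    rw [eq_bot_iff]
    intro a ha
    rw [hcon a ha]
    exact (⊥ : TwoSidedIdeal L).zero_mem
  obtain ⟨a, haI, ha0⟩ := h1
  set a' : L := ((‖a‖⁻¹ : ℝ) : ℂ) • a with ha'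
  have hna : 0 < ‖a‖ := norm_pos_iff.mpr ha0
  have ha'n : ‖a'‖ = 1 := by
    rw [ha', norm_smul, Complex.norm_real, norm_inv, norm_norm, inv_mul_cancel₀ hna.ne']
  have ha'I : a' ∈ I := by
    rw [ha', Algebra.smul_def]
    exact I.mul_mem_left _ _ haI
  obtain ⟨κ, _, Y, hY⟩ := exists_unit x hx D a' ha'n
  have h2 : ∑ k, star (Y k) * (star a' * a') * Y k ∈ I := by
    refine sum_mem fun k _ => ?_
    exact I.mul_mem_right _ _ (I.mul_mem_left _ _ (I.mul_mem_left _ _ ha'I))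
  rw [eq_top_iff]
  intro c _
  obtain ⟨u, hu⟩ := hY
  rw [← hu] at h2
  have h3 : c = c * (↑u⁻¹ : L) * (u : L) := by
    rw [mul_assoc, u.inv_mul, mul_one]
  rw [h3]
  exact I.mul_mem_left _ _ h2

end VB
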