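import Pool.Agent.VB.TrB
import Pool.Agent.VB.Ext

/-!
MODULE VB/TrE.  Existence of a tracial state on the limit algebra.

Proof.  Fix base points `q m : (stg m).X × Bool`.  For `a ∈ BA n` consider the sequence
`t_m(a) = (stg m).ntrFun (iter (bconn x) _ a) (q m)`, `m ≥ n`.  By `osc_conn` and induction the oscillation of
`ntrFun (iter a)` at stage `m` is at most `2 ‖a‖ / 3^(m-n)`, and by `osc_step`
`‖t_(m+1)(a) - t_m(a)‖ ≤ 2 ‖a‖ / 3^(m-n)`, so the sequence converges; let `T n a` be the limit.  `T n` is linear,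
bounded by `‖a‖`, `T (n+1) (bconn x n a) = T n a`, `T n 1 = 1`, `T n (a b) = T n (b a)`, `T n (star a * a) ≥ 0`.
Extend by `extend_linear` (Ext) with `C = 1` and pass the identities to `L` by density.
-/

open scoped Matrix.Norms.L2Operator

open Filter Topology

namespace VB

theorem iter_comp {A : ℕ → Type} [∀ n, CStarAlgebra (A n)]
    (φ : ∀ n, A n →⋆ₐ[ℂ] A (n + 1)) {n m : ℕ} (h : n + 1 ≤ m) (h' : n ≤ m) (a : A n) :
    iter φ h (φ n a) = iter φ h' a := by
  induction m, h using Nat.le_induction with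
  | base => rw [iter_self, iter_succ φ (le_refl n), iter_self]
  | succ m h ih =>
    rw [iter_succ φ h, ih (Nat.le_of_succ_le h), iter_succ φ (Nat.le_of_succ_le h)]

/-- base points -/
noncomputable def trBasePt (m : ℕ) : (stg m).X × Bool :=
  (fun _ => Classical.choice (by
    obtain ⟨v, hv⟩ := NormedSpace.sphere_nonempty (x := (0 : EuclideanSpace ℂ (Fin 2))) |>.2
      (zero_le_one (α := ℝ))
    exact ⟨⟨v, hv⟩⟩), true)

open Classical in
/-- the approximate traces -/
noncomputable def apT (x : ∀ n, (stg n).X) (n : ℕ) (a : BA n) (m : ℕ) : ℂ :=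
  if h : n ≤ m then (stg m).ntrFun (iter (bconn x) h a) (trBasePt m) else 0

theorem apT_of_le (x : ∀ n, (stg n).X) {n m : ℕ} (h : n ≤ m) (a : BA n) :
    apT x n a m = (stg m).ntrFun (iter (bconn x) h a) (trBasePt m) := dif_pos h

theorem osc_iterE (x : ∀ n, (stg n).X) {n m : ℕ} (h : n ≤ m) (a : BA n)
    (p q : (stg m).X × Bool) :
    ‖(stg m).ntrFun (iter (bconn x) h a) p - (stg m).ntrFun (iter (bconn x) h a) q‖ ≤
      2 * ‖a‖ / 3 ^ (m - n) := by
  induction m, h using Nat.le_induction with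
  | base =>
    rw [iter_self, Nat.sub_self, pow_zero, div_one]
    refine (norm_sub_le _ _).trans ?_
    have h1 := (stg n).ntrFun_le a p
    have h2 := (stg n).ntrFun_le a q
    linarith
  | succ m h ih =>
    rw [iter_succ (bconn x) h]
    have h3 : m + 1 - n = (m - n) + 1 := by omega
    rw [h3, pow_succ, ← div_div]
    exact (stg m).osc_conn (x m) (iter (bconn x) h a) _ ih p q

theorem apT_tendsto (x : ∀ n, (stg n).X) (n : ℕ) (a : BA n) :
    ∃ y, Tendsto (apT x n a) atTop (𝓝 y) := by
  have hc : CauchySeq fun k => apT x n a (k + n) := by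
    refine cauchySeq_of_le_geometric (1 / 3) (2 * ‖a‖) (by norm_num) ?_
    intro k
    have h1 : n ≤ k + n := Nat.le_add_left n k
    have h2 : n ≤ k + n + 1 := h1.trans (Nat.le_succ _)
    have h3 : k + 1 + n = k + n + 1 := by omega
    rw [dist_comm, h3, dist_eq_norm, apT_of_le x h1, apT_of_le x h2, iter_succ (bconn x) h1 h2]
    have h4 := (stg (k + n)).osc_step (x (k + n)) (iter (bconn x) h1 a) _ (osc_iterE x h1 a)
      (trBasePt (k + n + 1)) (trBasePt (k + n))
    refine h4.trans (le_of_eq ?_)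
    rw [Nat.add_sub_cancel, one_div, inv_pow, div_eq_mul_inv]
  obtain ⟨y, hy⟩ := cauchySeq_tendsto_of_complete hc
  exact ⟨y, (tendsto_add_atTop_iff_nat n).1 hy⟩

theorem norm_iter_le (x : ∀ n, (stg n).X) {n m : ℕ} (h : n ≤ m) (a : BA n) :
    ‖iter (bconn x) h a‖ ≤ ‖a‖ := NonUnitalStarAlgHom.norm_apply_le (iter (bconn x) h) a

theorem isClosed_nonnegReal : IsClosed {z : ℂ | ∃ r : ℝ, 0 ≤ r ∧ z = r} := by
  have h : {z : ℂ | ∃ r : ℝ, 0 ≤ r ∧ z = r} = {z : ℂ | 0 ≤ z.re} ∩ {z : ℂ | z.im = 0} := by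
    ext z
    constructor
    · rintro ⟨r, hr, rfl⟩
      exact ⟨by simpa using hr, by simp⟩
    · rintro ⟨h1, h2⟩
      exact ⟨z.re, h1, Complex.ext rfl (by simpa using h2)⟩
  rw [h]
  exact (isClosed_le continuous_const Complex.continuous_re).inter
    (isClosed_eq Complex.continuous_im continuous_const)

theorem limit_trace_exists (x : ∀ n, (stg n).X) {L : Type} [CStarAlgebra L]
    (D : LimitData BA (bconn x) L) : ∃ τ : L →ₗ[ℂ] ℂ, IsTracialState τ := by
  choose T hT using apT_tendsto x
  let T' : ∀ n, BA n →ₗ[ℂ] ℂ := fun n =>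
    { toFun := T n
      map_add' := fun a b => by
        refine tendsto_nhds_unique (hT n (a + b)) ?_
        refine ((hT n a).add (hT n b)).congr' ?_
        filter_upwards [eventually_ge_atTop n] with m hm
        rw [apT_of_le x hm, apT_of_le x hm, apT_of_le x hm, map_add, (stg m).ntrFun_add]
      map_smul' := fun c a => by
        refine tendsto_nhds_unique (hT n (c • a)) ?_
        refine ((hT n a).const_mul c).congr' ?_
        filter_upwards [eventually_ge_atTop n] with m hm
        rw [apT_of_le x hm, apT_of_le x hm, map_smul, (stg m).ntrFun_smul] }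
  have hT' : ∀ n (a : BA n), Tendsto (apT x n a) atTop (𝓝 (T' n a)) := hT
  have hb : ∀ n (a : BA n), ‖T' n a‖ ≤ 1 * ‖a‖ := by
    intro n a
    rw [one_mul]
    refine le_of_tendsto (hT' n a).norm ?_
    filter_upwards [eventually_ge_atTop n] with m hm
    rw [apT_of_le x hm]
    exact ((stg m).ntrFun_le _ _).trans (norm_iter_le x hm a)
  have hc : ∀ n (a : BA n), T' (n + 1) (bconn x n a) = T' n a := by
    intro n a
    refine tendsto_nhds_unique (hT' (n + 1) (bconn x n a)) ?_
    refine (hT' n a).congr' ?_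
    filter_upwards [eventually_ge_atTop (n + 1)] with m hm
    have hm' : n ≤ m := Nat.le_of_succ_le hm
    rw [apT_of_le x hm, apT_of_le x hm', iter_comp (bconn x) hm hm']
  obtain ⟨F, hF⟩ := extend_linear D T' 1 hb hc
  have hdn := dense_sigma D
  refine ⟨F.toLinearMap, ?_, ?_, ?_⟩
  · have hcl : IsClosed {u : L | F (star u * u) ∈ {z : ℂ | ∃ r : ℝ, 0 ≤ r ∧ z = r}} :=
      isClosed_nonnegReal.preimage (F.continuous.comp (continuous_star.mul continuous_id))
    have := isClosed_property (p := fun u : L =>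
      F (star u * u) ∈ {z : ℂ | ∃ r : ℝ, 0 ≤ r ∧ z = r}) hdn hcl ?_
    · exact this
    · rintro ⟨n, a⟩
      show F (star (D.ι n a) * D.ι n a) ∈ {z : ℂ | ∃ r : ℝ, 0 ≤ r ∧ z = r}
      rw [← map_star, ← map_mul, hF]
      refine isClosed_nonnegReal.mem_of_tendsto (hT' n (star a * a)) ?_
      filter_upwards [eventually_ge_atTop n] with m hm
      rw [apT_of_le x hm, map_mul, map_star]
      exact (stg m).ntrFun_star_mul _ _
  · show F 1 = 1
    rw [← map_one (D.ι 0), hF]
    refine tendsto_nhds_unique (hT' 0 1) ?_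
    refine tendsto_const_nhds.congr' ?_
    filter_upwards [eventually_ge_atTop 0] with m hm
    rw [apT_of_le x hm, map_one, (stg m).ntrFun_one]
  · refine isClosed_property2 hdn (isClosed_eq
      (F.continuous.comp (continuous_fst.mul continuous_snd))
      (F.continuous.comp (continuous_snd.mul continuous_fst))) ?_
    rintro ⟨n, a⟩ ⟨m, b⟩
    show F (D.ι n a * D.ι m b) = F (D.ι m b * D.ι n a)
    rw [← D.iter (le_max_left n m) a, ← D.iter (le_max_right n m) b, ← map_mul, ← map_mul, hF, hF]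
    refine tendsto_nhds_unique (hT' _ _) ?_
    refine (hT' _ _).congr' ?_
    filter_upwards [eventually_ge_atTop (max n m)] with k hk
    rw [apT_of_le x hk, apT_of_le x hk, map_mul, map_mul, (stg k).ntrFun_mul_comm]

end VB
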