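import Pool.Agent.VB.CDefs

/-!
MODULE VB/TrB.  Elementary facts on the normalized trace function and its oscillation.

Proofs.  `card_K`: `card K = card Cp + (card Cp + 1) * 2`.
`ntr_conn`: the trace of a block diagonal matrix is the sum of the traces of the blocks
(`Matrix.trace_blockDiagonal`), `card st.next.I = card st.I * card st.K`.
`osc_conn`: by `ntr_conn`, the difference of the values at `p = (z, e)`, `q = (z', e')` is
`(card K)⁻¹ * (∑ c, (ntrFun f (proj c z, e) - ntrFun f (proj c z', e')) + ∑_(o, s) (ntrFun f (x, xor e s) - ntrFun f (x, xor e' s)))`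
and the second sum vanishes because `s ↦ xor e s` is a permutation of `Bool` for each `o`.  So it is at most
`card Cp * R / card K ≤ R / 3`.
`osc_step`: average of `card K` numbers each within `R` of `ntrFun f q`.
`ntrFun_le`: `|trace M| ≤ card I * ‖M‖` (entries are bounded by the L2 operator norm) and the norm of a continuous function
bounds its values.
`ntrFun_mul_comm`, `ntrFun_star_mul`: trace identities; `trace (Mᴴ M) = ∑ ‖M i j‖^2`.
`norm_ntr_sub`: the norm of `ntr f - c • 1` is the supremum of `‖(ntrFun f p - c) • 1‖ ≤ R`.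
-/

open scoped Matrix.Norms.L2Operator

namespace VB

theorem Stage.card_K (st : Stage) : Fintype.card st.K = 3 * Fintype.card st.Cp + 2 := by
  simp only [Stage.K, Fintype.card_sum, Fintype.card_prod, Fintype.card_option, Fintype.card_bool]
  ring

theorem Stage.trB_card_I_ne (st : Stage) : (Fintype.card st.I : ℂ) ≠ 0 := by
  have : Nonempty st.I := ⟨st.root⟩
  exact_mod_cast Fintype.card_ne_zero

theorem Stage.trB_card_K_pos (st : Stage) : (0 : ℝ) < Fintype.card st.K := by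
  rw [st.card_K]; positivity

theorem Stage.trB_ntrFun_apply (st : Stage) (f : st.Alg) (p : st.X × Bool) :
    st.ntrFun f p = (Fintype.card st.I : ℂ)⁻¹ * (f.1 p).trace := rfl

theorem Stage.ntr_conn (st : Stage) (x : st.X) (f : st.Alg) (p : st.next.X × Bool) :
    st.next.ntrFun (st.conn x f) p =
      (Fintype.card st.K : ℂ)⁻¹ * ∑ k, st.ntrFun f (st.src x k p) := by
  rw [Stage.trB_ntrFun_apply, Stage.conn_apply]
  have h1 : (Fintype.card st.next.I : ℂ) = (Fintype.card st.I : ℂ) * (Fintype.card st.K : ℂ) := by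
    have : Fintype.card st.next.I = Fintype.card st.I * Fintype.card st.K := Fintype.card_prod _ _
    rw [this]; push_cast; ring
  have h2 : (Matrix.blockDiagonal fun k => f.1 (st.src x k p)).trace =
      ∑ k, (f.1 (st.src x k p)).trace := Matrix.trace_blockDiagonal _
  rw [h1]
  erw [h2]
  simp only [Stage.trB_ntrFun_apply, ← Finset.mul_sum]
  rw [mul_inv]
  ring

theorem Stage.osc_conn (st : Stage) (x : st.X) (f : st.Alg) (R : ℝ)
    (h : ∀ p q, ‖st.ntrFun f p - st.ntrFun f q‖ ≤ R) (p q : st.next.X × Bool) :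
    ‖st.next.ntrFun (st.conn x f) p - st.next.ntrFun (st.conn x f) q‖ ≤ R / 3 := by
  have hR : 0 ≤ R := le_trans (norm_nonneg _) (h (x, true) (x, true))
  rw [st.ntr_conn, st.ntr_conn, ← mul_sub, ← Finset.sum_sub_distrib, norm_mul, norm_inv]
  have hsum : ∑ k : st.K, (st.ntrFun f (st.src x k p) - st.ntrFun f (st.src x k q)) =
      ∑ c : st.Cp, (st.ntrFun f (st.src x (Sum.inl c) p) - st.ntrFun f (st.src x (Sum.inl c) q)) := by
    rw [Fintype.sum_sum_type]
    have h0 : ∑ y : Option st.Cp × Bool, (st.ntrFun f (st.src x (Sum.inr y) p) -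
        st.ntrFun f (st.src x (Sum.inr y) q)) = 0 := by
      rw [Fintype.sum_prod_type]
      refine Finset.sum_eq_zero fun o _ => ?_
      rw [Fintype.sum_bool]
      show (st.ntrFun f (x, xor p.2 true) - st.ntrFun f (x, xor q.2 true)) +
        (st.ntrFun f (x, xor p.2 false) - st.ntrFun f (x, xor q.2 false)) = 0
      cases p.2 <;> cases q.2 <;> simp
    rw [h0, add_zero]
  rw [hsum]
  have hle : ‖∑ c : st.Cp, (st.ntrFun f (st.src x (Sum.inl c) p) -
      st.ntrFun f (st.src x (Sum.inl c) q))‖ ≤ Fintype.card st.Cp * R := by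
    refine (norm_sum_le _ _).trans ?_
    refine (Finset.sum_le_card_nsmul _ _ R fun c _ => h _ _).trans ?_
    rw [nsmul_eq_mul, Finset.card_univ]
  have hK := st.trB_card_K_pos
  have hn : ‖(Fintype.card st.K : ℂ)‖ = (Fintype.card st.K : ℝ) := Complex.norm_natCast _
  rw [hn, inv_mul_le_iff₀ hK]
  refine hle.trans ?_
  rw [st.card_K]
  push_cast
  nlinarith

theorem Stage.osc_step (st : Stage) (x : st.X) (f : st.Alg) (R : ℝ)
    (h : ∀ p q, ‖st.ntrFun f p - st.ntrFun f q‖ ≤ R) (p : st.next.X × Bool) (q : st.X × Bool) :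
    ‖st.next.ntrFun (st.conn x f) p - st.ntrFun f q‖ ≤ R := by
  have hK := st.trB_card_K_pos
  have hKc : (Fintype.card st.K : ℂ) ≠ 0 := by
    have : (Fintype.card st.K : ℝ) ≠ 0 := hK.ne'
    exact_mod_cast this
  rw [st.ntr_conn]
  have h1 : (Fintype.card st.K : ℂ)⁻¹ * ∑ k, st.ntrFun f (st.src x k p) - st.ntrFun f q =
      (Fintype.card st.K : ℂ)⁻¹ * ∑ k, (st.ntrFun f (st.src x k p) - st.ntrFun f q) := by
    rw [Finset.sum_sub_distrib, Finset.sum_const, Finset.card_univ, nsmul_eq_mul, mul_sub,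
      inv_mul_cancel_left₀ hKc]
  have hn : ‖(Fintype.card st.K : ℂ)‖ = (Fintype.card st.K : ℝ) := Complex.norm_natCast _
  rw [h1, norm_mul, norm_inv, hn, inv_mul_le_iff₀ hK]
  refine (norm_sum_le _ _).trans ?_
  refine (Finset.sum_le_card_nsmul _ _ R fun c _ => h _ _).trans ?_
  rw [nsmul_eq_mul, Finset.card_univ]

theorem trB_norm_entry_le {I : Type} [Fintype I] [DecidableEq I] (M : Matrix I I ℂ) (i j : I) :
    ‖M i j‖ ≤ ‖M‖ := by
  have h := M.l2_opNorm_mulVec (EuclideanSpace.single j (1 : ℂ))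
  rw [EuclideanSpace.norm_single, norm_one, mul_one] at h
  refine le_trans ?_ h
  have h2 := PiLp.norm_apply_le ((EuclideanSpace.equiv I ℂ).symm
    (M.mulVec (EuclideanSpace.single j (1 : ℂ)))) i
  refine le_trans (le_of_eq ?_) h2
  congr 1
  show M i j = (M.mulVec (EuclideanSpace.single j (1 : ℂ))) i
  simp [Matrix.mulVec, dotProduct]

theorem Stage.ntrFun_le (st : Stage) (f : st.Alg) (p : st.X × Bool) : ‖st.ntrFun f p‖ ≤ ‖f‖ := by
  rw [Stage.trB_ntrFun_apply, norm_mul, norm_inv]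
  have hI : (0 : ℝ) < Fintype.card st.I := by
    have : Nonempty st.I := ⟨st.root⟩
    exact_mod_cast Fintype.card_pos
  have hn : ‖(Fintype.card st.I : ℂ)‖ = (Fintype.card st.I : ℝ) := Complex.norm_natCast _
  rw [hn, inv_mul_le_iff₀ hI]
  have h1 : ‖f.1 p‖ ≤ ‖f‖ := f.1.norm_coe_le_norm p
  have h2 : ‖(f.1 p).trace‖ ≤ Fintype.card st.I * ‖f.1 p‖ := by
    rw [Matrix.trace]
    refine (norm_sum_le _ _).trans ?_
    refine (Finset.sum_le_card_nsmul _ _ ‖f.1 p‖ fun i _ => ?_).trans ?_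
    · exact trB_norm_entry_le (f.1 p) i i
    · rw [nsmul_eq_mul, Finset.card_univ]
  exact h2.trans (mul_le_mul_of_nonneg_left h1 hI.le)

theorem Stage.ntrFun_add (st : Stage) (f g : st.Alg) (p : st.X × Bool) :
    st.ntrFun (f + g) p = st.ntrFun f p + st.ntrFun g p := by
  simp only [Stage.trB_ntrFun_apply]
  have : ((f + g).1 p) = f.1 p + g.1 p := rfl
  rw [this, Matrix.trace_add, mul_add]

theorem Stage.ntrFun_smul (st : Stage) (a : ℂ) (f : st.Alg) (p : st.X × Bool) :
    st.ntrFun (a • f) p = a * st.ntrFun f p := by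
  simp only [Stage.trB_ntrFun_apply]
  have : ((a • f).1 p) = a • f.1 p := rfl
  rw [this, Matrix.trace_smul, smul_eq_mul]
  ring

theorem Stage.ntrFun_one (st : Stage) (p : st.X × Bool) : st.ntrFun 1 p = 1 := by
  rw [Stage.trB_ntrFun_apply]
  have : ((1 : st.Alg).1 p) = (1 : Matrix st.I st.I ℂ) := rfl
  rw [this, Matrix.trace_one, inv_mul_cancel₀ st.trB_card_I_ne]

theorem Stage.ntrFun_mul_comm (st : Stage) (f g : st.Alg) (p : st.X × Bool) :
    st.ntrFun (f * g) p = st.ntrFun (g * f) p := by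
  simp only [Stage.trB_ntrFun_apply]
  have h1 : ((f * g).1 p) = f.1 p * g.1 p := rfl
  have h2 : ((g * f).1 p) = g.1 p * f.1 p := rfl
  rw [h1, h2, Matrix.trace_mul_comm]

theorem Stage.ntrFun_star_mul (st : Stage) (f : st.Alg) (p : st.X × Bool) :
    ∃ r : ℝ, 0 ≤ r ∧ st.ntrFun (star f * f) p = r := by
  refine ⟨(Fintype.card st.I : ℝ)⁻¹ * ∑ i, ∑ j, ‖(f.1 p) j i‖ ^ 2, by positivity, ?_⟩
  rw [Stage.trB_ntrFun_apply]
  have h1 : ((star f * f).1 p) = (f.1 p).conjTranspose * f.1 p := rfl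
  rw [h1]
  push_cast
  congr 1
  simp only [Matrix.trace, Matrix.diag_apply, Matrix.mul_apply, Matrix.conjTranspose_apply]
  refine Finset.sum_congr rfl fun i _ => Finset.sum_congr rfl fun j _ => ?_
  rw [RCLike.star_def, RCLike.conj_mul]
  rfl

theorem Stage.norm_ntr_sub (st : Stage) (f : st.Alg) (c : ℂ) (R : ℝ) (hR : 0 ≤ R)
    (h : ∀ p, ‖st.ntrFun f p - c‖ ≤ R) : ‖st.ntr f - c • (1 : st.Alg)‖ ≤ R := by
  show ‖(st.ntr f - c • (1 : st.Alg)).1‖ ≤ R
  rw [ContinuousMap.norm_le _ hR]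
  intro p
  have h1 : (st.ntr f - c • (1 : st.Alg)).1 p = (st.ntrFun f p - c) • (1 : Matrix st.I st.I ℂ) := by
    show st.ntrFun f p • (1 : Matrix st.I st.I ℂ) - c • (1 : Matrix st.I st.I ℂ) = _
    rw [sub_smul]
  rw [h1, norm_smul]
  have : Nonempty st.I := ⟨st.root⟩
  have h2 : ‖(1 : Matrix st.I st.I ℂ)‖ ≤ 1 := by
    have : ‖(1 : Matrix st.I st.I ℂ)‖ = 1 := norm_one
    exact this.le
  calc ‖st.ntrFun f p - c‖ * ‖(1 : Matrix st.I st.I ℂ)‖ ≤ ‖st.ntrFun f p - c‖ * 1 :=
        mul_le_mul_of_nonneg_left h2 (norm_nonneg _)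
    _ ≤ R := by rw [mul_one]; exact h p

end VB
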