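import Pool.Agent.VB.TrA
import Pool.Agent.VB.TrB

/-!
MODULE VB/TrU.  Uniqueness of the tracial state on the limit algebra.

Proof.  `state_bound`: a positive functional with `τ 1 = 1` satisfies `‖τ a‖ ≤ ‖a‖`: Cauchy-Schwarz
`‖τ a‖^2 ≤ τ (star a * a) τ 1` (sesquilinear form `τ (star a * b)`), and
`‖a‖^2 • 1 - star a * a = star c * c` for some `c` (positive element of a C*-algebra; `CStarAlgebra.nonneg_iff_eq_star_mul_self`
with the spectral order), so `τ (star a * a) ≤ ‖a‖^2`.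
Uniqueness: let `τ, τ'` be tracial states of `L`, `a ∈ BA n`.  For `m ≥ n` let `a_m = iter (bconn x) _ a`.  By `trace_eq_ntr` applied to
`τ ∘ D.ι m`, `τ (D.ι n a) = τ (D.ι m a_m) = τ (D.ι m (ntr a_m))`.  The oscillation of `ntrFun a_m` is at most
`2 ‖a‖ / 3^(m-n)` (`ntrFun_le`, `osc_conn`, induction), so with `c_m` the value at any point,
`‖ntr a_m - c_m • 1‖ ≤ 2 ‖a‖ / 3^(m-n)` and `‖τ (D.ι n a) - c_m‖ ≤ 2 ‖a‖ / 3^(m-n)`, and the same for `τ'`.
Hence `τ (D.ι n a) = τ' (D.ι n a)`; conclude by density and continuity.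
-/

open scoped Matrix.Norms.L2Operator

namespace VB

theorem state_star {L : Type} [CStarAlgebra L] (τ : L →ₗ[ℂ] ℂ) (hτ : IsTracialState τ) (a : L) :
    τ (star a) = (starRingEnd ℂ) (τ a) := by
  obtain ⟨r0, -, h0⟩ := hτ.nonneg a
  obtain ⟨r1, -, h1⟩ := hτ.nonneg (a + 1)
  obtain ⟨r2, -, h2⟩ := hτ.nonneg (a + Complex.I • (1 : L))
  have e1 : star (a + 1) * (a + 1) = star a * a + star a + a + 1 := by
    rw [star_add, star_one, add_mul, mul_add, mul_one, one_mul]
    abel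
  have e2 : star (a + Complex.I • (1 : L)) * (a + Complex.I • (1 : L)) =
      star a * a + Complex.I • star a - Complex.I • a + 1 := by
    rw [star_add, star_smul, star_one, RCLike.star_def, Complex.conj_I, add_mul, mul_add, mul_add,
      mul_smul_comm, mul_one, smul_mul_assoc, one_mul, smul_mul_smul_comm, one_mul]
    rw [show (-Complex.I * Complex.I) = 1 by rw [neg_mul, Complex.I_mul_I, neg_neg], one_smul,
      neg_smul]
    abel
  rw [e1, map_add, map_add, map_add, h0, hτ.one] at h1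
  rw [e2, map_add, map_sub, map_add, map_smul, map_smul, h0, hτ.one, smul_eq_mul,
    smul_eq_mul] at h2
  have i1 := congrArg Complex.im h1
  have i2 := congrArg Complex.im h2
  simp only [Complex.add_im, Complex.sub_im, Complex.ofReal_im, Complex.one_im, Complex.mul_im,
    Complex.I_re, Complex.I_im] at i1 i2
  apply Complex.ext
  · rw [Complex.conj_re]; linarith
  · rw [Complex.conj_im]; linarith

theorem state_bound {L : Type} [CStarAlgebra L] (τ : L →ₗ[ℂ] ℂ) (hτ : IsTracialState τ) (a : L) :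
    ‖τ a‖ ≤ ‖a‖ := by
  have key : ‖τ a‖ ^ 2 ≤ ‖a‖ ^ 2 := by
    letI := CStarAlgebra.spectralOrder L
    haveI := CStarAlgebra.spectralOrderedRing L
    have hle : star a * a ≤ algebraMap ℝ L (‖a‖ ^ 2) := CStarAlgebra.star_mul_le_algebraMap_norm_sq
    have hnn : 0 ≤ algebraMap ℝ L (‖a‖ ^ 2) - star a * a := sub_nonneg.2 hle
    obtain ⟨c, hc⟩ := CStarAlgebra.nonneg_iff_eq_star_mul_self.1 hnn
    obtain ⟨r, hr, hr2⟩ := hτ.nonneg c
    obtain ⟨s, hs, hs2⟩ := hτ.nonneg (a - τ a • (1 : L))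
    obtain ⟨q, hq, hq2⟩ := hτ.nonneg a
    have e0 : algebraMap ℝ L (‖a‖ ^ 2) = ((‖a‖ ^ 2 : ℝ) : ℂ) • (1 : L) := by
      rw [Algebra.algebraMap_eq_smul_one]
      exact (Complex.coe_smul (‖a‖ ^ 2) (1 : L)).symm
    rw [← hc, e0, map_sub, map_smul, hτ.one, smul_eq_mul, mul_one, hq2] at hr2
    have e1 : star (a - τ a • (1 : L)) * (a - τ a • (1 : L)) =
        star a * a - τ a • star a - (starRingEnd ℂ (τ a)) • a +
          ((starRingEnd ℂ (τ a)) * τ a) • (1 : L) := by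
      rw [star_sub, star_smul, star_one, RCLike.star_def, sub_mul, mul_sub, mul_sub,
        mul_smul_comm, mul_one, smul_mul_assoc, one_mul, smul_mul_smul_comm, one_mul]
      abel
    rw [e1, map_add, map_sub, map_sub, map_smul, map_smul, map_smul, hτ.one, state_star τ hτ, hq2,
      smul_eq_mul, smul_eq_mul, smul_eq_mul, mul_one] at hs2
    have e2 : (starRingEnd ℂ (τ a)) * τ a = ((‖τ a‖ ^ 2 : ℝ) : ℂ) := by
      rw [mul_comm, Complex.mul_conj, Complex.normSq_eq_norm_sq]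
    rw [mul_comm (τ a), e2] at hs2
    have i1 := congrArg Complex.re hr2
    have i2 := congrArg Complex.re hs2
    simp only [Complex.sub_re, Complex.add_re, Complex.ofReal_re] at i1 i2
    linarith
  exact le_of_sq_le_sq key (norm_nonneg a)

theorem osc_iter (x : ∀ n, (stg n).X) (n : ℕ) (a : BA n) (k : ℕ) :
    ∀ p q, ‖(stg (n + k)).ntrFun (iter (bconn x) (Nat.le_add_right n k) a) p -
      (stg (n + k)).ntrFun (iter (bconn x) (Nat.le_add_right n k) a) q‖ ≤ 2 * ‖a‖ / 3 ^ k := by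
  induction k with
  | zero =>
    intro p q
    have h := iter_self (bconn x) a
    rw [show iter (bconn x) (Nat.le_add_right n 0) a = a from h, pow_zero, div_one]
    calc ‖(stg (n + 0)).ntrFun a p - (stg (n + 0)).ntrFun a q‖
        ≤ ‖(stg (n + 0)).ntrFun a p‖ + ‖(stg (n + 0)).ntrFun a q‖ := norm_sub_le _ _
      _ ≤ ‖a‖ + ‖a‖ := add_le_add ((stg n).ntrFun_le a p) ((stg n).ntrFun_le a q)
      _ = 2 * ‖a‖ := by ring
  | succ k ih =>
    intro p q
    have h := iter_succ (bconn x) (Nat.le_add_right n k) (Nat.le_add_right n (k + 1)) a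
    have h2 := (stg (n + k)).osc_conn (x (n + k)) (iter (bconn x) (Nat.le_add_right n k) a)
      (2 * ‖a‖ / 3 ^ k) ih p q
    have h3 : 2 * ‖a‖ / 3 ^ k / 3 = 2 * ‖a‖ / 3 ^ (k + 1) := by
      rw [div_div, pow_succ]
    rw [h3] at h2
    rw [show iter (bconn x) (Nat.le_add_right n (k + 1)) a =
      (stg (n + k)).conn (x (n + k)) (iter (bconn x) (Nat.le_add_right n k) a) from h]
    exact h2

theorem trace_near (x : ∀ n, (stg n).X) {L : Type} [CStarAlgebra L]
    (D : LimitData BA (bconn x) L) (τ : L →ₗ[ℂ] ℂ) (hτ : IsTracialState τ) (n : ℕ) (a : BA n)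
    (k : ℕ) (p : (stg (n + k)).X × Bool) :
    ‖τ (D.ι n a) - (stg (n + k)).ntrFun (iter (bconn x) (Nat.le_add_right n k) a) p‖ ≤
      2 * ‖a‖ / 3 ^ k := by
  set b : BA (n + k) := iter (bconn x) (Nat.le_add_right n k) a with hb
  set c : ℂ := (stg (n + k)).ntrFun b p with hc
  have h1 : D.ι n a = D.ι (n + k) b := (D.iter (Nat.le_add_right n k) a).symm
  have h2 : τ (D.ι (n + k) b) = τ (D.ι (n + k) ((stg (n + k)).ntr b)) := by
    have := trace_eq_ntr (stg (n + k))
      (τ.comp (D.ι (n + k)).toAlgHom.toLinearMap)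
      (fun u v => by
        show τ (D.ι (n + k) (u * v)) = τ (D.ι (n + k) (v * u))
        rw [map_mul (D.ι (n + k)) u v, map_mul (D.ι (n + k)) v u]
        exact hτ.trace _ _) b
    exact this
  have h3 : ‖(stg (n + k)).ntr b - c • (1 : (stg (n + k)).Alg)‖ ≤ 2 * ‖a‖ / 3 ^ k :=
    (stg (n + k)).norm_ntr_sub b c _ (by positivity) fun q => osc_iter x n a k q p
  have h4 : τ (D.ι (n + k) ((stg (n + k)).ntr b)) - c =
      τ (D.ι (n + k) ((stg (n + k)).ntr b - c • (1 : (stg (n + k)).Alg))) := by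
    rw [map_sub, map_smul, map_one, map_sub, map_smul, hτ.one, smul_eq_mul, mul_one]
  rw [h1, h2, h4]
  calc ‖τ (D.ι (n + k) ((stg (n + k)).ntr b - c • (1 : (stg (n + k)).Alg)))‖
      ≤ ‖D.ι (n + k) ((stg (n + k)).ntr b - c • (1 : (stg (n + k)).Alg))‖ := state_bound τ hτ _
    _ = ‖(stg (n + k)).ntr b - c • (1 : (stg (n + k)).Alg)‖ := D.isom _ _
    _ ≤ 2 * ‖a‖ / 3 ^ k := h3

theorem limit_trace_unique (x : ∀ n, (stg n).X) {L : Type} [CStarAlgebra L]
    (D : LimitData BA (bconn x) L) (τ τ' : L →ₗ[ℂ] ℂ) (hτ : IsTracialState τ)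
    (hτ' : IsTracialState τ') : τ = τ' := by
  have hcont : ∀ σ : L →ₗ[ℂ] ℂ, IsTracialState σ → Continuous σ := by
    intro σ hσ
    exact AddMonoidHomClass.continuous_of_bound σ 1 fun a => by
      rw [one_mul]; exact state_bound σ hσ a
  have hfun : (τ : L → ℂ) = τ' := by
    refine Continuous.ext_on D.dense (hcont τ hτ) (hcont τ' hτ') ?_
    intro y hy
    obtain ⟨n, a, rfl⟩ := Set.mem_iUnion.1 hy
    have hle : ∀ k : ℕ, ‖τ (D.ι n a) - τ' (D.ι n a)‖ ≤ 4 * ‖a‖ * (1 / 3) ^ k := by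
      intro k
      have p : (stg (n + k)).X × Bool := (x (n + k), true)
      have e1 := trace_near x D τ hτ n a k p
      have e2 := trace_near x D τ' hτ' n a k p
      set c : ℂ := (stg (n + k)).ntrFun (iter (bconn x) (Nat.le_add_right n k) a) p
      calc ‖τ (D.ι n a) - τ' (D.ι n a)‖ = ‖(τ (D.ι n a) - c) - (τ' (D.ι n a) - c)‖ := by
            congr 1; ring
        _ ≤ ‖τ (D.ι n a) - c‖ + ‖τ' (D.ι n a) - c‖ := norm_sub_le _ _
        _ ≤ 2 * ‖a‖ / 3 ^ k + 2 * ‖a‖ / 3 ^ k := add_le_add e1 e2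
        _ = 4 * ‖a‖ * (1 / 3) ^ k := by
            rw [one_div, inv_pow, div_eq_mul_inv]; ring
    have hlim : Filter.Tendsto (fun k : ℕ => 4 * ‖a‖ * (1 / 3 : ℝ) ^ k) Filter.atTop (nhds 0) := by
      have h := (tendsto_pow_atTop_nhds_zero_of_lt_one (by norm_num : (0 : ℝ) ≤ 1 / 3)
        (by norm_num)).const_mul (4 * ‖a‖)
      rwa [mul_zero] at h
    have h0 : ‖τ (D.ι n a) - τ' (D.ι n a)‖ ≤ 0 := ge_of_tendsto' hlim hle
    exact sub_eq_zero.1 (norm_le_zero_iff.1 h0)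
  exact LinearMap.ext fun y => congrFun hfun y

end VB
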