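import Pool.Agent.VB.Lim
import Pool.Agent.VB.Iso
import Pool.Agent.VB.Pts
import Pool.Agent.VB.Simp
import Pool.Agent.VB.TrE
import Pool.Agent.VB.TrU
import Pool.Agent.VB.RcL
import Pool.Agent.VB.Rok

/-!
Assembly: one algebra with all properties.
-/

namespace VB

/-- An automorphism as a linear map. -/
def autoLin {A : Type} [CStarAlgebra A] (β : A ≃⋆ₐ[ℂ] A) : A →ₗ[ℂ] A where
  toFun := β
  map_add' := map_add β
  map_smul' c a := map_smul β c a

/-- A tracial state composed with an automorphism is a tracial state. -/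
theorem IsTracialState.comp_auto {A : Type} [CStarAlgebra A] {τ : A →ₗ[ℂ] ℂ}
    (hτ : IsTracialState τ) (β : A ≃⋆ₐ[ℂ] A) :
    IsTracialState (τ.comp (autoLin β)) := by
  refine ⟨fun a => ?_, ?_, fun a b => ?_⟩
  · obtain ⟨r, hr, h⟩ := hτ.nonneg (β a)
    refine ⟨r, hr, ?_⟩
    show τ (β (star a * a)) = r
    rw [map_mul β, map_star β, h]
  · show τ (β 1) = 1
    rw [map_one β, hτ.one]
  · show τ (β (a * b)) = τ (β (b * a))
    rw [map_mul β, map_mul β, hτ.trace]

theorem main : ∃ (L : Type) (_ : CStarAlgebra L) (_ : PartialOrder L) (_ : StarOrderedRing L),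
    IsSimpleRing L ∧ TopologicalSpace.SeparableSpace L ∧
    (∃! τ : L →ₗ[ℂ] ℂ, IsTracialState τ) ∧ (1 / 5 : ENNReal) ≤ rc L ∧
    ∃ α : Action (Multiplicative (ZMod 2)) L, HasRokhlin α := by
  obtain ⟨x, hx⟩ := exists_goodPts
  obtain ⟨L, i, ⟨D⟩⟩ := exists_limit BA (bconn x) (fun n a => conn_norm (stg n) (x n) a)
  let _ := CStarAlgebra.spectralOrder L
  have _ := CStarAlgebra.spectralOrderedRing L
  obtain ⟨τ, hτ⟩ := limit_trace_exists x D
  have hu : ∀ τ' : L →ₗ[ℂ] ℂ, IsTracialState τ' → τ' = τ := fun τ' hτ' =>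
    limit_trace_unique x D τ' τ hτ' hτ
  obtain ⟨α, hα⟩ := limit_rokhlin x D
  exact ⟨L, i, inferInstance, inferInstance, limit_simple x hx D,
    limit_separable D fun n => alg_separable (stg n), ⟨τ, hτ, hu⟩, limit_rc x D, α, hα⟩

end VB
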