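import Pool.Agent.VB.TDefs

/-!
MODULE VB/Alt.  The alternating sum of Theorem T is not zero.

Proof.  For every square matrix `M` with nonnegative integer entries and positive diagonal and all
`a t ≥ 0` the sum `∑ I, (-1)^#I * ∏ t, (a t + ∑ β ∈ I, M β t)` is `(-1)^#B` times a positive
integer (it is the permanent of `M`, by Ryser's formula): expand the product over maps
`φ : B → Option B`; the maps whose range does not contain all `some β` cancel, for the others only
`I = univ` contributes.
-/

namespace VB

/-- The factors of the expansion. -/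
def altw {B : Type} [DecidableEq B] (a : B → ℤ) (M : B → B → ℤ) (I : Finset B) (t : B) :
    Option B → ℤ
  | none => a t
  | some β => if β ∈ I then M β t else 0

theorem alt_inner_zero {B : Type} [Fintype B] [DecidableEq B] (a : B → ℤ) (M : B → B → ℤ)
    (φ : B → Option B) (β : B) (hβ : ∀ t, φ t ≠ some β) :
    ∑ I : Finset B, (-1 : ℤ) ^ I.card * ∏ t, altw a M I t (φ t) = 0 := by
  refine Finset.sum_involution (fun I _ => symmDiff I {β}) ?_ ?_ ?_ ?_
  · intro I _
    have h1 : ∀ t, altw a M (symmDiff I {β}) t (φ t) = altw a M I t (φ t) := by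
      intro t
      have h2 := hβ t
      cases h : φ t with
      | none => rfl
      | some γ =>
        have h3 : γ ≠ β := by
          rintro rfl
          exact h2 h
        simp only [altw]
        have h4 : γ ∈ symmDiff I {β} ↔ γ ∈ I := by
          simp [Finset.mem_symmDiff, h3]
        simp only [h4]
    rw [Finset.prod_congr rfl fun t _ => h1 t, ← add_mul]
    have h5 : (-1 : ℤ) ^ I.card + (-1 : ℤ) ^ (symmDiff I {β}).card = 0 := by
      by_cases hI : β ∈ I
      · have h6 : symmDiff I {β} = I.erase β := by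
          ext γ
          simp only [Finset.mem_symmDiff, Finset.mem_singleton, Finset.mem_erase]
          constructor
          · rintro (⟨h, h'⟩ | ⟨h, h'⟩)
            · exact ⟨h', h⟩
            · subst h; exact absurd hI h'
          · rintro ⟨h, h'⟩
            exact Or.inl ⟨h', h⟩
        rw [h6, ← Finset.card_erase_add_one hI, pow_succ]
        ring
      · have h6 : symmDiff I {β} = insert β I := by
          ext γ
          simp only [Finset.mem_symmDiff, Finset.mem_singleton, Finset.mem_insert]
          constructor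
          · rintro (⟨h, h'⟩ | ⟨h, h'⟩)
            · exact Or.inr h
            · exact Or.inl h
          · rintro (h | h)
            · subst h; exact Or.inr ⟨rfl, hI⟩
            · refine Or.inl ⟨h, ?_⟩
              rintro rfl
              exact hI h
        rw [h6, Finset.card_insert_of_notMem hI, pow_succ]
        ring
    rw [h5, zero_mul]
  · intro I _ _ h
    have h1 : β ∈ symmDiff I {β} ↔ β ∈ I := by rw [h]
    rw [Finset.mem_symmDiff, Finset.mem_singleton] at h1
    tauto
  · intro I _
    exact Finset.mem_univ _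
  · intro I _
    simp

theorem alt_inner_cover {B : Type} [Fintype B] [DecidableEq B] (a : B → ℤ) (M : B → B → ℤ)
    (φ : B → Option B) (hφ : ∀ β, ∃ t, φ t = some β) :
    ∑ I : Finset B, (-1 : ℤ) ^ I.card * ∏ t, altw a M I t (φ t) =
      (-1 : ℤ) ^ (Finset.univ : Finset B).card * ∏ t, altw a M Finset.univ t (φ t) := by
  refine Finset.sum_eq_single_of_mem _ (Finset.mem_univ _) ?_
  intro I _ hI
  have h1 : ∃ β, β ∉ I := by
    by_contra h
    push Not at h
    exact hI (Finset.eq_univ_iff_forall.2 h)
  obtain ⟨β, hβ⟩ := h1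
  obtain ⟨t, ht⟩ := hφ β
  rw [Finset.prod_eq_zero (Finset.mem_univ t), mul_zero]
  rw [ht]
  simp [altw, hβ]

theorem alt_pos {B : Type} [Fintype B] [DecidableEq B] (a : B → ℤ) (M : B → B → ℤ)
    (ha : ∀ t, 0 ≤ a t) (hM : ∀ β t, 0 ≤ M β t) (hd : ∀ t, 0 < M t t) :
    0 < (-1 : ℤ) ^ (Finset.univ : Finset B).card *
      ∑ I : Finset B, (-1 : ℤ) ^ I.card * ∏ t, (a t + ∑ β, if β ∈ I then M β t else 0) := by
  have h1 : ∀ I : Finset B, ∏ t, (a t + ∑ β, if β ∈ I then M β t else 0) =
      ∑ φ : B → Option B, ∏ t, altw a M I t (φ t) := by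
    intro I
    have h2 : ∀ t, (a t + ∑ β, if β ∈ I then M β t else 0) = ∑ o : Option B, altw a M I t o := by
      intro t
      rw [Fintype.sum_option]
      rfl
    rw [Finset.prod_congr rfl fun t _ => h2 t, Finset.prod_univ_sum, Fintype.piFinset_univ]
  simp only [h1, Finset.mul_sum]
  rw [Finset.sum_comm]
  have h3 : ∀ φ : B → Option B, 0 ≤ ∑ I : Finset B, (-1 : ℤ) ^ (Finset.univ : Finset B).card *
      ((-1 : ℤ) ^ I.card * ∏ t, altw a M I t (φ t)) := by
    intro φ
    rw [← Finset.mul_sum]
    by_cases hφ : ∀ β, ∃ t, φ t = some β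
    · rw [alt_inner_cover a M φ hφ, ← mul_assoc, ← mul_pow]
      simp only [mul_neg, mul_one, neg_neg, one_pow, one_mul]
      refine Finset.prod_nonneg fun t _ => ?_
      cases φ t with
      | none => exact ha t
      | some β => simpa [altw] using hM β t
    · push Not at hφ
      obtain ⟨β, hβ⟩ := hφ
      rw [alt_inner_zero a M φ β hβ, mul_zero]
  refine Finset.sum_pos' (fun φ _ => h3 φ) ⟨some, Finset.mem_univ _, ?_⟩
  rw [← Finset.mul_sum, alt_inner_cover a M some (fun β => ⟨β, rfl⟩), ← mul_assoc, ← mul_pow]
  simp only [mul_neg, mul_one, neg_neg, one_pow, one_mul]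
  refine Finset.prod_pos fun t _ => ?_
  simpa [altw] using hd t

theorem alt_ne_zero {S C : Type} [Fintype S] [DecidableEq S] [DecidableEq C] (col : S → C)
    (r N : ℕ) :
    ∑ I : Finset (S ⊕ Fin r), (-1 : ℤ) ^ I.card *
      ∏ t : S ⊕ Fin r, ((N : ℤ) + 1 + (I.filter fun β => t ∈ MM col r β).card) ≠ 0 := by
  have h := alt_pos (B := S ⊕ Fin r) (fun _ => (N : ℤ) + 1)
    (fun β t => if MMb col r β t = true then 1 else 0) (fun t => by positivity)
    (fun β t => by split_ifs <;> norm_num) (fun t => by
      rcases t with t | t <;> simp [MMb])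
  have h1 : ∀ (I : Finset (S ⊕ Fin r)) (t : S ⊕ Fin r),
      ((I.filter fun β => t ∈ MM col r β).card : ℤ) =
      ∑ β, if β ∈ I then (if MMb col r β t = true then (1 : ℤ) else 0) else 0 := by
    intro I t
    rw [Finset.sum_ite_mem, Finset.univ_inter, Finset.card_filter]
    push_cast
    refine Finset.sum_congr rfl fun β _ => ?_
    simp [MM]
  intro h0
  simp only [h1] at h0
  rw [h0, mul_zero] at h
  exact lt_irrefl _ h

end VB
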