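import Pool.Agent.VB.Han

/-!
MODULE VB/App.  Multiplication by any continuous function is, in high degrees, close to holomorphic.

Proof.  Call `f` good if the conclusion of `approx` holds for `f` and every `ε > 0`.
(1) Good functions form a linear subspace, closed in the uniform norm (`L2_mul_le`), and contain `1`
(`x ∈ Hn n` is in `Hol`).
(2) If `f` is good then `f * cf s j` is good: for `x ∈ Hn n` the function `cf s j * x` is in
`Hn (n + Pi.single s 1)` and `‖L2 (cf s j * x)‖ ≤ ‖L2 x‖` (`‖cf s j‖ ≤ 1`).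
(3) If `f` is good then `f * ccf s j` is good: given `ε`, by `hankel` there is `x₁ ∈ Hn (n - 1_s)` with
`‖L2 (ccf s j * x - x₁)‖ ≤ η ‖L2 x‖`, `η = (n s + 1)^(-1/2)` small for `n s` large; then
`‖L2 (f * (ccf s j * x) - y)‖ ≤ ‖f‖ η ‖L2 x‖ + ‖L2 (f * x₁ - y)‖` and `‖L2 x₁‖ ≤ (1 + η) ‖L2 x‖`.
(4) Hence all products of functions `cf s j`, `ccf s j` are good (induction with
`Submonoid.closure_induction_right` or similar), so the star algebra generated by the `cf s j` consists of good functions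
(`Algebra.adjoin_eq_span`), and it is dense by Stone-Weierstrass
(`ContinuousMap.starSubalgebra_topologicalClosure_eq_top_of_separatesPoints`).
-/

open MeasureTheory

open scoped ComplexConjugate

namespace VB

variable {S : Type} [Fintype S] [DecidableEq S]

/-- The conclusion of `approx` for the function `f`. -/
def Good (f : C(S → S3, ℂ)) : Prop :=
  ∀ ε : ℝ, 0 < ε → ∃ N0 : ℕ, ∀ n : S → ℕ, (∀ s, N0 ≤ n s) → ∀ x ∈ Hn n,
    ∃ y ∈ (Hol : Submodule ℂ C(S → S3, ℂ)), ‖L2 (f * x - y)‖ ≤ ε * ‖L2 x‖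

omit [DecidableEq S] in
theorem good_add {f g : C(S → S3, ℂ)} (hf : Good f) (hg : Good g) : Good (f + g) := by
  intro ε hε
  obtain ⟨N1, h1⟩ := hf (ε / 2) (by positivity)
  obtain ⟨N2, h2⟩ := hg (ε / 2) (by positivity)
  refine ⟨max N1 N2, fun n hn x hx => ?_⟩
  obtain ⟨y1, hy1, h1⟩ := h1 n (fun s => (le_max_left _ _).trans (hn s)) x hx
  obtain ⟨y2, hy2, h2⟩ := h2 n (fun s => (le_max_right _ _).trans (hn s)) x hx
  refine ⟨y1 + y2, Submodule.add_mem _ hy1 hy2, ?_⟩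
  have h3 : (f + g) * x - (y1 + y2) = (f * x - y1) + (g * x - y2) := by ring
  rw [h3, L2_add]
  calc _ ≤ ‖L2 (f * x - y1)‖ + ‖L2 (g * x - y2)‖ := norm_add_le _ _
    _ ≤ ε / 2 * ‖L2 x‖ + ε / 2 * ‖L2 x‖ := add_le_add h1 h2
    _ = _ := by ring

omit [DecidableEq S] in
theorem good_smul {f : C(S → S3, ℂ)} (c : ℂ) (hf : Good f) : Good (c • f) := by
  intro ε hε
  obtain ⟨N1, h1⟩ := hf (ε / (‖c‖ + 1)) (by positivity)
  refine ⟨N1, fun n hn x hx => ?_⟩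
  obtain ⟨y1, hy1, h1⟩ := h1 n hn x hx
  refine ⟨c • y1, Submodule.smul_mem _ _ hy1, ?_⟩
  have h3 : L2 ((c • f) * x - c • y1) = c • L2 (f * x - y1) := by
    rw [smul_mul_assoc, L2_sub, L2_sub, L2_smul, L2_smul, smul_sub]
  rw [h3, norm_smul]
  have hc : 0 ≤ ‖c‖ := norm_nonneg c
  have h4 : ‖c‖ * (ε / (‖c‖ + 1)) ≤ ε := by
    rw [mul_div_assoc', div_le_iff₀ (by positivity)]
    nlinarith
  calc ‖c‖ * ‖L2 (f * x - y1)‖ ≤ ‖c‖ * (ε / (‖c‖ + 1) * ‖L2 x‖) :=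
        mul_le_mul_of_nonneg_left h1 hc
    _ = (‖c‖ * (ε / (‖c‖ + 1))) * ‖L2 x‖ := by ring
    _ ≤ _ := mul_le_mul_of_nonneg_right h4 (norm_nonneg _)

omit [DecidableEq S] in
theorem good_one : Good (1 : C(S → S3, ℂ)) := by
  intro ε hε
  refine ⟨0, fun n _ x hx => ⟨x, Hn_le_Hol n hx, ?_⟩⟩
  have h1 : L2 ((1 : C(S → S3, ℂ)) * x - x) = 0 := by
    rw [L2_sub, one_mul, sub_self]
  rw [h1, norm_zero]
  positivity

omit [DecidableEq S] in
theorem good_closed {f : C(S → S3, ℂ)}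
    (h : ∀ ε : ℝ, 0 < ε → ∃ g : C(S → S3, ℂ), Good g ∧ ‖f - g‖ ≤ ε) : Good f := by
  intro ε hε
  obtain ⟨g, hg, hfg⟩ := h (ε / 2) (by positivity)
  obtain ⟨N1, h1⟩ := hg (ε / 2) (by positivity)
  refine ⟨N1, fun n hn x hx => ?_⟩
  obtain ⟨y1, hy1, h1⟩ := h1 n hn x hx
  refine ⟨y1, hy1, ?_⟩
  have h3 : f * x - y1 = (f - g) * x + (g * x - y1) := by ring
  rw [h3, L2_add]
  calc _ ≤ ‖L2 ((f - g) * x)‖ + ‖L2 (g * x - y1)‖ := norm_add_le _ _
    _ ≤ ‖f - g‖ * ‖L2 x‖ + ε / 2 * ‖L2 x‖ := add_le_add (L2_mul_le _ _) h1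
    _ ≤ ε / 2 * ‖L2 x‖ + ε / 2 * ‖L2 x‖ :=
        add_le_add (mul_le_mul_of_nonneg_right hfg (norm_nonneg _)) le_rfl
    _ = _ := by ring

theorem norm_coord_le (j : Fin 2) (z : S3) : ‖coord j z‖ ≤ 1 := by
  have h := coord_sq z
  have h0 := sq_nonneg ‖coord 0 z‖
  have h1 := sq_nonneg ‖coord 1 z‖
  apply le_of_sq_le_sq _ zero_le_one
  fin_cases j
  · simp only [Fin.zero_eta]; linarith
  · simp only [Fin.mk_one]; linarith

omit [DecidableEq S] in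
theorem norm_cf_le (s : S) (j : Fin 2) : ‖cf s j‖ ≤ 1 :=
  (ContinuousMap.norm_le _ zero_le_one).mpr fun z => norm_coord_le j (z s)

omit [DecidableEq S] in
theorem norm_ccf_le (s : S) (j : Fin 2) : ‖ccf s j‖ ≤ 1 := by
  refine (ContinuousMap.norm_le _ zero_le_one).mpr fun z => ?_
  show ‖conj (coord j (z s))‖ ≤ 1
  rw [RCLike.norm_conj]
  exact norm_coord_le j (z s)

theorem cf_mul_mem (n : S → ℕ) (s0 : S) (j : Fin 2) (x : C(S → S3, ℂ)) (hx : x ∈ Hn n) :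
    cf s0 j * x ∈ Hn (n + Pi.single s0 1) := by
  obtain ⟨A, a, hA, rfl⟩ := mem_Hn_iff n x hx
  rw [Finset.mul_sum]
  refine Submodule.sum_mem _ fun α hα => ?_
  rw [mul_smul_comm, ← monA_eA, ← monA_add]
  refine Submodule.smul_mem _ _ (monA_mem_Hn fun s => ?_)
  have h1 := hA α hα s
  simp only [Pi.add_apply]
  by_cases hs : s = s0
  · subst hs
    rw [eA, Pi.single_eq_same, Pi.single_eq_same]
    have : (Pi.single j 1 : Fin 2 → ℕ) 0 + (Pi.single j 1 : Fin 2 → ℕ) 1 = 1 := by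
      fin_cases j <;> simp
    omega
  · rw [eA, Pi.single_eq_of_ne hs, Pi.single_eq_of_ne hs]
    simp only [Pi.zero_apply]
    omega

theorem good_mul_cf {f : C(S → S3, ℂ)} (hf : Good f) (s0 : S) (j : Fin 2) :
    Good (f * cf s0 j) := by
  intro ε hε
  obtain ⟨N1, h1⟩ := hf ε hε
  refine ⟨N1, fun n hn x hx => ?_⟩
  obtain ⟨y1, hy1, h1⟩ := h1 (n + Pi.single s0 1)
    (fun s => (hn s).trans (Nat.le_add_right _ _)) (cf s0 j * x) (cf_mul_mem n s0 j x hx)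
  refine ⟨y1, hy1, ?_⟩
  rw [mul_assoc]
  refine h1.trans (mul_le_mul_of_nonneg_left ?_ hε.le)
  refine (L2_mul_le _ _).trans ?_
  exact mul_le_of_le_one_left (norm_nonneg _) (norm_cf_le s0 j)

theorem good_mul_ccf {f : C(S → S3, ℂ)} (hf : Good f) (s0 : S) (j : Fin 2) :
    Good (f * ccf s0 j) := by
  intro ε hε
  obtain ⟨N1, h1⟩ := hf (ε / 4) (by positivity)
  -- the threshold for the Hankel estimate
  obtain ⟨N2, hN2⟩ := exists_nat_gt ((2 * (‖f‖ + 1) / ε) ^ 2)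
  refine ⟨max (N1 + 1) N2, fun n hn x hx => ?_⟩
  have hn1 : ∀ s, N1 + 1 ≤ n s := fun s => (le_max_left _ _).trans (hn s)
  have hn2 : (N2 : ℝ) ≤ n s0 := by exact_mod_cast (le_max_right _ _).trans (hn s0)
  obtain ⟨x1, hx1, hh⟩ := hankel n s0 j x hx
  obtain ⟨y1, hy1, h1⟩ := h1 (n - Pi.single s0 1) (fun s => by
    rw [Pi.sub_apply]
    have h2 := hn1 s
    have h3 : (Pi.single s0 1 : S → ℕ) s ≤ 1 := by
      by_cases hs : s = s0
      · subst hs; rw [Pi.single_eq_same]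
      · rw [Pi.single_eq_of_ne hs]; exact Nat.zero_le _
    omega) x1 hx1
  refine ⟨y1, hy1, ?_⟩
  set t : ℝ := ‖L2 (ccf s0 j * x - x1)‖ with ht
  have ht0 : 0 ≤ t := norm_nonneg _
  have hx0 : 0 ≤ ‖L2 x‖ := norm_nonneg _
  have hf0 : 0 ≤ ‖f‖ := norm_nonneg _
  -- `t ≤ ε / (2 (‖f‖ + 1)) ‖L2 x‖`
  have ht1 : t ≤ ε / (2 * (‖f‖ + 1)) * ‖L2 x‖ := by
    apply le_of_sq_le_sq _ (by positivity)
    refine hh.trans ?_
    rw [mul_pow, div_le_iff₀ (by positivity)]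
    have h3 : (2 * (‖f‖ + 1) / ε) ^ 2 ≤ (n s0 : ℝ) + 1 := by linarith
    have h4 : 1 ≤ (ε / (2 * (‖f‖ + 1))) ^ 2 * ((n s0 : ℝ) + 1) := by
      calc (1 : ℝ) = (ε / (2 * (‖f‖ + 1))) ^ 2 * (2 * (‖f‖ + 1) / ε) ^ 2 := by
            rw [← mul_pow, div_mul_div_comm, mul_comm ε, div_self (by positivity), one_pow]
        _ ≤ _ := mul_le_mul_of_nonneg_left h3 (by positivity)
    nlinarith [mul_le_mul_of_nonneg_left h4 (sq_nonneg ‖L2 x‖)]
  -- the norm of `x1`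
  have hx1n : ‖L2 x1‖ ≤ ‖L2 x‖ + t := by
    have h3 : L2 x1 = L2 (ccf s0 j * x) - L2 (ccf s0 j * x - x1) := by
      rw [L2_sub (ccf s0 j * x) x1, sub_sub_cancel]
    rw [h3]
    refine (norm_sub_le _ _).trans (add_le_add ?_ le_rfl)
    refine (L2_mul_le _ _).trans ?_
    exact mul_le_of_le_one_left (norm_nonneg _) (norm_ccf_le s0 j)
  have h5 : f * ccf s0 j * x - y1 = f * (ccf s0 j * x - x1) + (f * x1 - y1) := by ring
  rw [h5, L2_add]
  have h6 : ‖f‖ * (ε / (2 * (‖f‖ + 1))) ≤ ε / 2 := by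
    rw [mul_div_assoc', div_le_div_iff₀ (by positivity) (by norm_num)]
    nlinarith
  have ht2 : t ≤ ‖L2 x‖ := by
    apply le_of_sq_le_sq _ hx0
    refine hh.trans (div_le_self (sq_nonneg _) ?_)
    have : (0 : ℝ) ≤ n s0 := by positivity
    linarith
  calc _ ≤ ‖L2 (f * (ccf s0 j * x - x1))‖ + ‖L2 (f * x1 - y1)‖ := norm_add_le _ _
    _ ≤ ‖f‖ * t + ε / 4 * ‖L2 x1‖ := add_le_add (L2_mul_le _ _) h1
    _ ≤ ‖f‖ * (ε / (2 * (‖f‖ + 1)) * ‖L2 x‖) + ε / 4 * (‖L2 x‖ + t) :=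
        add_le_add (mul_le_mul_of_nonneg_left ht1 hf0)
          (mul_le_mul_of_nonneg_left hx1n (by positivity))
    _ = (‖f‖ * (ε / (2 * (‖f‖ + 1)))) * ‖L2 x‖ + ε / 4 * (‖L2 x‖ + t) := by ring
    _ ≤ ε / 2 * ‖L2 x‖ + ε / 4 * (‖L2 x‖ + ‖L2 x‖) :=
        add_le_add (mul_le_mul_of_nonneg_right h6 hx0)
          (mul_le_mul_of_nonneg_left (by linarith) (by positivity))
    _ = ε * ‖L2 x‖ := by ring

/-- The generators. -/
def gens : Set C(S → S3, ℂ) := Set.range fun q : S × Fin 2 => cf q.1 q.2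

theorem good_mul_adjoin {g : C(S → S3, ℂ)}
    (hg : g ∈ Algebra.adjoin ℂ ((gens : Set C(S → S3, ℂ)) ∪ star gens)) :
    ∀ f : C(S → S3, ℂ), Good f → Good (f * g) := by
  induction hg using Algebra.adjoin_induction with
  | mem g hg =>
    intro f hf
    rcases hg with ⟨⟨s, j⟩, rfl⟩ | hg
    · exact good_mul_cf hf s j
    · obtain ⟨⟨s, j⟩, h⟩ := hg
      have h2 : g = ccf s j := by
        rw [← star_cf, ← star_star g]
        exact congrArg star h.symm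
      rw [h2]
      exact good_mul_ccf hf s j
  | algebraMap r =>
    intro f hf
    rw [Algebra.algebraMap_eq_smul_one, mul_smul_comm, mul_one]
    exact good_smul r hf
  | add g₁ g₂ _ _ h₁ h₂ =>
    intro f hf
    rw [mul_add]
    exact good_add (h₁ f hf) (h₂ f hf)
  | mul g₁ g₂ _ _ h₁ h₂ =>
    intro f hf
    rw [← mul_assoc]
    exact h₂ _ (h₁ f hf)

theorem separates : (StarAlgebra.adjoin ℂ (gens : Set C(S → S3, ℂ))).SeparatesPoints := by
  intro z w hzw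
  obtain ⟨s, hs⟩ := Function.ne_iff.mp hzw
  have h1 : ∃ j : Fin 2, coord j (z s) ≠ coord j (w s) := by
    by_contra hcon
    push Not at hcon
    apply hs
    apply Subtype.ext
    ext j
    exact hcon j
  obtain ⟨j, hj⟩ := h1
  refine ⟨cf s j, ⟨cf s j, ?_, rfl⟩, hj⟩
  exact StarAlgebra.subset_adjoin ℂ _ ⟨(s, j), rfl⟩

theorem approx (f : C(S → S3, ℂ)) (ε : ℝ) (hε : 0 < ε) :
    ∃ N0 : ℕ, ∀ n : S → ℕ, (∀ s, N0 ≤ n s) → ∀ x ∈ Hn n, ∃ y ∈ (Hol : Submodule ℂ C(S → S3, ℂ)),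
      ‖L2 (f * x - y)‖ ≤ ε * ‖L2 x‖ := by
  have h1 := ContinuousMap.starSubalgebra_topologicalClosure_eq_top_of_separatesPoints
    (StarAlgebra.adjoin ℂ (gens : Set C(S → S3, ℂ))) separates
  have h2 : f ∈ (StarAlgebra.adjoin ℂ (gens : Set C(S → S3, ℂ))).topologicalClosure := by
    rw [h1]
    trivial
  have h3 : f ∈ closure ((StarAlgebra.adjoin ℂ (gens : Set C(S → S3, ℂ)) :
      StarSubalgebra ℂ C(S → S3, ℂ)) : Set C(S → S3, ℂ)) := h2
  have h4 : Good f := by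
    refine good_closed fun δ hδ => ?_
    obtain ⟨g, hg, hgd⟩ := Metric.mem_closure_iff.mp h3 δ hδ
    refine ⟨g, ?_, ?_⟩
    · have h5 : g ∈ Algebra.adjoin ℂ ((gens : Set C(S → S3, ℂ)) ∪ star gens) := by
        rw [← StarAlgebra.adjoin_toSubalgebra]
        exact hg
      have := good_mul_adjoin h5 1 good_one
      rwa [one_mul] at this
    · rw [← dist_eq_norm]
      exact hgd.le
  exact h4 ε hε

end VB
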