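import Mathlib

/-!
Definitions used in the final statements: tracial states, quasitraces, dimension functions,
Cuntz comparison, radius of comparison, Rokhlin properties, stable rank one, stable finiteness.
-/

open Filter Topology

namespace VB

/-- `τ` is a tracial state on the unital C*-algebra `A`. -/
structure IsTracialState {A : Type} [CStarAlgebra A] (τ : A →ₗ[ℂ] ℂ) : Prop where
  nonneg : ∀ x : A, ∃ r : ℝ, 0 ≤ r ∧ τ (star x * x) = r
  one : τ 1 = 1
  trace : ∀ x y : A, τ (x * y) = τ (y * x)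

/-- `τ` is a (finite) 1-quasitrace on the C*-algebra `B`. -/
structure IsQuasitrace {B : Type} [CStarAlgebra B] (τ : B → ℂ) : Prop where
  nonneg : ∀ x : B, ∃ r : ℝ, 0 ≤ r ∧ τ (star x * x) = r
  tracial : ∀ x : B, τ (star x * x) = τ (x * star x)
  real_imag : ∀ a b : B, IsSelfAdjoint a → IsSelfAdjoint b →
    τ (a + Complex.I • b) = τ a + Complex.I * τ b
  add : ∀ S : StarSubalgebra ℂ B, IsClosed (S : Set B) → (∀ a ∈ S, ∀ b ∈ S, a * b = b * a) →
    ∀ a ∈ S, ∀ b ∈ S, τ (a + b) = τ a + τ b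
  smul : ∀ S : StarSubalgebra ℂ B, IsClosed (S : Set B) → (∀ a ∈ S, ∀ b ∈ S, a * b = b * a) →
    ∀ a ∈ S, ∀ c : ℂ, τ (c • a) = c * τ a

/-- The upper left corner embedding of `M_n(A)` in `M_{n+1}(A)`. -/
def corner {A : Type} [Zero A] {n : ℕ} (a : CStarMatrix (Fin n) (Fin n) A) :
    CStarMatrix (Fin (n + 1)) (Fin (n + 1)) A :=
  CStarMatrix.ofMatrix fun i j =>
    if h : i.1 < n ∧ j.1 < n then a ⟨i.1, h.1⟩ ⟨j.1, h.2⟩ else 0

/-- A normalized 2-quasitrace on `A`, given together with its extension to all matrix algebras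
over `A` (every 2-quasitrace has exactly one such extension). -/
structure QTrace (A : Type) [CStarAlgebra A] [PartialOrder A] [StarOrderedRing A] where
  τ : ∀ n : ℕ, CStarMatrix (Fin n) (Fin n) A → ℂ
  quasi : ∀ n : ℕ, IsQuasitrace (τ n)
  corner : ∀ (n : ℕ) (a : CStarMatrix (Fin n) (Fin n) A), τ (n + 1) (corner a) = τ n a
  norm : τ 1 1 = 1

/-- An element of a C*-algebra is positive if it has the form `x* x`. -/
def IsPos {B : Type} [CStarAlgebra B] (a : B) : Prop := ∃ x : B, a = star x * x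

/-- The power `a^(1/(k+1))` of a positive element, by continuous functional calculus. -/
noncomputable def root {B : Type} [CStarAlgebra B] (k : ℕ) (a : B) : B :=
  cfc (fun x : ℝ => x ^ (1 / ((k : ℝ) + 1))) a

/-- The dimension function `d_τ(a) = lim τ(a^(1/k))` on positive matrices over `A`. -/
noncomputable def dtau {A : Type} [CStarAlgebra A] [PartialOrder A] [StarOrderedRing A]
    (t : QTrace A) {n : ℕ} (a : CStarMatrix (Fin n) (Fin n) A) : ℝ :=
  limUnder atTop fun k : ℕ => (t.τ n (root k a)).re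

/-- Cuntz subequivalence. -/
def CuntzLE {B : Type} [CStarAlgebra B] (a b : B) : Prop :=
  ∃ v : ℕ → B, Tendsto (fun k => v k * b * star (v k)) atTop (𝓝 a)

/-- `A` has `r`-comparison. -/
def HasComparison (A : Type) [CStarAlgebra A] [PartialOrder A] [StarOrderedRing A] (r : ℝ) :
    Prop :=
  ∀ (n : ℕ) (a b : CStarMatrix (Fin n) (Fin n) A), IsPos a → IsPos b →
    (∀ t : QTrace A, dtau t a + r < dtau t b) → CuntzLE a b

/-- The radius of comparison of `A`, with value in `[0, ∞]`. -/
noncomputable def rc (A : Type) [CStarAlgebra A] [PartialOrder A] [StarOrderedRing A] : ENNReal :=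
  ⨅ (r : NNReal) (_ : HasComparison A (r : ℝ)), (r : ENNReal)

/-- An action of the group `G` on the C*-algebra `A`. -/
structure Action (G A : Type) [Group G] [CStarAlgebra A] where
  toFun : G → (A ≃⋆ₐ[ℂ] A)
  one : ∀ a, toFun 1 a = a
  mul : ∀ g h a, toFun (g * h) a = toFun g (toFun h a)

/-- The Rokhlin property for an action of a finite group. -/
def HasRokhlin {G A : Type} [Group G] [Fintype G] [CStarAlgebra A] (α : Action G A) : Prop :=
  ∀ (F : Finset A) (ε : ℝ), 0 < ε → ∃ e : G → A,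
    (∀ g, star (e g) = e g ∧ e g * e g = e g) ∧
    (∀ g h, g ≠ h → e g * e h = 0) ∧
    ∑ g, e g = 1 ∧
    (∀ g h, ‖α.toFun g (e h) - e (g * h)‖ < ε) ∧
    (∀ g, ∀ a ∈ F, ‖e g * a - a * e g‖ < ε)

/-- The weak tracial Rokhlin property for an action of a finite group. -/
def HasWeakTracialRokhlin {G A : Type} [Group G] [Fintype G] [CStarAlgebra A]
    (α : Action G A) : Prop :=
  ∀ (F : Finset A) (ε : ℝ) (x : A), 0 < ε → IsPos x → ‖x‖ = 1 → ∃ f : G → A,
    (∀ g, IsPos (f g) ∧ ‖f g‖ ≤ 1) ∧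
    (∀ g h, g ≠ h → f g * f h = 0) ∧
    (∀ g h, ‖α.toFun g (f h) - f (g * h)‖ < ε) ∧
    (∀ g, ∀ a ∈ F, ‖f g * a - a * f g‖ < ε) ∧
    CuntzLE (1 - ∑ g, f g) x ∧
    1 - ε < ‖(∑ g, f g) * x * (∑ g, f g)‖

/-- Stable rank one: the invertible elements are dense. -/
def StableRankOne (A : Type) [CStarAlgebra A] : Prop := Dense {a : A | IsUnit a}

/-- Stable finiteness: every isometry in every matrix algebra over `A` is unitary. -/
def StablyFinite (A : Type) [CStarAlgebra A] [PartialOrder A] [StarOrderedRing A] : Prop :=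
  ∀ (n : ℕ) (v : CStarMatrix (Fin n) (Fin n) A), star v * v = 1 → v * star v = 1

end VB
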