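import Pool.Agent.VB.Defs
import Pool.Agent.VB.Top

/-!
More definitions for the construction: sections `gfun`, normalized traces `ntr`, constant diagonal
projections `dg`, constant matrices on trivial rows, good sequences of evaluation points.
-/

open scoped Matrix.Norms.L2Operator ComplexConjugate

namespace VB

theorem fin2_sum_sq (z : S3) : ∑ p : Fin 2, ‖coord p z‖ ^ 2 = 1 := by
  rw [Fin.sum_univ_two]; exact coord_sq z

/-- A system of sections of the line bundle of the row `i` (more generally of the color `c`),
without common zero, indexed by functions `P : S → Fin 2`. -/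
noncomputable def Stage.gfun (st : Stage) (c : Option st.C) (P : st.S → Fin 2) : C(st.X, ℂ) where
  toFun z := ∏ s, if some (st.col s) = c then coord (P s) (z s) else (‖coord (P s) (z s)‖ : ℂ)
  continuous_toFun := by
    refine continuous_finsetProd _ fun s _ => ?_
    have h : Continuous fun z : st.X => coord (P s) (z s) :=
      (continuous_coord (P s)).comp (continuous_apply s)
    split_ifs
    · exact h
    · exact Complex.continuous_ofReal.comp h.norm

theorem Stage.gfun_apply (st : Stage) (c : Option st.C) (P : st.S → Fin 2) (z : st.X) :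
    st.gfun c P z = ∏ s, if some (st.col s) = c then coord (P s) (z s) else
      (‖coord (P s) (z s)‖ : ℂ) := rfl

theorem Stage.gfun_act (st : Stage) (c : Option st.C) (P : st.S → Fin 2) (l : st.S → Circle)
    (z : st.X) : st.gfun c P (act l z) = (st.chi c l : ℂ) * st.gfun c P z := by
  have hchi : (st.chi c l : ℂ) = ∏ s, if some (st.col s) = c then (l s : ℂ) else 1 := by
    cases c with
    | none => simp [Stage.chi]
    | some c =>
      simp only [Stage.chi, Option.some.injEq]
      rw [← Finset.prod_filter]
      exact map_prod Circle.coeHom _ _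
  rw [hchi, st.gfun_apply, st.gfun_apply, ← Finset.prod_mul_distrib]
  refine Finset.prod_congr rfl fun s _ => ?_
  show (if some (st.col s) = c then coord (P s) (rot (l s) (z s)) else
    (‖coord (P s) (rot (l s) (z s))‖ : ℂ)) = _
  rw [coord_rot]
  split_ifs
  · rfl
  · simp

theorem Stage.gfun_sq (st : Stage) (c : Option st.C) (z : st.X) :
    ∑ P, ‖st.gfun c P z‖ ^ 2 = 1 := by
  have h : ∀ P : st.S → Fin 2, ‖st.gfun c P z‖ ^ 2 = ∏ s, ‖coord (P s) (z s)‖ ^ 2 := by
    intro P
    rw [st.gfun_apply, norm_prod, ← Finset.prod_pow]
    refine Finset.prod_congr rfl fun s _ => ?_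
    split_ifs <;> simp
  simp_rw [h]
  rw [← Fintype.prod_sum (fun s p => ‖coord p (z s)‖ ^ 2)]
  exact Finset.prod_eq_one fun s _ => fin2_sum_sq (z s)

/-- The normalized trace function. -/
noncomputable def Stage.ntrFun (st : Stage) (f : st.Alg) : C(st.X × Bool, ℂ) where
  toFun p := (Fintype.card st.I : ℂ)⁻¹ * (f.1 p).trace
  continuous_toFun := continuous_const.mul (f.1.continuous.matrix_trace)

/-- The normalized trace as a scalar valued element of the building block. -/
noncomputable def Stage.ntr (st : Stage) (f : st.Alg) : st.Alg :=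
  ⟨⟨fun p => st.ntrFun f p • (1 : Matrix st.I st.I ℂ),
    (st.ntrFun f).continuous.smul continuous_const⟩, by
    intro l z e i j
    show (st.ntrFun f (act l z, e) • (1 : Matrix st.I st.I ℂ)) i j =
      _ * (st.ntrFun f (z, e) • (1 : Matrix st.I st.I ℂ)) i j
    have h : st.ntrFun f (act l z, e) = st.ntrFun f (z, e) := by
      show (Fintype.card st.I : ℂ)⁻¹ * (f.1 (act l z, e)).trace =
        (Fintype.card st.I : ℂ)⁻¹ * (f.1 (z, e)).trace
      congr 1
      simp only [Matrix.trace, Matrix.diag_apply]
      refine Finset.sum_congr rfl fun i _ => ?_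
      rw [f.2 l z e i i, div_self']
      simp
    rw [h]
    rcases eq_or_ne i j with hij | hij
    · subst hij; simp
    · simp [Matrix.one_apply_ne hij]⟩

/-- The constant diagonal projection onto the rows in `R`. -/
noncomputable def Stage.dg (st : Stage) (R : st.I → Bool) : st.Alg :=
  ⟨⟨fun _ => Matrix.diagonal fun i => if R i = true then (1 : ℂ) else 0, continuous_const⟩, by
    intro l z e i j
    show Matrix.diagonal (fun i => if R i = true then (1 : ℂ) else 0) i j =
      _ * Matrix.diagonal (fun i => if R i = true then (1 : ℂ) else 0) i j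
    rcases eq_or_ne i j with hij | hij
    · subst hij; simp
    · simp [Matrix.diagonal_apply_ne _ hij]⟩

/-- Good sequences of evaluation points. -/
def GoodPts (x : ∀ n, (stg n).X) : Prop :=
  ∀ (n : ℕ) (U : Set (stg n).X), IsOpen U → U.Nonempty →
    ∃ (m : ℕ) (h : n ≤ m) (y : (stg n).X), y ∈ U ∧
      ∃ V : Matrix (stg m).I (stg n).I ℂ, V.conjTranspose * V = 1 ∧
        ∀ (f : BA n) (e : Bool), (iter (bconn x) h f).1 (x m, e) * V = V * f.1 (y, e)

end VB
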