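import Pool.Agent.VB.TDefs

/-!
MODULE VB/Cliff.  The Clifford operator squares to a scalar (pointwise linear algebra).

Proof.  Write `F = cliff ord c`.  Entry `(I, J)` of `F` is nonzero only for `J = I ∆ {β}` and then
equals `sgn β I * (c β or conj (c β))`.
(1) `F` is self adjoint: for `J = I ∆ {β}` one has `sgn β J = sgn β I` (the element `β` itself is
not counted in the sign) and exactly one of `β ∈ I`, `β ∈ J` holds.  So
`∑ I, conj (F ξ I) * F ξ I = ∑ I, conj (ξ I) * F (F ξ) I`.
(2) `F (F ξ) I = ∑ β, ∑ γ, sgn β I * sgn γ (I ∆ {β}) * c_β(I) * c_γ(I ∆ {β}) * ξ (I ∆ {β} ∆ {γ})`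
with `c_β(I) = if β ∈ I then c β else conj (c β)`.  For `β ≠ γ` one has `c_γ(I ∆ {β}) = c_γ(I)`,
and the terms `(β, γ)` and `(γ, β)` cancel: if `ord β < ord γ` then
`sgn γ (I ∆ {β}) = - sgn γ I` and `sgn β (I ∆ {γ}) = sgn β I`.
The diagonal terms give `∑ β, ‖c β‖^2 * ξ I`.
-/

open scoped ComplexConjugate

namespace VB

set_option linter.unusedSectionVars false

section

variable {B : Type} [Fintype B] [DecidableEq B] (ord : B → ℕ)

/-- The coefficient `c β` or its conjugate. -/
noncomputable def cc (c : B → ℂ) (β : B) (I : Finset B) : ℂ := if β ∈ I then c β else conj (c β)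

theorem mem_flip (I : Finset B) (β γ : B) :
    γ ∈ symmDiff I {β} ↔ (if γ = β then β ∉ I else γ ∈ I) := by
  rw [Finset.mem_symmDiff, Finset.mem_singleton]
  split_ifs with h
  · subst h; tauto
  · tauto

theorem flip_flip (I : Finset B) (β : B) : symmDiff (symmDiff I {β}) {β} = I := by
  rw [symmDiff_assoc, symmDiff_self]; simp

theorem flip_comm (I : Finset B) (β γ : B) :
    symmDiff (symmDiff I {β}) {γ} = symmDiff (symmDiff I {γ}) {β} := by
  exact symmDiff_right_comm I {β} {γ}

theorem sgn_flip_self (I : Finset B) (β : B) : sgn ord β (symmDiff I {β}) = sgn ord β I := by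
  unfold sgn
  congr 2
  ext γ
  rw [Finset.mem_filter, Finset.mem_filter, mem_flip]
  constructor
  · rintro ⟨h1, h2⟩
    rw [if_neg (by rintro rfl; omega)] at h1
    exact ⟨h1, h2⟩
  · rintro ⟨h1, h2⟩
    rw [if_neg (by rintro rfl; omega)]
    exact ⟨h1, h2⟩

theorem sgn_flip_of_le (I : Finset B) (β γ : B) (h : ord β ≤ ord γ) :
    sgn ord β (symmDiff I {γ}) = sgn ord β I := by
  unfold sgn
  congr 2
  ext δ
  rw [Finset.mem_filter, Finset.mem_filter, mem_flip]
  constructor
  · rintro ⟨h1, h2⟩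
    rw [if_neg (by rintro rfl; omega)] at h1
    exact ⟨h1, h2⟩
  · rintro ⟨h1, h2⟩
    rw [if_neg (by rintro rfl; omega)]
    exact ⟨h1, h2⟩

theorem sgn_flip_of_lt (I : Finset B) (β γ : B) (h : ord β < ord γ) :
    sgn ord γ (symmDiff I {β}) = - sgn ord γ I := by
  unfold sgn
  by_cases hβ : β ∈ I
  · have h1 : (symmDiff I {β}).filter (fun δ => ord δ < ord γ) =
        (I.filter fun δ => ord δ < ord γ).erase β := by
      ext δ
      rw [Finset.mem_filter, mem_flip, Finset.mem_erase, Finset.mem_filter]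
      by_cases hd : δ = β
      · subst hd; simp [hβ]
      · simp [hd]
    have h2 : β ∈ I.filter fun δ => ord δ < ord γ := Finset.mem_filter.2 ⟨hβ, h⟩
    rw [h1, ← Finset.card_erase_add_one h2, pow_succ]
    ring
  · have h1 : (symmDiff I {β}).filter (fun δ => ord δ < ord γ) =
        insert β (I.filter fun δ => ord δ < ord γ) := by
      ext δ
      rw [Finset.mem_filter, mem_flip, Finset.mem_insert, Finset.mem_filter]
      by_cases hd : δ = β
      · subst hd; simp [hβ, h]
      · simp [hd]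
    have h2 : β ∉ I.filter fun δ => ord δ < ord γ := by simp [hβ]
    rw [h1, Finset.card_insert_of_notMem h2, pow_succ]
    ring

theorem sgn_sq (I : Finset B) (β : B) : sgn ord β I * sgn ord β I = 1 := by
  unfold sgn
  rw [← mul_pow]; simp

theorem conj_sgn (I : Finset B) (β : B) : conj (sgn ord β I) = sgn ord β I := by
  unfold sgn
  simp

theorem cc_flip_self (c : B → ℂ) (β : B) (I : Finset B) :
    cc c β (symmDiff I {β}) = conj (cc c β I) := by
  unfold cc
  have := mem_flip I β β
  rw [if_pos rfl] at this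
  by_cases h : β ∈ I
  · rw [if_neg (by rw [this]; simpa using h), if_pos h]
  · rw [if_pos (by rw [this]; exact h), if_neg h]; simp

theorem cc_flip_ne (c : B → ℂ) (β γ : B) (hne : γ ≠ β) (I : Finset B) :
    cc c γ (symmDiff I {β}) = cc c γ I := by
  unfold cc
  have := mem_flip I β γ
  rw [if_neg hne] at this
  by_cases h : γ ∈ I
  · rw [if_pos (by rw [this]; exact h), if_pos h]
  · rw [if_neg (by rw [this]; exact h), if_neg h]

theorem cliff_eq (c : B → ℂ) (ξ : Finset B → ℂ) (I : Finset B) :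
    cliff ord c ξ I = ∑ β, sgn ord β I * cc c β I * ξ (symmDiff I {β}) := rfl

theorem cliff_symm (c : B → ℂ) (ξ η : Finset B → ℂ) :
    ∑ I, conj (cliff ord c ξ I) * η I = ∑ I, conj (ξ I) * cliff ord c η I := by
  have h1 : ∀ I, conj (cliff ord c ξ I) * η I =
      ∑ β, sgn ord β I * conj (cc c β I) * conj (ξ (symmDiff I {β})) * η I := by
    intro I
    rw [cliff_eq, map_sum, Finset.sum_mul]
    refine Finset.sum_congr rfl fun β _ => ?_
    rw [map_mul, map_mul, conj_sgn]
  have h2 : ∀ I, conj (ξ I) * cliff ord c η I =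
      ∑ β, conj (ξ I) * (sgn ord β I * cc c β I * η (symmDiff I {β})) := by
    intro I
    rw [cliff_eq, Finset.mul_sum]
  simp only [h1, h2]
  rw [Finset.sum_comm]
  conv_rhs => rw [Finset.sum_comm]
  refine Finset.sum_congr rfl fun β _ => ?_
  let e : Finset B ≃ Finset B :=
    ⟨fun I => symmDiff I {β}, fun I => symmDiff I {β}, fun I => flip_flip I β,
      fun I => flip_flip I β⟩
  refine Fintype.sum_equiv e _ _ fun I => ?_
  change _ = conj (ξ (symmDiff I {β})) * (sgn ord β (symmDiff I {β}) * cc c β (symmDiff I {β}) *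
    η (symmDiff (symmDiff I {β}) {β}))
  rw [flip_flip, sgn_flip_self, cc_flip_self]
  ring

theorem cliff_cliff (hord : Function.Injective ord) (c : B → ℂ) (ξ : Finset B → ℂ)
    (I : Finset B) :
    cliff ord c (cliff ord c ξ) I = (∑ β, (‖c β‖ : ℂ) ^ 2) * ξ I := by
  have h1 : cliff ord c (cliff ord c ξ) I =
      ∑ β, ∑ γ, sgn ord β I * cc c β I * (sgn ord γ (symmDiff I {β}) * cc c γ (symmDiff I {β}) *
        ξ (symmDiff (symmDiff I {β}) {γ})) := by
    rw [cliff_eq]
    refine Finset.sum_congr rfl fun β _ => ?_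
    rw [cliff_eq, Finset.mul_sum]
  set T : B → B → ℂ := fun β γ => sgn ord β I * cc c β I *
    (sgn ord γ (symmDiff I {β}) * cc c γ (symmDiff I {β}) *
        ξ (symmDiff (symmDiff I {β}) {γ})) with hT
  have hdiag : ∀ β, T β β = (‖c β‖ : ℂ) ^ 2 * ξ I := by
    intro β
    simp only [hT]
    rw [flip_flip, sgn_flip_self, cc_flip_self]
    have h2 : sgn ord β I * cc c β I * (sgn ord β I * conj (cc c β I) * ξ I) =
        (sgn ord β I * sgn ord β I) * (cc c β I * conj (cc c β I)) * ξ I := by ring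
    rw [h2, sgn_sq, one_mul, Complex.mul_conj']
    congr 2
    unfold cc
    split_ifs <;> simp
  have hoff : ∀ β γ, β ≠ γ → T β γ = - T γ β := by
    have key : ∀ β γ, ord β < ord γ → T β γ = - T γ β := by
      intro β γ h
      have hne : β ≠ γ := by rintro rfl; omega
      simp only [hT]
      rw [sgn_flip_of_lt ord I β γ h, sgn_flip_of_le ord I β γ h.le,
        cc_flip_ne c β γ hne.symm, cc_flip_ne c γ β hne, flip_comm I β γ]
      ring
    intro β γ hne
    rcases lt_or_gt_of_ne (fun h => hne (hord h) : ord β ≠ ord γ) with h | h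
    · exact key β γ h
    · rw [key γ β h, neg_neg]
  have hsplit : ∑ β, ∑ γ, T β γ = ∑ β, T β β + ∑ β, ∑ γ, (if β = γ then 0 else T β γ) := by
    rw [← Finset.sum_add_distrib]
    refine Finset.sum_congr rfl fun β _ => ?_
    have h3 : ∀ γ, T β γ = (if γ = β then T β γ else 0) + (if β = γ then 0 else T β γ) := by
      intro γ
      by_cases h : β = γ
      · subst h; simp
      · rw [if_neg (fun h' => h h'.symm), if_neg h, zero_add]
    rw [Finset.sum_congr rfl fun γ _ => h3 γ, Finset.sum_add_distrib]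
    simp
  have hz : ∑ β, ∑ γ, (if β = γ then 0 else T β γ) = 0 := by
    have h4 : ∑ β, ∑ γ, (if β = γ then 0 else T β γ) =
        - ∑ β, ∑ γ, (if β = γ then 0 else T β γ) := by
      conv_lhs => rw [Finset.sum_comm]
      rw [← Finset.sum_neg_distrib]
      refine Finset.sum_congr rfl fun γ _ => ?_
      rw [← Finset.sum_neg_distrib]
      refine Finset.sum_congr rfl fun β _ => ?_
      by_cases h : β = γ
      · subst h; simp
      · rw [if_neg h, if_neg (fun h' => h h'.symm), hoff β γ h]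
    have h5 : (2 : ℂ) * ∑ β, ∑ γ, (if β = γ then 0 else T β γ) = 0 := by linear_combination h4
    simpa using h5
  rw [h1, hsplit, hz, add_zero, Finset.sum_mul]
  exact Finset.sum_congr rfl fun β _ => hdiag β

end

theorem cliff_norm {B : Type} [Fintype B] [DecidableEq B] (ord : B → ℕ)
    (hord : Function.Injective ord) (c : B → ℂ) (ξ : Finset B → ℂ) :
    ∑ I, ‖cliff ord c ξ I‖ ^ 2 = (∑ β, ‖c β‖ ^ 2) * ∑ I, ‖ξ I‖ ^ 2 := by
  have h1 : ∀ z : ℂ, ((‖z‖ ^ 2 : ℝ) : ℂ) = conj z * z := by
    intro z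
    rw [Complex.conj_mul']
    push_cast
    rfl
  have h2 : ((∑ I, ‖cliff ord c ξ I‖ ^ 2 : ℝ) : ℂ) =
      (((∑ β, ‖c β‖ ^ 2) * ∑ I, ‖ξ I‖ ^ 2 : ℝ) : ℂ) := by
    rw [Complex.ofReal_sum]
    simp only [h1]
    rw [cliff_symm ord c ξ (cliff ord c ξ)]
    simp only [cliff_cliff ord hord]
    rw [Complex.ofReal_mul, Complex.ofReal_sum, Complex.ofReal_sum, Finset.mul_sum]
    refine Finset.sum_congr rfl fun I _ => ?_
    rw [h1 (ξ I)]
    push_cast
    ring
  exact_mod_cast h2

end VB
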