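import Pool.Agent.VB.CntDefs

/-!
MODULE VB/CntA.  Linear algebra: a nonzero vector with prescribed orthogonality.

Proof.  The space `Hn (wI M N I)` is spanned by the monomials `mon p (wI M N I - p)`, `p ≤ wI M N I`,
which are orthogonal and nonzero in `L²` (`inner_mon`), so its dimension is
`∏ s, (wI M N I s + 1)`.  By `hne` the number of pairs `(I, p)` with `#I` even differs from the number of pairs with
`#I` odd.  Say the number for the parity `e` is larger.  Take as unknowns the complex numbers
`a (I, p)`, `#I` of parity `e`, and put `x I = ∑ p, a (I, p) • mon p (wI M N I - p)` if `#I` has parity `e`,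
`x I = 0` otherwise.  The equations `inner (L2 (mon q (wI M N J - q))) (L2 (FF ord f x J)) = 0` for `#J` of the
other parity, `q ≤ wI M N J`, are linear in `a` (fewer equations than unknowns), so there is a nonzero
solution (`LinearMap.exists_ne_zero...`, for instance via `LinearMap.ker_ne_bot_of_finrank_lt` or
`Matrix.exists_mulVec_eq_zero_iff`-type results).  For `J` of parity `e` one has `FF ord f x J = 0`, since
`symmDiff J {β}` has the other parity.
`L2 (x I) ≠ 0` for some `I` by orthogonality of the monomials.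
-/

open scoped ComplexConjugate

namespace VB

variable {S B : Type} [Fintype S] [DecidableEq S] [Fintype B] [DecidableEq B]

omit [DecidableEq S] in
theorem L2_zero : L2 (0 : C(S → S3, ℂ)) = 0 := by
  have h := L2_sub (0 : C(S → S3, ℂ)) 0
  rw [sub_self, sub_self] at h
  exact h

/-- The index set of the monomials. -/
abbrev TT (M : B → Finset S) (N : ℕ) : Type := Σ I : Finset B, ∀ s : S, Fin (wI M N I s + 1)

/-- The monomial with a given index. -/
noncomputable def mm (M : B → Finset S) (N : ℕ) (t : TT M N) : C(S → S3, ℂ) :=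
  mon (fun s => (t.2 s : ℕ)) (fun s => wI M N t.1 s - t.2 s)

theorem mm_mem (M : B → Finset S) (N : ℕ) (t : TT M N) : mm M N t ∈ Hn (wI M N t.1) := by
  apply Submodule.subset_span
  refine ⟨fun s => (t.2 s : ℕ), fun s => wI M N t.1 s - t.2 s, ?_, rfl⟩
  intro s
  have := (t.2 s).2
  simp only
  omega

open Classical in
/-- The linear combinations of the monomials of a given parity. -/
noncomputable def xa (M : B → Finset S) (N : ℕ) (q : Finset B → Prop)
    (a : {t : TT M N // q t.1} → ℂ) (I : Finset B) : C(S → S3, ℂ) :=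
  ∑ t : {t : TT M N // q t.1}, if t.1.1 = I then a t • mm M N t.1 else 0

theorem FF_add (ord : B → ℕ) (f : B → C(S → S3, ℂ)) (x y : Finset B → C(S → S3, ℂ))
    (I : Finset B) : FF ord f (x + y) I = FF ord f x I + FF ord f y I := by
  unfold FF
  rw [← Finset.sum_add_distrib]
  refine Finset.sum_congr rfl fun β _ => ?_
  ext z
  simp only [Pi.add_apply, ContinuousMap.smul_apply, ContinuousMap.mul_apply,
    ContinuousMap.add_apply, smul_eq_mul]
  ring

theorem FF_smul (ord : B → ℕ) (f : B → C(S → S3, ℂ)) (c : ℂ) (x : Finset B → C(S → S3, ℂ))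
    (I : Finset B) : FF ord f (c • x) I = c • FF ord f x I := by
  unfold FF
  ext z
  simp only [Pi.smul_apply, ContinuousMap.smul_apply, ContinuousMap.mul_apply,
    ContinuousMap.sum_apply, smul_eq_mul, Finset.mul_sum]
  refine Finset.sum_congr rfl fun β _ => ?_
  ring

theorem xa_add (M : B → Finset S) (N : ℕ) (q : Finset B → Prop)
    (a b : {t : TT M N // q t.1} → ℂ) : xa M N q (a + b) = xa M N q a + xa M N q b := by
  funext I
  rw [Pi.add_apply]
  unfold xa
  rw [← Finset.sum_add_distrib]
  refine Finset.sum_congr rfl fun t _ => ?_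
  split_ifs
  · rw [Pi.add_apply]
    ext z
    simp only [ContinuousMap.smul_apply, ContinuousMap.add_apply, smul_eq_mul]
    ring
  · rw [add_zero]

theorem xa_smul (M : B → Finset S) (N : ℕ) (q : Finset B → Prop)
    (c : ℂ) (a : {t : TT M N // q t.1} → ℂ) : xa M N q (c • a) = c • xa M N q a := by
  funext I
  rw [Pi.smul_apply]
  unfold xa
  rw [Finset.smul_sum]
  refine Finset.sum_congr rfl fun t _ => ?_
  split_ifs
  · rw [Pi.smul_apply, smul_assoc]
  · rw [smul_zero]

/-- The main construction for one parity. -/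
theorem exists_vec_aux (ord : B → ℕ) (f : B → C(S → S3, ℂ)) (M : B → Finset S) (N : ℕ)
    (q : Finset B → Prop) (hq : ∀ I β, q (symmDiff I {β}) ↔ ¬ q I)
    (hcard : Nat.card {t : TT M N // ¬ q t.1} < Nat.card {t : TT M N // q t.1}) :
    ∃ x : Finset B → C(S → S3, ℂ), (∀ I, x I ∈ Hn (wI M N I)) ∧ (∃ I, L2 (x I) ≠ 0) ∧
      ∀ I, ∀ g ∈ Hn (wI M N I), inner ℂ (L2 g) (L2 (FF ord f x I)) = 0 := by
  classical
  let T : ({t : TT M N // q t.1} → ℂ) →ₗ[ℂ] ({t : TT M N // ¬ q t.1} → ℂ) :=
    { toFun := fun a t => inner ℂ (L2 (mm M N t.1)) (L2 (FF ord f (xa M N q a) t.1.1))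
      map_add' := by
        intro a b
        funext t
        rw [xa_add, FF_add, L2_add, inner_add_right]
        rfl
      map_smul' := by
        intro c a
        funext t
        rw [xa_smul, FF_smul, L2_smul, inner_smul_right]
        rfl }
  have hker : LinearMap.ker T ≠ ⊥ := by
    apply LinearMap.ker_ne_bot_of_finrank_lt
    rw [Module.finrank_fintype_fun_eq_card, Module.finrank_fintype_fun_eq_card,
      ← Nat.card_eq_fintype_card, ← Nat.card_eq_fintype_card]
    exact hcard
  obtain ⟨a, ha, ha0⟩ := Submodule.exists_mem_ne_zero_of_ne_bot hker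
  have hTa : ∀ t : {t : TT M N // ¬ q t.1},
      inner ℂ (L2 (mm M N t.1)) (L2 (FF ord f (xa M N q a) t.1.1)) = 0 := by
    intro t
    exact congrFun (LinearMap.mem_ker.1 ha) t
  refine ⟨xa M N q a, ?_, ?_, ?_⟩
  · intro I
    unfold xa
    apply Submodule.sum_mem
    intro t _
    split_ifs with h
    · subst h
      exact Submodule.smul_mem _ _ (mm_mem M N t.1)
    · exact Submodule.zero_mem _
  · obtain ⟨t₀, ht₀⟩ := Function.ne_iff.1 ha0
    refine ⟨t₀.1.1, ?_⟩
    intro hcon
    have h1 : inner ℂ (L2 (mm M N t₀.1)) (L2 (xa M N q a t₀.1.1)) = 0 := by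
      rw [hcon, inner_zero_right]
    unfold xa at h1
    rw [L2_sum, inner_sum, Finset.sum_eq_single t₀] at h1
    · rw [if_pos rfl, L2_smul, inner_smul_right] at h1
      rcases mul_eq_zero.1 h1 with h2 | h2
      · exact ht₀ h2
      · unfold mm at h2
        rw [inner_mon, if_pos ⟨rfl, rfl⟩] at h2
        have h3 := Complex.ofReal_eq_zero.1 h2
        rw [Finset.prod_eq_zero_iff] at h3
        obtain ⟨s, _, hs⟩ := h3
        have h4 : (0 : ℝ) < (((t₀.1.2 s : ℕ)).factorial : ℝ) *
            ((wI M N t₀.1.1 s - (t₀.1.2 s : ℕ)).factorial : ℝ) /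
            ((((t₀.1.2 s : ℕ) + (wI M N t₀.1.1 s - (t₀.1.2 s : ℕ)) + 1).factorial : ℕ) : ℝ) := by
          positivity
        exact h4.ne' hs
    · intro t _ hne
      split_ifs with h
      · rw [L2_smul, inner_smul_right]
        have h5 : inner ℂ (L2 (mm M N t₀.1)) (L2 (mm M N t.1)) = 0 := by
          unfold mm
          rw [inner_mon, if_neg]
          rintro ⟨h6, -⟩
          apply hne
          apply Subtype.ext
          obtain ⟨⟨I, p⟩, hI⟩ := t
          obtain ⟨⟨I₀, p₀⟩, hI₀⟩ := t₀
          simp only at h h6 ⊢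
          subst h
          congr 1
          funext s
          exact Fin.ext (congrFun h6 s).symm
        rw [h5, mul_zero]
      · rw [L2_zero,
          inner_zero_right]
    · intro h
      exact absurd (Finset.mem_univ _) h
  · intro I g hg
    by_cases hI : q I
    · -- all components of the other parity vanish
      have h1 : ∀ β, xa M N q a (symmDiff I {β}) = 0 := by
        intro β
        unfold xa
        apply Finset.sum_eq_zero
        intro t _
        rw [if_neg]
        intro h
        have h2 := t.2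
        rw [h, hq] at h2
        exact h2 hI
      have h2 : FF ord f (xa M N q a) I = 0 := by
        unfold FF
        apply Finset.sum_eq_zero
        intro β _
        rw [h1, mul_zero]
        ext z
        simp
      rw [h2, L2_zero,
        inner_zero_right]
    · unfold Hn at hg
      induction hg using Submodule.span_induction with
      | mem g hg =>
        obtain ⟨p', q', hpq, rfl⟩ := hg
        have h3 := hTa ⟨⟨I, fun s => ⟨p' s, by have := hpq s; omega⟩⟩, hI⟩
        have h4 : mm M N ⟨I, fun s => ⟨p' s, by have := hpq s; omega⟩⟩ = mon p' q' := by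
          unfold mm
          congr 1
          funext s
          have := hpq s
          simp only
          omega
        rw [h4] at h3
        exact h3
      | zero =>
        rw [L2_zero,
          inner_zero_left]
      | add g₁ g₂ _ _ h1 h2 => rw [L2_add, inner_add_left, h1, h2, add_zero]
      | smul c g _ h1 => rw [L2_smul, inner_smul_left, h1, mul_zero]

omit [Fintype B] in
theorem even_symmDiff (I : Finset B) (β : B) :
    Even (symmDiff I {β}).card ↔ ¬ Even I.card := by
  by_cases h : β ∈ I
  · have h1 : symmDiff I {β} = I.erase β := by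
      ext γ
      rw [Finset.mem_symmDiff, Finset.mem_singleton, Finset.mem_erase]
      constructor
      · rintro (⟨h2, h3⟩ | ⟨h2, h3⟩)
        · exact ⟨h3, h2⟩
        · exact absurd (h2 ▸ h) h3
      · rintro ⟨h2, h3⟩
        exact Or.inl ⟨h3, h2⟩
    rw [h1, Finset.card_erase_of_mem h]
    have h2 : 0 < I.card := Finset.card_pos.2 ⟨β, h⟩
    obtain ⟨n, hn⟩ : ∃ n, I.card = n + 1 := ⟨I.card - 1, by omega⟩
    rw [hn, Nat.add_sub_cancel, Nat.even_add_one, not_not]
  · have h1 : symmDiff I {β} = insert β I := by
      ext γ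
      rw [Finset.mem_symmDiff, Finset.mem_singleton, Finset.mem_insert]
      constructor
      · rintro (⟨h2, h3⟩ | ⟨h2, h3⟩)
        · exact Or.inr h2
        · exact Or.inl h2
      · rintro (h2 | h2)
        · exact Or.inr ⟨h2, h2 ▸ h⟩
        · exact Or.inl ⟨h2, fun h3 => h (h3 ▸ h2)⟩
    rw [h1, Finset.card_insert_of_notMem h, Nat.even_add_one]

theorem exists_vec (ord : B → ℕ) (f : B → C(S → S3, ℂ)) (M : B → Finset S) (N : ℕ)
    (hne : ∑ I : Finset B, (-1 : ℤ) ^ I.card * ∏ s : S, ((wI M N I s : ℤ) + 1) ≠ 0) :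
    ∃ x : Finset B → C(S → S3, ℂ), (∀ I, x I ∈ Hn (wI M N I)) ∧ (∃ I, L2 (x I) ≠ 0) ∧
      ∀ I, ∀ g ∈ Hn (wI M N I), inner ℂ (L2 g) (L2 (FF ord f x I)) = 0 := by
  classical
  have hsum : ∑ t : TT M N, (-1 : ℤ) ^ t.1.card =
      ∑ I : Finset B, (-1 : ℤ) ^ I.card * ∏ s : S, ((wI M N I s : ℤ) + 1) := by
    rw [Fintype.sum_sigma]
    refine Finset.sum_congr rfl fun I _ => ?_
    change ∑ _y : (∀ s : S, Fin (wI M N I s + 1)), (-1 : ℤ) ^ I.card = _
    rw [Finset.sum_const, Finset.card_univ, Fintype.card_pi, nsmul_eq_mul, mul_comm]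
    congr 1
    push_cast
    refine Finset.prod_congr rfl fun s _ => ?_
    rw [Fintype.card_fin]
    push_cast
    rfl
  have hsplit : ∑ t : TT M N, (-1 : ℤ) ^ t.1.card =
      (Nat.card {t : TT M N // Even t.1.card} : ℤ) - Nat.card {t : TT M N // ¬ Even t.1.card} := by
    rw [← Finset.sum_filter_add_sum_filter_not Finset.univ (fun t : TT M N => Even t.1.card)]
    rw [Finset.sum_congr rfl (g := fun _ => (1 : ℤ)) (fun t ht => by
      rw [Finset.mem_filter] at ht
      exact ht.2.neg_one_pow),
      Finset.sum_congr (s₁ := Finset.univ.filter fun t : TT M N => ¬ Even t.1.card) rfl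
      (g := fun _ => (-1 : ℤ)) (fun t ht => by
      rw [Finset.mem_filter] at ht
      exact (Nat.not_even_iff_odd.1 ht.2).neg_one_pow)]
    rw [Finset.sum_const, Finset.sum_const, Nat.card_eq_fintype_card, Nat.card_eq_fintype_card,
      Fintype.card_subtype, Fintype.card_subtype]
    simp only [nsmul_eq_mul, mul_one, mul_neg]
    ring
  rw [← hsum, hsplit] at hne
  rcases lt_or_gt_of_ne (show Nat.card {t : TT M N // Even t.1.card} ≠
      Nat.card {t : TT M N // ¬ Even t.1.card} by
    intro h
    apply hne
    rw [h, sub_self]) with h | h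
  · apply exists_vec_aux ord f M N (fun I => ¬ Even I.card)
    · intro I β
      rw [even_symmDiff]
    · simp only [not_not]
      exact h
  · apply exists_vec_aux ord f M N (fun I => Even I.card)
    · intro I β
      exact even_symmDiff I β
    · exact h

end VB
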