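import Pool.Agent.VB.CntDefs

/-!
MODULE VB/CntB.  Weights of the components of `FF ord f x`.

Proof.  Elements of `Hn n` have weight `n`: `g (act l z) = (∏ s, l s ^ n s) * g z` (span induction; for monomials
use `coord_rot`).  If `β ∈ I` then `symmDiff I {β} = I.erase β` and
`wI I = wI (I.erase β) + 1_(M β)`; if `β ∉ I` then `symmDiff I {β} = insert β I`,
`wI (insert β I) = wI I + 1_(M β)` and `star (f β)` is multiplied by `∏ s ∈ M β, (l s)⁻¹`.
-/

open scoped ComplexConjugate

namespace VB

variable {S B : Type} [Fintype S] [DecidableEq S] [Fintype B] [DecidableEq B]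

theorem Hn_weight (n : S → ℕ) (g : C(S → S3, ℂ)) (hg : g ∈ Hn n) (l : S → Circle) (z : S → S3) :
    g (act l z) = (∏ s, (l s : ℂ) ^ n s) * g z := by
  unfold Hn at hg
  induction hg using Submodule.span_induction with
  | mem x hx =>
    obtain ⟨p, q, hpq, rfl⟩ := hx
    rw [mon_apply, mon_apply, ← Finset.prod_mul_distrib]
    refine Finset.prod_congr rfl fun s _ => ?_
    have h0 : coord 0 (act l z s) = (l s : ℂ) * coord 0 (z s) := coord_rot 0 (l s) (z s)
    have h1 : coord 1 (act l z s) = (l s : ℂ) * coord 1 (z s) := coord_rot 1 (l s) (z s)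
    rw [h0, h1, ← hpq s, pow_add, mul_pow, mul_pow]
    ring
  | zero => simp
  | add x y _ _ hx hy =>
    rw [ContinuousMap.add_apply, ContinuousMap.add_apply, hx, hy]
    ring
  | smul a x _ hx =>
    rw [ContinuousMap.smul_apply, ContinuousMap.smul_apply, hx, smul_eq_mul, smul_eq_mul]
    ring

theorem wI_insert (M : B → Finset S) (N : ℕ) (I : Finset B) (β : B) (hβ : β ∉ I) (s : S) :
    wI M N (insert β I) s = wI M N I s + if s ∈ M β then 1 else 0 := by
  unfold wI
  rw [Finset.filter_insert]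
  by_cases h : s ∈ M β
  · rw [if_pos h, if_pos h, Finset.card_insert_of_notMem (by simp [hβ])]
    ring
  · rw [if_neg h, if_neg h]
    ring

theorem prod_wI (M : B → Finset S) (N : ℕ) (I : Finset B) (β : B) (hβ : β ∉ I) (l : S → Circle) :
    (∏ s, (l s : ℂ) ^ wI M N (insert β I) s) =
      (∏ s ∈ M β, (l s : ℂ)) * ∏ s, (l s : ℂ) ^ wI M N I s := by
  have h1 : (∏ s ∈ M β, (l s : ℂ)) = ∏ s, (l s : ℂ) ^ (if s ∈ M β then 1 else 0) := by
    rw [← Finset.prod_filter_mul_prod_filter_not Finset.univ (fun s => s ∈ M β)]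
    have h2 : (∏ s ∈ Finset.univ.filter (fun s => ¬ s ∈ M β),
        (l s : ℂ) ^ (if s ∈ M β then 1 else 0)) = 1 := by
      refine Finset.prod_eq_one fun s hs => ?_
      rw [if_neg (Finset.mem_filter.1 hs).2, pow_zero]
    rw [h2, mul_one]
    have h3 : Finset.univ.filter (fun s => s ∈ M β) = M β := by
      ext s; simp
    rw [h3]
    refine Finset.prod_congr rfl fun s hs => ?_
    rw [if_pos hs, pow_one]
  rw [h1, ← Finset.prod_mul_distrib]
  refine Finset.prod_congr rfl fun s _ => ?_
  rw [wI_insert M N I β hβ s, ← pow_add, Nat.add_comm]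

theorem conj_prod_mul (T : Finset S) (l : S → Circle) :
    conj (∏ s ∈ T, (l s : ℂ)) * (∏ s ∈ T, (l s : ℂ)) = 1 := by
  rw [map_prod, ← Finset.prod_mul_distrib]
  refine Finset.prod_eq_one fun s _ => ?_
  rw [mul_comm, Complex.mul_conj, Circle.normSq_coe]
  simp

theorem FF_weight (ord : B → ℕ) (f : B → C(S → S3, ℂ)) (M : B → Finset S) (N : ℕ)
    (hf : ∀ (β : B) (l : S → Circle) (z : S → S3),
      f β (act l z) = (∏ s ∈ M β, (l s : ℂ)) * f β z)
    (x : Finset B → C(S → S3, ℂ)) (hx : ∀ I, x I ∈ Hn (wI M N I)) (I : Finset B)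
    (l : S → Circle) (z : S → S3) :
    FF ord f x I (act l z) = (∏ s, (l s : ℂ) ^ wI M N I s) * FF ord f x I z := by
  unfold FF
  rw [ContinuousMap.sum_apply, ContinuousMap.sum_apply, Finset.mul_sum]
  refine Finset.sum_congr rfl fun β _ => ?_
  rw [ContinuousMap.smul_apply, ContinuousMap.smul_apply, ContinuousMap.mul_apply,
    ContinuousMap.mul_apply, Hn_weight _ _ (hx (symmDiff I {β})) l z, smul_eq_mul, smul_eq_mul]
  by_cases hβ : β ∈ I
  · have h1 : symmDiff I {β} = I.erase β := by
      ext γ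
      simp only [Finset.mem_symmDiff, Finset.mem_singleton, Finset.mem_erase]
      constructor
      · rintro (⟨h, h'⟩ | ⟨h, h'⟩)
        · exact ⟨h', h⟩
        · exact absurd (h ▸ hβ) h'
      · rintro ⟨h, h'⟩
        exact Or.inl ⟨h', h⟩
    have h2 : insert β (I.erase β) = I := Finset.insert_erase hβ
    have h3 := prod_wI M N (I.erase β) β (Finset.notMem_erase β I) l
    rw [h2] at h3
    rw [if_pos hβ, h1, h3, hf β l z]
    ring
  · have h1 : symmDiff I {β} = insert β I := by
      ext γ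
      simp only [Finset.mem_symmDiff, Finset.mem_singleton, Finset.mem_insert]
      constructor
      · rintro (⟨h, h'⟩ | ⟨h, h'⟩)
        · exact Or.inr h
        · exact Or.inl h
      · rintro (h | h)
        · exact Or.inr ⟨h, h ▸ hβ⟩
        · exact Or.inl ⟨h, fun h' => hβ (h' ▸ h)⟩
    have h3 := prod_wI M N I β hβ l
    rw [if_neg hβ, h1, h3, ContinuousMap.star_apply, ContinuousMap.star_apply, hf β l z]
    have h4 := conj_prod_mul (M β) l
    have h5 : star ((∏ s ∈ M β, (l s : ℂ)) * f β z) =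
        conj (∏ s ∈ M β, (l s : ℂ)) * conj (f β z) := by
      rw [← map_mul]; rfl
    rw [h5]
    have h6 : star (f β z) = conj (f β z) := rfl
    rw [h6]
    linear_combination (sgn ord β I * conj (f β z) * (∏ s, (l s : ℂ) ^ wI M N I s) *
      x (insert β I) z) * h4

end VB
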