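import Pool.Agent.VB.CntDefs

/-!
MODULE VB/CntC.  The lower bound for the Clifford operator in `L²`.

Proof.  Pointwise `FF ord f x I z = cliff ord (fun β => f β z) (fun J => x J z) I`, so `cliff_norm` gives
`∑ I, ‖FF ord f x I z‖^2 = (∑ β, ‖f β z‖^2) * ∑ I, ‖x I z‖^2 ≥ δ * ∑ I, ‖x I z‖^2`.  Integrate and use
`norm_L2_sq`.
-/

open scoped ComplexConjugate

namespace VB

variable {S B : Type} [Fintype S] [DecidableEq S] [Fintype B] [DecidableEq B]

theorem FF_apply (ord : B → ℕ) (f : B → C(S → S3, ℂ)) (x : Finset B → C(S → S3, ℂ))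
    (I : Finset B) (z : S → S3) :
    FF ord f x I z = cliff ord (fun β => f β z) (fun J => x J z) I := by
  unfold FF cliff
  rw [ContinuousMap.sum_apply]
  refine Finset.sum_congr rfl fun β _ => ?_
  rw [ContinuousMap.smul_apply, ContinuousMap.mul_apply, smul_eq_mul, mul_assoc]
  congr 2
  split_ifs
  · rfl
  · rfl

theorem FF_lower (ord : B → ℕ) (hord : Function.Injective ord) (f : B → C(S → S3, ℂ))
    (x : Finset B → C(S → S3, ℂ)) (δ : ℝ) (hδ : ∀ z, δ ≤ ∑ β, ‖f β z‖ ^ 2) :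
    δ * ∑ I, ‖L2 (x I)‖ ^ 2 ≤ ∑ I, ‖L2 (FF ord f x I)‖ ^ 2 := by
  have hint : ∀ g : C(S → S3, ℂ), MeasureTheory.Integrable (fun z => ‖g z‖ ^ 2) (nu S) := by
    intro g
    have hc : Continuous fun z : S → S3 => ‖g z‖ ^ 2 := by fun_prop
    exact hc.integrable_of_hasCompactSupport (HasCompactSupport.of_compactSpace _)
  simp only [norm_L2_sq]
  rw [← MeasureTheory.integral_finset_sum _ (fun I _ => hint (x I)),
    ← MeasureTheory.integral_finset_sum _ (fun I _ => hint (FF ord f x I)),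
    ← MeasureTheory.integral_const_mul]
  apply MeasureTheory.integral_mono
  · exact (MeasureTheory.integrable_finset_sum _ (fun I _ => hint (x I))).const_mul δ
  · exact MeasureTheory.integrable_finset_sum _ (fun I _ => hint (FF ord f x I))
  · intro z
    change δ * ∑ I, ‖x I z‖ ^ 2 ≤ ∑ I, ‖FF ord f x I z‖ ^ 2
    have h1 : ∑ I, ‖FF ord f x I z‖ ^ 2 = (∑ β, ‖f β z‖ ^ 2) * ∑ I, ‖x I z‖ ^ 2 := by
      rw [← cliff_norm ord hord (fun β => f β z) (fun J => x J z)]
      refine Finset.sum_congr rfl fun I _ => ?_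
      rw [FF_apply]
    rw [h1]
    exact mul_le_mul_of_nonneg_right (hδ z) (Finset.sum_nonneg fun I _ => by positivity)

end VB
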