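import Pool.Agent.VB.TDefs

/-!
MODULE VB/Wt.  Orthogonality of functions of different weights.

Proof.  `act l : (S → S3) → (S → S3)` preserves `nu S` (product of the measure preserving maps
`rot (l s)`: `measurePreserving_pi`, `mu3_rot`).  Hence, with `e = mon p q`,
`∫ conj (e z) * h z = ∫ conj (e (act l z)) * h (act l z)
 = (∏ s, conj (l s) ^ (p s + q s) * (l s) ^ (n s)) * ∫ conj (e z) * h z`.
If `p s + q s ≠ n s` for some `s`, choose `l` equal to `1` at the other places and such that the
scalar is not `1` (for instance a circle element of infinite order, `Circle.exp 1`).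
Use `VB.inner_L2` style formula: `ContinuousMap.inner_toLp`.
-/

open MeasureTheory

open scoped ComplexConjugate

namespace VB

variable {S : Type} [Fintype S]

theorem measurePreserving_act (l : S → Circle) :
    MeasurePreserving (act l : (S → S3) → (S → S3)) (nu S) (nu S) := by
  unfold nu act
  exact measurePreserving_pi (fun _ : S => mu3) (fun _ : S => mu3)
    (f := fun s z => rot (l s) z)
    fun s => ⟨(continuous_rot (l s)).measurable, mu3_rot (l s)⟩

theorem mon_act (p q : S → ℕ) (l : S → Circle) (z : S → S3) :
    mon p q (act l z) = (∏ s, (l s : ℂ) ^ (p s + q s)) * mon p q z := by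
  rw [mon_apply, mon_apply, ← Finset.prod_mul_distrib]
  refine Finset.prod_congr rfl fun s _ => ?_
  unfold act
  rw [coord_rot, coord_rot, mul_pow, mul_pow, pow_add]
  ring

theorem exp_aux (k n : ℕ) (hkn : k ≠ n) :
    ∃ u : Circle, conj (u : ℂ) ^ k * (u : ℂ) ^ n = -1 := by
  have hne : ((n : ℝ) - k) ≠ 0 := by
    intro h
    apply hkn
    have : (n : ℝ) = k := by linarith
    exact_mod_cast this.symm
  refine ⟨Circle.exp (Real.pi / ((n : ℝ) - k)), ?_⟩
  have hneC : ((n : ℂ) - k) ≠ 0 := by exact_mod_cast hne
  rw [Circle.coe_exp, ← Complex.exp_conj, ← Complex.exp_nat_mul, ← Complex.exp_nat_mul,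
    ← Complex.exp_add, ← Complex.exp_pi_mul_I]
  congr 1
  rw [map_mul, Complex.conj_ofReal, Complex.conj_I]
  push_cast
  field_simp
  ring

theorem weight_orth (h : C(S → S3, ℂ)) (n : S → ℕ)
    (hw : ∀ (l : S → Circle) (z : S → S3), h (act l z) = (∏ s, (l s : ℂ) ^ n s) * h z)
    (p q : S → ℕ) (hpq : ∃ s, p s + q s ≠ n s) :
    inner ℂ (L2 (mon p q)) (L2 h) = 0 := by
  classical
  obtain ⟨s0, hs0⟩ := hpq
  obtain ⟨u, hu⟩ := exp_aux _ _ hs0
  unfold L2
  rw [ContinuousMap.inner_toLp]
  set J := ∫ z, h z * conj (mon p q z) ∂(nu S) with hJ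
  let l : S → Circle := Function.update (fun _ => 1) s0 u
  have hpres := measurePreserving_act (S := S) l
  have hcont : Continuous fun z : S → S3 => h z * conj (mon p q z) :=
    h.continuous.mul (Complex.continuous_conj.comp (mon p q).continuous)
  have h1 : J = ∫ z, h (act l z) * conj (mon p q (act l z)) ∂(nu S) := by
    have h2 := integral_map (μ := nu S) (φ := act l)
      (f := fun z : S → S3 => h z * conj (mon p q z)) hpres.measurable.aemeasurable
      hcont.aestronglyMeasurable
    rw [hpres.map_eq] at h2
    exact h2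
  have h3 : ∀ z : S → S3, h (act l z) * conj (mon p q (act l z)) =
      -1 * (h z * conj (mon p q z)) := by
    intro z
    rw [hw, mon_act, map_mul, map_prod]
    have h4 : (∏ s, (l s : ℂ) ^ n s) * ∏ s, conj ((l s : ℂ) ^ (p s + q s)) = -1 := by
      rw [← Finset.prod_mul_distrib, Finset.prod_eq_single s0]
      · rw [map_pow, ← hu]
        simp only [l, Function.update_self]
        ring
      · intro s _ hs
        simp only [l, Function.update_of_ne hs]
        simp
      · intro h; exact absurd (Finset.mem_univ _) h
    linear_combination (h z * conj (mon p q z)) * h4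
  simp only [h3] at h1
  rw [integral_const_mul, ← hJ] at h1
  have h5 : (2 : ℂ) * J = 0 := by linear_combination h1
  simpa using h5

end VB
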