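import Pool.Agent.VB.App
import Pool.Agent.VB.Wt
import Pool.Agent.VB.CntA
import Pool.Agent.VB.CntB
import Pool.Agent.VB.CntC

/-!
MODULE VB/Cnt.  Dimension count: equivariant functions without common zero force an alternating
sum to vanish.

Assembly of `exists_vec` (CntA), `FF_weight` (CntB), `FF_lower` (CntC), `weight_orth` (Wt) and
`approx` (App).
-/

open MeasureTheory

open scoped ComplexConjugate

namespace VB

section aux

variable {S B : Type} [Fintype S] [DecidableEq S] [Fintype B] [DecidableEq B]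

theorem norm_sgn (ord : B → ℕ) (β : B) (I : Finset B) : ‖sgn ord β I‖ = 1 := by
  unfold sgn
  rw [norm_pow, norm_neg, norm_one, one_pow]

theorem L2_zero' : L2 (0 : C(S → S3, ℂ)) = 0 := by
  have h := L2_sub (0 : C(S → S3, ℂ)) (0 : C(S → S3, ℂ))
  rw [sub_self (L2 (0 : C(S → S3, ℂ)))] at h
  have h2 : (0 : C(S → S3, ℂ)) - 0 = 0 := sub_self 0
  rw [h2] at h
  exact h

theorem orth_Hol (h : C(S → S3, ℂ)) (n : S → ℕ)
    (hw : ∀ (l : S → Circle) (z : S → S3), h (act l z) = (∏ s, (l s : ℂ) ^ n s) * h z)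
    (ho : ∀ g ∈ Hn n, inner ℂ (L2 g) (L2 h) = 0) (y : C(S → S3, ℂ))
    (hy : y ∈ (Hol : Submodule ℂ C(S → S3, ℂ))) : inner ℂ (L2 y) (L2 h) = 0 := by
  unfold Hol at hy
  induction hy using Submodule.span_induction with
  | mem x hx =>
    obtain ⟨p, q, rfl⟩ := hx
    by_cases hpq : ∀ s, p s + q s = n s
    · exact ho _ (Submodule.subset_span ⟨p, q, hpq, rfl⟩)
    · push Not at hpq
      exact weight_orth h n hw p q hpq
  | zero => rw [L2_zero', inner_zero_left]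
  | add x y _ _ hx hy => rw [L2_add, inner_add_left, hx, hy, add_zero]
  | smul a x _ hx => rw [L2_smul, inner_smul_left, hx, mul_zero]

theorem norm_le_of_orth (h y : C(S → S3, ℂ)) (ho : inner ℂ (L2 y) (L2 h) = 0) :
    ‖L2 h‖ ≤ ‖L2 (h - y)‖ := by
  have h1 : inner ℂ (L2 h) (L2 h) = inner ℂ (L2 (h - y)) (L2 h) := by
    rw [L2_sub, inner_sub_left, ho, sub_zero]
  have h2 : ‖L2 h‖ * ‖L2 h‖ ≤ ‖L2 (h - y)‖ * ‖L2 h‖ := by
    have h3 : ‖inner ℂ (L2 h) (L2 h)‖ = ‖L2 h‖ * ‖L2 h‖ := by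
      rw [inner_self_eq_norm_sq_to_K]
      simp [sq]
    rw [← h3, h1]
    exact norm_inner_le_norm _ _
  by_cases h0 : ‖L2 h‖ = 0
  · rw [h0]; exact norm_nonneg _
  · exact le_of_mul_le_mul_right h2 (lt_of_le_of_ne (norm_nonneg _) (Ne.symm h0))

theorem FF_approx (ord : B → ℕ) (f : B → C(S → S3, ℂ)) (M : B → Finset S) (N : ℕ) (ε : ℝ)
    (hap : ∀ β : B, ∀ n : S → ℕ, (∀ s, N ≤ n s) → ∀ x ∈ Hn n,
      (∃ y ∈ (Hol : Submodule ℂ C(S → S3, ℂ)), ‖L2 (f β * x - y)‖ ≤ ε * ‖L2 x‖) ∧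
      (∃ y ∈ (Hol : Submodule ℂ C(S → S3, ℂ)), ‖L2 (star (f β) * x - y)‖ ≤ ε * ‖L2 x‖))
    (x : Finset B → C(S → S3, ℂ)) (hx : ∀ I, x I ∈ Hn (wI M N I)) (I : Finset B) :
    ∃ y ∈ (Hol : Submodule ℂ C(S → S3, ℂ)),
      ‖L2 (FF ord f x I - y)‖ ≤ ∑ β : B, ε * ‖L2 (x (symmDiff I {β}))‖ := by
  have h1 : ∀ β : B, ∃ y ∈ (Hol : Submodule ℂ C(S → S3, ℂ)),
      ‖L2 ((if β ∈ I then f β else star (f β)) * x (symmDiff I {β}) - y)‖ ≤
        ε * ‖L2 (x (symmDiff I {β}))‖ := by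
    intro β
    have h2 := hap β (wI M N (symmDiff I {β})) (fun s => Nat.le_add_right _ _) _ (hx _)
    by_cases hβ : β ∈ I
    · rw [if_pos hβ]; exact h2.1
    · rw [if_neg hβ]; exact h2.2
  choose y hy hyn using h1
  refine ⟨∑ β, sgn ord β I • y β, Submodule.sum_mem _ fun β _ => Submodule.smul_mem _ _ (hy β), ?_⟩
  have h3 : FF ord f x I - ∑ β, sgn ord β I • y β =
      ∑ β, sgn ord β I •
        ((if β ∈ I then f β else star (f β)) * x (symmDiff I {β}) - y β) := by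
    unfold FF
    rw [← Finset.sum_sub_distrib]
    refine Finset.sum_congr rfl fun β _ => ?_
    rw [smul_sub]
  rw [h3, L2_sum]
  refine (norm_sum_le _ _).trans (Finset.sum_le_sum fun β _ => ?_)
  rw [L2_smul, norm_smul, norm_sgn, one_mul]
  exact hyn β

end aux

theorem alternating_zero {S B : Type} [Fintype S] [DecidableEq S] [Fintype B] [DecidableEq B]
    (M : B → Finset S) (f : B → C(S → S3, ℂ))
    (hf : ∀ (β : B) (l : S → Circle) (z : S → S3),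
      f β (act l z) = (∏ s ∈ M β, (l s : ℂ)) * f β z)
    (hz : ∀ z, ∃ β, f β z ≠ 0) :
    ∃ N : ℕ, ∑ I : Finset B, (-1 : ℤ) ^ I.card *
      ∏ s : S, ((N : ℤ) + 1 + (I.filter fun β => s ∈ M β).card) = 0 := by
  classical
  by_contra hcon
  push Not at hcon
  obtain ⟨ord, hord⟩ : ∃ ord : B → ℕ, Function.Injective ord :=
    ⟨fun β => (Fintype.equivFin B β : ℕ), fun a b h => (Fintype.equivFin B).injective (Fin.ext h)⟩
  have : Nonempty (S → S3) := nonempty_of_isProbabilityMeasure (nu S)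
  obtain ⟨δ, hδ0, hδ⟩ : ∃ δ : ℝ, 0 < δ ∧ ∀ z, δ ≤ ∑ β, ‖f β z‖ ^ 2 := by
    have hc : Continuous fun z : S → S3 => ∑ β, ‖f β z‖ ^ 2 :=
      continuous_finsetSum _ fun β _ => ((f β).continuous.norm).pow 2
    obtain ⟨z0, -, hz0⟩ := isCompact_univ.exists_isMinOn Set.univ_nonempty hc.continuousOn
    refine ⟨∑ β, ‖f β z0‖ ^ 2, ?_, fun z => hz0 (Set.mem_univ z)⟩
    obtain ⟨β, hβ⟩ := hz z0
    exact Finset.sum_pos' (fun _ _ => by positivity) ⟨β, Finset.mem_univ _, by positivity⟩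
  set C : ℝ := (Fintype.card (Finset B) : ℝ) * ((Fintype.card B : ℝ) * (Fintype.card B : ℝ)) with hC
  have hC0 : 0 ≤ C := by positivity
  set ε : ℝ := Real.sqrt (δ / (C + 1)) with hεd
  have hε : 0 < ε := Real.sqrt_pos.2 (by positivity)
  have hε2 : ε ^ 2 = δ / (C + 1) := Real.sq_sqrt (by positivity)
  -- a common threshold
  choose N1 hN1 using fun β : B => approx (f β) ε hε
  choose N2 hN2 using fun β : B => approx (star (f β)) ε hε
  set N : ℕ := ∑ β, (N1 β + N2 β) with hN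
  have hNle : ∀ β, N1 β + N2 β ≤ N := fun β =>
    Finset.single_le_sum (f := fun β => N1 β + N2 β) (fun _ _ => Nat.zero_le _)
      (Finset.mem_univ β)
  have hap : ∀ β : B, ∀ n : S → ℕ, (∀ s, N ≤ n s) → ∀ x ∈ Hn n,
      (∃ y ∈ (Hol : Submodule ℂ C(S → S3, ℂ)), ‖L2 (f β * x - y)‖ ≤ ε * ‖L2 x‖) ∧
      (∃ y ∈ (Hol : Submodule ℂ C(S → S3, ℂ)), ‖L2 (star (f β) * x - y)‖ ≤ ε * ‖L2 x‖) := by
    intro β n hn x hx
    exact ⟨hN1 β n (fun s => by have := hn s; have := hNle β; omega) x hx,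
      hN2 β n (fun s => by have := hn s; have := hNle β; omega) x hx⟩
  have hne : ∑ I : Finset B, (-1 : ℤ) ^ I.card * ∏ s : S, ((wI M N I s : ℤ) + 1) ≠ 0 := by
    have h := hcon N
    intro h0
    apply h
    rw [← h0]
    refine Finset.sum_congr rfl fun I _ => ?_
    congr 1
    refine Finset.prod_congr rfl fun s _ => ?_
    unfold wI
    push_cast
    ring
  obtain ⟨x, hx, ⟨I0, hI0⟩, ho⟩ := exists_vec ord f M N hne
  have hkey : ∀ I, ‖L2 (FF ord f x I)‖ ≤ ∑ β : B, ε * ‖L2 (x (symmDiff I {β}))‖ := by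
    intro I
    obtain ⟨y, hy, hyn⟩ := FF_approx ord f M N ε hap x hx I
    refine (norm_le_of_orth (FF ord f x I) y ?_).trans hyn
    exact orth_Hol (FF ord f x I) (wI M N I) (FF_weight ord f M N hf x hx I) (ho I) y hy
  set T : ℝ := ∑ J, ‖L2 (x J)‖ ^ 2 with hT
  have hTpos : 0 < T :=
    Finset.sum_pos' (fun _ _ => by positivity)
      ⟨I0, Finset.mem_univ _, pow_pos (norm_pos_iff.2 hI0) 2⟩
  have hone : ∀ J, ‖L2 (x J)‖ ^ 2 ≤ T := fun J =>
    Finset.single_le_sum (f := fun J => ‖L2 (x J)‖ ^ 2) (fun _ _ => by positivity)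
      (Finset.mem_univ J)
  have hsq : ∀ I, ‖L2 (FF ord f x I)‖ ^ 2 ≤
      ε ^ 2 * ((Fintype.card B : ℝ) * (Fintype.card B : ℝ)) * T := by
    intro I
    have h1 : ‖L2 (FF ord f x I)‖ ^ 2 ≤ (∑ β : B, ε * ‖L2 (x (symmDiff I {β}))‖) ^ 2 :=
      pow_le_pow_left₀ (norm_nonneg _) (hkey I) 2
    have h2 : (∑ β : B, ε * ‖L2 (x (symmDiff I {β}))‖) ^ 2 ≤
        (Finset.univ : Finset B).card * ∑ β : B, (ε * ‖L2 (x (symmDiff I {β}))‖) ^ 2 :=
      sq_sum_le_card_mul_sum_sq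
    have h3 : ∑ β : B, (ε * ‖L2 (x (symmDiff I {β}))‖) ^ 2 ≤ ∑ _β : B, ε ^ 2 * T := by
      refine Finset.sum_le_sum fun β _ => ?_
      rw [mul_pow]
      exact mul_le_mul_of_nonneg_left (hone _) (by positivity)
    rw [Finset.sum_const, nsmul_eq_mul] at h3
    have h4 : ((Finset.univ : Finset B).card : ℝ) = (Fintype.card B : ℝ) := rfl
    rw [h4] at h2 h3
    calc ‖L2 (FF ord f x I)‖ ^ 2 ≤ _ := h1
      _ ≤ _ := h2
      _ ≤ (Fintype.card B : ℝ) * ((Fintype.card B : ℝ) * (ε ^ 2 * T)) :=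
        mul_le_mul_of_nonneg_left h3 (by positivity)
      _ = _ := by ring
  have hlow := FF_lower ord hord f x δ hδ
  have hup : ∑ I, ‖L2 (FF ord f x I)‖ ^ 2 ≤ ε ^ 2 * C * T := by
    calc ∑ I, ‖L2 (FF ord f x I)‖ ^ 2
        ≤ ∑ _I : Finset B, ε ^ 2 * ((Fintype.card B : ℝ) * (Fintype.card B : ℝ)) * T :=
          Finset.sum_le_sum fun I _ => hsq I
      _ = ε ^ 2 * C * T := by
          rw [Finset.sum_const, nsmul_eq_mul, hC]
          have h4 : ((Finset.univ : Finset (Finset B)).card : ℝ) =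
            (Fintype.card (Finset B) : ℝ) := rfl
          rw [h4]
          ring
  have hfin : δ * T ≤ ε ^ 2 * C * T := hlow.trans hup
  have hfin2 : δ ≤ ε ^ 2 * C := le_of_mul_le_mul_right hfin hTpos
  rw [hε2] at hfin2
  have hfin3 : δ / (C + 1) * C < δ := by
    rw [div_mul_eq_mul_div, div_lt_iff₀ (by positivity)]
    nlinarith
  linarith

end VB
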