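import Pool.Agent.VB.Mom
import Pool.Agent.VB.Cliff

/-!
Definitions for VB/CntA, CntB, CntC, Cnt.  Nothing to prove here.
-/

open scoped ComplexConjugate

namespace VB

variable {S B : Type} [Fintype S] [DecidableEq S] [Fintype B] [DecidableEq B]

/-- The Clifford operator on functions on finite subsets of `B` with values in continuous
functions. -/
noncomputable def FF (ord : B → ℕ) (f : B → C(S → S3, ℂ)) (x : Finset B → C(S → S3, ℂ))
    (I : Finset B) : C(S → S3, ℂ) :=
  ∑ β, sgn ord β I • ((if β ∈ I then f β else star (f β)) * x (symmDiff I {β}))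

/-- The multidegree of the component `I`. -/
def wI (M : B → Finset S) (N : ℕ) (I : Finset B) (s : S) : ℕ :=
  N + (I.filter fun β => s ∈ M β).card

end VB
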