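import Mathlib

open scoped Matrix.Norms.L2Operator

namespace VB

/-- The three sphere, as the unit sphere of two dimensional complex Euclidean space. -/
abbrev S3 : Type := Metric.sphere (0 : EuclideanSpace ℂ (Fin 2)) 1

/-- The coordinate functions on the three sphere. -/
def coord (p : Fin 2) (z : S3) : ℂ := (z : EuclideanSpace ℂ (Fin 2)) p

theorem continuous_coord (p : Fin 2) : Continuous (coord p) := by
  unfold coord
  fun_prop

theorem coord_sq (z : S3) : ‖coord 0 z‖ ^ 2 + ‖coord 1 z‖ ^ 2 = 1 := by
  have h := z.2
  rw [mem_sphere_zero_iff_norm] at h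
  have h2 := EuclideanSpace.norm_sq_eq (z : EuclideanSpace ℂ (Fin 2))
  rw [h, Fin.sum_univ_two] at h2
  simp only [coord]
  linarith

/-- Scalar rotation of the three sphere. -/
noncomputable def rot (l : Circle) (z : S3) : S3 :=
  ⟨(l : ℂ) • (z : EuclideanSpace ℂ (Fin 2)), by
    have h := z.2
    rw [mem_sphere_zero_iff_norm] at h ⊢
    rw [norm_smul, h, Circle.norm_coe, one_mul]⟩

theorem coord_rot (p : Fin 2) (l : Circle) (z : S3) : coord p (rot l z) = (l : ℂ) * coord p z := by
  simp [coord, rot]

/-- The torus action on a finite product of three spheres. -/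
noncomputable def act {S : Type} (l : S → Circle) (z : S → S3) : S → S3 :=
  fun s => rot (l s) (z s)

/-- Combinatorial data of one building block: rows, spheres, colors, the color of a sphere and
the color of a row (`none` means a trivial row). -/
structure Stage where
  I : Type
  S : Type
  C : Type
  instFI : Fintype I
  instDI : DecidableEq I
  instFS : Fintype S
  instDS : DecidableEq S
  instFC : Fintype C
  instDC : DecidableEq C
  col : S → C
  rc : I → Option C
  root : I
  rc_root : rc root = none
  card_le : ∀ c : C, (Finset.univ.filter (fun i => rc i = some c)).card ≤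
    (Finset.univ.filter (fun s => col s = c)).card

attribute [instance] Stage.instFI Stage.instDI Stage.instFS Stage.instDS Stage.instFC Stage.instDC

/-- The space of a building block. -/
abbrev Stage.X (st : Stage) : Type := st.S → S3

/-- The character attached to a color. -/
noncomputable def Stage.chi (st : Stage) : Option st.C → (st.S → Circle) → Circle
  | none, _ => 1
  | some c, l => ∏ s ∈ Finset.univ.filter (fun s => st.col s = c), l s

/-- The building block: equivariant matrix valued functions on two copies of the space. -/
noncomputable def Stage.Alg (st : Stage) :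
    StarSubalgebra ℂ C(st.X × Bool, Matrix st.I st.I ℂ) where
  carrier := {f | ∀ (l : st.S → Circle) (z : st.X) (e : Bool) (i j : st.I),
    f (act l z, e) i j =
      ((st.chi (st.rc i) l / st.chi (st.rc j) l : Circle) : ℂ) * f (z, e) i j}
  mul_mem' := by
    intro f g hf hg l z e i j
    simp only [ContinuousMap.mul_apply, Matrix.mul_apply, Finset.mul_sum]
    refine Finset.sum_congr rfl fun k _ => ?_
    rw [hf l z e i k, hg l z e k j]
    have h : ((st.chi (st.rc i) l / st.chi (st.rc j) l : Circle) : ℂ) =
      ((st.chi (st.rc i) l / st.chi (st.rc k) l : Circle) : ℂ) *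
      ((st.chi (st.rc k) l / st.chi (st.rc j) l : Circle) : ℂ) := by
      rw [← Circle.coe_mul, div_mul_div_cancel]
    rw [h]; ring
  add_mem' := by
    intro f g hf hg l z e i j
    simp only [ContinuousMap.add_apply, Matrix.add_apply]
    rw [hf l z e i j, hg l z e i j]; ring
  algebraMap_mem' := by
    intro r l z e i j
    rw [Algebra.algebraMap_eq_smul_one]
    simp only [ContinuousMap.smul_apply, ContinuousMap.one_apply, Matrix.smul_apply]
    rcases eq_or_ne i j with h | h
    · subst h; simp
    · simp [Matrix.one_apply_ne h]
  star_mem' := by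
    intro f hf l z e i j
    simp only [ContinuousMap.star_apply, Matrix.star_apply]
    rw [hf l z e j i, star_mul', Circle.coe_div, Circle.coe_div, star_div₀]
    simp only [RCLike.star_def, ← Circle.coe_inv_eq_conj]
    congr 1
    simp [div_eq_mul_inv, mul_comm]

theorem Stage.isClosed_Alg (st : Stage) : IsClosed (st.Alg : Set C(st.X × Bool, Matrix st.I st.I ℂ)) := by
  have : (st.Alg : Set C(st.X × Bool, Matrix st.I st.I ℂ)) =
    ⋂ (l : st.S → Circle) (z : st.X) (e : Bool) (i : st.I) (j : st.I),
    {f | f (act l z, e) i j =
      ((st.chi (st.rc i) l / st.chi (st.rc j) l : Circle) : ℂ) * f (z, e) i j} := by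
    ext f
    simp only [Set.mem_iInter, Set.mem_ofPred_eq]
    rfl
  rw [this]
  refine isClosed_iInter fun l => isClosed_iInter fun z => isClosed_iInter fun e =>
    isClosed_iInter fun i => isClosed_iInter fun j => ?_
  refine isClosed_eq ?_ ?_
  · have h1 : Continuous fun f : C(st.X × Bool, Matrix st.I st.I ℂ) => f (act l z, e) :=
      continuous_eval_const _
    exact h1.matrix_elem i j
  · have h1 : Continuous fun f : C(st.X × Bool, Matrix st.I st.I ℂ) => f (z, e) :=
      continuous_eval_const _
    exact continuous_const.mul (h1.matrix_elem i j)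

noncomputable instance (st : Stage) : CStarAlgebra st.Alg :=
  StarSubalgebra.cstarAlgebra _ (h_closed := st.isClosed_Alg)

/-- The index set of coordinate copies used in the next stage. -/
def Stage.Cp (st : Stage) : Type := Bool × st.I × (st.S → Bool)

instance (st : Stage) : Fintype st.Cp := inferInstanceAs (Fintype (Bool × st.I × (st.S → Bool)))

instance (st : Stage) : DecidableEq st.Cp :=
  inferInstanceAs (DecidableEq (Bool × st.I × (st.S → Bool)))

instance (st : Stage) : Nonempty st.Cp := ⟨(true, st.root, fun _ => true)⟩

/-- The index set of blocks in the next stage: coordinate copies, and point evaluations. A point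
evaluation is indexed by an option (`none`: trivial bundle; `some c`: the new line bundle) and by
a Boolean (whether the evaluation stays in the same sheet or not). -/
abbrev Stage.K (st : Stage) : Type := st.Cp ⊕ (Option st.Cp × Bool)

/-- Colors of the rows of the next stage. -/
def Stage.nextRc (st : Stage) : st.I × st.K → Option (Option (st.Cp × st.C))
  | (i, Sum.inl c) => (st.rc i).map fun x => some (c, x)
  | (_, Sum.inr (none, _)) => none
  | (_, Sum.inr (some _, _)) => some none

/-- Colors of the spheres of the next stage. -/
def Stage.nextCol (st : Stage) : (st.Cp × st.S) ⊕ (st.I × st.Cp × Bool) → Option (st.Cp × st.C)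
  | Sum.inl (c, s) => some (c, st.col s)
  | Sum.inr _ => none

theorem Stage.next_card_le (st : Stage) (c : Option (st.Cp × st.C)) :
    (Finset.univ.filter (fun i => st.nextRc i = some c)).card ≤
    (Finset.univ.filter (fun s => st.nextCol s = c)).card := by
  cases c with
  | none =>
    let f : st.I × st.K → (st.Cp × st.S) ⊕ (st.I × st.Cp × Bool) := fun p =>
      match p with
      | (i, Sum.inr (some c, s)) => Sum.inr (i, c, s)
      | (i, Sum.inl c) => Sum.inr (i, c, true)
      | (i, Sum.inr (none, s)) => Sum.inr (i, (true, i, fun _ => true), s)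
    refine Finset.card_le_card_of_injOn f ?_ ?_
    · intro p hp
      rcases p with ⟨i, c | ⟨_ | c, s⟩⟩
      · simp [Stage.nextRc] at hp
      · simp [Stage.nextRc] at hp
      · simp [f, Stage.nextCol]
    · intro p hp q hq hpq
      rcases p with ⟨i, c | ⟨_ | c, s⟩⟩
      · simp [Stage.nextRc] at hp
      · simp [Stage.nextRc] at hp
      rcases q with ⟨i', c' | ⟨_ | c', s'⟩⟩
      · simp [Stage.nextRc] at hq
      · simp [Stage.nextRc] at hq
      simpa [f] using hpq
  | some d =>
    rcases d with ⟨c0, x⟩
    have h1 : (Finset.univ.filter (fun i => st.nextRc i = some (some (c0, x)))) =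
      (Finset.univ.filter (fun i => st.rc i = some x)).map
        ⟨fun i => (i, Sum.inl c0), fun i j h => by simpa using h⟩ := by
      ext ⟨i, c | ⟨_ | c, s⟩⟩
      · simp only [Stage.nextRc, Finset.mem_filter, Finset.mem_univ, true_and, Option.map_eq_some_iff,
          Option.some.injEq, Prod.mk.injEq, Finset.mem_map, Function.Embedding.coeFn_mk,
          Sum.inl.injEq]
        constructor
        · rintro ⟨a, ha, rfl, rfl⟩
          exact ⟨i, ha, rfl, rfl⟩
        · rintro ⟨a, ha, rfl, rfl⟩
          exact ⟨x, ha, rfl, rfl⟩
      · simp [Stage.nextRc]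
      · simp [Stage.nextRc]
    have h2 : (Finset.univ.filter (fun s => st.nextCol s = some (c0, x))) =
      (Finset.univ.filter (fun s => st.col s = x)).map
        ⟨fun s => Sum.inl (c0, s), fun i j h => by simpa using h⟩ := by
      ext s
      rcases s with ⟨c, s⟩ | s
      · simp only [Stage.nextCol, Finset.mem_filter, Finset.mem_univ, true_and,
          Option.some.injEq, Prod.mk.injEq, Finset.mem_map, Function.Embedding.coeFn_mk,
          Sum.inl.injEq]
        constructor
        · rintro ⟨rfl, h⟩
          exact ⟨s, h, rfl, rfl⟩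
        · rintro ⟨a, ha, rfl, rfl⟩
          exact ⟨rfl, ha⟩
      · simp [Stage.nextCol]
    rw [h1, h2, Finset.card_map, Finset.card_map]
    exact st.card_le x

/-- The next stage. -/
abbrev Stage.next (st : Stage) : Stage where
  I := st.I × st.K
  S := (st.Cp × st.S) ⊕ (st.I × st.Cp × Bool)
  C := Option (st.Cp × st.C)
  instFI := inferInstance
  instDI := inferInstance
  instFS := inferInstance
  instDS := inferInstance
  instFC := inferInstance
  instDC := inferInstance
  col := st.nextCol
  rc := st.nextRc
  root := (st.root, Sum.inr (none, false))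
  rc_root := rfl
  card_le := st.next_card_le

/-- The coordinate copy with index `c`. -/
def Stage.proj (st : Stage) (c : st.Cp) (z : st.next.X) : st.X := fun s => z (Sum.inl (c, s))

/-- The source point of the block `k` of the connecting map with evaluation point `x`. -/
def Stage.src (st : Stage) (x : st.X) : st.K → st.next.X × Bool → st.X × Bool
  | Sum.inl c, p => (st.proj c p.1, p.2)
  | Sum.inr (_, s), p => (x, xor p.2 s)

theorem Stage.continuous_src (st : Stage) (x : st.X) (k : st.K) : Continuous (st.src x k) := by
  rcases k with c | ⟨o, s⟩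
  · show Continuous fun p : st.next.X × Bool => (st.proj c p.1, p.2)
    refine Continuous.prodMk ?_ continuous_snd
    refine continuous_pi fun s => ?_
    exact (continuous_apply (Sum.inl (c, s))).comp continuous_fst
  · show Continuous fun p : st.next.X × Bool => (x, xor p.2 s)
    exact continuous_const.prodMk ((continuous_of_discreteTopology
      (f := fun b : Bool => xor b s)).comp continuous_snd)

/-- The underlying function of the connecting map. -/
noncomputable def Stage.connFun (st : Stage) (x : st.X) (f : C(st.X × Bool, Matrix st.I st.I ℂ)) :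
    C(st.next.X × Bool, Matrix st.next.I st.next.I ℂ) where
  toFun p := Matrix.blockDiagonal fun k => f (st.src x k p)
  continuous_toFun := by
    refine Continuous.matrix_blockDiagonal ?_
    refine continuous_pi fun k => ?_
    exact f.continuous.comp (st.continuous_src x k)

theorem Stage.connFun_apply (st : Stage) (x : st.X) (f : C(st.X × Bool, Matrix st.I st.I ℂ))
    (p : st.next.X × Bool) :
    st.connFun x f p = Matrix.blockDiagonal fun k => f (st.src x k p) := rfl

theorem Stage.proj_act (st : Stage) (c : st.Cp) (l : st.next.S → Circle) (z : st.next.X) :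
    st.proj c (act l z) = act (fun s => l (Sum.inl (c, s))) (st.proj c z) := rfl

theorem Stage.chi_next_inl (st : Stage) (c : st.Cp) (i : st.I) (l : st.next.S → Circle) :
    st.next.chi (st.next.rc (i, Sum.inl c)) l =
      st.chi (st.rc i) (fun s => l (Sum.inl (c, s))) := by
  show st.next.chi ((st.rc i).map fun x => some (c, x)) l = _
  cases h : st.rc i with
  | none => rfl
  | some x =>
    show (∏ s ∈ Finset.univ.filter (fun s => st.nextCol s = some (c, x)), l s) =
      ∏ s ∈ Finset.univ.filter (fun s => st.col s = x), l (Sum.inl (c, s))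
    have h2 : (Finset.univ.filter (fun s => st.nextCol s = some (c, x))) =
      (Finset.univ.filter (fun s => st.col s = x)).map
        ⟨fun s => Sum.inl (c, s), fun i j h => by simpa using h⟩ := by
      ext s
      rcases s with ⟨c', s⟩ | s
      · simp only [Stage.nextCol, Finset.mem_filter, Finset.mem_univ, true_and,
          Option.some.injEq, Prod.mk.injEq, Finset.mem_map, Function.Embedding.coeFn_mk,
          Sum.inl.injEq]
        constructor
        · rintro ⟨rfl, h⟩
          exact ⟨s, h, rfl, rfl⟩
        · rintro ⟨a, ha, rfl, rfl⟩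
          exact ⟨rfl, ha⟩
      · simp [Stage.nextCol]
    rw [h2, Finset.prod_map]
    rfl

/-- The connecting map with evaluation point `x`. -/
noncomputable def Stage.conn (st : Stage) (x : st.X) : st.Alg →⋆ₐ[ℂ] st.next.Alg where
  toFun f := ⟨st.connFun x f.1, by
    intro l z e i j
    rcases i with ⟨i, k⟩
    rcases j with ⟨j, k'⟩
    rw [st.connFun_apply, st.connFun_apply, Matrix.blockDiagonal_apply, Matrix.blockDiagonal_apply]
    simp only
    split_ifs with h
    · subst h
      rcases k with c | ⟨o, s⟩
      · show f.1 (st.proj c (act l z), e) i j = _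
        rw [st.proj_act, f.2 _ _ e i j, st.chi_next_inl, st.chi_next_inl]
        rfl
      · show f.1 (x, xor e s) i j = _ * f.1 (x, xor e s) i j
        have h : st.next.chi (st.next.rc (i, Sum.inr (o, s))) l /
          st.next.chi (st.next.rc (j, Sum.inr (o, s))) l = 1 := by
          have : st.next.rc (i, Sum.inr (o, s)) = st.next.rc (j, Sum.inr (o, s)) := by
            cases o <;> rfl
          rw [this, div_self']
        rw [h]; simp
    · simp⟩
  map_one' := by
    apply Subtype.ext
    ext p : 1
    show Matrix.blockDiagonal (fun k => (1 : C(st.X × Bool, Matrix st.I st.I ℂ)) (st.src x k p)) = 1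
    exact Matrix.blockDiagonal_one
  map_mul' f g := by
    apply Subtype.ext
    ext p : 1
    show Matrix.blockDiagonal (fun k => f.1 (st.src x k p) * g.1 (st.src x k p)) = _
    rw [Matrix.blockDiagonal_mul]; rfl
  map_zero' := by
    apply Subtype.ext
    ext p : 1
    show Matrix.blockDiagonal (fun k => (0 : C(st.X × Bool, Matrix st.I st.I ℂ)) (st.src x k p)) = 0
    exact Matrix.blockDiagonal_zero
  map_add' f g := by
    apply Subtype.ext
    ext p : 1
    show Matrix.blockDiagonal ((fun k => f.1 (st.src x k p)) + fun k => g.1 (st.src x k p)) = _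
    rw [Matrix.blockDiagonal_add]; rfl
  commutes' r := by
    apply Subtype.ext
    ext p : 1
    show Matrix.blockDiagonal (fun k => (algebraMap ℂ C(st.X × Bool, Matrix st.I st.I ℂ) r)
      (st.src x k p)) = (algebraMap ℂ C(st.next.X × Bool, Matrix st.next.I st.next.I ℂ) r) p
    rw [Algebra.algebraMap_eq_smul_one, Algebra.algebraMap_eq_smul_one]
    simp only [ContinuousMap.smul_apply, ContinuousMap.one_apply]
    have := Matrix.blockDiagonal_smul r (fun _ : st.K => (1 : Matrix st.I st.I ℂ))
    rw [show (fun _ : st.K => (1 : Matrix st.I st.I ℂ)) = 1 from rfl, Matrix.blockDiagonal_one] at this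
    exact this
  map_star' f := by
    apply Subtype.ext
    ext p : 1
    show Matrix.blockDiagonal (fun k => (f.1 (st.src x k p)).conjTranspose) =
      (Matrix.blockDiagonal (fun k => (f.1 (st.src x k p)))).conjTranspose
    rw [Matrix.blockDiagonal_conjTranspose]

theorem Stage.conn_apply (st : Stage) (x : st.X) (f : st.Alg) (p : st.next.X × Bool) :
    (st.conn x f).1 p = Matrix.blockDiagonal fun k => f.1 (st.src x k p) := rfl

/-- The initial stage: one trivial row and three rows with a line bundle over one sphere each. -/
abbrev stage0 : Stage where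
  I := Option (Fin 3)
  S := Fin 3
  C := Fin 3
  instFI := inferInstance
  instDI := inferInstance
  instFS := inferInstance
  instDS := inferInstance
  instFC := inferInstance
  instDC := inferInstance
  col := id
  rc := id
  root := none
  rc_root := rfl
  card_le := by decide

/-- The sequence of stages. -/
def stg : ℕ → Stage
  | 0 => stage0
  | n + 1 => (stg n).next

/-- The sequence of building blocks. -/
abbrev BA (n : ℕ) : Type := (stg n).Alg

/-- The connecting maps for a sequence of evaluation points. -/
noncomputable def bconn (x : ∀ n, (stg n).X) (n : ℕ) : BA n →⋆ₐ[ℂ] BA (n + 1) :=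
  (stg n).conn (x n)

/-- Data exhibiting `L` as a limit of a sequence of C*-algebras with isometric unital
*-homomorphisms as connecting maps. -/
structure LimitData (A : ℕ → Type) [∀ n, CStarAlgebra (A n)] (φ : ∀ n, A n →⋆ₐ[ℂ] A (n + 1))
    (L : Type) [CStarAlgebra L] where
  ι : ∀ n, A n →⋆ₐ[ℂ] L
  isom : ∀ n a, ‖ι n a‖ = ‖a‖
  comp : ∀ n a, ι (n + 1) (φ n a) = ι n a
  dense : Dense (⋃ n, Set.range (ι n))

/-- Iterated connecting maps. -/
noncomputable def iter {A : ℕ → Type} [∀ n, CStarAlgebra (A n)]
    (φ : ∀ n, A n →⋆ₐ[ℂ] A (n + 1)) {n m : ℕ} (h : n ≤ m) : A n →⋆ₐ[ℂ] A m :=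
  Nat.leRecOn h (fun {k} f => (φ k).comp f) (StarAlgHom.id ℂ (A n))

theorem iter_self {A : ℕ → Type} [∀ n, CStarAlgebra (A n)]
    (φ : ∀ n, A n →⋆ₐ[ℂ] A (n + 1)) {n : ℕ} (a : A n) : iter φ (le_refl n) a = a := by
  simp [iter, Nat.leRecOn_self]

theorem iter_succ {A : ℕ → Type} [∀ n, CStarAlgebra (A n)]
    (φ : ∀ n, A n →⋆ₐ[ℂ] A (n + 1)) {n m : ℕ} (h : n ≤ m) (h' : n ≤ m + 1) (a : A n) :
    iter φ h' a = φ m (iter φ h a) := by
  simp [iter, Nat.leRecOn_succ h]

theorem LimitData.iter {A : ℕ → Type} [∀ n, CStarAlgebra (A n)]
    {φ : ∀ n, A n →⋆ₐ[ℂ] A (n + 1)} {L : Type} [CStarAlgebra L] (D : LimitData A φ L)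
    {n m : ℕ} (h : n ≤ m) (a : A n) : D.ι m (VB.iter φ h a) = D.ι n a := by
  induction m, h using Nat.le_induction with
  | base => rw [iter_self]
  | succ m h ih => rw [iter_succ φ h, D.comp, ih]

/-- Exchange of the two sheets. -/
noncomputable def Stage.swap (st : Stage) : C(st.X × Bool, st.X × Bool) where
  toFun p := (p.1, !p.2)
  continuous_toFun := continuous_fst.prodMk
    ((continuous_of_discreteTopology (f := fun b : Bool => !b)).comp continuous_snd)

/-- The flip automorphism of a building block. -/
noncomputable def Stage.flip (st : Stage) : st.Alg ≃⋆ₐ[ℂ] st.Alg where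
  toFun f := ⟨f.1.comp st.swap, fun l z e i j => f.2 l z (!e) i j⟩
  invFun f := ⟨f.1.comp st.swap, fun l z e i j => f.2 l z (!e) i j⟩
  left_inv f := by
    apply Subtype.ext
    ext p : 1
    show f.1 (p.1, !!p.2) = f.1 p
    rw [Bool.not_not]
  right_inv f := by
    apply Subtype.ext
    ext p : 1
    show f.1 (p.1, !!p.2) = f.1 p
    rw [Bool.not_not]
  map_mul' _ _ := rfl
  map_add' _ _ := rfl
  map_star' _ := rfl
  map_smul' _ _ := rfl

theorem Stage.flip_apply (st : Stage) (f : st.Alg) (z : st.X) (e : Bool) :
    (st.flip f).1 (z, e) = f.1 (z, !e) := rfl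

theorem Stage.flip_flip (st : Stage) (f : st.Alg) : st.flip (st.flip f) = f :=
  st.flip.left_inv f

theorem Stage.conn_flip (st : Stage) (x : st.X) (f : st.Alg) :
    st.conn x (st.flip f) = st.next.flip (st.conn x f) := by
  apply Subtype.ext
  ext p : 1
  rw [st.conn_apply, st.next.flip_apply, st.conn_apply]
  congr 1
  funext k
  rcases k with c | ⟨o, s⟩
  · rfl
  · show f.1 (x, !(xor p.2 s)) = f.1 (x, xor (!p.2) s)
    congr 2
    cases p.2 <;> cases s <;> rfl

end VB
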