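import Pool.Agent.VB.CDefs

/-!
MODULE VB/Full.  Compressing an element of a building block to a scalar in the next one.
-/

open scoped Matrix.Norms.L2Operator ComplexConjugate

namespace VB

namespace FullAux

/-- the column vector -/
noncomputable def vv (st : Stage) (e0 : Bool) (η : st.I → ℂ) (e : Bool) : st.next.I → ℂ :=
  fun i => if i.2 = Sum.inr (none, xor e e0) then η i.1 else 0

/-- the row vector -/
noncomputable def ww (st : Stage) (k : st.next.I × (st.next.S → Fin 2)) (z : st.next.X) :
    st.next.I → ℂ :=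
  fun j => if j = k.1 then conj (st.next.gfun (st.next.rc k.1) k.2 z) else 0

theorem continuous_ww (st : Stage) (k : st.next.I × (st.next.S → Fin 2)) (j : st.next.I) :
    Continuous fun z => ww st k z j := by
  unfold ww
  split_ifs
  · exact Complex.continuous_conj.comp (st.next.gfun (st.next.rc k.1) k.2).continuous
  · exact continuous_const

/-- The function. -/
noncomputable def yy (st : Stage) (e0 : Bool) (η : st.I → ℂ)
    (k : st.next.I × (st.next.S → Fin 2)) :
    C(st.next.X × Bool, Matrix st.next.I st.next.I ℂ) where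
  toFun p := Matrix.vecMulVec (vv st e0 η p.2) (ww st k p.1)
  continuous_toFun := by
    refine continuous_matrix fun i j => ?_
    show Continuous fun p : st.next.X × Bool => vv st e0 η p.2 i * ww st k p.1 j
    refine Continuous.mul ?_ ((continuous_ww st k j).comp continuous_fst)
    exact (continuous_of_discreteTopology (f := fun b : Bool => vv st e0 η b i)).comp
      continuous_snd

theorem conj_circle (c : Circle) : conj (c : ℂ) = ((c⁻¹ : Circle) : ℂ) :=
  (Circle.coe_inv_eq_conj c).symm

/-- The element. -/
noncomputable def ya (st : Stage) (e0 : Bool) (η : st.I → ℂ)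
    (k : st.next.I × (st.next.S → Fin 2)) : st.next.Alg :=
  ⟨yy st e0 η k, by
    intro l z e i j
    show vv st e0 η e i * ww st k (act l z) j = _ * (vv st e0 η e i * ww st k z j)
    by_cases h1 : i.2 = Sum.inr (none, xor e e0)
    · by_cases h2 : j = k.1
      · have h3 : st.next.rc i = none := by
          obtain ⟨i1, i2⟩ := i
          simp only at h1
          subst h1
          rfl
        have h4 : ww st k (act l z) j = conj (st.next.gfun (st.next.rc k.1) k.2 (act l z)) := by
          simp [ww, h2]
        have h5 : ww st k z j = conj (st.next.gfun (st.next.rc k.1) k.2 z) := by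
          simp [ww, h2]
        rw [h4, h5, h3, st.next.gfun_act, map_mul, conj_circle, h2]
        have h6 : st.next.chi none l = 1 := rfl
        rw [h6, one_div]
        ring
      · have h4 : ∀ z', ww st k z' j = 0 := fun z' => by simp [ww, h2]
        rw [h4, h4]; simp
    · have h4 : vv st e0 η e i = 0 := by simp [vv, h1]
      rw [h4]; simp⟩

theorem key (st : Stage) (e0 : Bool) (η : st.I → ℂ)
    (k : st.next.I × (st.next.S → Fin 2)) (M : st.next.Alg) (p : st.next.X × Bool) :
    (star (ya st e0 η k) * M * ya st e0 η k).1 p =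
      (star (vv st e0 η p.2) ⬝ᵥ (M.1 p).mulVec (vv st e0 η p.2)) •
        Matrix.vecMulVec (star (ww st k p.1)) (ww st k p.1) := by
  show (Matrix.vecMulVec (vv st e0 η p.2) (ww st k p.1)).conjTranspose * M.1 p *
    Matrix.vecMulVec (vv st e0 η p.2) (ww st k p.1) = _
  rw [Matrix.conjTranspose_vecMulVec, Matrix.vecMulVec_mul, Matrix.vecMulVec_mul_vecMulVec,
    ← Matrix.dotProduct_mulVec, Matrix.vecMulVec_smul]

theorem sum_ww (st : Stage) (z : st.next.X) :
    ∑ k : st.next.I × (st.next.S → Fin 2), Matrix.vecMulVec (star (ww st k z)) (ww st k z) = 1 := by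
  ext i j
  rw [Matrix.sum_apply, Fintype.sum_prod_type]
  simp only [Matrix.vecMulVec_apply, ww, Pi.star_apply]
  rcases eq_or_ne i j with h | h
  · subst h
    rw [Matrix.one_apply_eq, Finset.sum_eq_single i]
    · have h2 : ∀ P : st.next.S → Fin 2,
          star (if i = i then conj (st.next.gfun (st.next.rc i) P z) else 0) *
          (if i = i then conj (st.next.gfun (st.next.rc i) P z) else 0) =
          ((‖st.next.gfun (st.next.rc i) P z‖ ^ 2 : ℝ) : ℂ) := by
        intro P
        rw [if_pos rfl, RCLike.star_def, Complex.conj_conj, Complex.mul_conj, Complex.normSq_eq_norm_sq]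
      rw [Finset.sum_congr rfl fun P _ => h2 P, ← Complex.ofReal_sum, st.next.gfun_sq]
      simp
    · intro b _ hb
      refine Finset.sum_eq_zero fun P _ => ?_
      rw [if_neg (fun h => hb h.symm)]; simp
    · intro h; exact absurd (Finset.mem_univ _) h
  · rw [Matrix.one_apply_ne h]
    refine Finset.sum_eq_zero fun b _ => Finset.sum_eq_zero fun P _ => ?_
    by_cases h1 : i = b
    · subst h1
      rw [if_neg (fun h' : j = i => h h'.symm)]
      simp
    · rw [if_neg h1]; simp

theorem vv_dot (st : Stage) (x : st.X) (e0 : Bool) (η : st.I → ℂ) (h : st.Alg)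
    (p : st.next.X × Bool) :
    star (vv st e0 η p.2) ⬝ᵥ ((st.conn x h).1 p).mulVec (vv st e0 η p.2) =
      ∑ i, ∑ j, conj (η i) * h.1 (x, e0) i j * η j := by
  rw [st.conn_apply]
  simp only [dotProduct, Matrix.mulVec, vv, Pi.star_apply, Matrix.blockDiagonal_apply]
  rw [Fintype.sum_prod_type]
  refine Finset.sum_congr rfl fun i _ => ?_
  rw [Finset.sum_eq_single (Sum.inr (none, xor p.2 e0) : st.K)]
  · rw [if_pos rfl, Finset.mul_sum, Fintype.sum_prod_type]
    refine Finset.sum_congr rfl fun j _ => ?_
    rw [Finset.sum_eq_single (Sum.inr (none, xor p.2 e0) : st.K)]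
    · rw [if_pos rfl, if_pos rfl]
      have : st.src x (Sum.inr (none, xor p.2 e0)) p = (x, e0) := by
        show (x, xor p.2 (xor p.2 e0)) = (x, e0)
        rw [← Bool.xor_assoc, Bool.xor_self, Bool.false_xor]
      rw [this, RCLike.star_def]
      ring
    · intro b _ hb
      rw [if_neg (fun h => hb h.symm)]; simp
    · intro h; exact absurd (Finset.mem_univ _) h
  · intro b _ hb
    rw [if_neg hb]; simp
  · intro h; exact absurd (Finset.mem_univ _) h

theorem vv_norm (st : Stage) (e0 : Bool) (η : st.I → ℂ)
    (hη : ∑ i, conj (η i) * η i = 1) (e : Bool) :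
    star (vv st e0 η e) ⬝ᵥ vv st e0 η e = 1 := by
  rw [← hη]
  simp only [dotProduct, vv, Pi.star_apply]
  rw [Fintype.sum_prod_type]
  refine Finset.sum_congr rfl fun i _ => ?_
  rw [Finset.sum_eq_single (Sum.inr (none, xor e e0) : st.K)]
  · rw [if_pos rfl, RCLike.star_def]
  · intro b _ hb
    rw [if_neg hb]; simp
  · intro h; exact absurd (Finset.mem_univ _) h

end FullAux

open FullAux

theorem full_vec (st : Stage) (x : st.X) (e0 : Bool) (η : st.I → ℂ)
    (hη : ∑ i, conj (η i) * η i = 1) :
    ∃ (κ : Type) (_ : Fintype κ) (y : κ → st.next.Alg),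
      ∑ k, star (y k) * y k = 1 ∧
      ∀ h : st.Alg, ∑ k, star (y k) * st.conn x h * y k =
        (∑ i, ∑ j, conj (η i) * h.1 (x, e0) i j * η j) • (1 : st.next.Alg) := by
  refine ⟨st.next.I × (st.next.S → Fin 2), inferInstance, ya st e0 η, ?_, ?_⟩
  · have h1 : ∀ k, star (ya st e0 η k) * ya st e0 η k =
        star (ya st e0 η k) * 1 * ya st e0 η k := fun k => by rw [mul_one]
    simp_rw [h1]
    apply Subtype.ext
    ext p : 1
    have h2 : (∑ k, star (ya st e0 η k) * 1 * ya st e0 η k).1 p =
        ∑ k, (star (ya st e0 η k) * 1 * ya st e0 η k).1 p := by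
      rw [AddSubmonoidClass.coe_finsetSum, ContinuousMap.sum_apply]
    rw [h2, Finset.sum_congr rfl fun k _ => key st e0 η k 1 p, ← Finset.smul_sum, sum_ww]
    show (star (vv st e0 η p.2) ⬝ᵥ (1 : Matrix st.next.I st.next.I ℂ).mulVec (vv st e0 η p.2)) •
      (1 : Matrix st.next.I st.next.I ℂ) = 1
    rw [Matrix.one_mulVec, vv_norm st e0 η hη, one_smul]
  · intro h
    apply Subtype.ext
    ext p : 1
    have h2 : (∑ k, star (ya st e0 η k) * st.conn x h * ya st e0 η k).1 p =
        ∑ k, (star (ya st e0 η k) * st.conn x h * ya st e0 η k).1 p := by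
      rw [AddSubmonoidClass.coe_finsetSum, ContinuousMap.sum_apply]
    rw [h2, Finset.sum_congr rfl fun k _ => key st e0 η k (st.conn x h) p, ← Finset.smul_sum,
      sum_ww, vv_dot]
    rfl

end VB
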