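import Pool.Agent.VB.Mom

/-!
MODULE VB/Han.  The Hankel estimate: multiplication by a conjugate coordinate is close to a map
between spaces of holomorphic polynomials.

Proof for `j = 0` (the case `j = 1` is symmetric, with the roles of `p` and `q` exchanged).
If `n s0 = 0` take `y = 0`.  Let `n s0 ≥ 1`, `N = n s0`.  Write `x = ∑ a_(p,q) • mon p q` (finite sum over the
pairs with `p + q = n`; the index set is e.g. the finset of `p ≤ n` with `q = n - p`) and put
`y = ∑ a_(p,q) * (p s0 / (N + 1)) • mon (p - 1_{s0}) q`.  The residual vectors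
`r_(p,q) = ccf s0 0 * mon p q - (p s0 / (N+1)) • mon (p - 1_{s0}) q` are pairwise orthogonal in `L²`
(`integral_gen`), and `‖r_(p,q)‖² = ‖mon p q‖² * (N + 1 - p s0) / ((N + 1) (N + 2))
≤ ‖mon p q‖² / (N + 1)`.  Indeed with `m(a, b) = a! b! / (a+b+1)!` (single sphere) and `k = p s0`:
`‖z̄ z₀^k z₁^(N-k)‖² = m(k+1, N-k) = m(k, N-k) (k+1)/(N+2)`,
`⟨z̄ z₀^k z₁^(N-k), z₀^(k-1) z₁^(N-k)⟩ = m(k, N-k)`, `m(k-1, N-k) = m(k, N-k) (N+1)/k`.
Pythagoras gives `‖L2 (ccf s0 0 * x - y)‖² = ∑ |a|² ‖r‖² ≤ ∑ |a|² ‖mon‖² / (N+1) = ‖L2 x‖² / (N+1)`.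
-/

open MeasureTheory

open scoped ComplexConjugate

namespace VB

variable {S : Type} [Fintype S] [DecidableEq S]

/-- Monomials indexed by functions `S → Fin 2 → ℕ`. -/
noncomputable def monA (α : S → Fin 2 → ℕ) : C(S → S3, ℂ) := mon (fun s => α s 0) (fun s => α s 1)

omit [DecidableEq S] in
theorem monA_apply (α : S → Fin 2 → ℕ) (z : S → S3) :
    monA α z = ∏ s, coord 0 (z s) ^ α s 0 * coord 1 (z s) ^ α s 1 := rfl

omit [DecidableEq S] in
theorem monA_add (α β : S → Fin 2 → ℕ) : monA (α + β) = monA α * monA β := by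
  ext z
  rw [ContinuousMap.mul_apply, monA_apply, monA_apply, monA_apply, ← Finset.prod_mul_distrib]
  refine Finset.prod_congr rfl fun s _ => ?_
  simp only [Pi.add_apply, pow_add]
  ring

/-- The exponent of the coordinate function `(s0, j)`. -/
def eA (s0 : S) (j : Fin 2) : S → Fin 2 → ℕ := Pi.single s0 (Pi.single j 1)

theorem monA_eA (s0 : S) (j : Fin 2) : monA (eA s0 j) = cf s0 j := by
  ext z
  rw [monA_apply]
  show _ = coord j (z s0)
  rw [Finset.prod_eq_single s0]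
  · unfold eA
    rw [Pi.single_eq_same]
    fin_cases j <;> simp
  · intro s _ hs
    unfold eA
    rw [Pi.single_eq_of_ne hs]
    simp
  · intro h
    exact absurd (Finset.mem_univ _) h

theorem star_cf (s0 : S) (j : Fin 2) : star (cf s0 j) = ccf s0 j := rfl

/-- The squared norm of a monomial. -/
noncomputable def mmA (α : S → Fin 2 → ℕ) : ℝ :=
  ∏ s, ((α s 0).factorial : ℝ) * (α s 1).factorial / ((α s 0 + α s 1 + 1).factorial : ℝ)

omit [DecidableEq S] in
theorem mmA_pos (α : S → Fin 2 → ℕ) : 0 < mmA α := by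
  unfold mmA
  positivity

omit [DecidableEq S] in
theorem inner_monA (α β : S → Fin 2 → ℕ) [Decidable (α = β)] :
    inner ℂ (L2 (monA α)) (L2 (monA β)) = if α = β then ((mmA α : ℝ) : ℂ) else 0 := by
  unfold monA
  rw [inner_mon]
  have h : ((fun s => α s 0) = (fun s => β s 0) ∧ (fun s => α s 1) = (fun s => β s 1)) ↔ α = β := by
    constructor
    · rintro ⟨h1, h2⟩
      funext s j
      fin_cases j
      · exact congrFun h1 s
      · exact congrFun h2 s
    · rintro rfl
      exact ⟨rfl, rfl⟩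
  by_cases h' : α = β
  · rw [if_pos (h.mpr h'), if_pos h']
    rfl
  · rw [if_neg (fun h1 => h' (h.mp h1)), if_neg h']

omit [DecidableEq S] in
theorem inner_mixed (α γ α' γ' : S → Fin 2 → ℕ) [Decidable (α + γ' = γ + α')] :
    inner ℂ (L2 (star (monA γ) * monA α)) (L2 (star (monA γ') * monA α')) =
      if α + γ' = γ + α' then ((mmA (α + γ') : ℝ) : ℂ) else 0 := by
  rw [← inner_monA, inner_L2, inner_L2]
  congr 1
  funext z
  rw [monA_add, monA_add]
  simp only [ContinuousMap.mul_apply, ContinuousMap.star_apply, map_mul, RCLike.star_def,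
    Complex.conj_conj]
  ring

omit [DecidableEq S] in
theorem Hn_eq (n : S → ℕ) :
    (Hn n : Submodule ℂ C(S → S3, ℂ)) =
      Submodule.span ℂ (monA '' {α | ∀ s, α s 0 + α s 1 = n s}) := by
  unfold Hn
  congr 1
  ext f
  constructor
  · rintro ⟨p, q, hpq, rfl⟩
    exact ⟨fun s => ![p s, q s], fun s => by simpa using hpq s, rfl⟩
  · rintro ⟨α, hα, rfl⟩
    exact ⟨_, _, hα, rfl⟩

omit [DecidableEq S] in
theorem monA_mem_Hn {n : S → ℕ} {α : S → Fin 2 → ℕ} (h : ∀ s, α s 0 + α s 1 = n s) :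
    monA α ∈ (Hn n : Submodule ℂ C(S → S3, ℂ)) := by
  rw [Hn_eq]
  exact Submodule.subset_span ⟨α, h, rfl⟩

omit [DecidableEq S] in
theorem mem_Hn_iff (n : S → ℕ) (x : C(S → S3, ℂ)) (hx : x ∈ Hn n) :
    ∃ (A : Finset (S → Fin 2 → ℕ)) (a : (S → Fin 2 → ℕ) → ℂ),
      (∀ α ∈ A, ∀ s, α s 0 + α s 1 = n s) ∧ x = ∑ α ∈ A, a α • monA α := by
  rw [Hn_eq, Finsupp.mem_span_image_iff_linearCombination] at hx
  obtain ⟨l, hl, rfl⟩ := hx
  refine ⟨l.support, l, ?_, ?_⟩
  · intro α hα
    exact (Finsupp.mem_supported _ _).mp hl hα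
  · rw [Finsupp.linearCombination_apply]
    rfl

/-- Pythagoras for a finite pairwise orthogonal family. -/
theorem norm_sum_sq_of_orth {E : Type*} [NormedAddCommGroup E] [InnerProductSpace ℂ E] {T : Type*}
    (A : Finset T) (a : T → ℂ) (v : T → E)
    (h : ∀ α ∈ A, ∀ β ∈ A, α ≠ β → inner ℂ (v α) (v β) = 0) :
    ‖∑ α ∈ A, a α • v α‖ ^ 2 = ∑ α ∈ A, ‖a α‖ ^ 2 * ‖v α‖ ^ 2 := by
  classical
  have h1 : inner ℂ (∑ α ∈ A, a α • v α) (∑ α ∈ A, a α • v α) =
      ((∑ α ∈ A, ‖a α‖ ^ 2 * ‖v α‖ ^ 2 : ℝ) : ℂ) := by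
    rw [sum_inner]
    push_cast
    refine Finset.sum_congr rfl fun α hα => ?_
    rw [inner_sum, Finset.sum_eq_single α]
    · rw [inner_smul_left, inner_smul_right, inner_self_eq_norm_sq_to_K, ← mul_assoc,
        ← Complex.normSq_eq_conj_mul_self, Complex.normSq_eq_norm_sq]
      push_cast
      rfl
    · intro β hβ hne
      rw [inner_smul_left, inner_smul_right, h α hα β hβ (Ne.symm hne)]
      ring
    · intro h2
      exact absurd hα h2
  have h2 := inner_self_eq_norm_sq_to_K (𝕜 := ℂ) (∑ α ∈ A, a α • v α)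
  rw [h1] at h2
  have h3 : ((∑ α ∈ A, ‖a α‖ ^ 2 * ‖v α‖ ^ 2 : ℝ) : ℂ) =
      ((‖∑ α ∈ A, a α • v α‖ ^ 2 : ℝ) : ℂ) := by
    rw [h2]; push_cast; rfl
  exact (Complex.ofReal_injective h3).symm

theorem mmA_add_eA (α : S → Fin 2 → ℕ) (s0 : S) (j : Fin 2) :
    mmA (α + eA s0 j) = mmA α * (((α s0 j : ℝ) + 1) / ((α s0 0 : ℝ) + α s0 1 + 2)) := by
  unfold mmA
  rw [← Finset.mul_prod_erase Finset.univ _ (Finset.mem_univ s0),
    ← Finset.mul_prod_erase Finset.univ (fun s => ((α s 0).factorial : ℝ) * (α s 1).factorial /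
      ((α s 0 + α s 1 + 1).factorial : ℝ)) (Finset.mem_univ s0)]
  have h1 : ∀ s ∈ Finset.univ.erase s0, (((α + eA s0 j) s 0).factorial : ℝ) *
      ((α + eA s0 j) s 1).factorial / (((α + eA s0 j) s 0 + (α + eA s0 j) s 1 + 1).factorial : ℝ) =
      ((α s 0).factorial : ℝ) * (α s 1).factorial / ((α s 0 + α s 1 + 1).factorial : ℝ) := by
    intro s hs
    have : (α + eA s0 j) s = α s := by
      rw [Pi.add_apply, eA, Pi.single_eq_of_ne (Finset.ne_of_mem_erase hs), add_zero]
    rw [this]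
  rw [Finset.prod_congr rfl h1]
  have h2 : (α + eA s0 j) s0 = α s0 + Pi.single j 1 := by
    rw [Pi.add_apply, eA, Pi.single_eq_same]
  rw [h2]
  have h3 : ∀ m : ℕ, (((m + 1).factorial : ℕ) : ℝ) = (m + 1) * (m.factorial : ℝ) := by
    intro m
    rw [Nat.factorial_succ]
    push_cast
    ring
  have h4 : ((α s0 0 + α s0 1 + 2 : ℕ) : ℝ) ≠ 0 := by positivity
  fin_cases j
  · simp only [Fin.zero_eta, Pi.add_apply, Pi.single_eq_same, Fin.isValue, ne_eq, one_ne_zero,
      not_false_eq_true, Pi.single_eq_of_ne, add_zero]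
    rw [show α s0 0 + 1 + α s0 1 + 1 = (α s0 0 + α s0 1 + 1) + 1 by ring, h3, h3]
    have : (((α s0 0 + α s0 1 + 1).factorial : ℕ) : ℝ) ≠ 0 := by positivity
    push_cast
    field_simp
    ring
  · simp only [Fin.mk_one, Pi.add_apply, Pi.single_eq_same, Fin.isValue, ne_eq, zero_ne_one,
      not_false_eq_true, Pi.single_eq_of_ne, add_zero]
    rw [show α s0 0 + (α s0 1 + 1) + 1 = (α s0 0 + α s0 1 + 1) + 1 by ring, h3, h3]
    have : (((α s0 0 + α s0 1 + 1).factorial : ℕ) : ℝ) ≠ 0 := by positivity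
    push_cast
    field_simp
    ring

/-- The exponent `α - e`. -/
def dn (s0 : S) (j : Fin 2) (α : S → Fin 2 → ℕ) : S → Fin 2 → ℕ := α - eA s0 j

theorem dn_add {s0 : S} {j : Fin 2} {α : S → Fin 2 → ℕ} (h : 1 ≤ α s0 j) :
    dn s0 j α + eA s0 j = α := by
  unfold dn
  apply tsub_add_cancel_of_le
  intro s i
  unfold eA
  by_cases hs : s = s0
  · subst hs
    rw [Pi.single_eq_same]
    by_cases hi : i = j
    · subst hi
      rw [Pi.single_eq_same]
      exact h
    · rw [Pi.single_eq_of_ne hi]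
      exact Nat.zero_le _
  · rw [Pi.single_eq_of_ne hs]
    exact Nat.zero_le _

/-- The coefficient `k / (N + 1)`. -/
noncomputable def kc (s0 : S) (j : Fin 2) (α : S → Fin 2 → ℕ) : ℝ :=
  (α s0 j : ℝ) / ((α s0 0 : ℝ) + α s0 1 + 1)

/-- The residual vector. -/
noncomputable def resid (s0 : S) (j : Fin 2) (α : S → Fin 2 → ℕ) : Lp ℂ 2 (nu S) :=
  L2 (star (monA (eA s0 j)) * monA α) - ((kc s0 j α : ℝ) : ℂ) • L2 (monA (dn s0 j α))

theorem inner_resid (s0 : S) (j : Fin 2) (α β : S → Fin 2 → ℕ) :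
    inner ℂ (resid s0 j α) (resid s0 j β) =
      if α = β then (((mmA α * ((((α s0 0 : ℝ) + α s0 1 + 1) - α s0 j) /
        (((α s0 0 : ℝ) + α s0 1 + 1) * ((α s0 0 : ℝ) + α s0 1 + 2))) : ℝ)) : ℂ) else 0 := by
  set e := eA s0 j with he
  have hone : (monA (0 : S → Fin 2 → ℕ)) = 1 := by
    ext z
    rw [monA_apply]
    simp
  have hd : ∀ β : S → Fin 2 → ℕ, monA (dn s0 j β) = star (monA 0) * monA (dn s0 j β) := by
    intro β
    rw [hone, star_one, one_mul]
  -- the four inner products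
  have h1 : inner ℂ (L2 (star (monA e) * monA α)) (L2 (star (monA e) * monA β)) =
      if α = β then ((mmA (α + e) : ℝ) : ℂ) else 0 := by
    rw [inner_mixed]
    by_cases h : α = β
    · subst h
      rw [if_pos rfl, if_pos (add_comm _ _)]
    · rw [if_neg h, if_neg]
      intro h'
      rw [add_comm e β] at h'
      exact h (add_right_cancel h')
  have h2 : ∀ α β : S → Fin 2 → ℕ, ((kc s0 j β : ℝ) : ℂ) *
      inner ℂ (L2 (star (monA e) * monA α)) (L2 (monA (dn s0 j β))) =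
      if α = β then ((kc s0 j α * mmA α : ℝ) : ℂ) else 0 := by
    intro α β
    rcases Nat.eq_zero_or_pos (β s0 j) with h0 | h0
    · have hk : kc s0 j β = 0 := by rw [kc, h0, Nat.cast_zero, zero_div]
      rw [hk]
      by_cases h : α = β
      · subst h
        rw [if_pos rfl, hk]
        simp
      · rw [if_neg h]
        simp
    · rw [hd β, inner_mixed, add_zero, add_comm e, dn_add h0]
      by_cases h : α = β
      · subst h
        rw [if_pos rfl, if_pos rfl]
        push_cast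
        rfl
      · rw [if_neg h, if_neg h, mul_zero]
  have h2' : ∀ α β : S → Fin 2 → ℕ, ((kc s0 j α : ℝ) : ℂ) *
      inner ℂ (L2 (monA (dn s0 j α))) (L2 (star (monA e) * monA β)) =
      if α = β then ((kc s0 j α * mmA α : ℝ) : ℂ) else 0 := by
    intro α β
    have h3 := congrArg (starRingEnd ℂ) (h2 β α)
    rw [map_mul, Complex.conj_ofReal, inner_conj_symm] at h3
    rw [h3]
    by_cases h : α = β
    · subst h
      rw [if_pos rfl, Complex.conj_ofReal]
    · rw [if_neg h, if_neg (Ne.symm h), map_zero]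
  have h4 : ((kc s0 j α : ℝ) : ℂ) * (((kc s0 j β : ℝ) : ℂ) *
      inner ℂ (L2 (monA (dn s0 j α))) (L2 (monA (dn s0 j β)))) =
      if α = β then ((kc s0 j α * mmA α : ℝ) : ℂ) else 0 := by
    rcases Nat.eq_zero_or_pos (α s0 j) with ha | ha
    · have hk : kc s0 j α = 0 := by rw [kc, ha, Nat.cast_zero, zero_div]
      rw [hk]
      simp
    rcases Nat.eq_zero_or_pos (β s0 j) with hb | hb
    · have hk : kc s0 j β = 0 := by rw [kc, hb, Nat.cast_zero, zero_div]
      rw [hk]
      by_cases h : α = β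
      · subst h
        rw [hk]
        simp
      · simp [h]
    · rw [inner_monA]
      by_cases h : α = β
      · subst h
        rw [if_pos rfl, if_pos rfl]
        have h5 := mmA_add_eA (dn s0 j α) s0 j
        rw [dn_add ha] at h5
        have h6 : ((dn s0 j α) s0 j : ℝ) + 1 = α s0 j := by
          have := congrFun (congrFun (dn_add ha) s0) j
          rw [Pi.add_apply, Pi.add_apply, eA, Pi.single_eq_same, Pi.single_eq_same] at this
          exact_mod_cast this
        have h7 : ((dn s0 j α) s0 0 : ℝ) + (dn s0 j α) s0 1 + 1 = (α s0 0 : ℝ) + α s0 1 := by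
          have h70 := congrFun (congrFun (dn_add ha) s0) 0
          have h71 := congrFun (congrFun (dn_add ha) s0) 1
          rw [Pi.add_apply, Pi.add_apply, eA, Pi.single_eq_same] at h70 h71
          have : (Pi.single j 1 : Fin 2 → ℕ) 0 + (Pi.single j 1 : Fin 2 → ℕ) 1 = 1 := by
            fin_cases j <;> simp
          have h72 : dn s0 j α s0 0 + dn s0 j α s0 1 + 1 = α s0 0 + α s0 1 := by omega
          exact_mod_cast h72
        have hN : (0 : ℝ) < (α s0 0 : ℝ) + α s0 1 + 1 := by positivity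
        have hk : (0 : ℝ) < (α s0 j : ℝ) := by exact_mod_cast ha
        rw [h6, show ((dn s0 j α) s0 0 : ℝ) + (dn s0 j α) s0 1 + 2 =
          (α s0 0 : ℝ) + α s0 1 + 1 by linarith] at h5
        rw [← Complex.ofReal_mul, ← Complex.ofReal_mul]
        congr 1
        rw [h5, kc]
        field_simp
      · rw [if_neg h, if_neg, mul_zero, mul_zero]
        intro h'
        apply h
        rw [← dn_add ha, ← dn_add hb, h']
  have hx : inner ℂ (resid s0 j α) (resid s0 j β) =
      inner ℂ (L2 (star (monA e) * monA α)) (L2 (star (monA e) * monA β)) -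
      ((kc s0 j β : ℝ) : ℂ) * inner ℂ (L2 (star (monA e) * monA α)) (L2 (monA (dn s0 j β))) -
      ((kc s0 j α : ℝ) : ℂ) * inner ℂ (L2 (monA (dn s0 j α))) (L2 (star (monA e) * monA β)) +
      ((kc s0 j α : ℝ) : ℂ) * (((kc s0 j β : ℝ) : ℂ) *
      inner ℂ (L2 (monA (dn s0 j α))) (L2 (monA (dn s0 j β)))) := by
    unfold resid
    rw [inner_sub_left, inner_sub_right, inner_sub_right, inner_smul_left, inner_smul_right,
      inner_smul_left, inner_smul_right, Complex.conj_ofReal]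
    ring
  rw [hx, h1, h2 α β, h2' α β, h4]
  by_cases h : α = β
  · subst h
    simp only [if_true]
    rw [← Complex.ofReal_sub, ← Complex.ofReal_sub, ← Complex.ofReal_add]
    congr 1
    have hN : (0 : ℝ) < (α s0 0 : ℝ) + α s0 1 + 1 := by positivity
    have hN2 : (0 : ℝ) < (α s0 0 : ℝ) + α s0 1 + 2 := by positivity
    rw [he, mmA_add_eA, kc]
    field_simp
    ring
  · simp only [if_neg h]
    ring

theorem norm_resid_sq_le (s0 : S) (j : Fin 2) (α : S → Fin 2 → ℕ) :
    ‖resid s0 j α‖ ^ 2 ≤ mmA α / ((α s0 0 : ℝ) + α s0 1 + 1) := by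
  have h1 := inner_resid s0 j α α
  rw [if_pos rfl, inner_self_eq_norm_sq_to_K] at h1
  have h2 : ‖resid s0 j α‖ ^ 2 = mmA α * ((((α s0 0 : ℝ) + α s0 1 + 1) - α s0 j) /
        (((α s0 0 : ℝ) + α s0 1 + 1) * ((α s0 0 : ℝ) + α s0 1 + 2))) := by
    apply Complex.ofReal_injective
    rw [← h1]
    push_cast
    rfl
  have hN : (0 : ℝ) < (α s0 0 : ℝ) + α s0 1 + 1 := by positivity
  have hN2 : (0 : ℝ) < (α s0 0 : ℝ) + α s0 1 + 2 := by positivity
  rw [h2, mul_div_assoc' , div_le_div_iff₀ (by positivity) hN]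
  have h3 : 0 < mmA α := mmA_pos α
  have h4 : (0 : ℝ) ≤ (α s0 j : ℝ) := by positivity
  have h5 : 0 ≤ mmA α * ((α s0 0 : ℝ) + α s0 1 + 1) := by positivity
  nlinarith [mul_nonneg h5 h4, mul_nonneg h5 hN.le]

theorem norm_monA_sq (α : S → Fin 2 → ℕ) : ‖L2 (monA α)‖ ^ 2 = mmA α := by
  have h1 := inner_monA α α
  rw [if_pos rfl, inner_self_eq_norm_sq_to_K] at h1
  apply Complex.ofReal_injective
  rw [← h1]
  push_cast
  rfl

theorem hankel (n : S → ℕ) (s0 : S) (j : Fin 2) (x : C(S → S3, ℂ)) (hx : x ∈ Hn n) :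
    ∃ y ∈ Hn (n - Pi.single s0 1),
      ‖L2 (ccf s0 j * x - y)‖ ^ 2 ≤ ‖L2 x‖ ^ 2 / ((n s0 : ℝ) + 1) := by
  obtain ⟨A, a, hA, rfl⟩ := mem_Hn_iff n x hx
  refine ⟨∑ α ∈ A, a α • (((kc s0 j α : ℝ) : ℂ) • monA (dn s0 j α)), ?_, ?_⟩
  · refine Submodule.sum_mem _ fun α hα => Submodule.smul_mem _ _ ?_
    rcases Nat.eq_zero_or_pos (α s0 j) with h0 | h0
    · have hk : kc s0 j α = 0 := by rw [kc, h0, Nat.cast_zero, zero_div]
      rw [hk, Complex.ofReal_zero]
      exact (zero_smul ℂ (monA (dn s0 j α))).symm ▸ Submodule.zero_mem _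
    · refine Submodule.smul_mem _ _ (monA_mem_Hn fun s => ?_)
      have h70 := congrFun (congrFun (dn_add h0) s) 0
      have h71 := congrFun (congrFun (dn_add h0) s) 1
      rw [Pi.add_apply, Pi.add_apply] at h70 h71
      have h1 := hA α hα s
      rw [Pi.sub_apply]
      by_cases hs : s = s0
      · subst hs
        rw [eA, Pi.single_eq_same] at h70 h71
        rw [Pi.single_eq_same]
        have : (Pi.single j 1 : Fin 2 → ℕ) 0 + (Pi.single j 1 : Fin 2 → ℕ) 1 = 1 := by
          fin_cases j <;> simp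
        omega
      · rw [eA, Pi.single_eq_of_ne hs, Pi.zero_apply] at h70 h71
        rw [Pi.single_eq_of_ne hs]
        omega
  · have h1 : L2 (ccf s0 j * ∑ α ∈ A, a α • monA α -
        ∑ α ∈ A, a α • (((kc s0 j α : ℝ) : ℂ) • monA (dn s0 j α))) =
        ∑ α ∈ A, a α • resid s0 j α := by
      rw [Finset.mul_sum, ← Finset.sum_sub_distrib, L2_sum]
      refine Finset.sum_congr rfl fun α _ => ?_
      rw [L2_sub, mul_smul_comm, L2_smul, L2_smul, L2_smul, ← smul_sub]
      congr 1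
      unfold resid
      rw [monA_eA, star_cf]
    have h2 : L2 (∑ α ∈ A, a α • monA α) = ∑ α ∈ A, a α • L2 (monA α) := by
      rw [L2_sum]
      exact Finset.sum_congr rfl fun α _ => L2_smul _ _
    rw [h1, h2, norm_sum_sq_of_orth A a _ (fun α _ β _ hne => by rw [inner_resid, if_neg hne]),
      norm_sum_sq_of_orth A a _ (fun α _ β _ hne => by rw [inner_monA, if_neg hne]),
      Finset.sum_div]
    refine Finset.sum_le_sum fun α hα => ?_
    rw [norm_monA_sq, mul_div_assoc]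
    apply mul_le_mul_of_nonneg_left _ (by positivity)
    have h3 := norm_resid_sq_le s0 j α
    have h4 : (α s0 0 : ℝ) + α s0 1 = n s0 := by exact_mod_cast hA α hα s0
    rwa [h4] at h3

end VB
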