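import Pool.Agent.VB.Defs

/-!
MODULE VB/Lim.  Existence of C*-algebraic sequential limits with isometric connecting maps.

Proof (one possibility).  Let `P` be the set of all sequences `(a_m)` with `a_m ∈ A m` and `sup ‖a_m‖ < ∞`
which are eventually coherent: there is `n` with `a_(m+1) = φ m (a_m)` for all `m ≥ n`.  It is a star
subalgebra of `∀ m, A m`.  The seminorm `‖a‖ = lim ‖a_m‖` (the sequence `‖a_m‖` is eventually
constant because the maps are isometric) is submultiplicative and satisfies the C*-identity.  Take the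
quotient by its kernel (sequences which are eventually zero), i.e. `SeparationQuotient`, and its completion
(`UniformSpace.Completion` of a normed algebra is a complete normed algebra; extend `star` by continuity;
the C*-identity passes to the completion by density).  `ι n a` is the class of the sequence which is
`0` for `m < n` and `iter φ _ a` for `m ≥ n`.
Alternative: use `lp A ∞`-type C*-algebras: let `E` be the closure in `∏ A m` (bounded sequences, a C*-algebra in
Mathlib) of the eventually coherent sequences and divide by the ideal of null sequences.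
Alternative: construct the algebraic direct limit (`DirectLimit`), put the norm on it, and complete.
Alternative: represent `A n` faithfully on Hilbert spaces in a compatible way.
If some `A n` is trivial then all of them are (the maps are unital and isometric), and the statement is easy or
covered by the same proof.
-/

namespace VB

namespace LimAux

open Filter Topology UniformSpace

variable (A : ℕ → Type) [∀ n, CStarAlgebra (A n)] (φ : ∀ n, A n →⋆ₐ[ℂ] A (n + 1))

/-- Eventually coherent sequences. -/
def coh : StarSubalgebra ℂ (∀ n, A n) where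
  carrier := {a | ∃ n, ∀ m, n ≤ m → a (m + 1) = φ m (a m)}
  mul_mem' := by
    rintro a b ⟨n, hn⟩ ⟨n', hn'⟩
    refine ⟨max n n', fun m hm => ?_⟩
    rw [Pi.mul_apply, Pi.mul_apply, hn m (le_trans (le_max_left _ _) hm),
      hn' m (le_trans (le_max_right _ _) hm), map_mul]
  add_mem' := by
    rintro a b ⟨n, hn⟩ ⟨n', hn'⟩
    refine ⟨max n n', fun m hm => ?_⟩
    rw [Pi.add_apply, Pi.add_apply, hn m (le_trans (le_max_left _ _) hm),
      hn' m (le_trans (le_max_right _ _) hm), map_add]
  algebraMap_mem' := by
    intro r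
    refine ⟨0, fun m _ => ?_⟩
    rw [Pi.algebraMap_apply, Pi.algebraMap_apply]
    exact (AlgHomClass.commutes (φ m) r).symm
  star_mem' := by
    rintro a ⟨n, hn⟩
    refine ⟨n, fun m hm => ?_⟩
    rw [Pi.star_apply, Pi.star_apply, hn m hm, map_star]

/-- The algebra of eventually coherent sequences (type synonym). -/
def P : Type := ↥(coh A φ)

noncomputable instance : Ring (P A φ) := inferInstanceAs (Ring ↥(coh A φ))
noncomputable instance : Algebra ℂ (P A φ) := inferInstanceAs (Algebra ℂ ↥(coh A φ))
noncomputable instance : StarRing (P A φ) := inferInstanceAs (StarRing ↥(coh A φ))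
noncomputable instance : StarModule ℂ (P A φ) := inferInstanceAs (StarModule ℂ ↥(coh A φ))

variable {A φ}

/-- The entries of a sequence. -/
def P.at (a : P A φ) (m : ℕ) : A m := a.1 m

theorem P.spec (a : P A φ) : ∃ n, ∀ m, n ≤ m → a.at (m + 1) = φ m (a.at m) := a.2

theorem at_add (a b : P A φ) (m : ℕ) : (a + b).at m = a.at m + b.at m := rfl
theorem at_mul (a b : P A φ) (m : ℕ) : (a * b).at m = a.at m * b.at m := rfl
theorem at_neg (a : P A φ) (m : ℕ) : (-a).at m = -a.at m := rfl
theorem at_sub (a b : P A φ) (m : ℕ) : (a - b).at m = a.at m - b.at m := rfl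
theorem at_zero (m : ℕ) : (0 : P A φ).at m = 0 := rfl
theorem at_one (m : ℕ) : (1 : P A φ).at m = 1 := rfl
theorem at_star (a : P A φ) (m : ℕ) : (star a).at m = star (a.at m) := rfl
theorem at_smul (r : ℂ) (a : P A φ) (m : ℕ) : (r • a).at m = r • a.at m := rfl
theorem at_algebraMap (r : ℂ) (m : ℕ) : (algebraMap ℂ (P A φ) r).at m = algebraMap ℂ (A m) r := rfl

theorem P.ext {a b : P A φ} (h : ∀ m, a.at m = b.at m) : a = b := Subtype.ext (funext h)

/-- The eventual norm. -/
noncomputable def nrm (a : P A φ) : ℝ := ‖a.at (Classical.choose a.spec)‖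

theorem nrm_spec (hφ : ∀ n a, ‖φ n a‖ = ‖a‖) (a : P A φ) : ∀ᶠ m in atTop, ‖a.at m‖ = nrm a := by
  refine eventually_atTop.2 ⟨Classical.choose a.spec, fun m hm => ?_⟩
  induction m, hm using Nat.le_induction with
  | base => rfl
  | succ m hm ih => rw [Classical.choose_spec a.spec m hm, hφ, ih]

theorem nrm_eq (hφ : ∀ n a, ‖φ n a‖ = ‖a‖) (a : P A φ) (c : ℝ)
    (h : ∀ᶠ m in atTop, ‖a.at m‖ = c) : nrm a = c := by
  obtain ⟨m, h1, h2⟩ := (h.and (nrm_spec hφ a)).exists
  rw [← h1, ← h2]

/-- The seminorm. -/
noncomputable def rsn (hφ : ∀ n a, ‖φ n a‖ = ‖a‖) : RingSeminorm (P A φ) where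
  toFun := nrm
  map_zero' := nrm_eq hφ _ _ (Eventually.of_forall fun m => by rw [at_zero, norm_zero])
  add_le' a b := by
    obtain ⟨m, h1, h2, h3⟩ :=
      ((nrm_spec hφ (a + b)).and ((nrm_spec hφ a).and (nrm_spec hφ b))).exists
    rw [← h1, ← h2, ← h3, at_add]
    exact norm_add_le _ _
  neg' a := by
    obtain ⟨m, h1, h2⟩ := ((nrm_spec hφ (-a)).and (nrm_spec hφ a)).exists
    rw [← h1, ← h2, at_neg, norm_neg]
  mul_le' a b := by
    obtain ⟨m, h1, h2, h3⟩ :=
      ((nrm_spec hφ (a * b)).and ((nrm_spec hφ a).and (nrm_spec hφ b))).exists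
    rw [← h1, ← h2, ← h3, at_mul]
    exact norm_mul_le _ _

section
variable (hφ : ∀ n a, ‖φ n a‖ = ‖a‖)

/-- The sequences with their seminorm (type synonym). -/
@[nolint unusedArguments]
def Q (_ : ∀ n a, ‖φ n a‖ = ‖a‖) : Type := P A φ

noncomputable instance : SeminormedRing (Q hφ) := (rsn hφ).toSeminormedRing
noncomputable instance : Algebra ℂ (Q hφ) := inferInstanceAs (Algebra ℂ (P A φ))
noncomputable instance : StarRing (Q hφ) := inferInstanceAs (StarRing (P A φ))
noncomputable instance : StarModule ℂ (Q hφ) := inferInstanceAs (StarModule ℂ (P A φ))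

/-- The entries of a sequence. -/
def qat (a : Q hφ) (m : ℕ) : A m := P.at (A := A) (φ := φ) a m

theorem norm_spec (a : Q hφ) : ∀ᶠ m in atTop, ‖qat hφ a m‖ = ‖a‖ := nrm_spec hφ a
theorem qat_add (a b : Q hφ) (m : ℕ) : qat hφ (a + b) m = qat hφ a m + qat hφ b m := rfl
theorem qat_mul (a b : Q hφ) (m : ℕ) : qat hφ (a * b) m = qat hφ a m * qat hφ b m := rfl
theorem qat_sub (a b : Q hφ) (m : ℕ) : qat hφ (a - b) m = qat hφ a m - qat hφ b m := rfl
theorem qat_zero (m : ℕ) : qat hφ 0 m = 0 := rfl
theorem qat_one (m : ℕ) : qat hφ 1 m = 1 := rfl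
theorem qat_star (a : Q hφ) (m : ℕ) : qat hφ (star a) m = star (qat hφ a m) := rfl
theorem qat_smul (r : ℂ) (a : Q hφ) (m : ℕ) : qat hφ (r • a) m = r • qat hφ a m := rfl
theorem qat_algebraMap (r : ℂ) (m : ℕ) :
    qat hφ (algebraMap ℂ (Q hφ) r) m = algebraMap ℂ (A m) r := rfl

noncomputable instance : NormedAlgebra ℂ (Q hφ) where
  norm_smul_le r a := by
    obtain ⟨m, h1, h2⟩ := ((norm_spec hφ (r • a)).and (norm_spec hφ a)).exists
    rw [← h1, ← h2]
    exact (norm_smul _ _).le

theorem norm_star_Q (a : Q hφ) : ‖star a‖ = ‖a‖ := by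
  obtain ⟨m, h1, h2⟩ := ((norm_spec hφ (star a)).and (norm_spec hφ a)).exists
  rw [← h1, ← h2]
  exact norm_star _

theorem uc_star : UniformContinuous (star : Q hφ → Q hφ) := by
  have : LipschitzWith 1 (star : Q hφ → Q hφ) := by
    refine LipschitzWith.of_dist_le_mul fun a b => ?_
    rw [dist_eq_norm, dist_eq_norm, ← star_sub, norm_star_Q, NNReal.coe_one, one_mul]
  exact this.uniformContinuous

/-- The limit algebra. -/
abbrev L : Type := Completion (Q hφ)

noncomputable instance : Star (L hφ) := ⟨Completion.map star⟩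

theorem star_coe (a : Q hφ) : star (a : L hφ) = ((star a : Q hφ) : L hφ) :=
  Completion.map_coe (uc_star hφ) a

theorem continuous_star_L : Continuous (star : L hφ → L hφ) := Completion.continuous_map

noncomputable instance : StarRing (L hφ) where
  star_involutive x := by
    induction x using Completion.induction_on with
    | hp => exact isClosed_eq ((continuous_star_L hφ).comp (continuous_star_L hφ)) continuous_id
    | ih a => rw [star_coe, star_coe, star_star]
  star_mul x y := by
    induction x, y using Completion.induction_on₂ with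
    | hp =>
      have hs := continuous_star_L hφ
      exact isClosed_eq (hs.comp (continuous_fst.mul continuous_snd))
        ((hs.comp continuous_snd).mul (hs.comp continuous_fst))
    | ih a b => rw [← Completion.coe_mul, star_coe, star_mul, star_coe, star_coe, Completion.coe_mul]
  star_add x y := by
    induction x, y using Completion.induction_on₂ with
    | hp =>
      have hs := continuous_star_L hφ
      exact isClosed_eq (hs.comp (continuous_fst.add continuous_snd))
        ((hs.comp continuous_fst).add (hs.comp continuous_snd))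
    | ih a b => rw [← Completion.coe_add, star_coe, star_add, star_coe, star_coe, Completion.coe_add]

instance : StarModule ℂ (L hφ) where
  star_smul r x := by
    induction x using Completion.induction_on with
    | hp =>
      have hs := continuous_star_L hφ
      exact isClosed_eq (hs.comp (continuous_const_smul r)) (hs.const_smul (star r))
    | ih a => rw [← Completion.coe_smul, star_coe, star_smul, star_coe, Completion.coe_smul]

instance : CStarRing (L hφ) where
  norm_mul_self_le x := by
    induction x using Completion.induction_on with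
    | hp =>
      have hs := continuous_star_L hφ
      exact isClosed_le (continuous_norm.mul continuous_norm) (hs.mul continuous_id).norm
    | ih a =>
      rw [star_coe, ← Completion.coe_mul, Completion.norm_coe, Completion.norm_coe]
      obtain ⟨m, h1, h2⟩ := ((norm_spec hφ (star a * a)).and (norm_spec hφ a)).exists
      rw [← h1, ← h2]
      exact CStarRing.norm_mul_self_le (qat hφ a m)

noncomputable instance : NormedAlgebra ℂ (L hφ) where
  norm_smul_le := norm_smul_le

noncomputable instance : CStarAlgebra (L hφ) where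

theorem coe_eq (a b : Q hφ) (h : ∀ᶠ m in atTop, qat hφ a m = qat hφ b m) : (a : L hφ) = b := by
  have h1 : ‖a - b‖ = 0 := by
    obtain ⟨m, h1, h2⟩ := (h.and (norm_spec hφ (a - b))).exists
    rw [← h2, qat_sub, h1, sub_self, norm_zero]
  rw [← sub_eq_zero, ← norm_eq_zero, ← Completion.coe_sub, Completion.norm_coe, h1]

/-- The sequence starting at `n` with value `a`. -/
noncomputable def j (n : ℕ) (a : A n) : P A φ :=
  ⟨fun m => if h : n ≤ m then iter φ h a else 0, n, fun m hm => by
    simp only
    rw [dif_pos hm, dif_pos (Nat.le_succ_of_le hm), iter_succ φ hm]⟩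

/-- The sequence starting at `n` with value `a`. -/
noncomputable def jQ (n : ℕ) (a : A n) : Q hφ := j n a

theorem qat_j {n m : ℕ} (h : n ≤ m) (a : A n) : qat hφ (jQ hφ n a) m = iter φ h a := dif_pos h

/-- The canonical maps. -/
noncomputable def i (n : ℕ) : A n →⋆ₐ[ℂ] L hφ where
  toFun a := (jQ hφ n a : L hφ)
  map_one' := by
    refine (coe_eq hφ _ 1 ?_).trans (Completion.coe_one _)
    refine eventually_atTop.2 ⟨n, fun m hm => ?_⟩
    rw [qat_j hφ hm, map_one, qat_one]
  map_mul' a b := by
    rw [← Completion.coe_mul]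
    refine coe_eq hφ _ _ ?_
    refine eventually_atTop.2 ⟨n, fun m hm => ?_⟩
    rw [qat_j hφ hm, map_mul, qat_mul, qat_j hφ hm, qat_j hφ hm]
  map_zero' := by
    refine (coe_eq hφ _ 0 ?_).trans Completion.coe_zero
    refine eventually_atTop.2 ⟨n, fun m hm => ?_⟩
    rw [qat_j hφ hm, map_zero, qat_zero]
  map_add' a b := by
    rw [← Completion.coe_add]
    refine coe_eq hφ _ _ ?_
    refine eventually_atTop.2 ⟨n, fun m hm => ?_⟩
    rw [qat_j hφ hm, map_add, qat_add, qat_j hφ hm, qat_j hφ hm]
  commutes' r := by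
    rw [Completion.algebraMap_def]
    refine coe_eq hφ _ _ ?_
    refine eventually_atTop.2 ⟨n, fun m hm => ?_⟩
    rw [qat_j hφ hm, qat_algebraMap]
    exact AlgHomClass.commutes _ r
  map_star' a := by
    rw [star_coe]
    refine coe_eq hφ _ _ ?_
    refine eventually_atTop.2 ⟨n, fun m hm => ?_⟩
    rw [qat_j hφ hm, map_star, qat_star, qat_j hφ hm]

theorem i_apply (n : ℕ) (a : A n) : i hφ n a = (jQ hφ n a : L hφ) := rfl

end

end LimAux

theorem exists_limit (A : ℕ → Type) [∀ n, CStarAlgebra (A n)]
    (φ : ∀ n, A n →⋆ₐ[ℂ] A (n + 1)) (hφ : ∀ n a, ‖φ n a‖ = ‖a‖) :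
    ∃ (L : Type) (i : CStarAlgebra L), Nonempty (@LimitData A _ φ L i) := by
  refine ⟨LimAux.L hφ, inferInstance, ⟨⟨LimAux.i hφ, ?_, ?_, ?_⟩⟩⟩
  · intro n a
    rw [LimAux.i_apply, UniformSpace.Completion.norm_coe]
    obtain ⟨m, h1, hm⟩ := ((LimAux.norm_spec hφ (LimAux.jQ hφ n a)).and
      (Filter.eventually_ge_atTop n)).exists
    rw [← h1, LimAux.qat_j hφ hm]
    clear h1
    induction m, hm using Nat.le_induction with
    | base => rw [iter_self]
    | succ m hm ih => rw [iter_succ φ hm, hφ, ih]
  · intro n a
    rw [LimAux.i_apply, LimAux.i_apply]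
    refine LimAux.coe_eq hφ _ _ (Filter.eventually_atTop.2 ⟨n + 1, fun m hm => ?_⟩)
    have hm' : n ≤ m := (Nat.le_succ n).trans hm
    rw [LimAux.qat_j hφ hm, LimAux.qat_j hφ hm']
    induction m, hm using Nat.le_induction with
    | base => rw [iter_self, iter_succ φ (le_refl n), iter_self]
    | succ m hm ih =>
      have h2 : n ≤ m := (Nat.le_succ n).trans hm
      rw [iter_succ φ hm, iter_succ φ h2, ih h2]
  · have h1 : Dense (Set.range ((↑) : LimAux.Q hφ → LimAux.L hφ)) :=
      UniformSpace.Completion.denseRange_coe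
    refine h1.mono ?_
    rintro _ ⟨a, rfl⟩
    obtain ⟨n, hn⟩ : ∃ n, ∀ m, n ≤ m → LimAux.qat hφ a (m + 1) = φ m (LimAux.qat hφ a m) :=
      LimAux.P.spec (A := A) (φ := φ) a
    refine Set.mem_iUnion.2 ⟨n, LimAux.qat hφ a n, ?_⟩
    rw [LimAux.i_apply]
    refine LimAux.coe_eq hφ _ _ (Filter.eventually_atTop.2 ⟨n, fun m hm => ?_⟩)
    rw [LimAux.qat_j hφ hm]
    induction m, hm using Nat.le_induction with
    | base => rw [iter_self]
    | succ m hm ih => rw [iter_succ φ hm, ih, hn m hm]

end VB
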