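import Pool.Agent.VB.TDefs

/-!
MODULE VB/Mom.  Inner products of monomials in `L²`, and elementary facts on the map `L2`.

Proofs.  `inner_L2`: `ContinuousMap.inner_toLp` (watch the order of the factors).
`L2_mul_le`: `‖L2 g‖^2 = ∫ ‖g‖^2` and `‖f z * g z‖ ≤ ‖f‖ * ‖g z‖`.
`L2_le`: special case `g = 1` (the measure is a probability measure).
`integral_gen`: `nu S` is the product measure `Measure.pi`, the integrand is a product of functions
of one coordinate: `MeasureTheory.integral_fintype_prod_eq_prod` (or a variant of that name) and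
`mu3_moment`.
-/

open MeasureTheory

open scoped ComplexConjugate

namespace VB

variable {S : Type} [Fintype S]

theorem inner_L2 (f g : C(S → S3, ℂ)) :
    inner ℂ (L2 f) (L2 g) = ∫ z, conj (f z) * g z ∂(nu S) := by
  unfold L2
  rw [ContinuousMap.inner_toLp]
  refine integral_congr_ae (Filter.Eventually.of_forall fun z => ?_)
  simp only
  ring

theorem norm_L2_sq (f : C(S → S3, ℂ)) : ‖L2 f‖ ^ 2 = ∫ z, ‖f z‖ ^ 2 ∂(nu S) := by
  have h := inner_L2 f f
  rw [inner_self_eq_norm_sq_to_K] at h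
  have h2 : (fun z => conj (f z) * f z) = fun z => (((‖f z‖ ^ 2 : ℝ)) : ℂ) := by
    funext z
    rw [Complex.conj_mul']
    push_cast
    rfl
  rw [h2] at h
  have h3 : ∫ z, (((‖f z‖ ^ 2 : ℝ)) : ℂ) ∂(nu S) = ((∫ z, ‖f z‖ ^ 2 ∂(nu S) : ℝ) : ℂ) :=
    integral_complex_ofReal (μ := nu S) (f := fun z => ‖f z‖ ^ 2)
  rw [h3] at h
  have h4 : ((‖L2 f‖ ^ 2 : ℝ) : ℂ) = ((∫ z, ‖f z‖ ^ 2 ∂(nu S) : ℝ) : ℂ) := by
    rw [← h]
    push_cast
    rfl
  exact Complex.ofReal_injective h4

theorem L2_mul_le (f g : C(S → S3, ℂ)) : ‖L2 (f * g)‖ ≤ ‖f‖ * ‖L2 g‖ := by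
  have h : ‖L2 (f * g)‖ ^ 2 ≤ (‖f‖ * ‖L2 g‖) ^ 2 := by
    rw [mul_pow, norm_L2_sq, norm_L2_sq, ← integral_const_mul]
    refine integral_mono ?_ ?_ fun z => ?_
    · exact Continuous.integrable_of_hasCompactSupport (by fun_prop)
        (HasCompactSupport.of_compactSpace _)
    · exact Continuous.integrable_of_hasCompactSupport (by fun_prop)
        (HasCompactSupport.of_compactSpace _)
    · simp only [ContinuousMap.mul_apply, norm_mul, mul_pow]
      exact mul_le_mul_of_nonneg_right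
        (pow_le_pow_left₀ (norm_nonneg _) (f.norm_coe_le_norm z) 2) (sq_nonneg _)
  exact le_of_sq_le_sq h (by positivity)

theorem L2_add (f g : C(S → S3, ℂ)) : L2 (f + g) = L2 f + L2 g := by
  unfold L2
  rw [map_add]

theorem L2_sub (f g : C(S → S3, ℂ)) : L2 (f - g) = L2 f - L2 g := by
  unfold L2
  rw [map_sub]

theorem L2_smul (a : ℂ) (f : C(S → S3, ℂ)) : L2 (a • f) = a • L2 f := by
  unfold L2
  rw [map_smul]

theorem L2_sum {ι : Type} (s : Finset ι) (f : ι → C(S → S3, ℂ)) :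
    L2 (∑ i ∈ s, f i) = ∑ i ∈ s, L2 (f i) := by
  unfold L2
  rw [map_sum]

/-- Integral of a general monomial in the coordinates and their conjugates. -/
theorem integral_gen (a b c d : S → ℕ) :
    ∫ z, (∏ s, (coord 0 (z s) ^ a s * coord 1 (z s) ^ b s *
      (conj (coord 0 (z s)) ^ c s * conj (coord 1 (z s)) ^ d s))) ∂(nu S) =
    if a = c ∧ b = d then
      ((∏ s, ((a s).factorial : ℝ) * (b s).factorial / ((a s + b s + 1).factorial : ℝ) : ℝ) : ℂ)
    else 0 := by
  unfold nu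
  rw [integral_fintype_prod_eq_prod (f := fun (s : S) (z : S3) => coord 0 z ^ a s * coord 1 z ^ b s *
      (conj (coord 0 z) ^ c s * conj (coord 1 z) ^ d s))]
  simp only [mu3_moment]
  by_cases h : a = c ∧ b = d
  · rw [if_pos h]
    obtain ⟨rfl, rfl⟩ := h
    simp only [and_self, if_true]
    push_cast
    rfl
  · rw [if_neg h]
    have : ∃ s, ¬ (a s = c s ∧ b s = d s) := by
      by_contra hcon
      push Not at hcon
      exact h ⟨funext fun s => (hcon s).1, funext fun s => (hcon s).2⟩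
    obtain ⟨s, hs⟩ := this
    exact Finset.prod_eq_zero (Finset.mem_univ s) (by rw [if_neg hs])

theorem inner_mon (p q p' q' : S → ℕ) :
    inner ℂ (L2 (mon p q)) (L2 (mon p' q')) =
    if p = p' ∧ q = q' then
      ((∏ s, ((p s).factorial : ℝ) * (q s).factorial / ((p s + q s + 1).factorial : ℝ) : ℝ) : ℂ)
    else 0 := by
  rw [inner_L2]
  have h := integral_gen p' q' p q
  have h1 : (fun z : S → S3 => conj (mon p q z) * mon p' q' z) = fun z =>
      (∏ s, (coord 0 (z s) ^ p' s * coord 1 (z s) ^ q' s *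
      (conj (coord 0 (z s)) ^ p s * conj (coord 1 (z s)) ^ q s))) := by
    funext z
    rw [mon_apply, mon_apply, map_prod, ← Finset.prod_mul_distrib]
    refine Finset.prod_congr rfl fun s _ => ?_
    rw [map_mul, map_pow, map_pow]
    ring
  rw [h1, h]
  by_cases hc : p = p' ∧ q = q'
  · obtain ⟨rfl, rfl⟩ := hc
    simp
  · rw [if_neg hc, if_neg]
    rintro ⟨rfl, rfl⟩
    exact hc ⟨rfl, rfl⟩

end VB
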