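import Pool.Agent.VB.Cnt
import Pool.Agent.VB.Alt

/-!
Theorem T: existence of common zeros (immediate from VB/Cnt and VB/Alt).
-/

namespace VB

theorem common_zero {S C : Type} [Fintype S] [DecidableEq S] [DecidableEq C] (col : S → C) (r : ℕ)
    (f : S ⊕ Fin r → C(S ⊕ Fin r → S3, ℂ))
    (hf : ∀ (β : S ⊕ Fin r) (l : S ⊕ Fin r → Circle) (z : S ⊕ Fin r → S3),
      f β (act l z) = (∏ s ∈ MM col r β, (l s : ℂ)) * f β z) :
    ∃ z, ∀ β, f β z = 0 := by
  by_contra hcon
  push Not at hcon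
  obtain ⟨N, hN⟩ := alternating_zero (MM col r) f hf hcon
  exact alt_ne_zero col r N hN

end VB
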