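import Pool.Agent.VB.NCx
import Pool.Agent.VB.Zero

/-!
MODULE VB/NCa.  The obstruction to comparison in one building block (application of Theorem T).

Proof.  Let `r` be the number of rows with `rc i = none`, `R i = false`.  By `h` there is an injective map
`α : Fin (r + 1) → st.I` with values in the rows with `rc = none`, `R = true`.  There is an injective map from the rows
with `rc i = none`, `R i = false` onto `Fin r` (a bijection), and for every color `c` an injective map from the rows `i` with
`rc i = some c`, `R i = false` to the spheres `s` with `col s = c` (`st.card_le`).  Together: a map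
`ρ : st.S ⊕ Fin r → Option st.I` such that every row `i` with `R i = false` is `ρ β` for some `β`, and if
`ρ (inl s) = some i` then `R i = false`, `rc i = some (col s)`, if `ρ (inr k) = some i` then `R i = false`, `rc i = none`.
Let `ξ` be as in `exists_xi`.  For `z : st.S ⊕ Fin r → S3` write `z₁`, `z₂` for the two restrictions and put
`F β z = ∑ k, conj (v.1 (z₁, false) (α k) i) * ξ k z₂` if `ρ β = some i`, and `F β = 0` if `ρ β = none`.
`F β (act l z) = (∏ s ∈ MM st.col r β, l s) * F β z`, because `v` is equivariant, `rc (α k) = none`,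
`conj (conj (chi c l)) = chi c l`.
`common_zero` gives `z` with `F β z = 0` for all `β`.  So the nonzero vector `η = ∑ k, ξ k z₂ e_(α k)` satisfies
`∑ i', conj (v.1 (z₁, false) i' i) * η i' = 0` for all rows `i` with `R i = false`.  Put
`Q = (v * dg (!R) * star v).1 (z₁, false)`: then `Q η = 0`, while `(dg R).1 (z₁, false) η = η`.  So
`‖Q - dg R (z₁, false)‖ ≥ 1` in the operator norm, and the norm of a continuous function bounds the norms of its values.
-/

open scoped Matrix.Norms.L2Operator ComplexConjugate

namespace VB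

/-- Bookkeeping: the rows outside `R` are indexed, compatibly with the colors, by the spheres and
by `Fin r`. -/
theorem exists_rho (st : Stage) (R : st.I → Bool) (r : ℕ)
    (hr : (Finset.univ.filter fun i => st.rc i = none ∧ R i = false).card = r) :
    ∃ ρ : st.S ⊕ Fin r → Option st.I, (∀ i, R i = false → ∃ β, ρ β = some i) ∧
      (∀ s i, ρ (Sum.inl s) = some i → st.rc i = some (st.col s)) ∧
      ∀ k i, ρ (Sum.inr k) = some i → st.rc i = none := by
  classical
  -- injections
  have h1 : ∀ c : st.C, Nonempty ({i // st.rc i = some c} ↪ {s // st.col s = c}) := by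
    intro c
    apply Function.Embedding.nonempty_of_card_le
    rw [Fintype.card_subtype, Fintype.card_subtype]
    exact st.card_le c
  have g : ∀ c : st.C, {i // st.rc i = some c} ↪ {s // st.col s = c} := fun c => (h1 c).some
  have h0 : Nonempty ({i // st.rc i = none ∧ R i = false} ↪ Fin r) := by
    apply Function.Embedding.nonempty_of_card_le
    rw [Fintype.card_subtype, Fintype.card_fin, hr]
  have g0 : {i // st.rc i = none ∧ R i = false} ↪ Fin r := h0.some
  -- the relation
  let rel : st.S ⊕ Fin r → st.I → Prop := fun β i =>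
    (∃ (c : st.C) (h : st.rc i = some c), β = Sum.inl (g c ⟨i, h⟩).1) ∨
    ∃ h : st.rc i = none ∧ R i = false, β = Sum.inr (g0 ⟨i, h⟩)
  have hrel : ∀ β i i', rel β i → rel β i' → i = i' := by
    rintro β i i' (⟨c, h, rfl⟩ | ⟨h, rfl⟩) (⟨c', h', h2⟩ | ⟨h', h2⟩)
    · have h3 : (g c ⟨i, h⟩).1 = (g c' ⟨i', h'⟩).1 := Sum.inl_injective h2
      have h4 : c = c' := by
        rw [← (g c ⟨i, h⟩).2, h3, (g c' ⟨i', h'⟩).2]
      subst h4
      have h5 := (g c).injective (Subtype.ext h3)
      exact congrArg Subtype.val h5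
    · exact absurd h2 (by simp)
    · exact absurd h2 (by simp)
    · have h3 := g0.injective (Sum.inr_injective h2)
      exact congrArg Subtype.val h3
  refine ⟨fun β => if h : ∃ i, rel β i then some h.choose else none, ?_, ?_, ?_⟩
  · intro i hi
    have hex : ∃ β, rel β i := by
      rcases hrc : st.rc i with _ | c
      · exact ⟨_, Or.inr ⟨⟨hrc, hi⟩, rfl⟩⟩
      · exact ⟨_, Or.inl ⟨c, hrc, rfl⟩⟩
    obtain ⟨β, hβ⟩ := hex
    refine ⟨β, ?_⟩
    have hex' : ∃ i, rel β i := ⟨i, hβ⟩
    simp only
    rw [dif_pos hex']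
    exact congrArg some (hrel β _ _ hex'.choose_spec hβ)
  · intro s i h
    simp only at h
    split_ifs at h with h2
    · have h3 := h2.choose_spec
      rw [Option.some.inj h] at h3
      rcases h3 with ⟨c, h4, h5⟩ | ⟨h4, h5⟩
      · have h6 : s = (g c ⟨i, h4⟩).1 := Sum.inl_injective h5
        rw [h4, h6, (g c ⟨i, h4⟩).2]
      · exact absurd h5 (by simp)
  · intro k i h
    simp only at h
    split_ifs at h with h2
    · have h3 := h2.choose_spec
      rw [Option.some.inj h] at h3
      rcases h3 with ⟨c, h4, h5⟩ | ⟨h4, h5⟩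
      · exact absurd h5 (by simp)
      · exact h4.1

theorem prod_MM_inl {S C : Type} [Fintype S] [DecidableEq C] (col : S → C) (r : ℕ)
    (s : S) (l : S ⊕ Fin r → Circle) :
    ∏ t ∈ MM col r (Sum.inl s), (l t : ℂ) =
      (∏ t ∈ Finset.univ.filter (fun t => col t = col s), (l (Sum.inl t) : ℂ)) *
        ∏ k, (l (Sum.inr k) : ℂ) := by
  unfold MM
  rw [Finset.prod_filter, Fintype.prod_sum_type, Finset.prod_filter]
  congr 1
  refine Finset.prod_congr rfl fun t _ => ?_
  simp [MMb]

theorem prod_MM_inr {S C : Type} [Fintype S] [DecidableEq C] (col : S → C) (r : ℕ)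
    (k : Fin r) (l : S ⊕ Fin r → Circle) :
    ∏ t ∈ MM col r (Sum.inr k), (l t : ℂ) = ∏ k, (l (Sum.inr k) : ℂ) := by
  unfold MM
  rw [Finset.prod_filter, Fintype.prod_sum_type]
  simp [MMb]

theorem no_compare (st : Stage) (R : st.I → Bool)
    (h : (Finset.univ.filter fun i => st.rc i = none ∧ R i = false).card <
      (Finset.univ.filter fun i => st.rc i = none ∧ R i = true).card) (v : st.Alg) :
    1 ≤ ‖v * st.dg (fun i => !(R i)) * star v - st.dg R‖ := by
  classical
  set r := (Finset.univ.filter fun i => st.rc i = none ∧ R i = false).card with hr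
  obtain ⟨ρ, hρ1, hρ2, hρ3⟩ := exists_rho st R r hr.symm
  -- the trivial rows in `R`
  have hα : Nonempty (Fin (r + 1) ↪ {i // st.rc i = none ∧ R i = true}) := by
    apply Function.Embedding.nonempty_of_card_le
    rw [Fintype.card_subtype, Fintype.card_fin]
    exact h
  obtain ⟨α⟩ := hα
  obtain ⟨ξ, hξ0, hξ⟩ := exists_xi r
  -- the functions
  let G : st.I → C(st.S ⊕ Fin r → S3, ℂ) := fun i =>
    ∑ k, (⟨fun z => conj (v.1 (fun s => z (Sum.inl s), false) (α k).1 i) *
      ξ k (fun k => z (Sum.inr k)), by
        refine Continuous.mul ?_ ?_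
        · refine Complex.continuous_conj.comp ?_
          have h1 : Continuous fun z : st.S ⊕ Fin r → S3 =>
              v.1 (fun s => z (Sum.inl s), false) := by
            refine v.1.continuous.comp ?_
            exact (continuous_pi fun s => continuous_apply _).prodMk continuous_const
          exact h1.matrix_elem _ _
        · exact (ξ k).continuous.comp (continuous_pi fun s => continuous_apply _)⟩ :
      C(st.S ⊕ Fin r → S3, ℂ))
  have hG : ∀ i z, G i z = ∑ k, conj (v.1 (fun s => z (Sum.inl s), false) (α k).1 i) *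
      ξ k (fun k => z (Sum.inr k)) := by
    intro i z
    simp only [G, ContinuousMap.coe_sum, Finset.sum_apply]
    rfl
  have hGact : ∀ i (l : st.S ⊕ Fin r → Circle) z, G i (act l z) =
      ((st.chi (st.rc i) (fun s => l (Sum.inl s)) : Circle) : ℂ) *
        (∏ k, (l (Sum.inr k) : ℂ)) * G i z := by
    intro i l z
    rw [hG, hG, Finset.mul_sum]
    refine Finset.sum_congr rfl fun k _ => ?_
    have h1 : (fun s => act l z (Sum.inl s)) =
        act (fun s => l (Sum.inl s)) (fun s => z (Sum.inl s)) := rfl
    have h2 : (fun k => act l z (Sum.inr k)) =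
        act (fun k => l (Sum.inr k)) (fun k => z (Sum.inr k)) := rfl
    rw [h1, h2, hξ, v.2 _ _ false, (α k).2.1]
    have h3 : st.chi none (fun s => l (Sum.inl s)) = 1 := rfl
    rw [h3, one_div, map_mul, Circle.coe_inv_eq_conj, Complex.conj_conj]
    ring
  let F : st.S ⊕ Fin r → C(st.S ⊕ Fin r → S3, ℂ) := fun β =>
    match ρ β with
    | some i => G i
    | none => 0
  have hF : ∀ β i, ρ β = some i → F β = G i := by
    intro β i h
    simp only [F, h]
  have hF0 : ∀ β, ρ β = none → F β = 0 := by
    intro β h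
    simp only [F, h]
  obtain ⟨z, hz⟩ := common_zero st.col r F (by
    intro β l z
    rcases hβ : ρ β with _ | i
    · rw [hF0 β hβ]
      simp
    · rw [hF β i hβ, hGact]
      congr 1
      rcases β with s | k
      · rw [prod_MM_inl, hρ2 s i hβ]
        congr 1
        exact map_prod Circle.coeHom _ _
      · rw [prod_MM_inr, hρ3 k i hβ]
        have h3 : st.chi none (fun s => l (Sum.inl s)) = 1 := rfl
        rw [h3, Circle.coe_one, one_mul])
  set z₁ : st.X := fun s => z (Sum.inl s) with hz₁
  set z₂ : Fin r → S3 := fun k => z (Sum.inr k) with hz₂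
  have hGz : ∀ i, R i = false → G i z = 0 := by
    intro i hi
    obtain ⟨β, hβ⟩ := hρ1 i hi
    rw [← hF β i hβ]
    exact hz β
  -- the vector
  let η : st.I → ℂ := fun i => ∑ k, if (α k).1 = i then ξ k z₂ else 0
  have hηα : ∀ k, η (α k).1 = ξ k z₂ := by
    intro k
    simp only [η]
    rw [Finset.sum_eq_single k]
    · rw [if_pos rfl]
    · intro k' _ hk'
      rw [if_neg]
      intro h2
      exact hk' (α.injective (Subtype.ext h2))
    · intro h2
      exact absurd (Finset.mem_univ _) h2
  have hηR : ∀ i, R i = false → η i = 0 := by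
    intro i hi
    refine Finset.sum_eq_zero fun k _ => ?_
    rw [if_neg]
    intro h2
    have := (α k).2.2
    rw [h2, hi] at this
    exact absurd this (by simp)
  have hη0 : η ≠ 0 := by
    obtain ⟨k, hk⟩ := hξ0 z₂
    intro h2
    apply hk
    rw [← hηα k, h2]
    rfl
  set V : Matrix st.I st.I ℂ := v.1 (z₁, false) with hV
  have hVη : ∀ i, R i = false → (V.conjTranspose.mulVec η) i = 0 := by
    intro i hi
    have h1 := hGz i hi
    rw [hG] at h1
    rw [Matrix.mulVec, dotProduct, ← h1]
    simp only [Matrix.conjTranspose_apply, RCLike.star_def, η, Finset.mul_sum]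
    rw [Finset.sum_comm]
    refine Finset.sum_congr rfl fun k _ => ?_
    rw [Finset.sum_eq_single (α k).1]
    · rw [if_pos rfl]
    · intro i' _ hi'
      rw [if_neg (Ne.symm hi'), mul_zero]
    · intro h2
      exact absurd (Finset.mem_univ _) h2
  set E : st.Alg := v * st.dg (fun i => !(R i)) * star v - st.dg R with hE
  have hEη : (E.1 (z₁, false)).mulVec η = -η := by
    have h1 : E.1 (z₁, false) = V * Matrix.diagonal (fun i => if (!(R i)) = true then (1 : ℂ) else 0) *
        V.conjTranspose - Matrix.diagonal (fun i => if R i = true then (1 : ℂ) else 0) := rfl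
    rw [h1, Matrix.sub_mulVec, ← Matrix.mulVec_mulVec, ← Matrix.mulVec_mulVec]
    have h2 : (Matrix.diagonal (fun i => if (!(R i)) = true then (1 : ℂ) else 0)).mulVec
        (V.conjTranspose.mulVec η) = 0 := by
      funext i
      rw [Matrix.mulVec_diagonal]
      rcases hR : R i with _ | _
      · rw [hVη i hR, mul_zero]
        rfl
      · simp
    have h3 : (Matrix.diagonal (fun i => if R i = true then (1 : ℂ) else 0)).mulVec η = η := by
      funext i
      rw [Matrix.mulVec_diagonal]
      rcases hR : R i with _ | _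
      · rw [hηR i hR, mul_zero]
      · simp
    rw [h2, h3, Matrix.mulVec_zero, zero_sub]
  have h1 : ‖E.1 (z₁, false)‖ ≤ ‖E‖ := ContinuousMap.norm_coe_le_norm E.1 _
  refine le_trans ?_ h1
  have h2 := Matrix.l2_opNorm_mulVec (E.1 (z₁, false)) (WithLp.toLp 2 η)
  have h3 : (E.1 (z₁, false)).mulVec (WithLp.toLp 2 η : EuclideanSpace ℂ st.I) = -η := hEη
  rw [h3] at h2
  have h4 : ‖(WithLp.toLp 2 (-η) : EuclideanSpace ℂ st.I)‖ =
      ‖(WithLp.toLp 2 η : EuclideanSpace ℂ st.I)‖ := by
    rw [WithLp.toLp_neg, norm_neg]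
  have h5 : 0 < ‖(WithLp.toLp 2 η : EuclideanSpace ℂ st.I)‖ := by
    rw [norm_pos_iff]
    intro h6
    apply hη0
    exact (WithLp.toLp_eq_zero 2).mp h6
  have h6 : ‖(WithLp.toLp 2 η : EuclideanSpace ℂ st.I)‖ ≤
      ‖E.1 (z₁, false)‖ * ‖(WithLp.toLp 2 η : EuclideanSpace ℂ st.I)‖ := by
    calc ‖(WithLp.toLp 2 η : EuclideanSpace ℂ st.I)‖ = _ := h4.symm
      _ ≤ _ := h2
  by_contra hlt
  push Not at hlt
  nlinarith

end VB
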