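import Pool.Agent.VB.CDefs

/-!
MODULE VB/NCx.  A nowhere vanishing vector of weight one: coefficients of a product of linear
polynomials.

For `w : Fin r → S3` let `ξ w k` be the coefficient of `X^k` in `∏ i, (C (coord 0 (w i)) + C (coord 1 (w i)) * X)`,
`k : Fin (r + 1)`.  Facts: it is continuous in `w` (induction on `r`, or the coefficients are polynomial functions:
`Finset.prod_add`), it is not the zero vector (a product of nonzero polynomials is nonzero and has
degree at most `r`), and `ξ (act m w) = (∏ i, m i) • ξ w`.
-/

namespace VB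

open Polynomial in
theorem continuous_coeff_prod {r : ℕ} (s : Finset (Fin r)) (k : ℕ) :
    Continuous fun w : Fin r → S3 =>
      (∏ i ∈ s, (Polynomial.C (coord 0 (w i)) + Polynomial.C (coord 1 (w i)) * Polynomial.X)).coeff k := by
  classical
  induction s using Finset.induction_on generalizing k with
  | empty =>
    simp only [Finset.prod_empty]
    exact continuous_const
  | insert a s ha ih =>
    simp only [Finset.prod_insert ha, Polynomial.coeff_mul]
    refine continuous_finsetSum _ fun p _ => ?_
    refine Continuous.mul ?_ (ih p.2)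
    have h0 : Continuous fun w : Fin r → S3 => coord 0 (w a) :=
      (continuous_coord 0).comp (continuous_apply a)
    have h1 : Continuous fun w : Fin r → S3 => coord 1 (w a) :=
      (continuous_coord 1).comp (continuous_apply a)
    simp only [Polynomial.coeff_add, Polynomial.coeff_C, Polynomial.coeff_C_mul,
      Polynomial.coeff_X]
    refine Continuous.add ?_ ?_
    · split_ifs
      · exact h0
      · exact continuous_const
    · split_ifs
      · exact h1.mul continuous_const
      · exact h1.mul continuous_const

theorem linear_ne_zero (z : S3) :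
    Polynomial.C (coord 0 z) + Polynomial.C (coord 1 z) * Polynomial.X ≠ (0 : Polynomial ℂ) := by
  intro h
  have h0 := congrArg (fun p => Polynomial.coeff p 0) h
  have h1 := congrArg (fun p => Polynomial.coeff p 1) h
  simp only [Polynomial.coeff_add, Polynomial.coeff_C, Polynomial.coeff_C_mul,
    Polynomial.coeff_X, Polynomial.coeff_zero] at h0 h1
  simp at h0 h1
  have h2 := coord_sq z
  rw [h0, h1] at h2
  norm_num at h2

theorem exists_xi (r : ℕ) : ∃ ξ : Fin (r + 1) → C(Fin r → S3, ℂ),
    (∀ w, ∃ k, ξ k w ≠ 0) ∧
    ∀ (m : Fin r → Circle) (w : Fin r → S3) (k : Fin (r + 1)),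
      ξ k (act m w) = (∏ i, (m i : ℂ)) * ξ k w := by
  classical
  refine ⟨fun k => ⟨fun w => (∏ i, (Polynomial.C (coord 0 (w i)) +
    Polynomial.C (coord 1 (w i)) * Polynomial.X)).coeff k,
    continuous_coeff_prod Finset.univ k⟩, fun w => ?_, fun m w k => ?_⟩
  · have hne : (∏ i, (Polynomial.C (coord 0 (w i)) +
        Polynomial.C (coord 1 (w i)) * Polynomial.X)) ≠ (0 : Polynomial ℂ) :=
      Finset.prod_ne_zero_iff.2 fun i _ => linear_ne_zero (w i)
    have hdeg : (∏ i, (Polynomial.C (coord 0 (w i)) +
        Polynomial.C (coord 1 (w i)) * Polynomial.X)).natDegree ≤ r := by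
      refine (Polynomial.natDegree_prod_le _ _).trans ?_
      refine (Finset.sum_le_card_nsmul _ _ 1 fun i _ => ?_).trans (by simp)
      rw [add_comm]
      exact Polynomial.natDegree_linear_le
    refine ⟨⟨_, Nat.lt_succ_of_le hdeg⟩, ?_⟩
    show (∏ i, (Polynomial.C (coord 0 (w i)) +
        Polynomial.C (coord 1 (w i)) * Polynomial.X)).coeff _ ≠ 0
    exact Polynomial.leadingCoeff_ne_zero.2 hne
  · show (∏ i, (Polynomial.C (coord 0 (act m w i)) +
        Polynomial.C (coord 1 (act m w i)) * Polynomial.X)).coeff _ = _ *
      (∏ i, (Polynomial.C (coord 0 (w i)) +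
        Polynomial.C (coord 1 (w i)) * Polynomial.X)).coeff _
    have e : ∀ i, Polynomial.C (coord 0 (act m w i)) +
        Polynomial.C (coord 1 (act m w i)) * Polynomial.X =
        Polynomial.C (m i : ℂ) * (Polynomial.C (coord 0 (w i)) +
        Polynomial.C (coord 1 (w i)) * Polynomial.X) := by
      intro i
      show Polynomial.C (coord 0 (rot (m i) (w i))) +
        Polynomial.C (coord 1 (rot (m i) (w i))) * Polynomial.X = _
      rw [coord_rot, coord_rot, Polynomial.C_mul, Polynomial.C_mul]
      ring
    rw [Finset.prod_congr rfl fun i _ => e i, Finset.prod_mul_distrib]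
    rw [← map_prod Polynomial.C, Polynomial.coeff_C_mul]

end VB
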