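import Pool.Agent.VB.Top

/-!
MODULE VB/QtA.  Quasitraces and two-by-two matrices (abstract).

`m1 a` is the element `a` of `A` regarded as a 1x1 matrix.
Proof of `qtrace_le_two`.  Let `t` be a quasitrace, `e0, e` projections of `A` and `x0, x1 ∈ A` with
`e * xp * e0 = xp`, `star x0 * x0 + star x1 * x1 = e0`.  In `M_2(A)` let `W` be the matrix with first column `(x0, x1)` and
second column `0`.  `star W * W = diag(e0, 0) = corner (m1 e0)`, so `t(W W*) = t(W* W) = t₁(e0)`.
`W W*` is a projection `q` (`q² = W (W* W) W* = W diag(e0,0) W* = q`) with `E q = q`, `E = diag(e, e)`.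
The closed star algebra generated by `q` and `E` is commutative (commuting projections), and so `t(E) = t(q) + t(E - q)`,
with `t(E - q) ≥ 0` because `E - q` is a projection.  Finally `t(E) = t(diag(e, 0)) + t(diag(0, e))` (commuting projections) and
`t(diag(0, e)) = t(diag(e, 0)) = t₁(e)` by the trace property for `[[0, e], [0, 0]]`.
A convenient general lemma: `add_commuting`: for commuting self adjoint `a, b` one has `t(a + b) = t a + t b` (take for `S`
the topological closure of `StarAlgebra.adjoin ℂ {a, b}`; it is commutative: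
`StarSubalgebra.commRingTopologicalClosure`, `StarAlgebra.adjoinCommRingOfComm` or direct induction).
`dtau_proj`: `root k p = p` for a projection (`cfc` of a function which fixes `0` and `1`, spectrum of a projection in `{0, 1}`),
so the sequence is constant.
-/

open Filter Topology

namespace VB

variable {A : Type} [CStarAlgebra A] [PartialOrder A] [StarOrderedRing A]

/-- An element as a one-by-one matrix. -/
def m1 (a : A) : CStarMatrix (Fin 1) (Fin 1) A := CStarMatrix.ofMatrix fun _ _ => a

theorem IsQuasitrace.add_commuting {B : Type} [CStarAlgebra B] {τ : B → ℂ} (hτ : IsQuasitrace τ)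
    (a b : B) (ha : IsSelfAdjoint a) (hb : IsSelfAdjoint b) (hab : a * b = b * a) :
    τ (a + b) = τ a + τ b := by
  have hcomm : ∀ x ∈ ({a, b} : Set B), ∀ y ∈ ({a, b} : Set B), x * y = y * x := by
    rintro x (rfl | rfl) y (rfl | rfl)
    · rfl
    · exact hab
    · exact hab.symm
    · rfl
  have hstar : ∀ y ∈ ({a, b} : Set B), star y = y := by
    rintro y (rfl | rfl)
    · exact ha.star_eq
    · exact hb.star_eq
  have hcs : ∀ x ∈ ({a, b} : Set B), ∀ y ∈ ({a, b} : Set B), x * star y = star y * x := by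
    intro x hx y hy
    rw [hstar y hy]
    exact hcomm x hx y hy
  have hs : ∀ x y : StarAlgebra.adjoin ℂ ({a, b} : Set B), x * y = y * x :=
    (StarAlgebra.adjoinCommRingOfComm ℂ hcomm hcs).mul_comm
  have hS : ∀ x ∈ (StarAlgebra.adjoin ℂ ({a, b} : Set B)).topologicalClosure,
      ∀ y ∈ (StarAlgebra.adjoin ℂ ({a, b} : Set B)).topologicalClosure, x * y = y * x := by
    intro x hx y hy
    have h := (StarSubalgebra.commRingTopologicalClosure _ hs).mul_comm ⟨x, hx⟩ ⟨y, hy⟩
    exact congrArg Subtype.val h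
  refine hτ.add _ (StarSubalgebra.isClosed_topologicalClosure _) hS a ?_ b ?_
  · exact StarSubalgebra.le_topologicalClosure _
      (StarAlgebra.subset_adjoin ℂ _ (Set.mem_insert _ _))
  · exact StarSubalgebra.le_topologicalClosure _
      (StarAlgebra.subset_adjoin ℂ _ (Set.mem_insert_of_mem _ rfl))

theorem root_proj {B : Type} [CStarAlgebra B] (p : B) (h1 : star p = p) (h2 : p * p = p) (k : ℕ) :
    root k p = p := by
  have hsa : IsSelfAdjoint p := h1
  have hid : IsIdempotentElem p := h2
  have hk : (1 / ((k : ℝ) + 1)) ≠ 0 := by positivity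
  have hspec : (spectrum ℝ p).EqOn (fun x : ℝ => x ^ (1 / ((k : ℝ) + 1))) id := by
    intro x hx
    rcases hid.spectrum_subset ℝ hx with h | h
    · have hx0 : x = 0 := h
      subst hx0
      exact Real.zero_rpow hk
    · have hx1 : x = 1 := h
      subst hx1
      exact Real.one_rpow _
  unfold root
  rw [cfc_congr hspec]
  exact cfc_id ℝ p

theorem dtau_proj (t : QTrace A) (n : ℕ) (p : CStarMatrix (Fin n) (Fin n) A) (h1 : star p = p)
    (h2 : p * p = p) : dtau t p = (t.τ n p).re := by
  unfold dtau
  have h : (fun k : ℕ => (t.τ n (root k p)).re) = fun _ => (t.τ n p).re := by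
    funext k
    rw [root_proj p h1 h2 k]
  rw [h]
  exact tendsto_const_nhds.limUnder_eq

theorem qtrace_le_two (t : QTrace A) (e0 e x0 x1 : A) (h0 : star e0 = e0) (h00 : e0 * e0 = e0)
    (he : star e = e) (hee : e * e = e) (hx0 : e * x0 * e0 = x0) (hx1 : e * x1 * e0 = x1)
    (hsum : star x0 * x0 + star x1 * x1 = e0) :
    (t.τ 1 (m1 e0)).re ≤ 2 * (t.τ 1 (m1 e)).re := by
  have hex0 : e * x0 = x0 := by
    calc e * x0 = e * (e * x0 * e0) := by rw [hx0]
      _ = (e * e) * x0 * e0 := by simp only [mul_assoc]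
      _ = x0 := by rw [hee, hx0]
  have hex1 : e * x1 = x1 := by
    calc e * x1 = e * (e * x1 * e0) := by rw [hx1]
      _ = (e * e) * x1 * e0 := by simp only [mul_assoc]
      _ = x1 := by rw [hee, hx1]
  have hxe0 : x0 * e0 = x0 := by
    calc x0 * e0 = e * x0 * e0 * e0 := by rw [hx0]
      _ = e * x0 * (e0 * e0) := by simp only [mul_assoc]
      _ = x0 := by rw [h00, hx0]
  have hxe1 : x1 * e0 = x1 := by
    calc x1 * e0 = e * x1 * e0 * e0 := by rw [hx1]
      _ = e * x1 * (e0 * e0) := by simp only [mul_assoc]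
      _ = x1 := by rw [h00, hx1]
  set W : CStarMatrix (Fin 2) (Fin 2) A := CStarMatrix.ofMatrix !![x0, 0; x1, 0] with hW
  set V : CStarMatrix (Fin 2) (Fin 2) A := CStarMatrix.ofMatrix !![0, e; 0, 0] with hV
  set D0 : CStarMatrix (Fin 2) (Fin 2) A := CStarMatrix.ofMatrix !![e, 0; 0, 0] with hD0
  set D1 : CStarMatrix (Fin 2) (Fin 2) A := CStarMatrix.ofMatrix !![0, 0; 0, e] with hD1
  have hc0 : corner (m1 e0) = CStarMatrix.ofMatrix !![e0, 0; 0, 0] := by
    ext i j
    fin_cases i <;> fin_cases j <;> rfl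
  have hce : corner (m1 e) = D0 := by
    ext i j
    fin_cases i <;> fin_cases j <;> rfl
  have hWW : star W * W = CStarMatrix.ofMatrix !![e0, 0; 0, 0] := by
    ext i j
    rw [CStarMatrix.mul_apply]
    fin_cases i <;> fin_cases j <;> simp [CStarMatrix.star_apply, hW, hsum]
  have hVV : star V * V = D1 := by
    ext i j
    rw [CStarMatrix.mul_apply]
    fin_cases i <;> fin_cases j <;> simp [CStarMatrix.star_apply, hV, hD1, he, hee]
  have hVV' : V * star V = D0 := by
    ext i j
    rw [CStarMatrix.mul_apply]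
    fin_cases i <;> fin_cases j <;> simp [CStarMatrix.star_apply, hV, hD0, he, hee]
  have hWe : W * CStarMatrix.ofMatrix !![e0, 0; 0, 0] = W := by
    ext i j
    rw [CStarMatrix.mul_apply]
    fin_cases i <;> fin_cases j <;> simp [hW, hxe0, hxe1]
  have hEW : (D0 + D1) * W = W := by
    ext i j
    rw [CStarMatrix.mul_apply]
    fin_cases i <;> fin_cases j <;> simp [hW, hD0, hD1, hex0, hex1]
  have hEE : (D0 + D1) * (D0 + D1) = D0 + D1 := by
    ext i j
    rw [CStarMatrix.mul_apply]
    fin_cases i <;> fin_cases j <;> simp [hD0, hD1, hee]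
  have hEs : star (D0 + D1) = D0 + D1 := by
    ext i j
    fin_cases i <;> fin_cases j <;> simp [CStarMatrix.star_apply, hD0, hD1, he]
  have hD01 : D0 * D1 = 0 := by
    ext i j
    rw [CStarMatrix.mul_apply]
    fin_cases i <;> fin_cases j <;> simp [hD0, hD1]
  have hD10 : D1 * D0 = 0 := by
    ext i j
    rw [CStarMatrix.mul_apply]
    fin_cases i <;> fin_cases j <;> simp [hD0, hD1]
  have hD0s : IsSelfAdjoint D0 := by rw [← hVV']; exact IsSelfAdjoint.mul_star_self V
  have hD1s : IsSelfAdjoint D1 := by rw [← hVV]; exact IsSelfAdjoint.star_mul_self V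
  have hqs : star (W * star W) = W * star W := (IsSelfAdjoint.mul_star_self W).star_eq
  have hqq : (W * star W) * (W * star W) = W * star W := by
    calc (W * star W) * (W * star W) = (W * (star W * W)) * star W := by simp only [mul_assoc]
      _ = W * star W := by rw [hWW, hWe]
  have hEq : (D0 + D1) * (W * star W) = W * star W := by rw [← mul_assoc, hEW]
  have hqE : (W * star W) * (D0 + D1) = W * star W := by
    have h := congrArg star hEq
    rw [star_mul, hqs, hEs] at h
    exact h
  have ht1 : t.τ 2 (D0 + D1) = t.τ 2 D0 + t.τ 2 D1 :=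
    (t.quasi 2).add_commuting _ _ hD0s hD1s (by rw [hD01, hD10])
  have ht2 : t.τ 2 D1 = t.τ 2 D0 := by
    rw [← hVV, ← hVV']
    exact (t.quasi 2).tracial V
  have ht3 : t.τ 2 D0 = t.τ 1 (m1 e) := by
    rw [← hce]
    exact t.corner 1 (m1 e)
  have ht4 : t.τ 2 (W * star W) = t.τ 1 (m1 e0) := by
    rw [← (t.quasi 2).tracial W, hWW, ← hc0]
    exact t.corner 1 (m1 e0)
  have ht5 : t.τ 2 (D0 + D1) = t.τ 2 (W * star W) + t.τ 2 ((D0 + D1) - W * star W) := by
    have h := (t.quasi 2).add_commuting (W * star W) ((D0 + D1) - W * star W) hqs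
      (by
        show star ((D0 + D1) - W * star W) = (D0 + D1) - W * star W
        rw [star_sub, hEs, hqs])
      (by rw [mul_sub, sub_mul, hEq, hqE])
    rw [← h]
    congr 1
    abel
  obtain ⟨r, hr, hr2⟩ := (t.quasi 2).nonneg ((D0 + D1) - W * star W)
  have hr3 : star ((D0 + D1) - W * star W) * ((D0 + D1) - W * star W) =
      (D0 + D1) - W * star W := by
    rw [star_sub, hEs, hqs, mul_sub, sub_mul, sub_mul, hEE, hEq, hqE, hqq, sub_self, sub_zero]
  rw [hr3] at hr2
  rw [hr2, ht4, ht1, ht2, ht3] at ht5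
  have h := congrArg Complex.re ht5
  simp only [Complex.add_re, Complex.ofReal_re] at h
  linarith

end VB
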