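import Pool.Agent.VB.QtA
import Pool.Agent.VB.CDefs

/-!
MODULE VB/QtB.  The gap between root and complement for all quasitraces.

Proof.  In `BA 0 = stage0.Alg` let `E i = stage0.dg (fun j => j = i)`, `i : Option (Fin 3)`, and for `j : Fin 3`, `p : Fin 2` let
`X j p (z, e)` be the matrix with the single entry `coord p (z j)` at `(some j, none)`; it is equivariant since
`chi (some j) l = l j` (`col = id`) and `chi none l = 1`.  Then `E (some j) * X j p * E none = X j p` and
`star (X j 0) * X j 0 + star (X j 1) * X j 1 = E none` (`coord_sq`).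
Apply `qtrace_le_two` to the images under `φ` for `j = 0, 1, 2` and add up; `E none + ∑ j, E (some j) = 1`, all commute, and
`t.τ 1 1 = 1`, so `3 t(E none) ≤ 2 (1 - t(E none))` by additivity on commuting projections
(`m1` is compatible with sums, products, `star`).
-/

open scoped Matrix.Norms.L2Operator

namespace VB

theorem QtB_dg_star (st : Stage) (R : st.I → Bool) : star (st.dg R) = st.dg R := by
  apply Subtype.ext
  ext p : 1
  show (Matrix.diagonal fun i => if R i = true then (1 : ℂ) else 0).conjTranspose =
    Matrix.diagonal fun i => if R i = true then (1 : ℂ) else 0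
  rw [Matrix.diagonal_conjTranspose]
  congr 1
  funext i
  simp only [Pi.star_apply]
  split_ifs <;> simp

theorem QtB_dg_mul (st : Stage) (R R' : st.I → Bool) :
    st.dg R * st.dg R' = st.dg (fun i => R i && R' i) := by
  apply Subtype.ext
  ext p : 1
  show (Matrix.diagonal fun i => if R i = true then (1 : ℂ) else 0) *
    (Matrix.diagonal fun i => if R' i = true then (1 : ℂ) else 0) =
    Matrix.diagonal fun i => if (R i && R' i) = true then (1 : ℂ) else 0
  rw [Matrix.diagonal_mul_diagonal]
  congr 1
  funext i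
  cases R i <;> cases R' i <;> simp

theorem QtB_dg_add (st : Stage) (R R' : st.I → Bool) (h : ∀ i, (R i && R' i) = false) :
    st.dg R + st.dg R' = st.dg (fun i => R i || R' i) := by
  apply Subtype.ext
  ext p : 1
  show (Matrix.diagonal fun i => if R i = true then (1 : ℂ) else 0) +
    (Matrix.diagonal fun i => if R' i = true then (1 : ℂ) else 0) =
    Matrix.diagonal fun i => if (R i || R' i) = true then (1 : ℂ) else 0
  rw [Matrix.diagonal_add]
  congr 1
  funext i
  have := h i
  cases hR : R i <;> cases hR' : R' i <;> simp_all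

theorem QtB_dg_true (st : Stage) : st.dg (fun _ => true) = 1 := by
  apply Subtype.ext
  ext p : 1
  show (Matrix.diagonal fun _ => if true = true then (1 : ℂ) else 0) = 1
  simp

theorem QtB_dg_false (st : Stage) : st.dg (fun _ => false) = 0 := by
  apply Subtype.ext
  ext p : 1
  show (Matrix.diagonal fun _ => if false = true then (1 : ℂ) else 0) = 0
  simp

theorem QtB_m1_add {A : Type} [CStarAlgebra A] (a b : A) : m1 (a + b) = m1 a + m1 b := by
  ext i j
  rfl

theorem QtB_m1_mul {A : Type} [CStarAlgebra A] [PartialOrder A] [StarOrderedRing A] (a b : A) :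
    m1 (a * b) = m1 a * m1 b := by
  ext i j
  rw [CStarMatrix.mul_apply, Fin.sum_univ_one]
  rfl

theorem QtB_m1_star {A : Type} [CStarAlgebra A] [PartialOrder A] [StarOrderedRing A] (a : A) :
    m1 (star a) = star (m1 a) := by
  ext i j
  rfl

theorem QtB_m1_one {A : Type} [CStarAlgebra A] [PartialOrder A] [StarOrderedRing A] :
    m1 (1 : A) = 1 := by
  ext i j
  have hi : i = 0 := Subsingleton.elim _ _
  have hj : j = 0 := Subsingleton.elim _ _
  subst hi; subst hj
  rfl

/-- Additivity for commuting self adjoint elements. -/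
theorem QtB_add {L : Type} [CStarAlgebra L] [PartialOrder L] [StarOrderedRing L]
    (t : QTrace L) (a b : L) (ha : star a = a) (hb : star b = b) (hab : a * b = b * a) :
    t.τ 1 (m1 (a + b)) = t.τ 1 (m1 a) + t.τ 1 (m1 b) := by
  rw [QtB_m1_add]
  refine (t.quasi 1).add_commuting _ _ ?_ ?_ ?_
  · show star (m1 a) = m1 a
    rw [← QtB_m1_star, ha]
  · show star (m1 b) = m1 b
    rw [← QtB_m1_star, hb]
  · rw [← QtB_m1_mul, ← QtB_m1_mul, hab]

theorem QtB_chi (j : Fin 3) (l : stage0.S → Circle) : stage0.chi (some j) l = l j := by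
  show (∏ s ∈ Finset.univ.filter (fun s : Fin 3 => id s = j), l s) = l j
  have : (Finset.univ.filter (fun s : Fin 3 => id s = j)) = {j} := by
    ext s
    simp
  rw [this, Finset.prod_singleton]

/-- The partial isometries. -/
noncomputable def QtB_X (j : Fin 3) (p : Fin 2) : stage0.Alg :=
  ⟨⟨fun q => Matrix.of fun a b => if a = some j ∧ b = none then coord p (q.1 j) else 0, by
    refine continuous_matrix fun a b => ?_
    simp only [Matrix.of_apply]
    split_ifs
    · exact (continuous_coord p).comp ((continuous_apply j).comp continuous_fst)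
    · exact continuous_const⟩, by
    intro l z e a b
    show (if a = some j ∧ b = none then coord p (act l z j) else 0) =
      ((stage0.chi (stage0.rc a) l / stage0.chi (stage0.rc b) l : Circle) : ℂ) *
      (if a = some j ∧ b = none then coord p (z j) else 0)
    split_ifs with h
    · obtain ⟨rfl, rfl⟩ := h
      show coord p (rot (l j) (z j)) = ((stage0.chi (some j) l / stage0.chi none l : Circle) : ℂ) * _
      rw [coord_rot, QtB_chi]
      have : stage0.chi none l = 1 := rfl
      rw [this, div_one]
    · simp⟩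

theorem QtB_X_apply (j : Fin 3) (p : Fin 2) (q : stage0.X × Bool) (a b : Option (Fin 3)) :
    (QtB_X j p).1 q a b = if a = some j ∧ b = none then coord p (q.1 j) else 0 := rfl

theorem QtB_dg_apply (st : Stage) (R : st.I → Bool) (q : st.X × Bool) :
    (st.dg R).1 q = Matrix.diagonal fun i => if R i = true then (1 : ℂ) else 0 := rfl

theorem QtB_mul_apply (st : Stage) (f g : st.Alg) (q : st.X × Bool) :
    (f * g).1 q = f.1 q * g.1 q := rfl

theorem QtB_EXE (j : Fin 3) (p : Fin 2) :
    stage0.dg (fun a => decide (a = some j)) * QtB_X j p * stage0.dg (fun a => a.isNone) =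
      QtB_X j p := by
  apply Subtype.ext
  ext q a b
  rw [QtB_mul_apply, QtB_mul_apply, QtB_dg_apply, QtB_dg_apply, Matrix.mul_diagonal,
    Matrix.diagonal_mul, QtB_X_apply]
  by_cases h : a = some j ∧ b = none
  · obtain ⟨rfl, rfl⟩ := h
    simp
  · rw [if_neg h]; simp

theorem QtB_XX (j : Fin 3) :
    star (QtB_X j 0) * QtB_X j 0 + star (QtB_X j 1) * QtB_X j 1 =
      stage0.dg (fun a => a.isNone) := by
  apply Subtype.ext
  ext q a b
  show (∑ c : Option (Fin 3),
      star (if c = some j ∧ a = none then coord 0 (q.1 j) else 0) *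
        (if c = some j ∧ b = none then coord 0 (q.1 j) else 0)) +
    (∑ c : Option (Fin 3),
      star (if c = some j ∧ a = none then coord 1 (q.1 j) else 0) *
        (if c = some j ∧ b = none then coord 1 (q.1 j) else 0)) =
    (Matrix.diagonal fun i : Option (Fin 3) => if i.isNone = true then (1 : ℂ) else 0) a b
  have hs := coord_sq (q.1 j)
  have key : star (coord 0 (q.1 j)) * coord 0 (q.1 j) + star (coord 1 (q.1 j)) * coord 1 (q.1 j)
      = (1 : ℂ) := by
    have h0 : ∀ z : ℂ, star z * z = ((‖z‖ ^ 2 : ℝ) : ℂ) := by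
      intro z
      rw [RCLike.star_def, mul_comm, Complex.mul_conj, Complex.normSq_eq_norm_sq]
    rw [h0, h0, ← Complex.ofReal_add, hs, Complex.ofReal_one]
  have hsum : ∀ p : Fin 2, (∑ c : Option (Fin 3),
      star (if c = some j ∧ a = none then coord p (q.1 j) else 0) *
        (if c = some j ∧ b = none then coord p (q.1 j) else 0)) =
      if a = none ∧ b = none then star (coord p (q.1 j)) * coord p (q.1 j) else 0 := by
    intro p
    rw [Finset.sum_eq_single (some j)]
    · by_cases ha : a = none <;> by_cases hb : b = none <;> simp [ha, hb]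
    · intro c _ hc
      simp [hc]
    · intro h
      exact absurd (Finset.mem_univ _) h
  rw [hsum 0, hsum 1]
  by_cases h : a = none ∧ b = none
  · obtain ⟨rfl, rfl⟩ := h
    simp only [and_self, if_true]
    rw [key]
    simp
  · rw [if_neg h, if_neg h, add_zero]
    rcases eq_or_ne a b with hab | hab
    · subst hab
      have ha : a ≠ none := fun h' => h ⟨h', h'⟩
      cases a with
      | none => exact absurd rfl ha
      | some a => simp
    · rw [Matrix.diagonal_apply_ne _ hab]

theorem QtB_gap {L : Type} [CStarAlgebra L] [PartialOrder L] [StarOrderedRing L]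
    (φ : stage0.Alg →⋆ₐ[ℂ] L) (t : QTrace L) :
    (t.τ 1 (m1 (φ (stage0.dg (fun i => i.isNone))))).re ≤ 2 / 5 ∧
    3 / 5 ≤ (t.τ 1 (m1 (φ (stage0.dg (fun i => !(i.isNone)))))).re := by
  have hstar : ∀ R : stage0.I → Bool, star (φ (stage0.dg R)) = φ (stage0.dg R) := by
    intro R
    have h : star (φ (stage0.dg R)) = φ (star (stage0.dg R)) := (map_star φ _).symm
    rw [h, QtB_dg_star]
  have hmul : ∀ R R' : stage0.I → Bool, φ (stage0.dg R) * φ (stage0.dg R') =
      φ (stage0.dg (fun i => R i && R' i)) := by
    intro R R'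
    have h : φ (stage0.dg R) * φ (stage0.dg R') = φ (stage0.dg R * stage0.dg R') :=
      (map_mul φ _ _).symm
    rw [h, QtB_dg_mul]
  have hcomm : ∀ R R' : stage0.I → Bool, φ (stage0.dg R) * φ (stage0.dg R') =
      φ (stage0.dg R') * φ (stage0.dg R) := by
    intro R R'
    rw [hmul, hmul]
    congr 2
    funext i
    exact Bool.and_comm _ _
  have hadd : ∀ R R' : stage0.I → Bool, (∀ i, (R i && R' i) = false) →
      t.τ 1 (m1 (φ (stage0.dg (fun i => R i || R' i)))) =
        t.τ 1 (m1 (φ (stage0.dg R))) + t.τ 1 (m1 (φ (stage0.dg R'))) := by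
    intro R R' h
    rw [← QtB_add t _ _ (hstar R) (hstar R') (hcomm R R')]
    congr 2
    rw [← QtB_dg_add stage0 R R' h]
    exact map_add φ _ _
  have hle : ∀ j : Fin 3, (t.τ 1 (m1 (φ (stage0.dg (fun i => i.isNone))))).re ≤
      2 * (t.τ 1 (m1 (φ (stage0.dg (fun i => decide (i = some j)))))).re := by
    intro j
    refine qtrace_le_two t _ _ (φ (QtB_X j 0)) (φ (QtB_X j 1)) (hstar _) ?_ (hstar _) ?_ ?_ ?_ ?_
    · rw [hmul]
      congr 2
      funext i
      exact Bool.and_self _
    · rw [hmul]
      congr 2
      funext i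
      exact Bool.and_self _
    · have h := congrArg φ (QtB_EXE j 0)
      rw [map_mul, map_mul] at h
      exact h
    · have h := congrArg φ (QtB_EXE j 1)
      rw [map_mul, map_mul] at h
      exact h
    · have h := congrArg φ (QtB_XX j)
      rw [← h]
      have e1 : star (φ (QtB_X j 0)) * φ (QtB_X j 0) = φ (star (QtB_X j 0) * QtB_X j 0) := by
        refine ((map_mul φ _ _).trans (congrArg₂ _ (map_star φ _) rfl)).symm
      have e2 : star (φ (QtB_X j 1)) * φ (QtB_X j 1) = φ (star (QtB_X j 1) * QtB_X j 1) := by
        refine ((map_mul φ _ _).trans (congrArg₂ _ (map_star φ _) rfl)).symm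
      rw [e1, e2]
      exact (map_add φ _ _).symm
  have h01 : t.τ 1 (m1 (φ (stage0.dg (fun i => !(i.isNone))))) =
      (t.τ 1 (m1 (φ (stage0.dg (fun i => decide (i = some 0))))) +
        t.τ 1 (m1 (φ (stage0.dg (fun i => decide (i = some 1)))))) +
        t.τ 1 (m1 (φ (stage0.dg (fun i => decide (i = some 2))))) := by
    rw [← hadd _ _ (by decide), ← hadd _ _ (by decide)]
    congr 4
    funext i
    revert i
    decide
  have h1 : t.τ 1 (m1 (φ (stage0.dg (fun i => i.isNone)))) +
      t.τ 1 (m1 (φ (stage0.dg (fun i => !(i.isNone))))) = 1 := by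
    rw [← hadd _ _ (by decide)]
    have e : (fun i : Option (Fin 3) => i.isNone || !(i.isNone)) = fun _ => true := by
      funext i
      cases i <;> rfl
    have e2 : φ (stage0.dg (fun i : Option (Fin 3) => i.isNone || !(i.isNone))) = 1 := by
      rw [e, QtB_dg_true]
      exact map_one φ
    rw [e2, QtB_m1_one, t.norm]
  have h1r := congrArg Complex.re h1
  have h01r := congrArg Complex.re h01
  simp only [Complex.add_re, Complex.one_re] at h1r h01r
  have := hle 0
  have := hle 1
  have := hle 2
  constructor <;> linarith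

theorem gap {L : Type} [CStarAlgebra L] [PartialOrder L] [StarOrderedRing L]
    (φ : BA 0 →⋆ₐ[ℂ] L) (t : QTrace L) :
    (t.τ 1 (m1 (φ (stage0.dg (fun i => i.isNone))))).re ≤ 2 / 5 ∧
    3 / 5 ≤ (t.τ 1 (m1 (φ (stage0.dg (fun i => !(i.isNone)))))).re :=
  QtB_gap φ t

end VB
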