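import Pool.Agent.VB.Defs

/-!
The invariant measure on the three sphere.

Proof.  Let `T : unitInterval × Circle × Circle → S3` (or `ℝ × ℝ × ℝ` with the product of the
restrictions of Lebesgue measure to `[0,1]`, `(0, 2π]`, `(0, 2π]`, normalised) be
`(t, a, b) ↦ (√t a, √(1-t) b)`.  It is continuous and `μ := map T (vol ⊗ haar ⊗ haar)`.
Rotation by `l` corresponds to multiplication of `a` and `b` by `l` (Haar measure is invariant);
alternatively, the rotation invariance can be proved with `AddCircle`.
Moments: the integral factors as `∫ t^((a+c)/2) (1-t)^((b+d)/2) dt` times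
`∫ a^(a-c)` times `∫ b^(b-d)`, and the circle integrals vanish unless `a = c`, `b = d`
(`fourier` orthogonality or invariance under rotation).  If `a = c`, `b = d` the integral is
`∫ t^a (1-t)^b dt = a! b! / (a+b+1)!` (Beta integral, `Complex.betaIntegral`, or
induction on `b` by integration by parts).
-/

open MeasureTheory

open scoped ComplexConjugate

namespace VB

noncomputable instance : MeasurableSpace S3 := borel S3

instance : BorelSpace S3 := ⟨rfl⟩

theorem beta_nat (a b : ℕ) : Complex.betaIntegral ((a : ℂ) + 1) ((b : ℂ) + 1) =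
    ((a.factorial : ℂ) * b.factorial / ((a + b + 1).factorial : ℂ)) := by
  have ha : 0 < ((a : ℂ) + 1).re := by simp; positivity
  have hb : 0 < ((b : ℂ) + 1).re := by simp; positivity
  have h := Complex.Gamma_mul_Gamma_eq_betaIntegral ha hb
  rw [Complex.Gamma_nat_eq_factorial, Complex.Gamma_nat_eq_factorial,
    show (a : ℂ) + 1 + ((b : ℂ) + 1) = ((a + b + 1 : ℕ) : ℂ) + 1 by push_cast; ring,
    Complex.Gamma_nat_eq_factorial] at h
  rw [h]
  have : ((a + b + 1).factorial : ℂ) ≠ 0 := by exact_mod_cast (Nat.factorial_pos _).ne'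
  field_simp

theorem integral_unit (a b : ℕ) : ∫ t : unitInterval, ((t : ℝ) : ℂ) ^ a * (1 - ((t : ℝ) : ℂ)) ^ b =
    ((a.factorial : ℂ) * b.factorial / ((a + b + 1).factorial : ℂ)) := by
  rw [← beta_nat, Complex.betaIntegral, intervalIntegral.integral_of_le zero_le_one,
    ← integral_Icc_eq_integral_Ioc]
  have h := unitInterval.measurePreserving_coe.integral_comp
    unitInterval.measurableEmbedding_coe
    (fun x : ℝ => (x : ℂ) ^ a * (1 - (x : ℂ)) ^ b)
  rw [h]
  congr 1
  funext x
  simp [Complex.cpow_natCast]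

/-- The one dimensional torus used as a parameter. -/
abbrev UT : Type := AddCircle (1 : ℝ)

theorem integral_fourier (n : ℤ) : ∫ x : UT, fourier n x ∂AddCircle.haarAddCircle =
    if n = 0 then 1 else 0 := by
  split_ifs with h
  · subst h
    simp
  · exact integral_eq_zero_of_add_right_eq_neg (fourier_add_half_inv_index h one_pos)

/-- Parametrisation of the sphere. -/
noncomputable def par (p : unitInterval × (UT × UT)) : S3 :=
  ⟨WithLp.toLp 2 ![((Real.sqrt p.1 : ℝ) : ℂ) * (AddCircle.toCircle p.2.1 : ℂ),
    ((Real.sqrt (1 - p.1) : ℝ) : ℂ) * (AddCircle.toCircle p.2.2 : ℂ)], by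
    have h0 : (0 : ℝ) ≤ p.1 := p.1.2.1
    have h1 : (0 : ℝ) ≤ 1 - p.1 := sub_nonneg.2 p.1.2.2
    rw [mem_sphere_zero_iff_norm, ← sq_eq_sq₀ (norm_nonneg _) zero_le_one,
      EuclideanSpace.norm_sq_eq, Fin.sum_univ_two]
    simp only [Matrix.cons_val_zero, Matrix.cons_val_one, norm_mul, Circle.norm_coe, mul_one,
      Complex.norm_real, Real.norm_eq_abs, sq_abs, Real.sq_sqrt h0, Real.sq_sqrt h1]
    ring⟩

theorem coord_par0 (p : unitInterval × (UT × UT)) :
    coord 0 (par p) = ((Real.sqrt p.1 : ℝ) : ℂ) * (AddCircle.toCircle p.2.1 : ℂ) := rfl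

theorem coord_par1 (p : unitInterval × (UT × UT)) :
    coord 1 (par p) = ((Real.sqrt (1 - p.1) : ℝ) : ℂ) * (AddCircle.toCircle p.2.2 : ℂ) := rfl

theorem continuous_par : Continuous par := by
  unfold par
  refine Continuous.subtype_mk ?_ _
  refine (PiLp.continuous_toLp 2 _).comp ?_
  refine continuous_pi fun i => ?_
  fin_cases i
  · show Continuous fun p : unitInterval × (UT × UT) =>
      ((Real.sqrt p.1 : ℝ) : ℂ) * (AddCircle.toCircle p.2.1 : ℂ)
    have h : Continuous fun p : unitInterval × (UT × UT) => (AddCircle.toCircle p.2.1 : ℂ) :=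
      continuous_subtype_val.comp (AddCircle.continuous_toCircle.comp
        (continuous_fst.comp continuous_snd))
    fun_prop
  · show Continuous fun p : unitInterval × (UT × UT) =>
      ((Real.sqrt (1 - p.1) : ℝ) : ℂ) * (AddCircle.toCircle p.2.2 : ℂ)
    have h : Continuous fun p : unitInterval × (UT × UT) => (AddCircle.toCircle p.2.2 : ℂ) :=
      continuous_subtype_val.comp (AddCircle.continuous_toCircle.comp
        (continuous_snd.comp continuous_snd))
    fun_prop

/-- The parameter measure. -/
noncomputable def parMeas : Measure (unitInterval × (UT × UT)) :=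
  (volume : Measure unitInterval).prod
    ((AddCircle.haarAddCircle (T := 1)).prod (AddCircle.haarAddCircle (T := 1)))

instance : IsProbabilityMeasure parMeas := by unfold parMeas; infer_instance

theorem rot_par (x0 : UT) (p : unitInterval × (UT × UT)) :
    rot (AddCircle.toCircle x0) (par p) = par (p.1, (p.2.1 + x0, p.2.2 + x0)) := by
  apply Subtype.ext
  ext i
  fin_cases i
  · show (AddCircle.toCircle x0 : ℂ) * (((Real.sqrt p.1 : ℝ) : ℂ) *
      (AddCircle.toCircle p.2.1 : ℂ)) = ((Real.sqrt p.1 : ℝ) : ℂ) *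
      (AddCircle.toCircle (p.2.1 + x0) : ℂ)
    rw [AddCircle.toCircle_add, Circle.coe_mul]; ring
  · show (AddCircle.toCircle x0 : ℂ) * (((Real.sqrt (1 - p.1) : ℝ) : ℂ) *
      (AddCircle.toCircle p.2.2 : ℂ)) = ((Real.sqrt (1 - p.1) : ℝ) : ℂ) *
      (AddCircle.toCircle (p.2.2 + x0) : ℂ)
    rw [AddCircle.toCircle_add, Circle.coe_mul]; ring

theorem continuous_rot (l : Circle) : Continuous (rot l) := by
  unfold rot
  refine Continuous.subtype_mk ?_ _
  fun_prop

theorem parMeas_shift (x0 : UT) :
    MeasurePreserving (fun p : unitInterval × (UT × UT) => (p.1, (p.2.1 + x0, p.2.2 + x0)))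
      parMeas parMeas := by
  have h1 : MeasurePreserving (fun x : UT => x + x0) AddCircle.haarAddCircle
    AddCircle.haarAddCircle := measurePreserving_add_right _ x0
  exact (MeasurePreserving.id _).prod (h1.prod h1)

theorem exists_mu3 : ∃ μ : Measure S3, IsProbabilityMeasure μ ∧
    (∀ l : Circle, μ.map (rot l) = μ) ∧
    ∀ a b c d : ℕ, ∫ z, (coord 0 z) ^ a * (coord 1 z) ^ b *
        (conj (coord 0 z) ^ c * conj (coord 1 z) ^ d) ∂μ =
      if a = c ∧ b = d then
        (((a.factorial : ℝ) * b.factorial / ((a + b + 1).factorial : ℝ) : ℝ) : ℂ) else 0 := by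
  have hm : Measurable par := continuous_par.measurable
  refine ⟨parMeas.map par, Measure.isProbabilityMeasure_map hm.aemeasurable, ?_, ?_⟩
  · intro l
    obtain ⟨x0, rfl⟩ : ∃ x0 : UT, AddCircle.toCircle x0 = l := by
      refine ⟨(AddCircle.homeomorphCircle one_ne_zero).symm l, ?_⟩
      rw [← AddCircle.homeomorphCircle_apply one_ne_zero, Homeomorph.apply_symm_apply]
    rw [Measure.map_map (continuous_rot _).measurable hm]
    have h : rot (AddCircle.toCircle x0) ∘ par =
        par ∘ (fun p : unitInterval × (UT × UT) => (p.1, (p.2.1 + x0, p.2.2 + x0))) := by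
      funext p
      exact rot_par x0 p
    rw [h, ← Measure.map_map hm (parMeas_shift x0).measurable, (parMeas_shift x0).map_eq]
  · intro a b c d
    have hF : Continuous fun z : S3 => (coord 0 z) ^ a * (coord 1 z) ^ b *
        (conj (coord 0 z) ^ c * conj (coord 1 z) ^ d) := by
      have h0 := continuous_coord 0
      have h1 := continuous_coord 1
      fun_prop
    rw [integral_map hm.aemeasurable hF.aestronglyMeasurable]
    have e : ∀ p : unitInterval × (UT × UT),
        (coord 0 (par p)) ^ a * (coord 1 (par p)) ^ b *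
        (conj (coord 0 (par p)) ^ c * conj (coord 1 (par p)) ^ d) =
        (((Real.sqrt p.1 : ℝ) : ℂ) ^ (a + c) * ((Real.sqrt (1 - p.1) : ℝ) : ℂ) ^ (b + d)) *
        (fourier ((a : ℤ) - c) p.2.1 * fourier ((b : ℤ) - d) p.2.2) := by
      intro p
      have key : ∀ (m n : ℕ) (x : UT), (fourier ((m : ℤ) - n) x : ℂ) =
          (AddCircle.toCircle x : ℂ) ^ m * conj (AddCircle.toCircle x : ℂ) ^ n := by
        intro m n x
        rw [sub_eq_add_neg, fourier_add, fourier_neg, fourier_apply, fourier_apply,
          AddCircle.toCircle_zsmul, AddCircle.toCircle_zsmul, zpow_natCast, zpow_natCast,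
          Circle.coe_pow, Circle.coe_pow, map_pow]
      rw [coord_par0, coord_par1, key, key]
      simp only [map_mul, Complex.conj_ofReal, mul_pow, pow_add]
      ring
    simp_rw [e]
    rw [parMeas, integral_prod_mul (μ := (volume : Measure unitInterval))
      (ν := (AddCircle.haarAddCircle (T := 1)).prod (AddCircle.haarAddCircle (T := 1)))
      (fun t : unitInterval => (((Real.sqrt t : ℝ) : ℂ) ^ (a + c) *
        ((Real.sqrt (1 - t) : ℝ) : ℂ) ^ (b + d)))
      (fun q : UT × UT => (fourier ((a : ℤ) - c) q.1 * fourier ((b : ℤ) - d) q.2 : ℂ)),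
      integral_prod_mul (μ := AddCircle.haarAddCircle (T := 1))
      (ν := AddCircle.haarAddCircle (T := 1))
      (fun x : UT => (fourier ((a : ℤ) - c) x : ℂ)) (fun x : UT => (fourier ((b : ℤ) - d) x : ℂ)),
      integral_fourier, integral_fourier]
    by_cases h1 : a = c
    · by_cases h2 : b = d
      · subst h1 h2
        have e2 : ∀ t : unitInterval, (((Real.sqrt t : ℝ) : ℂ) ^ (a + a) *
            ((Real.sqrt (1 - t) : ℝ) : ℂ) ^ (b + b)) =
            ((t : ℝ) : ℂ) ^ a * (1 - ((t : ℝ) : ℂ)) ^ b := by
          intro t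
          have h0 : (0 : ℝ) ≤ t := t.2.1
          have h1 : (0 : ℝ) ≤ 1 - t := sub_nonneg.2 t.2.2
          rw [← two_mul, ← two_mul, pow_mul, pow_mul, ← Complex.ofReal_pow (Real.sqrt t),
            ← Complex.ofReal_pow (Real.sqrt (1 - t)), Real.sq_sqrt h0, Real.sq_sqrt h1]
          push_cast
          ring
        simp_rw [e2]
        rw [integral_unit]
        simp
      · have : (b : ℤ) - d ≠ 0 := by omega
        simp [h2, this]
    · have : (a : ℤ) - c ≠ 0 := by omega
      simp [h1, this]

/-- The rotation invariant probability measure on the three sphere. -/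
noncomputable def mu3 : Measure S3 := Classical.choose exists_mu3

instance : IsProbabilityMeasure mu3 := (Classical.choose_spec exists_mu3).1

theorem mu3_rot (l : Circle) : mu3.map (rot l) = mu3 := (Classical.choose_spec exists_mu3).2.1 l

theorem mu3_moment (a b c d : ℕ) : ∫ z, (coord 0 z) ^ a * (coord 1 z) ^ b *
        (conj (coord 0 z) ^ c * conj (coord 1 z) ^ d) ∂mu3 =
      if a = c ∧ b = d then
        (((a.factorial : ℝ) * b.factorial / ((a + b + 1).factorial : ℝ) : ℝ) : ℂ) else 0 :=
  (Classical.choose_spec exists_mu3).2.2 a b c d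

/-- The product measure. -/
noncomputable def nu (S : Type) [Fintype S] : Measure (S → S3) := Measure.pi fun _ => mu3

instance (S : Type) [Fintype S] : IsProbabilityMeasure (nu S) := by
  unfold nu; infer_instance

end VB
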