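import Mathlib

/-!
MODULE VB/SrA.  The product trick (abstract algebra).

Proof.  The closure `Cl` of the set of invertible elements is closed under multiplication
(`closure` of a submonoid in a topological monoid is a submonoid).  Fix `k` and put
`Ak = b k + (1 - p k - e)`, and for `η > 0`
`G η = b k + (1 - p k - e) + η • (s k + t k + e - s k * t k)`.
`G η` is invertible with inverse
`(1 - p k - e) + η⁻¹ • (t k + s k) - η⁻² • (s k * b k * t k) + η⁻¹ • (e - s k * t k)`
(a direct computation in the noncommutative ring from the relations; note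
`s k = e * s k * p k`, `t k = p k * t k * e`, `b k = p k * b k * p k`, `t k * s k = p k`, and hence
`e * (s k * t k) = s k * t k`, `(s k * t k) * s k = s k` etc.).  As `η → 0`, `G η → Ak`, so `Ak ∈ Cl`.
The product of the `Ak` over all `k` (in any order: induct over a finset `F`, the product over `F` is
`∑ k ∈ F, b k + (1 - ∑ k ∈ F, p k - e)` by orthogonality) is the element in the statement.
-/

open scoped Topology

namespace VB

theorem product_trick {B : Type} [NormedRing B] [NormedAlgebra ℂ B] {κ : Type} [Fintype κ]
    [DecidableEq κ] (e : B) (p b s t : κ → B) (he : e * e = e) (hp : ∀ k, p k * p k = p k)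
    (hpe : ∀ k, p k * e = 0) (hep : ∀ k, e * p k = 0) (hpp : ∀ k l, k ≠ l → p k * p l = 0)
    (hb : ∀ k, p k * b k * p k = b k) (hs : ∀ k, e * s k * p k = s k)
    (ht : ∀ k, p k * t k * e = t k) (hts : ∀ k, t k * s k = p k) :
    (∑ k, b k) + (1 - ∑ k, p k - e) ∈ closure {u : B | IsUnit u} := by
  sorry

end VB
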