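import Pool.Agent.VB.CDefs
import Pool.Agent.VB.SrA

/-!
MODULE VB/SrB.  One step of the stable rank argument.
-/

open scoped Matrix.Norms.L2Operator ComplexConjugate

namespace VB

namespace SrBAux

theorem alg_ext (st : Stage) {f g : st.Alg} (h : ∀ p, f.1 p = g.1 p) : f = g := by
  apply Subtype.ext
  ext p : 1
  exact h p

/-- evaluation at a point, as a ring homomorphism -/
noncomputable def evR (st : Stage) (p : st.X × Bool) : st.Alg →+* Matrix st.I st.I ℂ where
  toFun f := f.1 p
  map_one' := rfl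
  map_mul' _ _ := rfl
  map_zero' := rfl
  map_add' _ _ := rfl

theorem ext_evR (st : Stage) {f g : st.Alg} (h : ∀ p, evR st p f = evR st p g) : f = g :=
  alg_ext st h

theorem evR_star (st : Stage) (p : st.X × Bool) (f : st.Alg) :
    evR st p (star f) = (evR st p f).conjTranspose := rfl

theorem evR_sub (st : Stage) (p : st.X × Bool) (f g : st.Alg) :
    evR st p (f - g) = evR st p f - evR st p g := rfl

theorem evR_dg (st : Stage) (p : st.X × Bool) (R : st.I → Bool) :
    evR st p (st.dg R) = Matrix.diagonal fun i => if R i = true then (1 : ℂ) else 0 := rfl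

theorem dg_mul_dg (st : Stage) (R R' : st.I → Bool) :
    st.dg R * st.dg R' = st.dg (fun i => R i && R' i) := by
  apply ext_evR
  intro p
  rw [map_mul, evR_dg, evR_dg, evR_dg, Matrix.diagonal_mul_diagonal]
  congr 1
  funext i
  by_cases h : R i = true <;> by_cases h' : R' i = true <;> simp [h, h']

theorem dg_idem (st : Stage) (R : st.I → Bool) : st.dg R * st.dg R = st.dg R := by
  rw [dg_mul_dg]
  congr 1
  funext i
  simp

theorem dg_star (st : Stage) (R : st.I → Bool) : star (st.dg R) = st.dg R := by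
  apply ext_evR
  intro p
  rw [evR_star, evR_dg, Matrix.diagonal_conjTranspose]
  congr 1
  funext i
  by_cases h : R i = true <;> simp [h]

theorem dg_zero (st : Stage) (R : st.I → Bool) (h : ∀ i, R i = false) : st.dg R = 0 := by
  apply ext_evR
  intro p
  rw [evR_dg, map_zero]
  ext i j
  rcases eq_or_ne i j with hij | hij
  · subst hij; simp [h]
  · simp [Matrix.diagonal_apply_ne _ hij]

/-- blocks `N (xor ε s)` at the point evaluation blocks, zero elsewhere -/
noncomputable def evb (st : Stage) (N : Bool → Matrix st.I st.I ℂ) : st.next.Alg :=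
  ⟨⟨fun p => Matrix.blockDiagonal fun k : st.K =>
      Sum.elim (fun _ => (0 : Matrix st.I st.I ℂ)) (fun os => N (xor p.2 os.2)) k, by
    refine Continuous.matrix_blockDiagonal ?_
    refine continuous_pi fun k => ?_
    rcases k with c | ⟨o, s⟩
    · exact continuous_const
    · exact (continuous_of_discreteTopology
        (f := fun b : Bool => N (xor b s))).comp continuous_snd⟩, by
    intro l z e i j
    rcases i with ⟨i, k⟩
    rcases j with ⟨j, k'⟩
    show Matrix.blockDiagonal (fun k : st.K =>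
      Sum.elim (fun _ => (0 : Matrix st.I st.I ℂ)) (fun os => N (xor e os.2)) k) (i, k) (j, k') =
      _ * Matrix.blockDiagonal (fun k : st.K =>
      Sum.elim (fun _ => (0 : Matrix st.I st.I ℂ)) (fun os => N (xor e os.2)) k) (i, k) (j, k')
    rw [Matrix.blockDiagonal_apply]
    simp only
    split_ifs with h
    · subst h
      rcases k with c | ⟨o, s⟩
      · simp
      · have h : st.next.chi (st.next.rc (i, Sum.inr (o, s))) l /
          st.next.chi (st.next.rc (j, Sum.inr (o, s))) l = 1 := by
          have : st.next.rc (i, Sum.inr (o, s)) = st.next.rc (j, Sum.inr (o, s)) := by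
            cases o <;> rfl
          rw [this, div_self']
        rw [h]; simp
    · simp⟩

theorem evR_evb (st : Stage) (p : st.next.X × Bool) (N : Bool → Matrix st.I st.I ℂ) :
    evR st.next p (evb st N) = Matrix.blockDiagonal fun k : st.K =>
      Sum.elim (fun _ => (0 : Matrix st.I st.I ℂ)) (fun os => N (xor p.2 os.2)) k := rfl

theorem evb_mul (st : Stage) (N N' : Bool → Matrix st.I st.I ℂ) :
    evb st N * evb st N' = evb st (fun e => N e * N' e) := by
  apply ext_evR
  intro p
  rw [map_mul, evR_evb, evR_evb, evR_evb, ← Matrix.blockDiagonal_mul]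
  congr 1
  funext k
  rcases k with c | ⟨o, s⟩
  · simp
  · simp

theorem evb_add (st : Stage) (N N' : Bool → Matrix st.I st.I ℂ) :
    evb st (fun e => N e + N' e) = evb st N + evb st N' := by
  apply ext_evR
  intro p
  rw [map_add, evR_evb, evR_evb, evR_evb]
  ext ⟨i, k⟩ ⟨j, k'⟩
  rw [Matrix.add_apply, Matrix.blockDiagonal_apply, Matrix.blockDiagonal_apply,
    Matrix.blockDiagonal_apply]
  simp only
  split_ifs with h
  · rcases k with c | ⟨o, s⟩
    · simp
    · simp
  · simp

theorem evR_smul (st : Stage) (p : st.X × Bool) (a : ℂ) (f : st.Alg) :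
    evR st p (a • f) = a • evR st p f := rfl

theorem evb_smul (st : Stage) (a : ℂ) (N : Bool → Matrix st.I st.I ℂ) :
    evb st (fun e => a • N e) = a • evb st N := by
  apply ext_evR
  intro p
  rw [evR_smul, evR_evb, evR_evb]
  ext ⟨i, k⟩ ⟨j, k'⟩
  rw [Matrix.smul_apply, Matrix.blockDiagonal_apply, Matrix.blockDiagonal_apply]
  simp only
  split_ifs with h
  · rcases k with c | ⟨o, s⟩
    · simp
    · simp
  · simp

/-- the coordinate part of the element `s c` -/
noncomputable def sEnt (st : Stage) (i0 : st.I) (c : st.Cp) (z : st.next.X) :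
    Matrix st.next.I st.next.I ℂ := fun I J =>
  match I, J with
  | (i, Sum.inl c'), (j, Sum.inl d) =>
    if i = i0 ∧ d = c ∧ (c' : Bool × st.I × (st.S → Bool)).1 = true ∧
        (c' : Bool × st.I × (st.S → Bool)).2.1 = j then
      conj (st.gfun (st.rc j) (fun s => finTwoEquiv.symm
        ((c' : Bool × st.I × (st.S → Bool)).2.2 s)) (st.proj c z)) else 0
  | _, _ => 0

noncomputable def sFun (st : Stage) (i0 : st.I) (h0 : st.rc i0 = none) (c : st.Cp) : st.next.Alg :=
  ⟨⟨fun p => sEnt st i0 c p.1, by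
    refine continuous_matrix fun I J => ?_
    rcases I with ⟨i, c' | k⟩
    · rcases J with ⟨j, d | k'⟩
      · show Continuous fun p : st.next.X × Bool => (if i = i0 ∧ d = c ∧ (c' : Bool × st.I × (st.S → Bool)).1 = true ∧
        (c' : Bool × st.I × (st.S → Bool)).2.1 = j then
          conj (st.gfun (st.rc j) (fun s => finTwoEquiv.symm
            ((c' : Bool × st.I × (st.S → Bool)).2.2 s)) (st.proj c p.1)) else 0)
        split_ifs
        · refine Complex.continuous_conj.comp ((st.gfun (st.rc j) _).continuous.comp ?_)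
          refine continuous_pi fun s => ?_
          exact (continuous_apply (Sum.inl (c, s))).comp continuous_fst
        · exact continuous_const
      · exact continuous_const
    · exact continuous_const⟩, by
    intro l z e I J
    show sEnt st i0 c (act l z) I J = _ * sEnt st i0 c z I J
    rcases I with ⟨i, c' | k⟩
    · rcases J with ⟨j, d | k'⟩
      · simp only [sEnt]
        split_ifs with h
        · obtain ⟨rfl, rfl, h1, rfl⟩ := h
          rw [st.proj_act, st.gfun_act, st.chi_next_inl, st.chi_next_inl, h0, map_mul]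
          simp only [Stage.chi, one_div]
          rw [← Circle.coe_inv_eq_conj]
        · simp
      · simp [sEnt]
    · simp [sEnt]⟩

theorem evR_sFun (st : Stage) (i0 : st.I) (h0 : st.rc i0 = none) (c : st.Cp)
    (p : st.next.X × Bool) : evR st.next p (sFun st i0 h0 c) = sEnt st i0 c p.1 := rfl

/-- the projection `e` -/
noncomputable def eP (st : Stage) (i0 : st.I) : st.next.Alg :=
  st.next.dg (fun I : st.I × st.K => decide (I.1 = i0) && I.2.isLeft)

/-- the projections `p c` -/
noncomputable def pP (st : Stage) (i0 : st.I) (c : st.Cp) : st.next.Alg :=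
  st.next.dg (fun I : st.I × st.K => decide (I.1 ≠ i0) && decide (I.2 = Sum.inl c))

theorem eP_mul_sFun (st : Stage) (i0 : st.I) (h0 : st.rc i0 = none) (c : st.Cp) :
    eP st i0 * sFun st i0 h0 c = sFun st i0 h0 c := by
  apply ext_evR
  intro p
  rw [map_mul, eP, evR_dg, evR_sFun]
  ext I J
  rw [Matrix.diagonal_mul]
  rcases I with ⟨i, c' | k⟩
  · rcases J with ⟨j, d | k'⟩
    · by_cases hi : i = i0
      · simp [hi]
      · simp [sEnt, hi]
    · simp [sEnt]
  · simp [sEnt]

theorem sum_g (st : Stage) (c : Option st.C) (z : st.X) :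
    ∑ P : st.S → Bool, st.gfun c (fun s => finTwoEquiv.symm (P s)) z *
      conj (st.gfun c (fun s => finTwoEquiv.symm (P s)) z) = 1 := by
  have h1 : ∀ P : st.S → Bool, st.gfun c (fun s => finTwoEquiv.symm (P s)) z *
      conj (st.gfun c (fun s => finTwoEquiv.symm (P s)) z) =
      ((‖st.gfun c (fun s => finTwoEquiv.symm (P s)) z‖ ^ 2 : ℝ) : ℂ) := by
    intro P
    rw [Complex.mul_conj, Complex.normSq_eq_norm_sq]
  simp_rw [h1]
  rw [← Complex.ofReal_sum]
  have h2 := Equiv.sum_comp (Equiv.arrowCongr (Equiv.refl st.S) finTwoEquiv.symm)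
    (fun P : st.S → Fin 2 => ‖st.gfun c P z‖ ^ 2)
  have h3 : ∑ P : st.S → Bool, ‖st.gfun c (fun s => finTwoEquiv.symm (P s)) z‖ ^ 2 =
      ∑ P : st.S → Fin 2, ‖st.gfun c P z‖ ^ 2 := h2
  rw [h3, st.gfun_sq]
  simp

theorem sum_sEnt (st : Stage) (i0 : st.I) (c : st.Cp) (z : st.next.X) (i j : st.I) :
    ∑ L : st.next.I, conj (sEnt st i0 c z L (i, Sum.inl c)) * sEnt st i0 c z L (j, Sum.inl c) =
      if i = j then 1 else 0 := by
  have h1 : ∑ L : st.next.I, conj (sEnt st i0 c z L (i, Sum.inl c)) *
      sEnt st i0 c z L (j, Sum.inl c) = ∑ l : st.I, ∑ k : st.K,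
        conj (sEnt st i0 c z (l, k) (i, Sum.inl c)) * sEnt st i0 c z (l, k) (j, Sum.inl c) :=
    Fintype.sum_prod_type _
  rw [h1, Finset.sum_eq_single i0]
  rotate_left
  · intro l _ hl
    refine Finset.sum_eq_zero fun k _ => ?_
    rcases k with c' | k
    · simp [sEnt, hl]
    · simp [sEnt]
  · simp
  rw [Fintype.sum_sum_type]
  have h2 : ∑ k : Option st.Cp × Bool, conj (sEnt st i0 c z (i0, Sum.inr k) (i, Sum.inl c)) *
      sEnt st i0 c z (i0, Sum.inr k) (j, Sum.inl c) = 0 := by
    refine Finset.sum_eq_zero fun k _ => ?_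
    simp [sEnt]
  rw [h2, add_zero]
  have h3 : ∑ c' : st.Cp, conj (sEnt st i0 c z (i0, Sum.inl c') (i, Sum.inl c)) *
      sEnt st i0 c z (i0, Sum.inl c') (j, Sum.inl c) =
      ∑ a : Bool, ∑ i' : st.I, ∑ P : st.S → Bool,
        conj (sEnt st i0 c z (i0, Sum.inl (a, i', P)) (i, Sum.inl c)) *
        sEnt st i0 c z (i0, Sum.inl (a, i', P)) (j, Sum.inl c) := by
    refine (Fintype.sum_prod_type _).trans ?_
    refine Finset.sum_congr rfl fun a _ => ?_
    exact Fintype.sum_prod_type _
  rw [h3, Finset.sum_eq_single true]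
  rotate_left
  · intro a _ ha
    refine Finset.sum_eq_zero fun i' _ => Finset.sum_eq_zero fun P _ => ?_
    simp [sEnt, ha]
  · simp
  rw [Finset.sum_eq_single i]
  rotate_left
  · intro i' _ hi
    refine Finset.sum_eq_zero fun P _ => ?_
    simp [sEnt, hi]
  · simp
  split_ifs with hij
  · subst hij
    simp only [sEnt, if_true, and_self]
    simp only [Complex.conj_conj]
    exact sum_g st (st.rc i) (st.proj c z)
  · refine Finset.sum_eq_zero fun P _ => ?_
    simp [sEnt, hij]

theorem star_mul_self (st : Stage) (i0 : st.I) (h0 : st.rc i0 = none) (c : st.Cp) :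
    pP st i0 c * star (sFun st i0 h0 c) * (sFun st i0 h0 c * pP st i0 c) = pP st i0 c := by
  have h : pP st i0 c * star (sFun st i0 h0 c) * (sFun st i0 h0 c * pP st i0 c) =
    pP st i0 c * (star (sFun st i0 h0 c) * sFun st i0 h0 c) * pP st i0 c := by
    simp only [mul_assoc]
  rw [h]
  apply ext_evR
  intro p
  rw [map_mul, map_mul, map_mul, pP, evR_dg, evR_star, evR_sFun]
  ext I J
  rw [Matrix.mul_diagonal, Matrix.diagonal_mul]
  rcases I with ⟨i, k⟩
  rcases J with ⟨j, k'⟩
  by_cases hk : k = Sum.inl c ∧ i ≠ i0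
  · by_cases hk' : k' = Sum.inl c ∧ j ≠ i0
    · obtain ⟨rfl, hi⟩ := hk
      obtain ⟨rfl, hj⟩ := hk'
      have h2 : ((sEnt st i0 c p.1).conjTranspose * sEnt st i0 c p.1) (i, Sum.inl c) (j, Sum.inl c) =
        if i = j then 1 else 0 := by
        rw [Matrix.mul_apply]
        exact sum_sEnt st i0 c p.1 i j
      rw [h2]
      by_cases hij : i = j
      · subst hij; simp [hi]
      · have : (i, (Sum.inl c : st.K)) ≠ (j, Sum.inl c) := fun h => hij (congrArg Prod.fst h)
        rw [Matrix.diagonal_apply_ne _ this]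
        simp [hij]
    · have hne : (i, k) ≠ (j, k') := by
        intro h
        rw [Prod.mk.injEq] at h
        exact hk' ⟨h.2 ▸ hk.1, h.1 ▸ hk.2⟩
      rw [Matrix.diagonal_apply_ne _ hne]
      have : (decide (j ≠ i0) && decide (k' = Sum.inl c)) = false := by
        by_contra hcon
        simp only [Bool.not_eq_false, Bool.and_eq_true, decide_eq_true_eq] at hcon
        exact hk' ⟨hcon.2, hcon.1⟩
      simp only [this]
      simp
  · have : (decide (i ≠ i0) && decide (k = Sum.inl c)) = false := by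
      by_contra hcon
      simp only [Bool.not_eq_false, Bool.and_eq_true, decide_eq_true_eq] at hcon
      exact hk ⟨hcon.2, hcon.1⟩
    rw [Matrix.diagonal_apply]
    simp only [this]
    simp

theorem evR_pP (st : Stage) (i0 : st.I) (c : st.Cp) (p : st.next.X × Bool) (i j : st.I)
    (k k' : st.K) : evR st.next p (pP st i0 c) (i, k) (j, k') =
      if (i, k) = (j, k') then (if i ≠ i0 ∧ k = Sum.inl c then 1 else 0) else 0 := by
  rw [pP, evR_dg]
  rcases eq_or_ne (i, k) (j, k') with h | h
  · rw [← h, if_pos rfl, Matrix.diagonal_apply_eq]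
    simp only [Bool.and_eq_true, decide_eq_true_eq]
  · rw [if_neg h]; exact Matrix.diagonal_apply_ne _ h

theorem evR_eP (st : Stage) (i0 : st.I) (p : st.next.X × Bool) (i j : st.I)
    (k k' : st.K) : evR st.next p (eP st i0) (i, k) (j, k') =
      if (i, k) = (j, k') then (if i = i0 ∧ k.isLeft = true then 1 else 0) else 0 := by
  rw [eP, evR_dg]
  rcases eq_or_ne (i, k) (j, k') with h | h
  · rw [← h, if_pos rfl, Matrix.diagonal_apply_eq]
    simp only [Bool.and_eq_true, decide_eq_true_eq]
  · rw [if_neg h]; exact Matrix.diagonal_apply_ne _ h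

theorem evR_pFp (st : Stage) (i0 : st.I) (c : st.Cp) (F : st.next.Alg) (p : st.next.X × Bool)
    (i j : st.I) (k k' : st.K) : evR st.next p (pP st i0 c * F * pP st i0 c) (i, k) (j, k') =
      if (i ≠ i0 ∧ k = Sum.inl c) ∧ (j ≠ i0 ∧ k' = Sum.inl c) then
        evR st.next p F (i, k) (j, k') else 0 := by
  rw [map_mul, map_mul, pP, evR_dg, Matrix.mul_diagonal, Matrix.diagonal_mul]
  simp only [Bool.and_eq_true, decide_eq_true_eq]
  by_cases h1 : i ≠ i0 ∧ k = Sum.inl c
  · by_cases h2 : j ≠ i0 ∧ k' = Sum.inl c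
    · simp [h1, h2]
    · simp [h2]
  · simp [h1]

/-- the entries -/
noncomputable def entH (st : Stage) (p : st.next.X × Bool) (i : st.I) (k : st.K) (j : st.I)
    (k' : st.K) : st.next.Alg →+ ℂ where
  toFun f := f.1 p (i, k) (j, k')
  map_zero' := rfl
  map_add' _ _ := rfl

theorem ext_entH (st : Stage) {f g : st.next.Alg}
    (h : ∀ p i k j k', entH st p i k j k' f = entH st p i k j k' g) : f = g := by
  apply alg_ext
  intro p
  ext ⟨i, k⟩ ⟨j, k'⟩
  exact h p i k j k'

theorem entH_sub (st : Stage) (p : st.next.X × Bool) (i : st.I) (k : st.K) (j : st.I)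
    (k' : st.K) (f g : st.next.Alg) : entH st p i k j k' (f - g) =
    entH st p i k j k' f - entH st p i k j k' g := rfl

theorem entH_one (st : Stage) (p : st.next.X × Bool) (i : st.I) (k : st.K) (j : st.I)
    (k' : st.K) : entH st p i k j k' 1 = if (i, k) = (j, k') then 1 else 0 := by
  show (1 : Matrix (st.I × st.K) (st.I × st.K) ℂ) (i, k) (j, k') = _
  rw [Matrix.one_apply]

theorem entH_pP (st : Stage) (i0 : st.I) (c : st.Cp) (p : st.next.X × Bool) (i j : st.I)
    (k k' : st.K) : entH st p i k j k' (pP st i0 c) =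
      if (i, k) = (j, k') then (if i ≠ i0 ∧ k = Sum.inl c then 1 else 0) else 0 :=
  evR_pP st i0 c p i j k k'

theorem entH_eP (st : Stage) (i0 : st.I) (p : st.next.X × Bool) (i j : st.I)
    (k k' : st.K) : entH st p i k j k' (eP st i0) =
      if (i, k) = (j, k') then (if i = i0 ∧ k.isLeft = true then 1 else 0) else 0 :=
  evR_eP st i0 p i j k k'

theorem entH_pFp (st : Stage) (i0 : st.I) (c : st.Cp) (F : st.next.Alg) (p : st.next.X × Bool)
    (i j : st.I) (k k' : st.K) : entH st p i k j k' (pP st i0 c * F * pP st i0 c) =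
      if (i ≠ i0 ∧ k = Sum.inl c) ∧ (j ≠ i0 ∧ k' = Sum.inl c) then
        entH st p i k j k' F else 0 :=
  evR_pFp st i0 c F p i j k k'

theorem entH_evb (st : Stage) (N : Bool → Matrix st.I st.I ℂ) (p : st.next.X × Bool)
    (i j : st.I) (k k' : st.K) : entH st p i k j k' (evb st N) =
      if k = k' then (Sum.elim (fun _ => (0 : Matrix st.I st.I ℂ))
        (fun os => N (xor p.2 os.2)) k) i j else 0 := rfl

theorem entH_conn (st : Stage) (x : st.X) (b : st.Alg) (p : st.next.X × Bool)
    (i j : st.I) (k k' : st.K) : entH st p i k j k' (st.conn x b) =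
      if k = k' then b.1 (st.src x k p) i j else 0 := rfl

/-- `1 - ∑ p c - e` is the projection onto the point evaluation blocks. -/
theorem one_sub (st : Stage) (i0 : st.I) :
    1 - ∑ c, pP st i0 c - eP st i0 = evb st (fun _ => 1) := by
  apply ext_entH
  intro p i k j k'
  rw [entH_sub, entH_sub, map_sum, entH_one, entH_evb, entH_eP]
  have hs : ∑ c, entH st p i k j k' (pP st i0 c) =
      ∑ c, if (i, k) = (j, k') then (if i ≠ i0 ∧ k = Sum.inl c then (1 : ℂ) else 0) else 0 :=
    Finset.sum_congr rfl fun c _ => entH_pP st i0 c p i j k k'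
  rw [hs]
  rcases eq_or_ne (i, k) (j, k') with h | h
  · rw [Prod.mk.injEq] at h
    obtain ⟨rfl, rfl⟩ := h
    rcases k with c | k
    · by_cases hi : i = i0
      · simp [hi]
      · simp [hi]
    · simp
  · simp only [if_neg h]
    split_ifs with h2
    · subst h2
      have hij : i ≠ j := fun h' => h (by rw [h'])
      rcases k with c | k
      · simp
      · simp [Matrix.one_apply_ne hij]
    · simp

/-- decomposition of the image of `b` -/
theorem conn_eq (st : Stage) (x : st.X) (i0 : st.I) (b : st.Alg)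
    (hrow : ∀ p j, b.1 p i0 j = 0) (hcol : ∀ p j, b.1 p j i0 = 0) :
    st.conn x b = ∑ c, pP st i0 c * st.conn x b * pP st i0 c + evb st (fun e => b.1 (x, e)) := by
  apply ext_entH
  intro p i k j k'
  rw [map_add, map_sum, entH_evb, entH_conn]
  have hs : ∑ c, entH st p i k j k' (pP st i0 c * st.conn x b * pP st i0 c) =
      ∑ c, if (i ≠ i0 ∧ k = Sum.inl c) ∧ (j ≠ i0 ∧ k' = Sum.inl c) then
        (if k = k' then b.1 (st.src x k p) i j else 0) else 0 :=
    Finset.sum_congr rfl fun c _ => by
      rw [entH_pFp st i0 c _ p i j k k', entH_conn]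
  rw [hs]
  split_ifs with h
  · subst h
    rcases k with c | k
    · by_cases hi : i = i0
      · subst hi; simp [hrow]
      · by_cases hj : j = i0
        · subst hj; simp [hcol]
        · simp [hi, hj, Stage.src]
    · simp [Stage.src]
  · simp

theorem unit_aux {R : Type} [Ring R] (q n n' : R) (hq : q * q = q) (h1 : q * n = n)
    (h2 : n * q = n) (h3 : q * n' = n') (h4 : n' * q = n') (h5 : n * n' = q) (h6 : n' * n = q) :
    IsUnit (1 - q + n) := by
  refine ⟨⟨1 - q + n, 1 - q + n', ?_, ?_⟩, rfl⟩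
  · simp only [mul_add, add_mul, mul_sub, sub_mul, one_mul, mul_one, hq, h2, h3, h5]
    abel
  · simp only [mul_add, add_mul, mul_sub, sub_mul, one_mul, mul_one, hq, h1, h4, h6]
    abel

theorem mul_aux {R : Type} [Ring R] (q n A : R) (hq : q * q = q) (h1 : q * n = n)
    (h2 : A * q = 0) (h3 : A * n = 0) : (A + q) * (1 - q + n) = A + n := by
  simp only [mul_add, add_mul, mul_sub, mul_one, hq, h1, h2, h3]
  abel

/-- invertibility -/
theorem isUnit_w (st : Stage) (N : Bool → Matrix st.I st.I ℂ) (hN : ∀ e, IsUnit (N e)) :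
    IsUnit (1 - evb st (fun _ => 1) + evb st N) := by
  choose u hu using hN
  have hq : ∀ M : Bool → Matrix st.I st.I ℂ, evb st (fun _ => 1) * evb st M = evb st M := by
    intro M
    rw [evb_mul]
    simp
  have hq' : ∀ M : Bool → Matrix st.I st.I ℂ, evb st M * evb st (fun _ => 1) = evb st M := by
    intro M
    rw [evb_mul]
    simp
  have h1 : evb st N * evb st (fun e => ((u e)⁻¹ : (Matrix st.I st.I ℂ)ˣ)) =
      evb st (fun _ => 1) := by
    rw [evb_mul]
    congr 1
    funext e
    rw [← hu e]
    exact (u e).mul_inv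
  have h2 : evb st (fun e => ((u e)⁻¹ : (Matrix st.I st.I ℂ)ˣ)) * evb st N =
      evb st (fun _ => 1) := by
    rw [evb_mul]
    congr 1
    funext e
    rw [← hu e]
    exact (u e).inv_mul
  exact unit_aux _ _ _ (hq _) (hq _) (hq' _) (hq _) (hq' _) h1 h2

theorem pP_mul_evb (st : Stage) (i0 : st.I) (c : st.Cp) (N : Bool → Matrix st.I st.I ℂ) :
    pP st i0 c * evb st N = 0 := by
  apply ext_entH
  intro p i k j k'
  have h : entH st p i k j k' (pP st i0 c * evb st N) =
      (if i ≠ i0 ∧ k = Sum.inl c then 1 else 0) * entH st p i k j k' (evb st N) := by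
    show evR st.next p (pP st i0 c * evb st N) (i, k) (j, k') = _
    rw [map_mul, pP, evR_dg, Matrix.diagonal_mul]
    simp only [Bool.and_eq_true, decide_eq_true_eq]
    rfl
  rw [h, entH_evb, map_zero]
  by_cases h1 : i ≠ i0 ∧ k = Sum.inl c
  · rw [h1.2]
    split_ifs <;> simp
  · rw [if_neg h1, zero_mul]

theorem sum_mul_aux {R : Type} [Ring R] {κ : Type} [Fintype κ] (p : κ → R) (F n : R)
    (h : ∀ c, p c * n = 0) : (∑ c, p c * F * p c) * n = 0 := by
  rw [Finset.sum_mul]
  refine Finset.sum_eq_zero fun c _ => ?_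
  rw [mul_assoc, h, mul_zero]

theorem finite_nonunit {n : Type} [Fintype n] [DecidableEq n] (M : Matrix n n ℂ) :
    {δ : ℂ | ¬ IsUnit (M + δ • (1 : Matrix n n ℂ))}.Finite := by
  have h1 : {δ : ℂ | ¬ IsUnit (M + δ • (1 : Matrix n n ℂ))} = (fun δ : ℂ => -δ) ⁻¹' spectrum ℂ M := by
    ext δ
    rw [Set.mem_ofPred_eq, Set.mem_preimage, spectrum.mem_iff, Algebra.algebraMap_eq_smul_one]
    have : (-δ) • (1 : Matrix n n ℂ) - M = -(M + δ • (1 : Matrix n n ℂ)) := by
      rw [neg_smul]; abel
    rw [this, IsUnit.neg_iff]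
  rw [h1]
  exact M.finite_spectrum.preimage neg_injective.injOn

end SrBAux

open SrBAux in
theorem sr_step (st : Stage) (x : st.X) (i0 : st.I) (h0 : st.rc i0 = none) (b : st.Alg)
    (hrow : ∀ p j, b.1 p i0 j = 0) (hcol : ∀ p j, b.1 p j i0 = 0) :
    st.conn x b ∈ closure {u : st.next.Alg | IsUnit u} := by
  have hee : eP st i0 * eP st i0 = eP st i0 := dg_idem _ _
  have hpp : ∀ c, pP st i0 c * pP st i0 c = pP st i0 c := fun c => dg_idem _ _
  have hpe : ∀ c, pP st i0 c * eP st i0 = 0 := by
    intro c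
    rw [pP, eP, dg_mul_dg]
    apply dg_zero
    rintro ⟨i, k⟩
    by_cases hi : i = i0 <;> simp [hi]
  have hep : ∀ c, eP st i0 * pP st i0 c = 0 := by
    intro c
    rw [pP, eP, dg_mul_dg]
    apply dg_zero
    rintro ⟨i, k⟩
    by_cases hi : i = i0 <;> simp [hi]
  have hpq : ∀ c d, c ≠ d → pP st i0 c * pP st i0 d = 0 := by
    intro c d hcd
    rw [pP, pP, dg_mul_dg]
    apply dg_zero
    rintro ⟨i, k⟩
    by_cases hk : k = Sum.inl c
    · have : (Sum.inl c : st.K) ≠ Sum.inl d := fun h => hcd (Sum.inl.inj h)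
      simp [hk, this]
    · simp [hk]
  have key := product_trick (eP st i0) (pP st i0) (fun c => pP st i0 c * st.conn x b * pP st i0 c)
    (fun c => sFun st i0 h0 c * pP st i0 c) (fun c => pP st i0 c * star (sFun st i0 h0 c))
    hee hpp hpe hep hpq
    (by
      intro c
      show pP st i0 c * (pP st i0 c * st.conn x b * pP st i0 c) * pP st i0 c = _
      rw [← mul_assoc, ← mul_assoc, hpp, mul_assoc (pP st i0 c * st.conn x b), hpp])
    (by
      intro c
      show eP st i0 * (sFun st i0 h0 c * pP st i0 c) * pP st i0 c = _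
      rw [← mul_assoc, eP_mul_sFun, mul_assoc, hpp])
    (by
      intro c
      show pP st i0 c * (pP st i0 c * star (sFun st i0 h0 c)) * eP st i0 = _
      rw [← mul_assoc, hpp, mul_assoc]
      congr 1
      have := congrArg star (eP_mul_sFun st i0 h0 c)
      rw [star_mul, eP, dg_star] at this
      exact this)
    (fun c => star_mul_self st i0 h0 c)
  set A : st.next.Alg := ∑ c, pP st i0 c * st.conn x b * pP st i0 c with hA
  have hconn : st.conn x b = A + evb st (fun e => b.1 (x, e)) := conn_eq st x i0 b hrow hcol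
  have key2 : A + evb st (fun _ => 1) ∈ closure {u : st.next.Alg | IsUnit u} := by
    rw [← one_sub st i0]
    exact key
  have hAz : ∀ M : Bool → Matrix st.I st.I ℂ, A * evb st M = 0 := by
    intro M
    exact sum_mul_aux _ _ _ (fun c => pP_mul_evb st i0 c M)
  have hstep : ∀ δ : ℂ, IsUnit (b.1 (x, true) + δ • (1 : Matrix st.I st.I ℂ)) →
      IsUnit (b.1 (x, false) + δ • (1 : Matrix st.I st.I ℂ)) →
      st.conn x b + δ • evb st (fun _ => 1) ∈ closure {u : st.next.Alg | IsUnit u} := by
    intro δ ht hf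
    have hN : ∀ e, IsUnit ((fun e => b.1 (x, e) + δ • (1 : Matrix st.I st.I ℂ)) e) := by
      intro e
      cases e
      · exact hf
      · exact ht
    have hw := isUnit_w st _ hN
    have h1 : (A + evb st (fun _ => 1)) * (1 - evb st (fun _ => 1) +
        evb st (fun e => b.1 (x, e) + δ • (1 : Matrix st.I st.I ℂ))) =
        st.conn x b + δ • evb st (fun _ => 1) := by
      have h2 := mul_aux (evb st (fun _ => 1)) (evb st (fun e => b.1 (x, e) +
        δ • (1 : Matrix st.I st.I ℂ))) A (by rw [evb_mul]; simp) (by rw [evb_mul]; simp)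
        (hAz _) (hAz _)
      rw [h2, hconn, evb_add, evb_smul, add_assoc]
    rw [← h1]
    exact map_mem_closure (f := fun u => u * (1 - evb st (fun _ => 1) + evb st (fun e => b.1 (x, e) + δ • (1 : Matrix st.I st.I ℂ)))) (continuous_id.mul continuous_const) key2 (fun u (hu : IsUnit u) => hu.mul hw)
  have hdense : (0 : ℂ) ∈ closure {δ : ℂ | IsUnit (b.1 (x, true) + δ • (1 : Matrix st.I st.I ℂ)) ∧
      IsUnit (b.1 (x, false) + δ • (1 : Matrix st.I st.I ℂ))} := by
    have hfin := (finite_nonunit (b.1 (x, true))).union (finite_nonunit (b.1 (x, false)))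
    have hd := (hfin.countable).dense_compl ℝ
    refine closure_mono ?_ (hd 0)
    intro δ hδ
    rw [Set.mem_compl_iff, Set.mem_union, not_or] at hδ
    exact ⟨not_not.1 hδ.1, not_not.1 hδ.2⟩
  have hcont : Continuous fun δ : ℂ => st.conn x b + δ • evb st (fun _ => 1) := by fun_prop
  have h3 := map_mem_closure hcont hdense (fun δ hδ => hstep δ hδ.1 hδ.2)
  rw [closure_closure] at h3
  simpa using h3

end VB
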