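import Pool.Agent.VB.CDefs

/-!
MODULE VB/SrC.  Creating a zero cross at a trivial row.

Proof.  Blocks of `st.conn x a (z, e)`: at `inr (none, s)` it is `a (x, xor e s)`.  Let
`b (z, e)` be `st.conn x a (z, e)` with the block `inr (none, xor e e0)` (which equals `a (x, e0)`) replaced by
`M0`.  This is in `st.next.Alg` (these rows are trivial, the block is constant in `z`), and
`b - st.conn x a` has only the block `M0 - a (x, e0)`, of norm `≤ δ`, at every point
(the norm of a continuous function is the supremum of the norms; the norm of a block diagonal matrix with one block is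
the norm of the block; use e.g. `Matrix.l2_opNorm_def` / `Matrix.l2_opNorm_mulVec` or an isometric embedding
`X ↦ W * X * Wᴴ` with `Wᴴ * W = 1`).
`M0` is singular, so there are nonzero vectors with `M0 ξ = 0` and `ζ M0 = 0`.  Choose invertible matrices `U0`, `V0`
of size `st.I` with `(U0 * M0 * V0) i1 j = 0` and `(U0 * M0 * V0) j i1 = 0` for all `j`, where `i1 = st.root`
(e.g. `V0` has column `i1` equal to `ξ`, `U0` has row `i1` equal to `ζ`; complete to bases, or use
`Matrix.Pivot`/rank normal form).  Let `u (z, e)` be the matrix which is `U0` on the block `inr (none, xor e e0)` and the identity on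
the other blocks, followed by the permutation exchanging the rows `(i, inr (none, false))` and `(i, inr (none, true))`
when `xor e e0 = true` (so that the zero cross is moved to the row `(i1, inr (none, false))` on both sheets); similarly
`v (z, e)` with `V0` on the right.  These are invertible elements of `st.next.Alg` since they are constant in `z` and only mix
trivial rows.  Take `i0 = (st.root, inr (none, false))`.
-/

open scoped Matrix.Norms.L2Operator

namespace VB

/-- Exchange of the two trivial point evaluation blocks. -/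
def Stage.tw (st : Stage) (t : Bool) : st.K → st.K
  | Sum.inl c => Sum.inl c
  | Sum.inr (none, s) => Sum.inr (none, xor s t)
  | Sum.inr (some c, s) => Sum.inr (some c, s)

theorem Stage.tw_tw (st : Stage) (t : Bool) (k : st.K) : st.tw t (st.tw t k) = k := by
  rcases k with c | ⟨_ | c, s⟩
  · rfl
  · show Sum.inr (none, xor (xor s t) t) = _
    cases s <;> cases t <;> rfl
  · rfl

/-- The exchange as a permutation of the rows. -/
def Stage.twE (st : Stage) (t : Bool) : (st.I × st.K) ≃ (st.I × st.K) where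
  toFun p := (p.1, st.tw t p.2)
  invFun p := (p.1, st.tw t p.2)
  left_inv p := by
    show (p.1, st.tw t (st.tw t p.2)) = p
    rw [st.tw_tw]
  right_inv p := by
    show (p.1, st.tw t (st.tw t p.2)) = p
    rw [st.tw_tw]

/-- The family of blocks with the block `M` at `inr (none, t)` and `N` elsewhere. -/
def Stage.blk (st : Stage) (t : Bool) (M N : Matrix st.I st.I ℂ) : st.K → Matrix st.I st.I ℂ
  | Sum.inl _ => N
  | Sum.inr (none, s) => if s = t then M else N
  | Sum.inr (some _, _) => N

theorem Stage.blk_mul (st : Stage) (t : Bool) (M N M' N' : Matrix st.I st.I ℂ) (k : st.K) :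
    st.blk t M N k * st.blk t M' N' k = st.blk t (M * M') (N * N') k := by
  rcases k with c | ⟨_ | c, s⟩
  · rfl
  · simp only [Stage.blk]
    split_ifs <;> rfl
  · rfl

theorem Stage.blk_self (st : Stage) (t : Bool) (M : Matrix st.I st.I ℂ) (k : st.K) :
    st.blk t M M k = M := by
  rcases k with c | ⟨_ | c, s⟩
  · rfl
  · simp only [Stage.blk, ite_self]
  · rfl

/-- The block matrix. -/
def Stage.bm (st : Stage) (t : Bool) (M N : Matrix st.I st.I ℂ) :
    Matrix (st.I × st.K) (st.I × st.K) ℂ := Matrix.blockDiagonal (st.blk t M N)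

theorem Stage.bm_mul (st : Stage) (t : Bool) (M N M' N' : Matrix st.I st.I ℂ) :
    st.bm t M N * st.bm t M' N' = st.bm t (M * M') (N * N') := by
  rw [Stage.bm, Stage.bm, ← Matrix.blockDiagonal_mul]
  congr 1
  funext k
  exact st.blk_mul t M N M' N' k

theorem Stage.bm_one (st : Stage) (t : Bool) : st.bm t 1 1 = 1 := by
  have : st.blk t (1 : Matrix st.I st.I ℂ) 1 = 1 := by
    funext k; exact st.blk_self t 1 k
  rw [Stage.bm, this, Matrix.blockDiagonal_one]

theorem Stage.bm_col (st : Stage) (t : Bool) (M : Matrix st.I st.I ℂ) (i j : st.I × st.K)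
    (h : st.bm t M 1 i j ≠ 0) : st.nextRc i = st.nextRc j := by
  rcases i with ⟨i, k⟩
  rcases j with ⟨j, k'⟩
  rw [Stage.bm, Matrix.blockDiagonal_apply] at h
  simp only at h
  split_ifs at h with hk
  · subst hk
    rcases k with c | ⟨_ | c, s⟩
    · have : i = j := by
        by_contra hij
        exact h (Matrix.one_apply_ne hij)
      rw [this]
    · rfl
    · rfl
  · exact absurd rfl h

theorem Stage.nextRc_tw (st : Stage) (t : Bool) (i : st.I × st.K) :
    st.nextRc (st.twE t i) = st.nextRc i := by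
  rcases i with ⟨i, c | ⟨_ | c, s⟩⟩ <;> rfl

/-- Elements of the building block which do not depend on the point. -/
def Stage.cst (st : Stage) (G : Bool → Matrix st.I st.I ℂ)
    (hG : ∀ e i j, G e i j ≠ 0 → st.rc i = st.rc j) : st.Alg :=
  ⟨⟨fun p => G p.2, (continuous_of_discreteTopology (f := G)).comp continuous_snd⟩, by
    intro l z e i j
    show G e i j = _ * G e i j
    by_cases h : G e i j = 0
    · rw [h, mul_zero]
    · rw [hG e i j h, div_self']
      simp⟩

theorem Stage.cst_apply (st : Stage) (G : Bool → Matrix st.I st.I ℂ)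
    (hG : ∀ e i j, G e i j ≠ 0 → st.rc i = st.rc j) (p : st.X × Bool) :
    (st.cst G hG).1 p = G p.2 := rfl

theorem Stage.cst_isUnit (st : Stage) (G H : Bool → Matrix st.I st.I ℂ)
    (hG : ∀ e i j, G e i j ≠ 0 → st.rc i = st.rc j)
    (hH : ∀ e i j, H e i j ≠ 0 → st.rc i = st.rc j)
    (h1 : ∀ e, G e * H e = 1) (h2 : ∀ e, H e * G e = 1) : IsUnit (st.cst G hG) := by
  rw [isUnit_iff_exists]
  refine ⟨st.cst H hH, ?_, ?_⟩
  · apply Subtype.ext
    ext p : 1
    exact h1 p.2
  · apply Subtype.ext
    ext p : 1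
    exact h2 p.2

theorem exists_cross {I : Type} [Fintype I] [DecidableEq I] (r : I) (M : Matrix I I ℂ)
    (hM : ¬ IsUnit M) : ∃ U V : Matrix I I ℂ, IsUnit U ∧ IsUnit V ∧
      (∀ j, (U * M * V) r j = 0) ∧ ∀ j, (U * M * V) j r = 0 := by
  have hdet : M.det = 0 := by
    by_contra h
    exact hM ((Matrix.isUnit_iff_isUnit_det M).2 (isUnit_iff_ne_zero.2 h))
  obtain ⟨ξ, hξ, hMξ⟩ := Matrix.exists_mulVec_eq_zero_iff.2 hdet
  obtain ⟨ζ, hζ, hMζ⟩ := Matrix.exists_vecMul_eq_zero_iff.2 hdet
  have key : ∀ w : I → ℂ, w ≠ 0 → ∃ V : Matrix I I ℂ, IsUnit V ∧ ∀ j, V j r = w j := by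
    intro w hw
    obtain ⟨i2, hi2⟩ := Function.ne_iff.1 hw
    refine ⟨((1 : Matrix I I ℂ).updateCol i2 w).submatrix id (Equiv.swap r i2), ?_, ?_⟩
    · rw [Matrix.isUnit_iff_isUnit_det, isUnit_iff_ne_zero, Matrix.det_permute']
      refine mul_ne_zero ?_ ?_
      · rcases Int.units_eq_one_or (Equiv.Perm.sign (Equiv.swap r i2)) with h | h <;> simp [h]
      · rw [← Matrix.cramer_apply]
        simpa using hi2
    · intro j
      simp
  obtain ⟨V, hV, hVr⟩ := key ξ hξ
  obtain ⟨U, hU, hUr⟩ := key ζ hζ
  refine ⟨U.transpose, V, ?_, hV, ?_, ?_⟩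
  · rw [Matrix.isUnit_iff_isUnit_det, Matrix.det_transpose, ← Matrix.isUnit_iff_isUnit_det]
    exact hU
  · intro j
    have h : ∀ j, (U.transpose * M) r j = 0 := by
      intro j
      rw [Matrix.mul_apply]
      have := congrFun hMζ j
      rw [Matrix.vecMul, dotProduct] at this
      simpa [Matrix.transpose_apply, hUr] using this
    rw [Matrix.mul_apply]
    exact Finset.sum_eq_zero fun i _ => by rw [h, zero_mul]
  · intro j
    have h : ∀ j, (M * V) j r = 0 := by
      intro j
      rw [Matrix.mul_apply]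
      have := congrFun hMξ j
      rw [Matrix.mulVec, dotProduct] at this
      simpa [hVr] using this
    rw [Matrix.mul_assoc, Matrix.mul_apply]
    exact Finset.sum_eq_zero fun i _ => by rw [h, mul_zero]

theorem Stage.norm_bm_le (st : Stage) (t : Bool) (M : Matrix st.I st.I ℂ) :
    ‖st.bm t M 0‖ ≤ ‖M‖ := by
  let W : Matrix (st.I × st.K) st.I ℂ := fun p j =>
    if p.2 = Sum.inr (none, t) then (1 : Matrix st.I st.I ℂ) p.1 j else 0
  have hW : W.conjTranspose * W = 1 := by
    ext i j
    rw [Matrix.mul_apply, Fintype.sum_prod_type]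
    simp only [W, Matrix.conjTranspose_apply]
    have : ∀ i' : st.I, ∑ k : st.K, star (if k = Sum.inr (none, t) then
        (1 : Matrix st.I st.I ℂ) i' i else 0) *
        (if k = Sum.inr (none, t) then (1 : Matrix st.I st.I ℂ) i' j else 0) =
        star ((1 : Matrix st.I st.I ℂ) i' i) * (1 : Matrix st.I st.I ℂ) i' j := by
      intro i'
      rw [Finset.sum_eq_single (Sum.inr (none, t))]
      · simp
      · intro k _ hk; simp [hk]
      · intro h; exact absurd (Finset.mem_univ _) h
    simp_rw [this]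
    have h2 : ((1 : Matrix st.I st.I ℂ).conjTranspose * (1 : Matrix st.I st.I ℂ)) i j =
        (1 : Matrix st.I st.I ℂ) i j := by
      simp
    rw [Matrix.mul_apply] at h2
    exact h2
  have hWn : ‖W‖ ≤ 1 := by
    have h := Matrix.l2_opNorm_conjTranspose_mul_self W
    rw [hW] at h
    have h1 : ‖(1 : Matrix st.I st.I ℂ)‖ ≤ 1 := by
      rcases subsingleton_or_nontrivial (Matrix st.I st.I ℂ) with hs | hs
      · rw [Subsingleton.elim (1 : Matrix st.I st.I ℂ) 0, norm_zero]; exact zero_le_one
      · exact CStarRing.norm_one.le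
    nlinarith [norm_nonneg W]
  have hWs : ‖W.conjTranspose‖ ≤ 1 := by rwa [Matrix.l2_opNorm_conjTranspose]
  have e : st.bm t M 0 = W * M * W.conjTranspose := by
    ext i j
    rcases i with ⟨i, k⟩
    rcases j with ⟨j, k'⟩
    have hL : (W * M) (i, k) = fun j => if k = Sum.inr (none, t) then M i j else 0 := by
      funext j
      rw [Matrix.mul_apply]
      simp only [W]
      split_ifs
      · rw [← Matrix.mul_apply, one_mul]
      · simp
    have hR : ∀ i', W.conjTranspose i' (j, k') =
        if k' = Sum.inr (none, t) then (1 : Matrix st.I st.I ℂ) i' j else 0 := by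
      intro i'
      rw [Matrix.conjTranspose_apply]
      simp only [W]
      split_ifs
      · by_cases h : j = i'
        · subst h; simp
        · rw [Matrix.one_apply_ne h, Matrix.one_apply_ne (Ne.symm h), star_zero]
      · simp
    rw [Matrix.mul_apply]
    simp_rw [hR, hL]
    rw [Stage.bm, Matrix.blockDiagonal_apply]
    simp only
    by_cases hk : k = Sum.inr (none, t)
    · by_cases hk' : k' = Sum.inr (none, t)
      · simp only [hk, hk', if_true]
        rw [← Matrix.mul_apply, mul_one]
        simp [Stage.blk]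
      · rw [if_neg (by rw [hk]; exact fun h => hk' h.symm)]
        simp [hk']
    · simp only [hk, if_false, zero_mul, Finset.sum_const_zero]
      split_ifs with h
      · rcases k with c | ⟨_ | c, s⟩
        · rfl
        · have : s ≠ t := fun h => hk (by rw [h])
          simp [Stage.blk, this]
        · rfl
      · rfl
  rw [e]
  calc ‖W * M * W.conjTranspose‖ ≤ ‖W * M‖ * ‖W.conjTranspose‖ := Matrix.l2_opNorm_mul _ _
    _ ≤ (‖W‖ * ‖M‖) * ‖W.conjTranspose‖ := by
        gcongr
        exact Matrix.l2_opNorm_mul _ _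
    _ ≤ (1 * ‖M‖) * 1 := by gcongr
    _ = ‖M‖ := by ring

theorem sr_cross (st : Stage) (x : st.X) (a : st.Alg) (e0 : Bool) (M0 : Matrix st.I st.I ℂ)
    (hM0 : ¬ IsUnit M0) (δ : ℝ) (hδ : ‖a.1 (x, e0) - M0‖ ≤ δ) :
    ∃ b u v : st.next.Alg, ‖st.conn x a - b‖ ≤ δ ∧ IsUnit u ∧ IsUnit v ∧
      ∃ i0 : st.next.I, st.next.rc i0 = none ∧ (∀ p j, (u * b * v).1 p i0 j = 0) ∧
        ∀ p j, (u * b * v).1 p j i0 = 0 := by
  obtain ⟨U, V, hU, hV, hrow, hcol⟩ := exists_cross st.root M0 hM0
  obtain ⟨U', hU1, hU2⟩ := isUnit_iff_exists.1 hU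
  obtain ⟨V', hV1, hV2⟩ := isUnit_iff_exists.1 hV
  -- the perturbation
  let g : st.next.Alg := st.next.cst (fun e => st.bm (xor e e0) (M0 - a.1 (x, e0)) 0) (by
    intro e i j h
    rcases i with ⟨i, k⟩
    rcases j with ⟨j, k'⟩
    show st.nextRc (i, k) = st.nextRc (j, k')
    rw [Stage.bm, Matrix.blockDiagonal_apply] at h
    simp only at h
    split_ifs at h with hk
    · subst hk
      rcases k with c | ⟨_ | c, s⟩
      · exact absurd rfl h
      · rfl
      · exact absurd rfl h
    · exact absurd rfl h)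
  let u : st.next.Alg := st.next.cst
    (fun e => (st.bm (xor e e0) U 1).submatrix (st.twE (xor e e0)) id) (by
      intro e i j h
      exact (st.nextRc_tw _ i).symm.trans (st.bm_col _ _ _ _ h))
  let v : st.next.Alg := st.next.cst
    (fun e => (st.bm (xor e e0) V 1).submatrix id (st.twE (xor e e0))) (by
      intro e i j h
      exact (st.bm_col _ _ _ _ h).trans (st.nextRc_tw _ j))
  have hdiag : ∀ p : st.next.X × Bool, (u * (st.conn x a + g) * v).1 p =
      (Matrix.blockDiagonal fun k => st.blk (xor p.2 e0) U 1 k *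
        (a.1 (st.src x k p) + st.blk (xor p.2 e0) (M0 - a.1 (x, e0)) 0 k) *
        st.blk (xor p.2 e0) V 1 k).submatrix (st.twE (xor p.2 e0)) (st.twE (xor p.2 e0)) := by
    intro p
    show (st.bm (xor p.2 e0) U 1).submatrix (st.twE (xor p.2 e0)) id *
      (Matrix.blockDiagonal (fun k => a.1 (st.src x k p)) +
        Matrix.blockDiagonal (st.blk (xor p.2 e0) (M0 - a.1 (x, e0)) 0)) *
      (st.bm (xor p.2 e0) V 1).submatrix id (st.twE (xor p.2 e0)) = _
    rw [← Matrix.blockDiagonal_add]
    have h1 := Matrix.submatrix_mul_equiv (st.bm (xor p.2 e0) U 1)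
      (Matrix.blockDiagonal ((fun k => a.1 (st.src x k p)) +
        st.blk (xor p.2 e0) (M0 - a.1 (x, e0)) 0)) (st.twE (xor p.2 e0))
      (Equiv.refl (st.I × st.K)) id
    rw [Equiv.coe_refl, Matrix.submatrix_id_id] at h1
    rw [h1]
    have h2 := Matrix.submatrix_mul_equiv (st.bm (xor p.2 e0) U 1 *
      (Matrix.blockDiagonal ((fun k => a.1 (st.src x k p)) +
        st.blk (xor p.2 e0) (M0 - a.1 (x, e0)) 0))) (st.bm (xor p.2 e0) V 1)
      (st.twE (xor p.2 e0))
      (Equiv.refl (st.I × st.K)) (st.twE (xor p.2 e0))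
    rw [Equiv.coe_refl] at h2
    rw [h2, Stage.bm, Stage.bm, ← Matrix.blockDiagonal_mul, ← Matrix.blockDiagonal_mul]
    rfl
  have hblk : ∀ p : st.next.X × Bool,
      st.blk (xor p.2 e0) U 1 (Sum.inr (none, xor p.2 e0)) *
        (a.1 (st.src x (Sum.inr (none, xor p.2 e0)) p) +
          st.blk (xor p.2 e0) (M0 - a.1 (x, e0)) 0 (Sum.inr (none, xor p.2 e0))) *
        st.blk (xor p.2 e0) V 1 (Sum.inr (none, xor p.2 e0)) = U * M0 * V := by
    intro p
    have h1 : ∀ M N, st.blk (xor p.2 e0) M N (Sum.inr (none, xor p.2 e0)) = M := by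
      intro M N
      simp [Stage.blk]
    have h2 : st.src x (Sum.inr (none, xor p.2 e0)) p = (x, e0) := by
      show (x, xor p.2 (xor p.2 e0)) = (x, e0)
      rw [← Bool.xor_assoc, Bool.xor_self, Bool.false_xor]
    rw [h1, h1, h1, h2, add_sub_cancel]
  refine ⟨st.conn x a + g, u, v, ?_, ?_, ?_, (st.root, Sum.inr (none, false)), rfl, ?_, ?_⟩
  · have hδ0 : 0 ≤ δ := (norm_nonneg _).trans hδ
    have : st.conn x a - (st.conn x a + g) = -g := by abel
    rw [this]
    show ‖-g.1‖ ≤ δ
    rw [norm_neg, ContinuousMap.norm_le _ hδ0]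
    intro p
    refine (st.norm_bm_le _ _).trans ?_
    rw [← norm_neg, neg_sub]
    exact hδ
  · refine st.next.cst_isUnit _
      (fun e => (st.bm (xor e e0) U' 1).submatrix id (st.twE (xor e e0))) _ ?_ ?_ ?_
    · intro e i j h
      exact (st.bm_col _ _ _ _ h).trans (st.nextRc_tw _ j)
    · intro e
      have h := Matrix.submatrix_mul_equiv (st.bm (xor e e0) U 1) (st.bm (xor e e0) U' 1)
        (st.twE (xor e e0)) (Equiv.refl (st.I × st.K)) (st.twE (xor e e0))
      rw [Equiv.coe_refl] at h
      rw [h, st.bm_mul, hU1, one_mul, st.bm_one, Matrix.submatrix_one_equiv]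
    · intro e
      have h := Matrix.submatrix_mul_equiv (st.bm (xor e e0) U' 1) (st.bm (xor e e0) U 1)
        id (st.twE (xor e e0)) id
      rw [h, st.bm_mul, hU2, one_mul, st.bm_one, Matrix.submatrix_id_id]
  · refine st.next.cst_isUnit _
      (fun e => (st.bm (xor e e0) V' 1).submatrix (st.twE (xor e e0)) id) _ ?_ ?_ ?_
    · intro e i j h
      exact (st.nextRc_tw _ i).symm.trans (st.bm_col _ _ _ _ h)
    · intro e
      have h := Matrix.submatrix_mul_equiv (st.bm (xor e e0) V 1) (st.bm (xor e e0) V' 1)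
        id (st.twE (xor e e0)) id
      rw [h, st.bm_mul, hV1, one_mul, st.bm_one, Matrix.submatrix_id_id]
    · intro e
      have h := Matrix.submatrix_mul_equiv (st.bm (xor e e0) V' 1) (st.bm (xor e e0) V 1)
        (st.twE (xor e e0)) (Equiv.refl (st.I × st.K)) (st.twE (xor e e0))
      rw [Equiv.coe_refl] at h
      rw [h, st.bm_mul, hV2, one_mul, st.bm_one, Matrix.submatrix_one_equiv]
  · intro p j
    rcases j with ⟨j, k'⟩
    rw [hdiag, Matrix.submatrix_apply]
    show Matrix.blockDiagonal _ (st.root, Sum.inr (none, xor false (xor p.2 e0)))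
      (j, st.tw (xor p.2 e0) k') = 0
    rw [Bool.false_xor, Matrix.blockDiagonal_apply]
    simp only
    split_ifs
    · rw [hblk]; exact hrow j
    · rfl
  · intro p j
    rcases j with ⟨j, k'⟩
    rw [hdiag, Matrix.submatrix_apply]
    show Matrix.blockDiagonal _ (j, st.tw (xor p.2 e0) k')
      (st.root, Sum.inr (none, xor false (xor p.2 e0))) = 0
    rw [Bool.false_xor, Matrix.blockDiagonal_apply]
    simp only
    split_ifs with h
    · rw [h, hblk]; exact hcol j
    · rfl

end VB
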