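import Pool.Agent.VB.SrB
import Pool.Agent.VB.SrC

/-!
MODULE VB/SrL.  The limit algebra has stable rank one.

Proof.  Let `a0 ∈ L` and `δ > 0`; by density take `n`, `a ∈ BA n` with `‖D.ι n a - a0‖ < δ`.
If `a` is invertible, so is `D.ι n a`.  Otherwise some matrix `a.1 (z0, e0)` is singular (if all are invertible, the
pointwise inverse is continuous and equivariant, i.e. an inverse in the building block; alternatively use that a closed star
subalgebra is inverse closed: `StarSubalgebra.isUnit_coe_iff` or spectral permanence, and `ContinuousMap` units).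
By continuity there is a neighbourhood `U` of `z0` with `‖a.1 (y, e0) - a.1 (z0, e0)‖ < δ` for `y ∈ U`.  Let `m`, `y ∈ U`,
`V` be as in `hx`, `a' = iter (bconn x) h a ∈ BA m`, and `M0 = a'.1 (x m, e0) - V * (a.1 (y, e0) - a.1 (z0, e0)) * Vᴴ`.
Then `M0 * V = V * a.1 (z0, e0)`, so `M0` is singular (`a.1 (z0, e0) ξ = 0` with `ξ ≠ 0` gives `M0 (V ξ) = 0`, `V ξ ≠ 0`),
and `‖a'.1 (x m, e0) - M0‖ ≤ δ`.
`sr_cross` gives `b, u, v ∈ BA (m+1)` and `i0`; `sr_step` applied to `u * b * v` shows that
`bconn x (m+1) (u * b * v)` is in the closure of the invertibles of `BA (m+2)`; multiply with the invertible elements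
`bconn x (m+1) u⁻¹`, `bconn x (m+1) v⁻¹` on the two sides: `bconn x (m+1) b` is in the closure of the invertibles.
Apply `D.ι (m+2)` (continuous, unital homomorphism): `D.ι (m+1) b` is in the closure of the invertibles of `L`, and
`‖D.ι n a - D.ι (m+1) b‖ ≤ δ`.
-/

open scoped Matrix.Norms.L2Operator

namespace VB

theorem limit_sr1 (x : ∀ n, (stg n).X) (hx : GoodPts x) {L : Type} [CStarAlgebra L]
    (D : LimitData BA (bconn x) L) : StableRankOne L := by
  sorry

end VB
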