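import Pool.Agent.VB.SphMeas

/-!
Definitions for Theorem T (existence of common zeros of equivariant functions).
Nothing to prove here.
-/

open MeasureTheory

open scoped ComplexConjugate ENNReal

namespace VB

variable {S : Type} [Fintype S]

/-- The holomorphic monomial with exponents `p s`, `q s` at the two coordinates of the sphere with
index `s`. -/
noncomputable def mon (p q : S → ℕ) : C(S → S3, ℂ) where
  toFun z := ∏ s, coord 0 (z s) ^ p s * coord 1 (z s) ^ q s
  continuous_toFun := by
    refine continuous_finsetProd _ fun s _ => ?_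
    exact (((continuous_coord 0).comp (continuous_apply s)).pow _).mul
      (((continuous_coord 1).comp (continuous_apply s)).pow _)

theorem mon_apply (p q : S → ℕ) (z : S → S3) :
    mon p q z = ∏ s, coord 0 (z s) ^ p s * coord 1 (z s) ^ q s := rfl

/-- The span of the holomorphic monomials of multidegree `n`. -/
noncomputable def Hn (n : S → ℕ) : Submodule ℂ C(S → S3, ℂ) :=
  Submodule.span ℂ {f | ∃ p q : S → ℕ, (∀ s, p s + q s = n s) ∧ f = mon p q}

/-- The holomorphic polynomials. -/
noncomputable def Hol : Submodule ℂ C(S → S3, ℂ) :=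
  Submodule.span ℂ {f | ∃ p q : S → ℕ, f = mon p q}

theorem Hn_le_Hol (n : S → ℕ) : Hn n ≤ (Hol : Submodule ℂ C(S → S3, ℂ)) :=
  Submodule.span_mono fun _ ⟨p, q, _, h⟩ => ⟨p, q, h⟩

/-- The class of a continuous function in `L²`. -/
noncomputable def L2 (f : C(S → S3, ℂ)) : Lp ℂ 2 (nu S) :=
  ContinuousMap.toLp (E := ℂ) 2 (nu S) ℂ f

/-- The coordinate function with index `(s, j)`. -/
noncomputable def cf (s : S) (j : Fin 2) : C(S → S3, ℂ) where
  toFun z := coord j (z s)
  continuous_toFun := (continuous_coord j).comp (continuous_apply s)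

/-- The conjugate of the coordinate function with index `(s, j)`. -/
noncomputable def ccf (s : S) (j : Fin 2) : C(S → S3, ℂ) where
  toFun z := conj (coord j (z s))
  continuous_toFun := Complex.continuous_conj.comp ((continuous_coord j).comp (continuous_apply s))

/-- The Clifford sign. -/
noncomputable def sgn {B : Type} [DecidableEq B] (ord : B → ℕ) (β : B) (I : Finset B) : ℂ :=
  (-1) ^ ((I.filter fun γ => ord γ < ord β).card)

/-- The Clifford operator attached to the vector `c`, acting on functions on finite subsets. -/
noncomputable def cliff {B : Type} [Fintype B] [DecidableEq B] (ord : B → ℕ) (c : B → ℂ)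
    (ξ : Finset B → ℂ) (I : Finset B) : ℂ :=
  ∑ β, sgn ord β I * (if β ∈ I then c β else conj (c β)) * ξ (symmDiff I {β})

/-- The weight pattern of Theorem T, as a Boolean matrix: rows and spheres are both indexed by
`S ⊕ Fin r`; the row `s` has weight one at all spheres of the same color and at all spheres in
`Fin r`, the rows in `Fin r` have weight one exactly at the spheres in `Fin r`. -/
def MMb {S C : Type} [DecidableEq C] (col : S → C) (r : ℕ) : S ⊕ Fin r → S ⊕ Fin r → Bool
  | Sum.inl s, Sum.inl t => decide (col t = col s)
  | Sum.inl _, Sum.inr _ => true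
  | Sum.inr _, Sum.inl _ => false
  | Sum.inr _, Sum.inr _ => true

/-- The weight pattern of Theorem T. -/
def MM {S C : Type} [Fintype S] [DecidableEq C] (col : S → C) (r : ℕ) (β : S ⊕ Fin r) :
    Finset (S ⊕ Fin r) :=
  Finset.univ.filter fun t => MMb col r β t = true

end VB
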