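import Pool.Agent.VB.CDefs

/-!
MODULE VB/TrA.  Tracial functionals on a building block factor through the normalized trace.

Proof.  Write `E R = st.dg R`, `E_i` for the projection onto the row `i`, `r = st.root`.
`f = ∑ i j, E_i f E_j` and `τ (E_i f E_j) = τ (E_j E_i f) = 0` for `i ≠ j`, so `τ f = ∑ i, τ (E_i f E_i)`.
`E_i f E_i = h_i E_i` where `h_i (z, e) = f (z, e) i i` is an invariant scalar function (a scalar multiple of the
identity matrix in `st.Alg`, call it `H_i`).  For an invariant scalar function `H` and every row `i`: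
`τ (H E_i) = τ (H E_r)`: let `w_P (z, e) = gfun (rc i) P z • (matrix unit (i, r))`, `P : S → Fin 2`; it is in `st.Alg` because
`rc r = none`; `∑ P, w_P * star w_P = E_i`, `∑ P, star w_P * w_P = E_r` (`gfun_sq`), and
`τ (H E_i) = ∑ τ (H w_P star w_P) = ∑ τ (star w_P H w_P) = ∑ τ (H star w_P w_P) = τ (H E_r)`.
Hence `τ (H_i E_i) = τ (H_i E_r)` and `τ (H_i) = card I * τ (H_i E_r)`, so
`τ f = ∑ i, τ (H_i E_r) = ∑ i, (card I)⁻¹ τ (H_i) = τ ((card I)⁻¹ ∑ i, H_i) = τ (ntr f)`.
-/

open scoped Matrix.Norms.L2Operator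

namespace VB

/-- An invariant scalar function as an element of the building block. -/
noncomputable def Stage.scal (st : Stage) (h : C(st.X × Bool, ℂ))
    (hh : ∀ (l : st.S → Circle) (z : st.X) (e : Bool), h (act l z, e) = h (z, e)) : st.Alg :=
  ⟨⟨fun p => h p • (1 : Matrix st.I st.I ℂ), h.continuous.smul continuous_const⟩, by
    intro l z e i j
    show (h (act l z, e) • (1 : Matrix st.I st.I ℂ)) i j =
      _ * (h (z, e) • (1 : Matrix st.I st.I ℂ)) i j
    rw [hh]
    rcases eq_or_ne i j with hij | hij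
    · subst hij; simp
    · simp [Matrix.one_apply_ne hij]⟩

/-- The diagonal entry of an element, as a scalar element. -/
noncomputable def Stage.entry (st : Stage) (f : st.Alg) (i : st.I) : st.Alg :=
  st.scal ⟨fun p => f.1 p i i, f.1.continuous.matrix_elem i i⟩ (by
    intro l z e
    show f.1 (act l z, e) i i = f.1 (z, e) i i
    rw [f.2 l z e i i, div_self']
    simp)

/-- The elements `w_P`. -/
noncomputable def Stage.wel (st : Stage) (i : st.I) (P : st.S → Fin 2) : st.Alg :=
  ⟨⟨fun p => st.gfun (st.rc i) P p.1 • Matrix.single i st.root (1 : ℂ),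
    ((st.gfun (st.rc i) P).continuous.comp continuous_fst).smul continuous_const⟩, by
    intro l z e a b
    show (st.gfun (st.rc i) P (act l z) • Matrix.single i st.root (1 : ℂ)) a b =
      _ * (st.gfun (st.rc i) P z • Matrix.single i st.root (1 : ℂ)) a b
    rw [st.gfun_act]
    by_cases h : i = a ∧ st.root = b
    · obtain ⟨rfl, rfl⟩ := h
      rw [st.rc_root]
      simp [Stage.chi]
    · rw [Matrix.smul_apply, Matrix.smul_apply, Matrix.single_apply_of_ne _ _ _ _ _ h]
      simp⟩

theorem Stage.ext_entry (st : Stage) {f g : st.Alg}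
    (h : ∀ p i j, f.1 p i j = g.1 p i j) : f = g := by
  apply Subtype.ext
  ext p i j
  exact h p i j

theorem Stage.dg_apply (st : Stage) (R : st.I → Bool) (p : st.X × Bool) :
    (st.dg R).1 p = Matrix.diagonal fun i => if R i = true then (1 : ℂ) else 0 := rfl

theorem Stage.scal_apply (st : Stage) (h : C(st.X × Bool, ℂ)) (hh) (p : st.X × Bool) :
    (st.scal h hh).1 p = h p • (1 : Matrix st.I st.I ℂ) := rfl

theorem Stage.wel_apply (st : Stage) (i : st.I) (P : st.S → Fin 2) (p : st.X × Bool) :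
    (st.wel i P).1 p = st.gfun (st.rc i) P p.1 • Matrix.single i st.root (1 : ℂ) := rfl

/-- The projection onto one row. -/
noncomputable def Stage.Ei (st : Stage) (i : st.I) : st.Alg := st.dg (fun k => decide (k = i))

theorem Stage.mul_val (st : Stage) (f g : st.Alg) (p : st.X × Bool) :
    (f * g).1 p = f.1 p * g.1 p := rfl

theorem Stage.star_val (st : Stage) (f : st.Alg) (p : st.X × Bool) :
    (star f).1 p = (f.1 p).conjTranspose := rfl

theorem Stage.sum_val (st : Stage) {α : Type} (s : Finset α) (f : α → st.Alg) (p : st.X × Bool) :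
    (∑ i ∈ s, f i).1 p = ∑ i ∈ s, (f i).1 p := by
  classical
  induction s using Finset.induction_on with
  | empty => simp
  | insert a s ha ih =>
    rw [Finset.sum_insert ha, Finset.sum_insert ha, ← ih]
    rfl

theorem Stage.Ei_apply (st : Stage) (i : st.I) (p : st.X × Bool) :
    (st.Ei i).1 p = Matrix.single i i (1 : ℂ) := by
  rw [Stage.Ei, st.dg_apply]
  ext a b
  rw [Matrix.diagonal_apply, Matrix.single_apply]
  simp only [decide_eq_true_eq]
  by_cases hab : a = b
  · subst hab
    by_cases hi : a = i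
    · subst hi; simp
    · simp [hi, Ne.symm hi]
  · rw [if_neg hab, if_neg]
    rintro ⟨rfl, h⟩
    exact hab h

theorem Stage.sum_Ei (st : Stage) : ∑ i, st.Ei i = 1 := by
  apply Subtype.ext
  ext p : 1
  rw [st.sum_val]
  simp only [st.Ei_apply]
  show _ = (1 : Matrix st.I st.I ℂ)
  ext a b
  rw [Matrix.sum_apply]
  by_cases hab : a = b
  · subst hab
    rw [Finset.sum_eq_single a]
    · simp
    · intro c _ hc
      rw [Matrix.single_apply_of_row_ne hc]
    · simp
  · rw [Matrix.one_apply_ne hab]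
    refine Finset.sum_eq_zero fun c _ => ?_
    rw [Matrix.single_apply_of_ne]
    rintro ⟨rfl, h⟩
    exact hab h

theorem Stage.Ei_mul_Ei (st : Stage) {i j : st.I} (h : i ≠ j) : st.Ei i * st.Ei j = 0 := by
  apply Subtype.ext
  ext p : 1
  rw [st.mul_val, st.Ei_apply, st.Ei_apply]
  exact Matrix.single_mul_single_of_ne _ _ _ _ h _

theorem Stage.Ei_mul_mul (st : Stage) (f : st.Alg) (i : st.I) :
    st.Ei i * f * st.Ei i = st.entry f i * st.Ei i := by
  apply Subtype.ext
  ext p : 1
  rw [st.mul_val, st.mul_val, st.mul_val, st.Ei_apply, Stage.entry, st.scal_apply,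
    Matrix.single_mul_mul_single]
  simp [Matrix.smul_single]

theorem Stage.sum_wel (st : Stage) (i : st.I) : ∑ P, st.wel i P * star (st.wel i P) = st.Ei i := by
  apply Subtype.ext
  ext p : 1
  rw [st.sum_val, st.Ei_apply]
  have h : ∀ P, (st.wel i P * star (st.wel i P)).1 p =
      (((‖st.gfun (st.rc i) P p.1‖ ^ 2 : ℝ) : ℂ)) • Matrix.single i i (1 : ℂ) := by
    intro P
    rw [st.mul_val, st.star_val, st.wel_apply, Matrix.conjTranspose_smul, Matrix.smul_mul,
      Matrix.mul_smul, Matrix.conjTranspose_single, Matrix.single_mul_single_same, smul_smul]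
    congr 1
    · rw [RCLike.star_def, Complex.mul_conj, Complex.normSq_eq_norm_sq]
    · simp
  simp only [h]
  rw [← Finset.sum_smul, ← Complex.ofReal_sum, st.gfun_sq]
  simp

theorem Stage.sum_star_wel (st : Stage) (i : st.I) :
    ∑ P, star (st.wel i P) * st.wel i P = st.Ei st.root := by
  apply Subtype.ext
  ext p : 1
  rw [st.sum_val, st.Ei_apply]
  have h : ∀ P, (star (st.wel i P) * st.wel i P).1 p =
      (((‖st.gfun (st.rc i) P p.1‖ ^ 2 : ℝ) : ℂ)) • Matrix.single st.root st.root (1 : ℂ) := by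
    intro P
    rw [st.mul_val, st.star_val, st.wel_apply, Matrix.conjTranspose_smul, Matrix.smul_mul,
      Matrix.mul_smul, Matrix.conjTranspose_single, Matrix.single_mul_single_same, smul_smul]
    congr 1
    · rw [RCLike.star_def, mul_comm, Complex.mul_conj, Complex.normSq_eq_norm_sq]
    · simp
  simp only [h]
  rw [← Finset.sum_smul, ← Complex.ofReal_sum, st.gfun_sq]
  simp

theorem Stage.scal_comm (st : Stage) (h : C(st.X × Bool, ℂ)) (hh) (f : st.Alg) :
    st.scal h hh * f = f * st.scal h hh := by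
  apply Subtype.ext
  ext p : 1
  rw [st.mul_val, st.mul_val, st.scal_apply, Matrix.smul_mul, Matrix.mul_smul, Matrix.one_mul,
    Matrix.mul_one]

theorem Stage.trace_move (st : Stage) (τ : st.Alg →ₗ[ℂ] ℂ) (hτ : ∀ a b, τ (a * b) = τ (b * a))
    (h : C(st.X × Bool, ℂ)) (hh) (i : st.I) :
    τ (st.scal h hh * st.Ei i) = τ (st.scal h hh * st.Ei st.root) := by
  rw [← st.sum_wel i, ← st.sum_star_wel i, Finset.mul_sum, Finset.mul_sum, map_sum, map_sum]
  refine Finset.sum_congr rfl fun P _ => ?_
  rw [← mul_assoc, hτ, ← mul_assoc, ← st.scal_comm h hh (star (st.wel i P)), mul_assoc]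

theorem trace_eq_ntr (st : Stage) (τ : st.Alg →ₗ[ℂ] ℂ) (hτ : ∀ a b, τ (a * b) = τ (b * a))
    (f : st.Alg) : τ f = τ (st.ntr f) := by
  have h1 : τ f = ∑ i, τ (st.entry f i * st.Ei i) := by
    calc τ f = τ ((∑ i, st.Ei i) * f * (∑ j, st.Ei j)) := by
          rw [st.sum_Ei, one_mul, mul_one]
      _ = ∑ i, ∑ j, τ (st.Ei i * f * st.Ei j) := by
          rw [Finset.sum_mul, Finset.sum_mul, map_sum]
          refine Finset.sum_congr rfl fun i _ => ?_
          rw [Finset.mul_sum, map_sum]
      _ = ∑ i, τ (st.Ei i * f * st.Ei i) := by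
          refine Finset.sum_congr rfl fun i _ => Finset.sum_eq_single i (fun j _ hj => ?_) (by simp)
          rw [hτ, ← mul_assoc, st.Ei_mul_Ei hj, zero_mul, map_zero]
      _ = _ := by
          refine Finset.sum_congr rfl fun i _ => ?_
          rw [st.Ei_mul_mul]
  have h2 : ∀ i, τ (st.entry f i) = (Fintype.card st.I : ℂ) * τ (st.entry f i * st.Ei st.root) := by
    intro i
    calc τ (st.entry f i) = τ (st.entry f i * ∑ j, st.Ei j) := by rw [st.sum_Ei, mul_one]
      _ = ∑ j : st.I, τ (st.entry f i * st.Ei st.root) := by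
          rw [Finset.mul_sum, map_sum]
          exact Finset.sum_congr rfl fun j _ => st.trace_move τ hτ _ _ j
      _ = _ := by rw [Finset.sum_const, Finset.card_univ, nsmul_eq_mul]
  have hc : (Fintype.card st.I : ℂ) ≠ 0 := by
    have : Nonempty st.I := ⟨st.root⟩
    exact_mod_cast Fintype.card_ne_zero
  have h3 : st.ntr f = (Fintype.card st.I : ℂ)⁻¹ • ∑ i, st.entry f i := by
    apply Subtype.ext
    ext p : 1
    show ((Fintype.card st.I : ℂ)⁻¹ * (f.1 p).trace) • (1 : Matrix st.I st.I ℂ) =
      (Fintype.card st.I : ℂ)⁻¹ • (∑ i, st.entry f i).1 p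
    rw [st.sum_val, mul_smul]
    congr 1
    rw [Matrix.trace, Finset.sum_smul]
    rfl
  rw [h1, h3, map_smul, map_sum, smul_eq_mul, Finset.mul_sum]
  refine Finset.sum_congr rfl fun i _ => ?_
  rw [h2 i, ← mul_assoc, inv_mul_cancel₀ hc, one_mul]
  exact st.trace_move τ hτ _ _ i

end VB
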